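import Pool.Agent.Work.MP_1c1c8a_pr.Defs

/-! # Linear algebra, part 1 -/

namespace Pool.Agent.Eig

open MeasureTheory Filter Topology Matrix

section Lin

variable {n : ℕ} {T : Finset (Fin n)} {z : ℂ} {ω : Ent n}

namespace Lin1Aux

theorem cutM_symm (T : Finset (Fin n)) (ω : Ent n) (i j : Fin n) :
    cutM T ω i j = cutM T ω j i := by
  simp only [cutM, Matrix.of_apply]
  rw [Sym2.eq_swap (a := i) (b := j)]
  simp only [or_comm]

theorem cutM_conj (T : Finset (Fin n)) (ω : Ent n) (i j : Fin n) :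
    (starRingEnd ℂ) (cutM T ω i j) = cutM T ω i j := by
  simp only [cutM, Matrix.of_apply]
  split_ifs <;> simp

theorem isUnit_det (T : Finset (Fin n)) (ω : Ent n) (hz : z.im ≠ 0) :
    IsUnit (z • (1 : Matrix (Fin n) (Fin n) ℂ) - cutM T ω).det := by
  rw [isUnit_iff_ne_zero]
  intro h0
  obtain ⟨v, hv, hv0⟩ := (Matrix.exists_mulVec_eq_zero_iff).2 h0
  apply hv
  have h1 : ∀ i, z * v i = ∑ j, cutM T ω i j * v j := by
    intro i
    have := congrFun hv0 i
    rw [Matrix.sub_mulVec, Matrix.smul_mulVec, Matrix.one_mulVec] at this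
    simp only [Pi.sub_apply, Pi.smul_apply, smul_eq_mul, Pi.zero_apply, Matrix.mulVec,
      dotProduct] at this
    linear_combination this
  set S : ℂ := ∑ i, (starRingEnd ℂ) (v i) * ∑ j, cutM T ω i j * v j with hS
  have hSr : (starRingEnd ℂ) S = S := by
    rw [hS]
    simp only [map_sum, map_mul, Complex.conj_conj, cutM_conj, Finset.mul_sum]
    rw [Finset.sum_comm]
    refine Finset.sum_congr rfl fun i _ => Finset.sum_congr rfl fun j _ => ?_
    rw [cutM_symm T ω j i]
    ring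
  have h2 : z * ((∑ i, ‖v i‖ ^ 2 : ℝ) : ℂ) = S := by
    rw [hS]
    push_cast
    rw [Finset.mul_sum]
    refine Finset.sum_congr rfl fun i _ => ?_
    rw [← h1 i, ← Complex.mul_conj' (v i)]
    ring
  have h3 : S.im = 0 := Complex.conj_eq_iff_im.1 hSr
  have h4 : z.im * (∑ i, ‖v i‖ ^ 2 : ℝ) = 0 := by
    have := congrArg Complex.im h2
    rw [h3, Complex.mul_im, Complex.ofReal_im, Complex.ofReal_re, mul_zero, zero_add] at this
    exact this
  have h5 : (∑ i, ‖v i‖ ^ 2 : ℝ) = 0 := by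
    rcases mul_eq_zero.1 h4 with h | h
    · exact absurd h hz
    · exact h
  have h6 := (Finset.sum_eq_zero_iff_of_nonneg (fun i _ => sq_nonneg ‖v i‖)).1 h5
  funext i
  have := h6 i (Finset.mem_univ i)
  simpa using this

theorem inv_row (hz : z.im ≠ 0) {j k : Fin n} (hj : j ∈ T) (hk : k ∉ T) :
    ((z • (1 : Matrix (Fin n) (Fin n) ℂ) - cutM T ω)⁻¹) j k = 0 := by
  have h := Matrix.mul_nonsing_inv _ (isUnit_det T ω hz)
  have h1 := congrFun (congrFun h j) k
  rw [Matrix.mul_apply] at h1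
  have h2 : ∀ m, (z • (1 : Matrix (Fin n) (Fin n) ℂ) - cutM T ω) j m =
      z * (if j = m then 1 else 0) := by
    intro m
    simp [cutM, hj, Matrix.one_apply]
  simp only [h2] at h1
  have hjk : j ≠ k := fun e => hk (e ▸ hj)
  rw [Matrix.one_apply_ne hjk] at h1
  simp only [mul_assoc, ite_mul, one_mul, zero_mul, mul_ite, mul_zero, Finset.sum_ite_eq,
    Finset.mem_univ, if_true] at h1
  rcases mul_eq_zero.1 h1 with h | h
  · exact absurd (by rw [h]; rfl) hz
  · exact h

theorem Gr_eq_inv (hz : z.im ≠ 0) {j k : Fin n} (hk : k ∉ T) :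
    Gr T z ω j k = ((z • (1 : Matrix (Fin n) (Fin n) ℂ) - cutM T ω)⁻¹) j k := by
  by_cases hj : j ∈ T
  · rw [inv_row hz hj hk]
    simp [Gr, hj]
  · simp [Gr, hj, hk]

/-- resolvent equation -/
theorem res_eq (hz : z.im ≠ 0) {i k : Fin n} (hi : i ∉ T) :
    z * Gr T z ω i k - ∑ j, cutM T ω i j * Gr T z ω j k =
      if k ∈ T then 0 else if i = k then 1 else 0 := by
  by_cases hk : k ∈ T
  · simp [Gr, hk]
  rw [if_neg hk]
  have h := Matrix.mul_nonsing_inv _ (isUnit_det T ω hz)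
  have h1 := congrFun (congrFun h i) k
  rw [Matrix.mul_apply, Matrix.one_apply] at h1
  rw [← h1]
  simp only [Matrix.sub_apply, Matrix.smul_apply, smul_eq_mul, sub_mul]
  rw [Finset.sum_sub_distrib]
  congr 1
  · simp only [Matrix.one_apply, mul_ite, mul_one, mul_zero, ite_mul, zero_mul,
      Finset.sum_ite_eq, Finset.mem_univ, if_true]
    rw [Gr_eq_inv hz hk]
  · refine Finset.sum_congr rfl fun j _ => ?_
    rw [Gr_eq_inv hz hk]

theorem symm_inv (T : Finset (Fin n)) (z : ℂ) (ω : Ent n) (i j : Fin n) :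
    ((z • (1 : Matrix (Fin n) (Fin n) ℂ) - cutM T ω)⁻¹) i j =
      ((z • (1 : Matrix (Fin n) (Fin n) ℂ) - cutM T ω)⁻¹) j i := by
  have h : (z • (1 : Matrix (Fin n) (Fin n) ℂ) - cutM T ω)ᵀ =
      z • (1 : Matrix (Fin n) (Fin n) ℂ) - cutM T ω := by
    ext a b
    rw [Matrix.transpose_apply, Matrix.sub_apply, Matrix.sub_apply, Matrix.smul_apply,
      Matrix.smul_apply, cutM_symm T ω b a, Matrix.one_apply, Matrix.one_apply]
    simp only [eq_comm]
  have h2 := Matrix.transpose_nonsing_inv (z • (1 : Matrix (Fin n) (Fin n) ℂ) - cutM T ω)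
  rw [h] at h2
  have h3 := congrFun (congrFun h2 j) i
  rw [Matrix.transpose_apply] at h3
  exact h3

/-- the energy identity -/
theorem energy (hz : z.im ≠ 0) (v : Fin n → ℂ) :
    z.im * ∑ i, ‖∑ j, Gr T z ω i j * v j‖ ^ 2 =
      (∑ i, (starRingEnd ℂ) (∑ j, Gr T z ω i j * v j) * v i).im := by
  set u : Fin n → ℂ := fun i => ∑ j, Gr T z ω i j * v j with hu
  have hu0 : ∀ i ∈ T, u i = 0 := by
    intro i hi
    simp [hu, Gr, hi]
  have h1 : ∀ i, i ∉ T → z * u i - ∑ j, cutM T ω i j * u j = v i := by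
    intro i hi
    have e1 : z * u i - ∑ j, cutM T ω i j * u j =
        ∑ k, (z * Gr T z ω i k - ∑ j, cutM T ω i j * Gr T z ω j k) * v k := by
      simp only [hu, sub_mul, Finset.sum_sub_distrib, Finset.mul_sum, Finset.sum_mul]
      congr 1
      · exact Finset.sum_congr rfl fun k _ => by ring
      · rw [Finset.sum_comm]
        exact Finset.sum_congr rfl fun k _ => Finset.sum_congr rfl fun j _ => by ring
    rw [e1]
    simp only [res_eq hz hi]
    rw [Finset.sum_eq_single i]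
    · simp [hi]
    · intro b _ hb
      split_ifs with h1 h2
      · ring
      · exact absurd h2.symm hb
      · ring
    · intro h; exact absurd (Finset.mem_univ i) h
  set S : ℂ := ∑ i, (starRingEnd ℂ) (u i) * ∑ j, cutM T ω i j * u j with hS
  have hSr : (starRingEnd ℂ) S = S := by
    rw [hS]
    simp only [map_sum, map_mul, Complex.conj_conj, cutM_conj, Finset.mul_sum]
    rw [Finset.sum_comm]
    refine Finset.sum_congr rfl fun i _ => Finset.sum_congr rfl fun j _ => ?_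
    rw [cutM_symm T ω j i]
    ring
  have h3 : S.im = 0 := Complex.conj_eq_iff_im.1 hSr
  have h2 : z * ((∑ i, ‖u i‖ ^ 2 : ℝ) : ℂ) - S = ∑ i, (starRingEnd ℂ) (u i) * v i := by
    rw [hS]
    push_cast
    rw [Finset.mul_sum, ← Finset.sum_sub_distrib]
    refine Finset.sum_congr rfl fun i _ => ?_
    by_cases hi : i ∈ T
    · simp [hu0 i hi]
    · rw [← h1 i hi, ← Complex.mul_conj' (u i)]
      ring
  have h4 := congrArg Complex.im h2
  rw [Complex.sub_im, h3, sub_zero, Complex.mul_im, Complex.ofReal_im, Complex.ofReal_re,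
    mul_zero, zero_add] at h4
  exact h4

end Lin1Aux

open Lin1Aux

theorem Gr_symm (i j : Fin n) : Gr T z ω i j = Gr T z ω j i := by
  simp only [Gr, Matrix.of_apply]
  rw [symm_inv T z ω i j]
  simp only [or_comm]

theorem Gr_zero_left {i : Fin n} (hi : i ∈ T) (j : Fin n) : Gr T z ω i j = 0 := by
  simp [Gr, hi]

theorem Gr_conj (i j : Fin n) :
    Gr T ((starRingEnd ℂ) z) ω i j = (starRingEnd ℂ) (Gr T z ω i j) := by
  simp only [Gr, Matrix.of_apply]
  split_ifs with h
  · simp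
  have h1 : ((starRingEnd ℂ) z • (1 : Matrix (Fin n) (Fin n) ℂ) - cutM T ω) =
      (z • (1 : Matrix (Fin n) (Fin n) ℂ) - cutM T ω)ᴴ := by
    ext a b
    rw [Matrix.conjTranspose_apply, Matrix.sub_apply, Matrix.sub_apply, Matrix.smul_apply,
      Matrix.smul_apply, cutM_symm T ω b a, star_sub, Matrix.one_apply, Matrix.one_apply]
    have e1 : star (cutM T ω a b) = cutM T ω a b := cutM_conj T ω a b
    rw [e1]
    by_cases hab : a = b
    · subst hab
      simp
    · simp [hab, Ne.symm hab]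
  rw [h1, ← Matrix.conjTranspose_nonsing_inv, Matrix.conjTranspose_apply, symm_inv T z ω j i]
  rfl

/-- `Gr T` depends only on the entries outside the rows and columns of `T`. -/
theorem Gr_off {ω' : Ent n} (h : ∀ e : Sym2 (Fin n), (∀ i ∈ T, i ∉ e) → ω e = ω' e) :
    Gr T z ω = Gr T z ω' := by
  have h1 : cutM T ω = cutM T ω' := by
    ext a b
    simp only [cutM, Matrix.of_apply]
    split_ifs with hab
    · rfl
    · push Not at hab
      rw [h s(a, b)]
      intro i hi hmem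
      rw [Sym2.mem_iff] at hmem
      rcases hmem with rfl | rfl
      · exact hab.1 hi
      · exact hab.2 hi
  unfold Gr
  rw [h1]

theorem Gr_continuous (hz : z.im ≠ 0) (i j : Fin n) :
    Continuous (fun ω : Ent n => Gr T z ω i j) := by
  simp only [Gr, Matrix.of_apply]
  by_cases h : i ∈ T ∨ j ∈ T
  · simp only [h, if_true]
    exact continuous_const
  simp only [h, if_false]
  have hc : Continuous (fun ω : Ent n => z • (1 : Matrix (Fin n) (Fin n) ℂ) - cutM T ω) := by
    refine continuous_const.sub ?_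
    refine continuous_matrix fun a b => ?_
    simp only [cutM, Matrix.of_apply]
    by_cases hab : a ∈ T ∨ b ∈ T
    · simp only [hab, if_true]
      exact continuous_const
    · simp only [hab, if_false]
      exact Complex.continuous_ofReal.comp (continuous_apply _)
  have h2 : ∀ ω : Ent n, ((z • (1 : Matrix (Fin n) (Fin n) ℂ) - cutM T ω)⁻¹) i j =
      ((z • (1 : Matrix (Fin n) (Fin n) ℂ) - cutM T ω).det)⁻¹ *
        (z • (1 : Matrix (Fin n) (Fin n) ℂ) - cutM T ω).adjugate i j := by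
    intro ω
    rw [Matrix.inv_def, Ring.inverse_eq_inv', Matrix.smul_apply, smul_eq_mul]
  simp only [h2]
  refine Continuous.mul ?_ ?_
  · exact (hc.matrix_det).inv₀ fun ω => (isUnit_det T ω hz).ne_zero
  · exact (hc.matrix_adjugate).matrix_elem i j

theorem Gr_op (hz : z.im ≠ 0) (v : Fin n → ℂ) :
    ∑ i, ‖∑ j, Gr T z ω i j * v j‖ ^ 2 ≤ (z.im ^ 2)⁻¹ * ∑ j, ‖v j‖ ^ 2 := by
  have h1 := energy (T := T) (ω := ω) hz v
  set u : Fin n → ℂ := fun i => ∑ j, Gr T z ω i j * v j with hu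
  set A : ℝ := ∑ i, ‖u i‖ ^ 2 with hA
  set B : ℝ := ∑ j, ‖v j‖ ^ 2 with hB
  have hA0 : 0 ≤ A := Finset.sum_nonneg fun i _ => sq_nonneg _
  have hB0 : 0 ≤ B := Finset.sum_nonneg fun i _ => sq_nonneg _
  have h2 : |z.im * A| ≤ ∑ i, ‖u i‖ * ‖v i‖ := by
    rw [h1]
    refine (Complex.abs_im_le_norm _).trans ?_
    refine (norm_sum_le _ _).trans ?_
    refine Finset.sum_le_sum fun i _ => ?_
    rw [norm_mul, RCLike.norm_conj]
  have h3 : (∑ i, ‖u i‖ * ‖v i‖) ^ 2 ≤ A * B := Finset.sum_mul_sq_le_sq_mul_sq _ _ _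
  have h4 : (z.im * A) ^ 2 ≤ A * B := by
    refine le_trans ?_ h3
    rw [← sq_abs]
    exact pow_le_pow_left₀ (abs_nonneg _) h2 2
  have hz2 : 0 < z.im ^ 2 := by positivity
  rcases hA0.eq_or_lt with hA1 | hA1
  · rw [← hA1]; positivity
  · have h5 : z.im ^ 2 * A ≤ B := by
      have : A * (z.im ^ 2 * A) ≤ A * B := by nlinarith
      exact le_of_mul_le_mul_left this hA1
    rw [inv_mul_eq_div, le_div_iff₀ hz2]
    linarith

theorem Lin1Aux.Gr_col_le (hz : z.im ≠ 0) (j : Fin n) : ∑ i, ‖Gr T z ω i j‖ ^ 2 ≤ (z.im ^ 2)⁻¹ := by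
  have h := Gr_op (T := T) (ω := ω) hz (fun k => if k = j then 1 else 0)
  simp only [mul_ite, mul_one, mul_zero, Finset.sum_ite_eq', Finset.mem_univ, if_true] at h
  refine h.trans (le_of_eq ?_)
  rw [Finset.sum_eq_single j]
  · simp
  · intro b _ hb
    simp [hb]
  · intro h; exact absurd (Finset.mem_univ j) h

theorem Gr_le (hz : z.im ≠ 0) (i j : Fin n) : ‖Gr T z ω i j‖ ≤ |z.im|⁻¹ := by
  have h := Gr_col_le (T := T) (ω := ω) hz j
  have h1 : ‖Gr T z ω i j‖ ^ 2 ≤ (z.im ^ 2)⁻¹ :=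
    (Finset.single_le_sum (f := fun i => ‖Gr T z ω i j‖ ^ 2) (fun i _ => sq_nonneg _)
      (Finset.mem_univ i)).trans h
  have h2 : ‖Gr T z ω i j‖ ^ 2 ≤ (|z.im|⁻¹) ^ 2 := by
    rw [inv_pow, sq_abs]; exact h1
  exact (pow_le_pow_iff_left₀ (norm_nonneg _) (by positivity) two_ne_zero).1 h2

theorem NN_le (hz : z.im ≠ 0) : NN T z ω ≤ n * (z.im ^ 2)⁻¹ := by
  unfold NN
  rw [Finset.sum_comm]
  refine (Finset.sum_le_sum fun j _ => Gr_col_le hz j).trans (le_of_eq ?_)
  simp

theorem ward (hz : z.im ≠ 0) {i : Fin n} (hi : i ∉ T) :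
    ∑ k, ‖Gr T z ω i k‖ ^ 2 = -(Gr T z ω i i).im / z.im := by
  have h := energy (T := T) (ω := ω) hz (fun k => if k = i then 1 else 0)
  simp only [mul_ite, mul_one, mul_zero, Finset.sum_ite_eq', Finset.mem_univ, if_true,
    Complex.conj_im] at h
  have h2 : ∑ k, ‖Gr T z ω i k‖ ^ 2 = ∑ k, ‖Gr T z ω k i‖ ^ 2 :=
    Finset.sum_congr rfl fun k _ => by rw [Gr_symm i k]
  rw [h2, eq_div_iff hz, mul_comm]
  exact h

theorem st_im (hz : z.im ≠ 0) : (st T z ω).im = -z.im * NN T z ω := by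
  unfold st NN
  rw [Complex.im_sum, Finset.mul_sum]
  refine Finset.sum_congr rfl fun i _ => ?_
  by_cases hi : i ∈ T
  · simp [Gr, hi]
  · rw [ward hz hi]
    field_simp

end Lin

end Pool.Agent.Eig
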