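import Pool.Agent.Work.MP_1c1c8a_pr.Mix
import Pool.Agent.Work.MP_1c1c8a_pr.Lin1

/-! # Continuity, polynomial growth and integrability of the basic random variables

`PB F` says that `F` is continuous with polynomial growth; it is stable under sums, products,
norms, powers, and implies integrability.  `PBP` is the same for pairs. -/

namespace Pool.Agent.Eig

open MeasureTheory Filter Topology Matrix

/-- Continuous and bounded by a power of the weight `W`. -/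
def PBW {α : Type} [TopologicalSpace α] {G : Type} [NormedAddCommGroup G] (W : α → ℝ)
    (F : α → G) : Prop :=
  Continuous F ∧ (∀ ω, 1 ≤ W ω) ∧ ∃ (C : ℝ) (p : ℕ), 0 ≤ C ∧ ∀ ω, ‖F ω‖ ≤ C * (W ω) ^ p

section PBW

variable {α : Type} [TopologicalSpace α] {W : α → ℝ}

theorem PBW.cont {G : Type} [NormedAddCommGroup G] {F : α → G} (h : PBW W F) : Continuous F := h.1

theorem PBW.const {G : Type} [NormedAddCommGroup G] (hW : ∀ ω, 1 ≤ W ω) (c : G) :
    PBW W (fun _ => c) :=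
  ⟨continuous_const, hW, ‖c‖, 0, norm_nonneg _, fun ω => by simp⟩

theorem PBW.mono_exp {G : Type} [NormedAddCommGroup G] {F : α → G} {C : ℝ} {p q : ℕ}
    (hW : ∀ ω, 1 ≤ W ω) (hC : 0 ≤ C) (h : ∀ ω, ‖F ω‖ ≤ C * (W ω) ^ p) (hpq : p ≤ q) :
    ∀ ω, ‖F ω‖ ≤ C * (W ω) ^ q := fun ω =>
  (h ω).trans (mul_le_mul_of_nonneg_left (pow_le_pow_right₀ (hW ω) hpq) hC)

theorem PBW.add {G : Type} [NormedAddCommGroup G] {F H : α → G} (h : PBW W F) (h' : PBW W H) :
    PBW W (fun ω => F ω + H ω) := by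
  obtain ⟨hc, hW, C, p, hC, hb⟩ := h
  obtain ⟨hc', -, C', p', hC', hb'⟩ := h'
  refine ⟨hc.add hc', hW, C + C', max p p', by positivity, fun ω => ?_⟩
  have h1 := PBW.mono_exp hW hC hb (le_max_left p p') ω
  have h2 := PBW.mono_exp hW hC' hb' (le_max_right p p') ω
  calc ‖F ω + H ω‖ ≤ ‖F ω‖ + ‖H ω‖ := norm_add_le _ _
    _ ≤ C * (W ω) ^ max p p' + C' * (W ω) ^ max p p' := add_le_add h1 h2
    _ = _ := by ring

theorem PBW.neg {G : Type} [NormedAddCommGroup G] {F : α → G} (h : PBW W F) :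
    PBW W (fun ω => - F ω) := by
  obtain ⟨hc, hW, C, p, hC, hb⟩ := h
  exact ⟨hc.neg, hW, C, p, hC, fun ω => by simpa using hb ω⟩

theorem PBW.sub {G : Type} [NormedAddCommGroup G] {F H : α → G} (h : PBW W F) (h' : PBW W H) :
    PBW W (fun ω => F ω - H ω) := by
  simpa [sub_eq_add_neg] using h.add h'.neg

theorem PBW.mul {R : Type} [NormedRing R] {F H : α → R} (h : PBW W F) (h' : PBW W H) :
    PBW W (fun ω => F ω * H ω) := by
  obtain ⟨hc, hW, C, p, hC, hb⟩ := h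
  obtain ⟨hc', -, C', p', hC', hb'⟩ := h'
  refine ⟨hc.mul hc', hW, C * C', p + p', by positivity, fun ω => ?_⟩
  calc ‖F ω * H ω‖ ≤ ‖F ω‖ * ‖H ω‖ := norm_mul_le _ _
    _ ≤ (C * (W ω) ^ p) * (C' * (W ω) ^ p') :=
        mul_le_mul (hb ω) (hb' ω) (norm_nonneg _) ((norm_nonneg _).trans (hb ω))
    _ = _ := by ring

theorem PBW.pow {F : α → ℝ} (h : PBW W F) (k : ℕ) : PBW W (fun ω => F ω ^ k) := by
  induction k with
  | zero => simpa using PBW.const h.2.1 (1 : ℝ)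
  | succ k ih => simpa [pow_succ] using ih.mul h

theorem PBW.cpow {F : α → ℂ} (h : PBW W F) (k : ℕ) : PBW W (fun ω => F ω ^ k) := by
  induction k with
  | zero => simpa using PBW.const h.2.1 (1 : ℂ)
  | succ k ih => simpa [pow_succ] using ih.mul h

theorem PBW.norm {G : Type} [NormedAddCommGroup G] {F : α → G} (h : PBW W F) :
    PBW W (fun ω => ‖F ω‖) := by
  obtain ⟨hc, hW, C, p, hC, hb⟩ := h
  exact ⟨hc.norm, hW, C, p, hC, fun ω => by simpa using hb ω⟩

theorem PBW.sum {ι : Type} {G : Type} [NormedAddCommGroup G] (hW : ∀ ω, 1 ≤ W ω)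
    (s : Finset ι) {F : ι → α → G} (h : ∀ i ∈ s, PBW W (F i)) :
    PBW W (fun ω => ∑ i ∈ s, F i ω) := by
  classical
  induction s using Finset.induction_on with
  | empty => simpa using PBW.const hW (0 : G)
  | insert a s ha ih =>
    have h1 := h a (Finset.mem_insert_self a s)
    have h2 := ih (fun i hi => h i (Finset.mem_insert_of_mem hi))
    have h3 := h1.add h2
    have h4 : (fun ω => ∑ i ∈ insert a s, F i ω) = fun ω => F a ω + ∑ i ∈ s, F i ω := by
      funext ω; rw [Finset.sum_insert ha]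
    rw [h4]; exact h3

theorem PBW.ofReal {F : α → ℝ} (h : PBW W F) : PBW W (fun ω => ((F ω : ℝ) : ℂ)) := by
  obtain ⟨hc, hW, C, p, hC, hb⟩ := h
  exact ⟨Complex.continuous_ofReal.comp hc, hW, C, p, hC, fun ω => by
    simpa using hb ω⟩

theorem PBW.conj {F : α → ℂ} (h : PBW W F) : PBW W (fun ω => (starRingEnd ℂ) (F ω)) := by
  obtain ⟨hc, hW, C, p, hC, hb⟩ := h
  exact ⟨Complex.continuous_conj.comp hc, hW, C, p, hC, fun ω => by
    simpa using hb ω⟩

theorem PBW.re {F : α → ℂ} (h : PBW W F) : PBW W (fun ω => (F ω).re) := by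
  obtain ⟨hc, hW, C, p, hC, hb⟩ := h
  exact ⟨Complex.continuous_re.comp hc, hW, C, p, hC, fun ω =>
    (Complex.abs_re_le_norm _).trans (hb ω)⟩

theorem PBW.im {F : α → ℂ} (h : PBW W F) : PBW W (fun ω => (F ω).im) := by
  obtain ⟨hc, hW, C, p, hC, hb⟩ := h
  exact ⟨Complex.continuous_im.comp hc, hW, C, p, hC, fun ω =>
    (Complex.abs_im_le_norm _).trans (hb ω)⟩

/-- A continuous bounded function. -/
theorem PBW.of_bdd {G : Type} [NormedAddCommGroup G] (hW : ∀ ω, 1 ≤ W ω) {F : α → G}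
    (hF : Continuous F) (C : ℝ) (h : ∀ ω, ‖F ω‖ ≤ C) : PBW W F := by
  refine ⟨hF, hW, |C|, 0, abs_nonneg _, fun ω => ?_⟩
  simpa using (h ω).trans (le_abs_self C)

end PBW

section Ent

variable {n : ℕ}

/-- The weight. -/
noncomputable def wt (ω : Ent n) : ℝ := 1 + ∑ e, |ω e|

/-- The weight for pairs. -/
noncomputable def wtp (p : Sym2 (Fin n) → ℝ × ℝ) : ℝ := 1 + ∑ e, (|fX p e| + |fY p e|)

theorem one_le_wt (ω : Ent n) : 1 ≤ wt ω := by
  have : 0 ≤ ∑ e, |ω e| := Finset.sum_nonneg fun _ _ => abs_nonneg _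
  unfold wt; linarith

theorem one_le_wtp (p : Sym2 (Fin n) → ℝ × ℝ) : 1 ≤ wtp p := by
  have : 0 ≤ ∑ e, (|fX p e| + |fY p e|) := Finset.sum_nonneg fun _ _ => by positivity
  unfold wtp; linarith

/-- Continuous with polynomial growth. -/
abbrev PB {G : Type} [NormedAddCommGroup G] (F : Ent n → G) : Prop := PBW wt F

/-- Continuous with polynomial growth (pairs). -/
abbrev PBP {G : Type} [NormedAddCommGroup G] (F : (Sym2 (Fin n) → ℝ × ℝ) → G) : Prop :=
  PBW wtp F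

theorem PB.integrable {b : ℝ} {μ : Sym2 (Fin n) → Measure ℝ} (hμ : ∀ e, GoodLaw b (μ e))
    {G : Type} [NormedAddCommGroup G] [NormedSpace ℝ G] {F : Ent n → G}
    (h : PB F) (hF : AEStronglyMeasurable F (Measure.pi μ)) : Integrable F (Measure.pi μ) := by
  obtain ⟨hc, hW, C, p, hC, hb⟩ := h
  exact integrable_poly hμ F hF C p hb

/-- Real version. -/
theorem PB.int {b : ℝ} {μ : Sym2 (Fin n) → Measure ℝ} (hμ : ∀ e, GoodLaw b (μ e))
    {F : Ent n → ℝ} (h : PB F) : Integrable F (Measure.pi μ) :=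
  PB.integrable hμ h h.1.aestronglyMeasurable

/-- Complex version. -/
theorem PB.intC {b : ℝ} {μ : Sym2 (Fin n) → Measure ℝ} (hμ : ∀ e, GoodLaw b (μ e))
    {F : Ent n → ℂ} (h : PB F) : Integrable F (Measure.pi μ) :=
  PB.integrable hμ h h.1.aestronglyMeasurable

theorem PBP.integrable {b : ℝ} {σ : Sym2 (Fin n) → ℝ} {ν : Sym2 (Fin n) → Measure (ℝ × ℝ)}
    (hν : ∀ e, GoodPair b (σ e) (ν e))
    {G : Type} [NormedAddCommGroup G] [NormedSpace ℝ G] {F : (Sym2 (Fin n) → ℝ × ℝ) → G}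
    (h : PBP F) (hF : AEStronglyMeasurable F (Measure.pi ν)) : Integrable F (Measure.pi ν) := by
  obtain ⟨hc, hW, C, p, hC, hb⟩ := h
  exact integrable_poly_pair hν F hF C p hb

theorem PBP.int {b : ℝ} {σ : Sym2 (Fin n) → ℝ} {ν : Sym2 (Fin n) → Measure (ℝ × ℝ)}
    (hν : ∀ e, GoodPair b (σ e) (ν e)) {F : (Sym2 (Fin n) → ℝ × ℝ) → ℝ}
    (h : PBP F) : Integrable F (Measure.pi ν) :=
  PBP.integrable hν h h.1.aestronglyMeasurable

theorem PBP.intC {b : ℝ} {σ : Sym2 (Fin n) → ℝ} {ν : Sym2 (Fin n) → Measure (ℝ × ℝ)}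
    (hν : ∀ e, GoodPair b (σ e) (ν e)) {F : (Sym2 (Fin n) → ℝ × ℝ) → ℂ}
    (h : PBP F) : Integrable F (Measure.pi ν) :=
  PBP.integrable hν h h.1.aestronglyMeasurable

theorem continuous_fX : Continuous (fX : (Sym2 (Fin n) → ℝ × ℝ) → Ent n) :=
  continuous_pi fun e => continuous_fst.comp (continuous_apply e)

theorem continuous_fY : Continuous (fY : (Sym2 (Fin n) → ℝ × ℝ) → Ent n) :=
  continuous_pi fun e => continuous_snd.comp (continuous_apply e)

theorem PB.comp_fX {G : Type} [NormedAddCommGroup G] {F : Ent n → G} (h : PB F) :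
    PBP (fun p => F (fX p)) := by
  obtain ⟨hc, hW, C, p, hC, hb⟩ := h
  refine ⟨hc.comp continuous_fX, one_le_wtp, C, p, hC, fun q => (hb _).trans ?_⟩
  refine mul_le_mul_of_nonneg_left (pow_le_pow_left₀ (by linarith [one_le_wt (fX q)]) ?_ _) hC
  unfold wt wtp
  gcongr with e
  linarith [abs_nonneg (fY q e)]

theorem PB.comp_fY {G : Type} [NormedAddCommGroup G] {F : Ent n → G} (h : PB F) :
    PBP (fun p => F (fY p)) := by
  obtain ⟨hc, hW, C, p, hC, hb⟩ := h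
  refine ⟨hc.comp continuous_fY, one_le_wtp, C, p, hC, fun q => (hb _).trans ?_⟩
  refine mul_le_mul_of_nonneg_left (pow_le_pow_left₀ (by linarith [one_le_wt (fY q)]) ?_ _) hC
  unfold wt wtp
  gcongr with e
  linarith [abs_nonneg (fX q e)]

theorem continuous_mixR {E : Type} [TopologicalSpace E] (A : Finset (Fin n))
    (ω : Sym2 (Fin n) → E) : Continuous (fun x => mixR A ω x) := by
  refine continuous_pi fun e => ?_
  unfold mixR
  by_cases h : ∃ i ∈ A, i ∈ e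
  · simpa [h] using continuous_apply e
  · simpa [h] using continuous_const

/-- The mixed version (in the second argument) is again of polynomial growth. -/
theorem PB.mix {G : Type} [NormedAddCommGroup G] {F : Ent n → G} (h : PB F)
    (A : Finset (Fin n)) (ω : Ent n) : PB (fun x => F (mixR A ω x)) := by
  obtain ⟨hc, hW, C, p, hC, hb⟩ := h
  refine ⟨hc.comp (continuous_mixR A ω), one_le_wt, C * (wt ω) ^ p, p,
    mul_nonneg hC (pow_nonneg (by linarith [one_le_wt ω]) _), fun x => (hb _).trans ?_⟩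
  have h1 : wt (mixR A ω x) ≤ wt ω * wt x := by
    have h2 : wt (mixR A ω x) ≤ 1 + ∑ e, (|ω e| + |x e|) := by
      unfold wt
      gcongr with e
      unfold mixR
      by_cases h : ∃ i ∈ A, i ∈ e
      · simp [h]
      · simp [h]
    have h3 : 0 ≤ ∑ e, |ω e| := Finset.sum_nonneg fun _ _ => abs_nonneg _
    have h4 : 0 ≤ ∑ e, |x e| := Finset.sum_nonneg fun _ _ => abs_nonneg _
    rw [Finset.sum_add_distrib] at h2
    unfold wt at h2 ⊢
    nlinarith
  calc C * wt (mixR A ω x) ^ p ≤ C * (wt ω * wt x) ^ p :=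
        mul_le_mul_of_nonneg_left (pow_le_pow_left₀ (by linarith [one_le_wt (mixR A ω x)]) h1 _) hC
    _ = C * (wt ω) ^ p * (wt x) ^ p := by rw [mul_pow]; ring

theorem PB.entry (e : Sym2 (Fin n)) : PB (fun ω : Ent n => ω e) := by
  refine ⟨continuous_apply e, one_le_wt, 1, 1, zero_le_one, fun ω => ?_⟩
  have : |ω e| ≤ ∑ e, |ω e| :=
    Finset.single_le_sum (f := fun e => |ω e|) (fun _ _ => abs_nonneg _) (Finset.mem_univ e)
  simp only [Real.norm_eq_abs, pow_one, one_mul]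
  unfold wt; linarith

theorem PB.entryC (e : Sym2 (Fin n)) : PB (fun ω : Ent n => ((ω e : ℝ) : ℂ)) :=
  (PB.entry e).ofReal

variable {T : Finset (Fin n)} {z w : ℂ}

theorem PB.Gr (hz : z.im ≠ 0) (i j : Fin n) : PB (fun ω : Ent n => Gr T z ω i j) :=
  PBW.of_bdd one_le_wt (Gr_continuous hz i j) |z.im|⁻¹ (fun _ => Gr_le hz i j)

theorem PB.st (hz : z.im ≠ 0) : PB (fun ω : Ent n => st T z ω) :=
  PBW.sum one_le_wt _ fun _ _ => PB.Gr hz _ _

theorem PB.NN (hz : z.im ≠ 0) : PB (fun ω : Ent n => NN T z ω) :=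
  PBW.sum one_le_wt _ fun _ _ => PBW.sum one_le_wt _ fun _ _ => (PB.Gr hz _ _).norm.pow 2

theorem PB.xi (hz : z.im ≠ 0) (i : Fin n) : PB (fun ω : Ent n => xi T z i ω) :=
  ((PB.entryC _).add (PBW.sum one_le_wt _ fun _ _ => PBW.sum one_le_wt _ fun _ _ =>
    ((PB.entryC _).mul (PB.Gr hz _ _)).mul (PB.entryC _))).sub (PB.st hz)

theorem PB.av (hz : z.im ≠ 0) (i k : Fin n) : PB (fun ω : Ent n => av T z i ω k) :=
  (PBW.const one_le_wt _).add (PBW.sum one_le_wt _ fun _ _ => (PB.Gr hz _ _).mul (PB.entryC _))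

theorem PB.bb (hz : z.im ≠ 0) (i j : Fin n) : PB (fun ω : Ent n => bb z i j ω) :=
  (PB.entryC _).add (PBW.sum one_le_wt _ fun _ _ => PBW.sum one_le_wt _ fun _ _ =>
    ((PB.entryC _).mul (PB.Gr hz _ _)).mul (PB.entryC _))

theorem NN_nonneg (ω : Ent n) : 0 ≤ NN T z ω :=
  Finset.sum_nonneg fun _ _ => Finset.sum_nonneg fun _ _ => by positivity

/-- `|z - s| ≥ |Im z|`. -/
theorem im_le_norm_sub_st (hz : z.im ≠ 0) (ω : Ent n) : |z.im| ≤ ‖z - st T z ω‖ := by
  have h1 : (z - st T z ω).im = z.im * (1 + NN T z ω) := by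
    rw [Complex.sub_im, st_im hz]; ring
  have h2 : |z.im| ≤ |(z - st T z ω).im| := by
    rw [h1, abs_mul, abs_of_nonneg (a := 1 + NN T z ω) (by linarith [NN_nonneg (T := T) (z := z) ω])]
    nlinarith [abs_nonneg z.im, NN_nonneg (T := T) (z := z) ω]
  exact h2.trans (Complex.abs_im_le_norm _)

theorem sub_st_ne (hz : z.im ≠ 0) (ω : Ent n) : z - st T z ω ≠ 0 := by
  have h := im_le_norm_sub_st (T := T) hz ω
  have h2 : 0 < |z.im| := abs_pos.mpr hz
  exact norm_pos_iff.mp (h2.trans_le h)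

theorem norm_inv_sub_st_le (hz : z.im ≠ 0) (ω : Ent n) : ‖(z - st T z ω)⁻¹‖ ≤ |z.im|⁻¹ := by
  rw [norm_inv]
  exact inv_anti₀ (abs_pos.mpr hz) (im_le_norm_sub_st hz ω)

theorem PB.inv_sub_st (hz : z.im ≠ 0) : PB (fun ω : Ent n => (z - Pool.Agent.Eig.st T z ω)⁻¹) :=
  PBW.of_bdd one_le_wt ((continuous_const.sub (PB.st hz).1).inv₀ (sub_st_ne hz)) |z.im|⁻¹
    (norm_inv_sub_st_le hz)

theorem PB.Yv (hz : z.im ≠ 0) (i : Fin n) : PB (fun ω : Ent n => Yv T z i ω) :=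
  (PB.inv_sub_st hz).mul (PB.xi hz i)

theorem PB.EE (hz : z.im ≠ 0) : PB (fun ω : Ent n => EE z ω) :=
  ((PB.st hz).mul ((PBW.const one_le_wt _).sub (PB.st hz))).sub (PBW.const one_le_wt _)

theorem PBP.AA (hz : z.im ≠ 0) (hw : w.im ≠ 0) (i j : Fin n) :
    PBP (fun p : Sym2 (Fin n) → ℝ × ℝ => AA T z w p i j) := by
  have h : (fun p : Sym2 (Fin n) → ℝ × ℝ => Pool.Agent.Eig.AA T z w p i j) =
      fun p => ∑ k, Pool.Agent.Eig.Gr T z (fX p) i k * Pool.Agent.Eig.Gr T w (fY p) k j := by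
    funext p; simp [Pool.Agent.Eig.AA, Matrix.mul_apply]
  rw [h]
  exact PBW.sum one_le_wtp _ fun k _ => (PB.Gr hz i k).comp_fX.mul (PB.Gr hw k j).comp_fY

theorem PBP.uu (hz : z.im ≠ 0) (hw : w.im ≠ 0) (i : Fin n) :
    PBP (fun p : Sym2 (Fin n) → ℝ × ℝ => uu z w i p) :=
  PBW.sum one_le_wtp _ fun _ _ => PBW.sum one_le_wtp _ fun _ _ =>
    ((PB.entryC _).comp_fX.mul (PBP.AA hz hw _ _)).mul (PB.entryC _).comp_fY

end Ent

end Pool.Agent.Eig
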