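import Pool.Agent.Work.MP_1c1c8a_pr.RowMom
import Pool.Agent.Work.MP_1c1c8a_pr.Meas

/-! # Probability of the good event -/

namespace Pool.Agent.Eig

open MeasureTheory Filter Topology Matrix

namespace GoodProbAux

variable {n : ℕ}

lemma NN_off {T : Finset (Fin n)} {z : ℂ} {i : Fin n} :
    OffRows {i} (fun ω : Ent n => ((1 + NN (insert i T) z ω) ^ 1020)⁻¹) := by
  intro ω ω' h
  have : Gr (insert i T) z ω = Gr (insert i T) z ω' :=
    Gr_off fun e he => h e fun k hk => by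
      rw [Finset.mem_singleton] at hk
      subst hk
      exact he k (Finset.mem_insert_self _ _)
  simp only [NN, this]

lemma one_event {b C : ℝ} (hC : ∀ (n : ℕ) (μ : Sym2 (Fin n) → Measure ℝ),
    (∀ e, GoodLaw b (μ e)) → ∀ (T : Finset (Fin n)) (i : Fin n), i ∉ T → ∀ z : ℂ, z.im ≠ 0 →
    ∀ (φ : Ent n → ℝ) (B : ℝ), Measurable φ → (∀ ω, 0 ≤ φ ω) → (∀ ω, φ ω ≤ B) →
    OffRows {i} φ →
    ∫ ω, φ ω * ‖xi T z i ω‖ ^ (2 * 1020) ∂(Measure.pi μ) ≤
      C * ∫ ω, φ ω * (1 + NN (insert i T) z ω) ^ 1020 ∂(Measure.pi μ))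
    (hn : 1 ≤ n) (μ : Sym2 (Fin n) → Measure ℝ) (hμ : ∀ e, GoodLaw b (μ e))
    (T : Finset (Fin n)) (i : Fin n) (hi : i ∉ T) (z : ℂ) (hz : z.im ≠ 0) :
    (Measure.pi μ).real {ω | ¬ ‖xi T z i ω‖ ≤
      (n : ℝ) ^ ((1 : ℝ) / 20) * (1 + √(NN (insert i T) z ω))} ≤ C * ((n : ℝ) ^ 102)⁻¹ := by
  have hprob : ∀ e, IsProbabilityMeasure (μ e) := fun e => (hμ e).prob
  set φ : Ent n → ℝ := fun ω => ((1 + NN (insert i T) z ω) ^ 1020)⁻¹ with hφ
  have hN : ∀ ω : Ent n, 0 ≤ NN (insert i T) z ω := fun ω => NN_nonneg ω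
  have hφ0 : ∀ ω, 0 ≤ φ ω := fun ω => by
    have := hN ω
    simp only [hφ]; positivity
  have hφ1 : ∀ ω, φ ω ≤ 1 := fun ω => by
    have := hN ω
    simp only [hφ]
    exact inv_le_one_of_one_le₀ (one_le_pow₀ (by linarith))
  have hφc : Continuous φ := by
    have h1 : Continuous (fun ω : Ent n => (1 + NN (insert i T) z ω) ^ 1020) :=
      (continuous_const.add (PB.NN hz).cont).pow _
    exact h1.inv₀ fun ω => by
      have := hN ω
      positivity
  have hmom := hC n μ hμ T i hi z hz φ 1 hφc.measurable hφ0 hφ1 NN_off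
  have hone : ∫ ω, φ ω * (1 + NN (insert i T) z ω) ^ 1020 ∂(Measure.pi μ) = 1 := by
    have : ∀ ω, φ ω * (1 + NN (insert i T) z ω) ^ 1020 = 1 := fun ω => by
      have := hN ω
      simp only [hφ]
      exact inv_mul_cancel₀ (by positivity)
    simp [this]
  rw [hone, mul_one] at hmom
  have hint : Integrable (fun ω => φ ω * ‖xi T z i ω‖ ^ (2 * 1020)) (Measure.pi μ) := by
    have h1 : PB φ := PBW.of_bdd one_le_wt hφc 1 fun ω => by
      rw [Real.norm_eq_abs, abs_of_nonneg (hφ0 ω)]; exact hφ1 ω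
    exact PB.int hμ (h1.mul ((PB.xi hz i).norm.pow _))
  have hmark := mul_meas_ge_le_integral_of_nonneg (μ := Measure.pi μ)
    (Eventually.of_forall fun ω => mul_nonneg (hφ0 ω) (by positivity)) hint ((n : ℝ) ^ 102)
  have hn0 : (0 : ℝ) < n := by exact_mod_cast hn
  have hL : ((n : ℝ) ^ ((1 : ℝ) / 20)) ^ (2 * 1020) = (n : ℝ) ^ 102 := by
    rw [← Real.rpow_natCast, ← Real.rpow_mul hn0.le, ← Real.rpow_natCast]
    norm_num
  have hsub : {ω | ¬ ‖xi T z i ω‖ ≤ (n : ℝ) ^ ((1 : ℝ) / 20) * (1 + √(NN (insert i T) z ω))} ⊆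
      {ω | (n : ℝ) ^ 102 ≤ φ ω * ‖xi T z i ω‖ ^ (2 * 1020)} := by
    intro ω hω
    simp only [Set.mem_ofPred_eq, not_le] at hω ⊢
    have hN' := hN ω
    have h1 : (n : ℝ) ^ 102 * (1 + NN (insert i T) z ω) ^ 1020 ≤ ‖xi T z i ω‖ ^ (2 * 1020) := by
      calc (n : ℝ) ^ 102 * (1 + NN (insert i T) z ω) ^ 1020
          ≤ ((n : ℝ) ^ ((1 : ℝ) / 20)) ^ (2 * 1020) *
              ((1 + √(NN (insert i T) z ω)) ^ 2) ^ 1020 := by
            rw [hL]
            refine mul_le_mul_of_nonneg_left (pow_le_pow_left₀ (by positivity) ?_ _)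
              (by positivity)
            have h3 := Real.sq_sqrt hN'
            nlinarith [Real.sqrt_nonneg (NN (insert i T) z ω)]
        _ = ((n : ℝ) ^ ((1 : ℝ) / 20) * (1 + √(NN (insert i T) z ω))) ^ (2 * 1020) := by
            rw [mul_pow, pow_mul (1 + √(NN (insert i T) z ω))]
        _ ≤ _ := pow_le_pow_left₀ (by positivity) hω.le _
    have h2 : (0 : ℝ) < (1 + NN (insert i T) z ω) ^ 1020 := by positivity
    simp only [hφ]
    rw [inv_mul_eq_div, le_div_iff₀ h2]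
    exact h1
  have h4 : (n : ℝ) ^ 102 * (Measure.pi μ).real {ω | ¬ ‖xi T z i ω‖ ≤
      (n : ℝ) ^ ((1 : ℝ) / 20) * (1 + √(NN (insert i T) z ω))} ≤ C := by
    refine le_trans (mul_le_mul_of_nonneg_left (measureReal_mono hsub) (by positivity)) ?_
    exact hmark.trans hmom
  have h5 : (0 : ℝ) < (n : ℝ) ^ 102 := by positivity
  rw [← div_eq_mul_inv, le_div_iff₀ h5, mul_comm]
  exact h4

end GoodProbAux

open GoodProbAux in
theorem good_prob (b : ℝ) : ∃ C : ℝ, 0 ≤ C ∧ ∀ (n : ℕ) (μ : Sym2 (Fin n) → Measure ℝ),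
    1 ≤ n → (∀ e, GoodLaw b (μ e)) → ∀ z : ℂ, z.im ≠ 0 →
    (Measure.pi μ).real {ω | ¬ Good z ω} ≤ C * ((n : ℝ) ^ 100)⁻¹ := by
  obtain ⟨C, hC0, hC⟩ := xi_mom b 1020
  refine ⟨2 * C, by positivity, fun n μ hn hμ z hz => ?_⟩
  have hprob : ∀ e, IsProbabilityMeasure (μ e) := fun e => (hμ e).prob
  have hn1 : (1 : ℝ) ≤ n := by exact_mod_cast hn
  have hn0 : (0 : ℝ) < n := by linarith
  set A : Fin n → Set (Ent n) := fun i => {ω | ¬ ‖xi ∅ z i ω‖ ≤
    (n : ℝ) ^ ((1 : ℝ) / 20) * (1 + √(NN (insert i ∅) z ω))} with hA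
  set B : Fin n → Fin n → Set (Ent n) := fun i j => {ω | i ≠ j ∧ ¬ ‖xi {i} z j ω‖ ≤
    (n : ℝ) ^ ((1 : ℝ) / 20) * (1 + √(NN (insert j {i}) z ω))} with hB
  have hsub : {ω | ¬ Good z ω} ⊆ (⋃ i ∈ (Finset.univ : Finset (Fin n)), A i) ∪
      ⋃ i ∈ (Finset.univ : Finset (Fin n)), ⋃ j ∈ (Finset.univ : Finset (Fin n)), B i j := by
    intro ω hω
    simp only [Set.mem_ofPred_eq, Good, not_and_or, not_forall] at hω
    rcases hω with ⟨i, hi⟩ | ⟨i, j, hij, h⟩
    · left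
      simp only [Set.mem_iUnion, Finset.mem_univ, exists_prop, true_and]
      exact ⟨i, by simpa only [hA, Set.mem_ofPred_eq, insert_empty_eq] using hi⟩
    · right
      simp only [Set.mem_iUnion, Finset.mem_univ, exists_prop, true_and]
      refine ⟨i, j, hij, ?_⟩
      have : insert j ({i} : Finset (Fin n)) = {i, j} := Finset.pair_comm j i
      rw [this]
      exact h
  have hAi : ∀ i, (Measure.pi μ).real (A i) ≤ C * ((n : ℝ) ^ 102)⁻¹ := fun i =>
    one_event hC hn μ hμ ∅ i (by simp) z hz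
  have hBij : ∀ i j, (Measure.pi μ).real (B i j) ≤ C * ((n : ℝ) ^ 102)⁻¹ := fun i j => by
    by_cases hij : i = j
    · have : B i j = ∅ := by
        ext ω; simp [hB, hij]
      rw [this, measureReal_empty]
      positivity
    · have h := one_event hC hn μ hμ {i} j (by simpa using fun h => hij h.symm) z hz
      refine le_trans (measureReal_mono ?_) h
      intro ω hω
      exact hω.2
  calc (Measure.pi μ).real {ω | ¬ Good z ω}
      ≤ (Measure.pi μ).real ((⋃ i ∈ (Finset.univ : Finset (Fin n)), A i) ∪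
        ⋃ i ∈ (Finset.univ : Finset (Fin n)), ⋃ j ∈ (Finset.univ : Finset (Fin n)), B i j) :=
        measureReal_mono hsub
    _ ≤ (Measure.pi μ).real (⋃ i ∈ (Finset.univ : Finset (Fin n)), A i) +
        (Measure.pi μ).real (⋃ i ∈ (Finset.univ : Finset (Fin n)),
          ⋃ j ∈ (Finset.univ : Finset (Fin n)), B i j) := measureReal_union_le _ _
    _ ≤ (∑ i : Fin n, C * ((n : ℝ) ^ 102)⁻¹) + ∑ i : Fin n, ∑ j : Fin n,
          C * ((n : ℝ) ^ 102)⁻¹ := by
        refine add_le_add ?_ ?_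
        · refine (measureReal_biUnion_finset_le _ _).trans (Finset.sum_le_sum fun i _ => hAi i)
        · refine (measureReal_biUnion_finset_le _ _).trans (Finset.sum_le_sum fun i _ => ?_)
          exact (measureReal_biUnion_finset_le _ _).trans (Finset.sum_le_sum fun j _ => hBij i j)
    _ = (n + n ^ 2) * (C * ((n : ℝ) ^ 102)⁻¹) := by
        simp only [Finset.sum_const, Finset.card_univ, Fintype.card_fin, nsmul_eq_mul]
        ring
    _ ≤ (n ^ 2 + n ^ 2) * (C * ((n : ℝ) ^ 102)⁻¹) := by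
        refine mul_le_mul_of_nonneg_right ?_ (by positivity)
        nlinarith
    _ = 2 * C * ((n : ℝ) ^ 100)⁻¹ := by
        have h1 : (n : ℝ) ^ 102 = n ^ 2 * n ^ 100 := by ring
        rw [h1, mul_inv]
        field_simp
        ring

end Pool.Agent.Eig
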