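import Pool.Agent.Work.MP_1c1c8a_pr.Lin2

/-! # Weak law (deterministic) -/

namespace Pool.Agent.Eig

open MeasureTheory Filter Topology Matrix

namespace WeakAux

theorem sqrt_bound {L u : ℝ} (hL : 1 ≤ L) (hu : 0 < u) {W : ℝ}
    (hlt : W < 512 * L ^ 2 * (1 + u)) : √(u * W) ≤ 23 * L * (1 + u) := by
  apply Real.sqrt_le_iff.2
  refine ⟨by positivity, ?_⟩
  have h1 : u * W ≤ u * (512 * L ^ 2 * (1 + u)) := mul_le_mul_of_nonneg_left hlt.le hu.le
  have h2 : 0 < L ^ 2 * (1 + u) := by positivity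
  nlinarith [mul_pos h2 hu]

theorem T_bound {m u W N : ℝ} (hm : 2 ^ 16 ≤ m) (hu : 0 < u) (hum : u ≤ m ^ 10) (hW : 0 < W)
    (hN : N ≤ u * W)
    (h : m ^ 60 ≤ N * (W + (m ^ 3 * (1 + 2 * u) + m ^ 3 * √(u * W))) ^ 2) :
    512 * (m ^ 3) ^ 2 * (1 + u) ≤ W := by
  by_contra hlt
  push Not at hlt
  have hm1 : (1 : ℝ) ≤ m := by linarith
  have hm0 : (0 : ℝ) < m := by linarith
  have hL : 1 ≤ m ^ 3 := one_le_pow₀ hm1
  have h1 := sqrt_bound hL hu hlt
  set L := m ^ 3 with hLdef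
  set T := 512 * L ^ 2 * (1 + u) with hT
  have hT0 : 0 < T := by positivity
  have hd : L * (1 + 2 * u) + L * √(u * W) ≤ T / 2 := by
    have h2 : L * √(u * W) ≤ L * (23 * L * (1 + u)) := mul_le_mul_of_nonneg_left h1 (by positivity)
    have h3 : L * (1 + 2 * u) ≤ L ^ 2 * (2 * (1 + u)) := by
      have : L * (1 + 2 * u) ≤ L * (2 * (1 + u)) := by
        apply mul_le_mul_of_nonneg_left _ (by positivity)
        linarith
      refine this.trans ?_
      apply mul_le_mul_of_nonneg_right _ (by positivity)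
      nlinarith
    rw [hT]
    nlinarith [show 0 < L ^ 2 * (1 + u) by positivity]
  have hs0 : 0 ≤ √(u * W) := Real.sqrt_nonneg _
  have h4 : N * (W + (L * (1 + 2 * u) + L * √(u * W))) ^ 2 ≤ (u * T) * (3 / 2 * T) ^ 2 := by
    apply mul_le_mul
    · exact hN.trans (mul_le_mul_of_nonneg_left hlt.le hu.le)
    · apply pow_le_pow_left₀ (by positivity)
      linarith
    · positivity
    · positivity
  have h5 : m ^ 60 ≤ (u * T) * (3 / 2 * T) ^ 2 := h.trans h4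
  have h6 : T ≤ 1024 * m ^ 16 := by
    have h1u : 1 + u ≤ 2 * m ^ 10 := by
      have : (1 : ℝ) ≤ m ^ 10 := one_le_pow₀ hm1
      linarith
    calc T = 512 * L ^ 2 * (1 + u) := rfl
      _ ≤ 512 * L ^ 2 * (2 * m ^ 10) := mul_le_mul_of_nonneg_left h1u (by positivity)
      _ = 1024 * m ^ 16 := by rw [hLdef]; ring
  have h7 : (u * T) * (3 / 2 * T) ^ 2 ≤ (m ^ 10 * (1024 * m ^ 16)) * (3 / 2 * (1024 * m ^ 16)) ^ 2 := by
    gcongr
  have h8 : (m ^ 10 * (1024 * m ^ 16)) * (3 / 2 * (1024 * m ^ 16)) ^ 2 = (9 / 4 * 2 ^ 30) * m ^ 58 := by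
    ring
  rw [h8] at h7
  have h9 : (9 / 4 * 2 ^ 30 : ℝ) * m ^ 58 < m ^ 60 := by
    have : (9 / 4 * 2 ^ 30 : ℝ) < m ^ 2 := by
      have : (2 ^ 16 : ℝ) ^ 2 ≤ m ^ 2 := pow_le_pow_left₀ (by norm_num) hm 2
      refine lt_of_lt_of_le ?_ this
      norm_num
    calc (9 / 4 * 2 ^ 30 : ℝ) * m ^ 58 < m ^ 2 * m ^ 58 := mul_lt_mul_of_pos_right this (by positivity)
      _ = m ^ 60 := by ring
  linarith

theorem d_bound {L u W : ℝ} (hL : 1 ≤ L) (hu : 0 < u)
    (h : 512 * L ^ 2 * (1 + u) ≤ W) : L * (1 + 2 * u) + L * √(u * W) ≤ W / 8 := by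
  have hW : 0 < W := lt_of_lt_of_le (by positivity) h
  have h1 : L * √(u * W) ≤ W / 16 := by
    have : L * √(u * W) = √(L ^ 2 * (u * W)) := by
      rw [Real.sqrt_mul (show (0 : ℝ) ≤ L ^ 2 by positivity) (u * W),
        Real.sqrt_sq (show (0 : ℝ) ≤ L by linarith)]
    rw [this]
    apply Real.sqrt_le_iff.2
    refine ⟨by positivity, ?_⟩
    have h2 : 256 * (L ^ 2 * u) ≤ W := by
      have : 0 < L ^ 2 * u := by positivity
      nlinarith [show 0 < L ^ 2 by positivity]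
    nlinarith [mul_le_mul_of_nonneg_right h2 hW.le]
  have h3 : L * (1 + 2 * u) ≤ W / 16 := by
    have : L * (1 + 2 * u) ≤ L ^ 2 * (2 * (1 + u)) := by
      have : L * (1 + 2 * u) ≤ L * (2 * (1 + u)) := by
        apply mul_le_mul_of_nonneg_left _ (by positivity)
        linarith
      refine this.trans ?_
      apply mul_le_mul_of_nonneg_right _ (by positivity)
      nlinarith
    nlinarith [show 0 < L ^ 2 * (1 + u) by positivity]
  linarith

/-- The core estimate, all quantities given as powers of `m = n^(1/60)`. -/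
theorem core {C0 c1 m : ℝ} (hC0 : 1 ≤ C0) (hc1 : c1 = 1 / (2 * (C0 + 1)))
    (hm : 2 ^ 16 ≤ m) (hmB : m ^ 10 ≤ c1 / 4 * m ^ 30)
    (hmC : m ^ 3 * (1 + √(8 / (7 * c1) * m ^ 40 + 2 * m ^ 20)) ≤ c1 / 4 * m ^ 30)
    {n : ℕ} (hn : (n : ℝ) = m ^ 60) {z : ℂ} (hz : (m ^ 10)⁻¹ ≤ z.im) (hz2 : ‖z‖ ≤ C0 * m ^ 30)
    {ω : Ent n}
    (hG1 : ∀ i, ‖xi ∅ z i ω‖ ≤ m ^ 3 * (1 + √(NN {i} z ω)))
    (hG2 : ∀ i j, i ≠ j → ‖xi {i} z j ω‖ ≤ m ^ 3 * (1 + √(NN {i, j} z ω))) :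
    c1 / 4 * m ^ 30 ≤ ‖z - st ∅ z ω‖ ∧ (∀ i, ‖Gr ∅ z ω i i‖ ≤ 4 / (c1 * m ^ 30)) ∧
    (∀ i, c1 / 4 * m ^ 30 ≤ ‖z - st {i} z ω‖) ∧
    (∀ i j, i ≠ j → ‖Gr {i} z ω j j‖ ≤ 4 / (c1 * m ^ 30)) ∧
    (∀ i j, i ≠ j → c1 / 4 * m ^ 30 ≤ ‖z - st {i, j} z ω‖) ∧
    ‖st ∅ z ω‖ ≤ 4 / c1 * m ^ 30 := by
  have hm1 : (1 : ℝ) ≤ m := by linarith
  have hm0 : (0 : ℝ) < m := by linarith
  have hc0 : 0 < c1 := by rw [hc1]; positivity
  have hη : 0 < z.im := lt_of_lt_of_le (by positivity) hz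
  have hzne : z.im ≠ 0 := hη.ne'
  set u : ℝ := (z.im)⁻¹ with hu_def
  have hu : 0 < u := inv_pos.2 hη
  have huabs : |z.im|⁻¹ = u := by rw [abs_of_pos hη]
  have hum : u ≤ m ^ 10 := by
    rw [hu_def]
    rw [inv_le_comm₀ hη (by positivity)]
    exact hz
  have hu2 : (z.im ^ 2)⁻¹ = u ^ 2 := by rw [hu_def, inv_pow]
  set L := m ^ 3 with hLdef
  have hL : 1 ≤ L := one_le_pow₀ hm1
  set s := st ∅ z ω with hs
  set w := z - s with hw
  set N := NN ∅ z ω with hNdef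
  have hN0 : 0 ≤ N := by
    rw [hNdef]; unfold NN; positivity
  have hsim : s.im = -z.im * N := st_im hzne
  have hwim : w.im = z.im * (1 + N) := by
    rw [hw, Complex.sub_im, hsim]; ring
  set W := ‖w‖ with hW
  have hWim : z.im * (1 + N) ≤ W := by
    rw [← hwim]; exact (le_abs_self _).trans (Complex.abs_im_le_norm w)
  have hW0 : 0 < W := lt_of_lt_of_le (by positivity) hWim
  have hNu : N ≤ u * W := by
    have : z.im * N ≤ W := by nlinarith
    calc N = u * (z.im * N) := by rw [hu_def]; field_simp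
      _ ≤ u * W := mul_le_mul_of_nonneg_left this hu.le
  have hnot : ∀ i : Fin n, i ∉ (∅ : Finset (Fin n)) := fun i => Finset.notMem_empty i
  have hE : ∀ i : Fin n, (insert i ∅ : Finset (Fin n)) = {i} := fun i => rfl
  have hschur : ∀ i : Fin n, Gr ∅ z ω i i * (z - st {i} z ω - xi ∅ z i ω) = 1 := by
    intro i
    have h := schur (T := (∅ : Finset (Fin n))) (ω := ω) hzne (hnot i)
    rw [hE i] at h
    exact h
  -- first row removed
  have hs1 : ∀ i : Fin n, ‖s - st {i} z ω‖ ≤ u := by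
    intro i
    have h := st_sub_le (T := (∅ : Finset (Fin n))) (ω := ω) hzne (hnot i)
    rw [hE i, huabs] at h
    exact h
  have hN1 : ∀ i : Fin n, NN {i} z ω ≤ N + u ^ 2 := by
    intro i
    have h := NN_insert_le (T := (∅ : Finset (Fin n))) (ω := ω) hzne (hnot i)
    rw [hE i, hu2] at h
    exact h
  have hsq1 : ∀ i : Fin n, √(NN {i} z ω) ≤ √(u * W) + u := by
    intro i
    have h1 : √(NN {i} z ω) ≤ √(N + u ^ 2) := Real.sqrt_le_sqrt (hN1 i)
    have h2 : √(N + u ^ 2) ≤ √N + u := by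
      apply Real.sqrt_le_iff.2
      refine ⟨by positivity, ?_⟩
      have := Real.sq_sqrt hN0
      nlinarith [Real.sqrt_nonneg N]
    have h3 : √N ≤ √(u * W) := Real.sqrt_le_sqrt hNu
    linarith
  set d := L * (1 + 2 * u) + L * √(u * W) with hd
  have hd0 : 0 ≤ d := by rw [hd]; positivity
  have hinv : ∀ i : Fin n, ∃ g : ℂ, Gr ∅ z ω i i * g = 1 ∧ ‖g - w‖ ≤ d := by
    intro i
    refine ⟨z - st {i} z ω - xi ∅ z i ω, hschur i, ?_⟩
    have e : z - st {i} z ω - xi ∅ z i ω - w = (s - st {i} z ω) - xi ∅ z i ω := by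
      rw [hw]; ring
    rw [e]
    refine (norm_sub_le _ _).trans ?_
    have h1 := hs1 i
    have h2 := hG1 i
    have h3 := hsq1 i
    have h4 : L * (1 + √(NN {i} z ω)) ≤ L * (1 + (√(u * W) + u)) :=
      mul_le_mul_of_nonneg_left (by linarith) (by linarith)
    have h5 : u ≤ L * u := by nlinarith
    rw [hd]
    linarith
  -- lower bound for N
  have hlow : m ^ 60 ≤ N * (W + d) ^ 2 := by
    have h1 : ∀ i : Fin n, 1 ≤ ‖Gr ∅ z ω i i‖ ^ 2 * (W + d) ^ 2 := by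
      intro i
      obtain ⟨g, hg, hg2⟩ := hinv i
      have h2 : ‖g‖ ≤ W + d := by
        have : g = w + (g - w) := by ring
        rw [this]
        exact (norm_add_le _ _).trans (by linarith)
      have h3 : ‖Gr ∅ z ω i i‖ * ‖g‖ = 1 := by rw [← norm_mul, hg, norm_one]
      have h4 : 1 ≤ ‖Gr ∅ z ω i i‖ * (W + d) := by
        rw [← h3]; exact mul_le_mul_of_nonneg_left h2 (norm_nonneg _)
      rw [← mul_pow]
      exact one_le_pow₀ h4
    have h2 : (∑ i : Fin n, ‖Gr ∅ z ω i i‖ ^ 2) ≤ N := by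
      rw [hNdef]; unfold NN
      refine Finset.sum_le_sum fun i _ => ?_
      exact Finset.single_le_sum (f := fun j => ‖Gr ∅ z ω i j‖ ^ 2) (fun j _ => by positivity) (Finset.mem_univ i)
    calc m ^ 60 = (n : ℝ) := hn.symm
      _ = ∑ i : Fin n, (1 : ℝ) := by simp
      _ ≤ ∑ i : Fin n, ‖Gr ∅ z ω i i‖ ^ 2 * (W + d) ^ 2 := Finset.sum_le_sum fun i _ => h1 i
      _ = (∑ i : Fin n, ‖Gr ∅ z ω i i‖ ^ 2) * (W + d) ^ 2 := by rw [Finset.sum_mul]
      _ ≤ N * (W + d) ^ 2 := mul_le_mul_of_nonneg_right h2 (by positivity)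
  have hT := T_bound hm hu hum hW0 hNu hlow
  have hd8 : d ≤ W / 8 := d_bound hL hu hT
  -- diagonal entries
  have hG : ∀ i : Fin n, ‖Gr ∅ z ω i i‖ ≤ 8 / (7 * W) ∧ ‖Gr ∅ z ω i i * w - 1‖ ≤ 1 / 7 := by
    intro i
    obtain ⟨g, hg, hg2⟩ := hinv i
    have h2 : 7 / 8 * W ≤ ‖g‖ := by
      have h3 : W ≤ ‖g‖ + ‖g - w‖ := by
        have : w = g - (g - w) := by ring
        rw [hW]
        nth_rewrite 1 [this]
        exact norm_sub_le _ _
      linarith
    have h3 : ‖Gr ∅ z ω i i‖ * ‖g‖ = 1 := by rw [← norm_mul, hg, norm_one]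
    have h4 : ‖Gr ∅ z ω i i‖ * (7 / 8 * W) ≤ 1 := by
      rw [← h3]; exact mul_le_mul_of_nonneg_left h2 (norm_nonneg _)
    have h5 : ‖Gr ∅ z ω i i‖ ≤ 8 / (7 * W) := by
      rw [le_div_iff₀ (by positivity)]
      linarith
    refine ⟨h5, ?_⟩
    have e : Gr ∅ z ω i i * w - 1 = -(Gr ∅ z ω i i * (g - w)) := by
      rw [← hg]; ring
    rw [e, norm_neg, norm_mul]
    calc ‖Gr ∅ z ω i i‖ * ‖g - w‖ ≤ 8 / (7 * W) * (W / 8) := by
          apply mul_le_mul h5 (hg2.trans hd8) (norm_nonneg _) (by positivity)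
      _ = 1 / 7 := by field_simp
  have hsw : ‖s * w - n‖ ≤ n / 7 := by
    have e : s * w - n = ∑ i : Fin n, (Gr ∅ z ω i i * w - 1) := by
      rw [Finset.sum_sub_distrib, ← Finset.sum_mul]
      simp [hs, st]
    rw [e]
    refine (norm_sum_le _ _).trans ?_
    refine (Finset.sum_le_sum fun i _ => (hG i).2).trans ?_
    simp
    linarith
  have hsnorm : ‖s‖ ≤ n * (8 / (7 * W)) := by
    rw [hs]; unfold st
    refine (norm_sum_le _ _).trans ?_
    refine (Finset.sum_le_sum fun i _ => (hG i).1).trans ?_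
    simp
  have hnpos : (0 : ℝ) < n := by rw [hn]; positivity
  -- lower bound for W
  have hWlow : c1 * m ^ 30 ≤ W := by
    by_contra hlt
    push Not at hlt
    have h1 : 6 / 7 * (n : ℝ) ≤ ‖s‖ * W := by
      have h2 : (n : ℝ) ≤ ‖s * w‖ + ‖s * w - n‖ := by
        have : ((n : ℝ) : ℂ) = s * w - (s * w - n) := by push_cast; ring
        calc (n : ℝ) = ‖((n : ℝ) : ℂ)‖ := by simp
          _ = ‖s * w - (s * w - n)‖ := by rw [this]
          _ ≤ _ := norm_sub_le _ _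
      rw [norm_mul] at h2
      linarith
    have h2 : ‖s‖ ≤ C0 * m ^ 30 + W := by
      have : s = z - w := by rw [hw]; ring
      rw [this]
      exact (norm_sub_le _ _).trans (by linarith)
    have hc1' : c1 ≤ 1 := by
      rw [hc1, div_le_one (by positivity)]; linarith
    have hm30 : 0 < m ^ 30 := by positivity
    have h3 : ‖s‖ ≤ (C0 + 1) * m ^ 30 := by nlinarith
    have h4 : ‖s‖ * W ≤ (C0 + 1) * m ^ 30 * (c1 * m ^ 30) :=
      mul_le_mul h3 hlt.le hW0.le (by positivity)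
    have h5 : (C0 + 1) * m ^ 30 * (c1 * m ^ 30) = 1 / 2 * m ^ 60 := by
      rw [hc1]
      field_simp
    rw [h5, ← hn] at h4
    linarith
  have hm30 : 0 < m ^ 30 := by positivity
  have hcm : 0 < c1 * m ^ 30 := by positivity
  have hu30 : u ≤ c1 / 4 * m ^ 30 := hum.trans hmB
  have hs_le : ‖s‖ ≤ 8 / (7 * c1) * m ^ 30 := by
    refine hsnorm.trans ?_
    rw [hn]
    calc m ^ 60 * (8 / (7 * W)) ≤ m ^ 60 * (8 / (7 * (c1 * m ^ 30))) := by
          apply mul_le_mul_of_nonneg_left _ (by positivity)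
          apply div_le_div_of_nonneg_left (by norm_num) (by positivity)
          linarith
      _ = 8 / (7 * c1) * m ^ 30 := by
          field_simp
  have hst1 : ∀ i : Fin n, 3 / 4 * (c1 * m ^ 30) ≤ ‖z - st {i} z ω‖ := by
    intro i
    have h1 : W ≤ ‖z - st {i} z ω‖ + ‖s - st {i} z ω‖ := by
      have : w = (z - st {i} z ω) - (s - st {i} z ω) := by rw [hw]; ring
      rw [hW]
      nth_rewrite 1 [this]
      exact norm_sub_le _ _
    have h2 := hs1 i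
    linarith
  have hpair : ∀ i j : Fin n, (insert j {i} : Finset (Fin n)) = {i, j} := by
    intro i j; exact Finset.pair_comm j i
  have hs2 : ∀ i j : Fin n, i ≠ j → ‖st {i} z ω - st {i, j} z ω‖ ≤ u := by
    intro i j hij
    have hj : j ∉ ({i} : Finset (Fin n)) := by simp [Ne.symm hij]
    have h := st_sub_le (ω := ω) hzne hj
    rw [hpair, huabs] at h
    exact h
  have hst2 : ∀ i j : Fin n, i ≠ j → 1 / 2 * (c1 * m ^ 30) ≤ ‖z - st {i, j} z ω‖ := by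
    intro i j hij
    have h1 : ‖z - st {i} z ω‖ ≤ ‖z - st {i, j} z ω‖ + ‖st {i} z ω - st {i, j} z ω‖ := by
      have : z - st {i} z ω = (z - st {i, j} z ω) - (st {i} z ω - st {i, j} z ω) := by ring
      nth_rewrite 1 [this]
      exact norm_sub_le _ _
    have h2 := hs2 i j hij
    have h3 := hst1 i
    linarith
  have hNle : N ≤ 8 / (7 * c1) * m ^ 40 := by
    have h1 : z.im * N ≤ ‖s‖ := by
      have : z.im * N = -s.im := by rw [hsim]; ring
      rw [this]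
      exact (neg_le_abs _).trans (Complex.abs_im_le_norm s)
    calc N = u * (z.im * N) := by rw [hu_def]; field_simp
      _ ≤ m ^ 10 * (8 / (7 * c1) * m ^ 30) := by
          apply mul_le_mul hum (h1.trans hs_le) (by positivity) (by positivity)
      _ = 8 / (7 * c1) * m ^ 40 := by ring
  have hGr2 : ∀ i j : Fin n, i ≠ j → ‖Gr {i} z ω j j‖ ≤ 4 / (c1 * m ^ 30) := by
    intro i j hij
    have hj : j ∉ ({i} : Finset (Fin n)) := by simp [Ne.symm hij]
    have h1 := schur (ω := ω) hzne hj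
    have h2 := NN_insert_le (ω := ω) hzne hj
    rw [hpair] at h1 h2
    have h3 : NN {i, j} z ω ≤ 8 / (7 * c1) * m ^ 40 + 2 * m ^ 20 := by
      have h4 := hN1 i
      rw [hu2] at h2
      have h5 : u ^ 2 ≤ m ^ 20 := by
        calc u ^ 2 ≤ (m ^ 10) ^ 2 := pow_le_pow_left₀ hu.le hum 2
          _ = m ^ 20 := by ring
      linarith
    have h4 : ‖xi {i} z j ω‖ ≤ c1 / 4 * m ^ 30 := by
      refine (hG2 i j hij).trans (le_trans ?_ hmC)
      apply mul_le_mul_of_nonneg_left _ (by linarith)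
      have := Real.sqrt_le_sqrt h3
      linarith
    have h5 : 1 / 4 * (c1 * m ^ 30) ≤ ‖z - st {i, j} z ω - xi {i} z j ω‖ := by
      have h6 : ‖z - st {i, j} z ω‖ ≤ ‖z - st {i, j} z ω - xi {i} z j ω‖ + ‖xi {i} z j ω‖ := by
        have := norm_add_le (z - st {i, j} z ω - xi {i} z j ω) (xi {i} z j ω)
        rwa [sub_add_cancel] at this
      have h7 := hst2 i j hij
      linarith
    have h6 : ‖Gr {i} z ω j j‖ * ‖z - st {i, j} z ω - xi {i} z j ω‖ = 1 := by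
      rw [← norm_mul, h1, norm_one]
    rw [le_div_iff₀ hcm]
    have h7 : ‖Gr {i} z ω j j‖ * (1 / 4 * (c1 * m ^ 30)) ≤ 1 :=
      (mul_le_mul_of_nonneg_left h5 (norm_nonneg _)).trans h6.le
    linarith
  refine ⟨by linarith, ?_, ?_, hGr2, ?_, ?_⟩
  · intro i
    refine (hG i).1.trans ?_
    rw [div_le_div_iff₀ (by positivity) hcm]
    linarith
  · intro i
    have := hst1 i
    linarith
  · intro i j hij
    have := hst2 i j hij
    linarith
  · refine hs_le.trans ?_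
    apply mul_le_mul_of_nonneg_right _ hm30.le
    rw [div_le_div_iff₀ (by positivity) hc0]
    linarith

end WeakAux

theorem weak_law (C0 : ℝ) (hC0 : 1 ≤ C0) : ∃ c : ℝ, 0 < c ∧ c ≤ 1 ∧ ∃ n0 : ℕ, ∀ n ≥ n0, ∀ z : ℂ,
    Dom C0 n z → ∀ ω : Ent n, Good z ω → Weak c z ω := by
  set c1 : ℝ := 1 / (2 * (C0 + 1)) with hc1
  have hc0 : 0 < c1 := by rw [hc1]; positivity
  have hc1' : c1 ≤ 1 := by
    rw [hc1, div_le_one (by positivity)]; linarith
  -- conditions on `m`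
  set K : ℝ := 2 ^ 16 + 4 / c1 + (4 / c1) * (1 + √(8 / (7 * c1) + 2)) with hK
  have hK0 : 0 ≤ K := by rw [hK]; positivity
  have hcond : ∀ m : ℝ, K ≤ m → 2 ^ 16 ≤ m ∧ m ^ 10 ≤ c1 / 4 * m ^ 30 ∧
      m ^ 3 * (1 + √(8 / (7 * c1) * m ^ 40 + 2 * m ^ 20)) ≤ c1 / 4 * m ^ 30 := by
    intro m hm
    have hx : 0 ≤ √(8 / (7 * c1) + 2) := Real.sqrt_nonneg _
    have h4c : 0 < 4 / c1 := by positivity
    have h4x : 0 ≤ 4 / c1 * (1 + √(8 / (7 * c1) + 2)) := by positivity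
    have hm16 : 2 ^ 16 ≤ m := by rw [hK] at hm; linarith
    have hm1 : (1 : ℝ) ≤ m := by linarith
    have hm0 : (0 : ℝ) < m := by linarith
    have hmB : 4 / c1 ≤ m := by rw [hK] at hm; linarith
    have hmC : 4 / c1 * (1 + √(8 / (7 * c1) + 2)) ≤ m := by rw [hK] at hm; linarith
    refine ⟨hm16, ?_, ?_⟩
    · have h1 : 4 / c1 ≤ m ^ 20 := hmB.trans (le_self_pow₀ hm1 (by norm_num))
      have h2 : 1 ≤ c1 / 4 * m ^ 20 := by
        have := mul_le_mul_of_nonneg_left h1 (show 0 ≤ c1 / 4 by positivity)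
        refine le_trans (le_of_eq ?_) this
        field_simp
      calc m ^ 10 = 1 * m ^ 10 := by ring
        _ ≤ (c1 / 4 * m ^ 20) * m ^ 10 := mul_le_mul_of_nonneg_right h2 (by positivity)
        _ = c1 / 4 * m ^ 30 := by ring
    · have h1 : √(8 / (7 * c1) * m ^ 40 + 2 * m ^ 20) ≤ √(8 / (7 * c1) + 2) * m ^ 20 := by
        rw [Real.sqrt_le_left (by positivity), mul_pow, Real.sq_sqrt (by positivity)]
        have : m ^ 20 ≤ m ^ 40 := pow_le_pow_right₀ hm1 (by norm_num)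
        nlinarith
      have h2 : 1 + √(8 / (7 * c1) * m ^ 40 + 2 * m ^ 20) ≤ (1 + √(8 / (7 * c1) + 2)) * m ^ 20 := by
        have : (1 : ℝ) ≤ m ^ 20 := one_le_pow₀ hm1
        nlinarith
      have h3 : 1 + √(8 / (7 * c1) + 2) ≤ c1 / 4 * m := by
        have := mul_le_mul_of_nonneg_left hmC (show 0 ≤ c1 / 4 by positivity)
        refine le_trans (le_of_eq ?_) this
        field_simp
      calc m ^ 3 * (1 + √(8 / (7 * c1) * m ^ 40 + 2 * m ^ 20))
          ≤ m ^ 3 * ((1 + √(8 / (7 * c1) + 2)) * m ^ 20) :=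
            mul_le_mul_of_nonneg_left h2 (by positivity)
        _ ≤ m ^ 3 * ((c1 / 4 * m) * m ^ 20) := by gcongr
        _ = c1 / 4 * m ^ 24 := by ring
        _ ≤ c1 / 4 * m ^ 30 := by
            apply mul_le_mul_of_nonneg_left _ (by positivity)
            exact pow_le_pow_right₀ hm1 (by norm_num)
  refine ⟨c1 / 4, by positivity, by linarith, ⌈K ^ 60⌉₊, ?_⟩
  intro n hn z hz ω hω
  have hnK : K ^ 60 ≤ n := (Nat.le_ceil _).trans (by exact_mod_cast hn)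
  have hn0 : (0 : ℝ) ≤ n := Nat.cast_nonneg n
  set m : ℝ := (n : ℝ) ^ ((1 : ℝ) / 60) with hmdef
  have hKm : K ≤ m := by
    have h1 : (K ^ 60) ^ ((1 : ℝ) / 60) ≤ m := Real.rpow_le_rpow (by positivity) hnK (by norm_num)
    have h2 : (K ^ 60) ^ ((1 : ℝ) / 60) = K := by
      rw [← Real.rpow_natCast, ← Real.rpow_mul hK0]
      norm_num
    linarith
  obtain ⟨hm16, hmB, hmC⟩ := hcond m hKm
  have hm0 : 0 < m := by linarith
  have hpow : ∀ k : ℕ, m ^ k = (n : ℝ) ^ ((k : ℝ) / 60) := by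
    intro k
    rw [hmdef, ← Real.rpow_natCast, ← Real.rpow_mul hn0]
    congr 1
    ring
  have hm60 : (n : ℝ) = m ^ 60 := by
    rw [hpow]; norm_num
  have hm30 : √(n : ℝ) = m ^ 30 := by
    rw [hm60, show m ^ 60 = (m ^ 30) ^ 2 by ring, Real.sqrt_sq (by positivity)]
  have hm3 : (n : ℝ) ^ ((1 : ℝ) / 20) = m ^ 3 := by
    rw [hpow]; norm_num
  have hm10 : (n : ℝ) ^ (-(1 : ℝ) / 6) = (m ^ 10)⁻¹ := by
    rw [hpow, ← Real.rpow_neg hn0]; norm_num
  obtain ⟨hz1, hz2⟩ := hz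
  rw [hm10] at hz1
  rw [hm30] at hz2
  obtain ⟨hG1, hG2⟩ := hω
  rw [hm3] at hG1 hG2
  have h := WeakAux.core hC0 hc1 hm16 hmB hmC hm60 hz1 hz2 hG1 hG2
  obtain ⟨a1, a2, a3, a4, a5, a6⟩ := h
  have e1 : (c1 / 4)⁻¹ / m ^ 30 = 4 / (c1 * m ^ 30) := by
    rw [inv_div, div_div]
  unfold Weak
  rw [hm30, e1, inv_div]
  exact ⟨a1, a2, a3, a4, a5, a6⟩

end Pool.Agent.Eig
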