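import Pool.Agent.Work.MP_1c1c8a_pr.Center
import Pool.Agent.Work.MP_1c1c8a_pr.GoodProb
import Pool.Agent.Work.MP_1c1c8a_pr.WeakLaw
import Pool.Agent.Work.MP_1c1c8a_pr.Meas

/-! # Removing one row from the two-resolvent matrix -/

namespace Pool.Agent.Eig

open MeasureTheory Filter Topology Matrix

namespace ADiffAux

variable {n : ℕ}

/-- weighted sums -/
theorem wsum_le {η : ℝ} (hη : 0 < η) (τ : Fin n → ℝ) (hτ : ∀ k, |τ k| ≤ 1) (a v : Fin n → ℂ)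
    (hv : ∑ j, ‖v j‖ ^ 2 ≤ (η ^ 2)⁻¹ * ∑ j, ‖a j‖ ^ 2) :
    ‖∑ j, (τ j : ℂ) * (a j * v j)‖ ≤ η⁻¹ * ∑ j, ‖a j‖ ^ 2 := by
  have h1 : ‖∑ j, (τ j : ℂ) * (a j * v j)‖ ≤
      ∑ j, (η⁻¹ / 2 * ‖a j‖ ^ 2 + η / 2 * ‖v j‖ ^ 2) := by
    refine (norm_sum_le _ _).trans (Finset.sum_le_sum fun j _ => ?_)
    rw [norm_mul, norm_mul, Complex.norm_real, Real.norm_eq_abs]
    have h2 : |τ j| * (‖a j‖ * ‖v j‖) ≤ 1 * (‖a j‖ * ‖v j‖) :=
      mul_le_mul_of_nonneg_right (hτ j) (by positivity)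
    have h3 : ‖a j‖ * ‖v j‖ ≤ η⁻¹ / 2 * ‖a j‖ ^ 2 + η / 2 * ‖v j‖ ^ 2 := by
      have h4 : 0 ≤ η / 2 * (η⁻¹ * ‖a j‖ - ‖v j‖) ^ 2 := by positivity
      have h5 : η / 2 * (η⁻¹ * ‖a j‖ - ‖v j‖) ^ 2 =
          η⁻¹ / 2 * ‖a j‖ ^ 2 + η / 2 * ‖v j‖ ^ 2 - ‖a j‖ * ‖v j‖ := by
        field_simp
        ring
      linarith
    linarith
  refine h1.trans ?_
  rw [Finset.sum_add_distrib, ← Finset.mul_sum, ← Finset.mul_sum]
  have h6 : η / 2 * ∑ j, ‖v j‖ ^ 2 ≤ η / 2 * ((η ^ 2)⁻¹ * ∑ j, ‖a j‖ ^ 2) :=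
    mul_le_mul_of_nonneg_left hv (by positivity)
  have h7 : η / 2 * ((η ^ 2)⁻¹ * ∑ j, ‖a j‖ ^ 2) = η⁻¹ / 2 * ∑ j, ‖a j‖ ^ 2 := by
    field_simp
  linarith

theorem cs_le (τ : Fin n → ℝ) (hτ : ∀ k, |τ k| ≤ 1) (a b : Fin n → ℂ) :
    ‖∑ j, (τ j : ℂ) * (a j * b j)‖ ^ 2 ≤ (∑ j, ‖a j‖ ^ 2) * ∑ j, ‖b j‖ ^ 2 := by
  have h1 : ‖∑ j, (τ j : ℂ) * (a j * b j)‖ ≤ ∑ j, ‖a j‖ * ‖b j‖ := by
    refine (norm_sum_le _ _).trans (Finset.sum_le_sum fun j _ => ?_)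
    rw [norm_mul, norm_mul, Complex.norm_real, Real.norm_eq_abs]
    calc |τ j| * (‖a j‖ * ‖b j‖) ≤ 1 * (‖a j‖ * ‖b j‖) :=
        mul_le_mul_of_nonneg_right (hτ j) (by positivity)
      _ = _ := one_mul _
  exact (pow_le_pow_left₀ (norm_nonneg _) h1 2).trans
    (Finset.sum_mul_sq_le_sq_mul_sq Finset.univ (fun j => ‖a j‖) (fun j => ‖b j‖))

/-- the deterministic bound -/
theorem det_bound {z w : ℂ} {η : ℝ} (hη : 0 < η) (hz : |z.im| = η) (hw : |w.im| = η)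
    (p : Sym2 (Fin n) → ℝ × ℝ) (i : Fin n) (τ : Fin n → ℝ) (hτ : ∀ k, |τ k| ≤ 1) :
    ‖∑ j, (τ j : ℂ) * (AA ∅ z w p j j - AA {i} z w p j j)‖ ≤
      (η⁻¹ * (‖Gr ∅ z (fX p) i i‖ * ∑ k, ‖av ∅ z i (fX p) k‖ ^ 2) +
        (‖Gr ∅ z (fX p) i i‖ * ∑ k, ‖av ∅ z i (fX p) k‖ ^ 2) ^ 2 / 2) +
      (η⁻¹ * (‖Gr ∅ w (fY p) i i‖ * ∑ k, ‖av ∅ w i (fY p) k‖ ^ 2) +
        (‖Gr ∅ w (fY p) i i‖ * ∑ k, ‖av ∅ w i (fY p) k‖ ^ 2) ^ 2 / 2) := by
  have hz0 : z.im ≠ 0 := by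
    intro h
    rw [h, abs_zero] at hz
    linarith
  have hw0 : w.im ≠ 0 := by
    intro h
    rw [h, abs_zero] at hw
    linarith
  have hz2 : z.im ^ 2 = η ^ 2 := by rw [← hz, sq_abs]
  have hw2 : w.im ^ 2 = η ^ 2 := by rw [← hw, sq_abs]
  set X := fX p with hX
  set Y := fY p with hY
  set γ := Gr ∅ z X i i with hγ
  set δ := Gr ∅ w Y i i with hδ
  set a : Fin n → ℂ := fun k => av ∅ z i X k with ha
  set b : Fin n → ℂ := fun k => av ∅ w i Y k with hb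
  have hG : ∀ k l, Gr ∅ z X k l = Gr {i} z X k l + γ * a k * a l := by
    intro k l
    have := Gr_update (T := ∅) (z := z) (ω := X) hz0 (i := i) (by simp) k l
    simpa using this
  have hH : ∀ k l, Gr ∅ w Y k l = Gr {i} w Y k l + δ * b k * b l := by
    intro k l
    have := Gr_update (T := ∅) (z := w) (ω := Y) hw0 (i := i) (by simp) k l
    simpa using this
  set v : Fin n → ℂ := fun j => ∑ k, Gr {i} w Y j k * a k with hv
  set v' : Fin n → ℂ := fun j => ∑ k, Gr {i} z X j k * b k with hv'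
  have hdiff : ∀ j, AA ∅ z w p j j - AA {i} z w p j j =
      γ * (a j * v j) + δ * (b j * v' j) + γ * δ * (∑ k, a k * b k) * (a j * b j) := by
    intro j
    unfold AA
    rw [Matrix.mul_apply, Matrix.mul_apply, ← Finset.sum_sub_distrib]
    have h1 : ∀ k, Gr ∅ z (fX p) j k * Gr ∅ w (fY p) k j - Gr {i} z (fX p) j k * Gr {i} w (fY p) k j
        = γ * (a j * (Gr {i} w Y j k * a k)) + δ * (b j * (Gr {i} z X j k * b k)) +
          γ * δ * (a k * b k) * (a j * b j) := by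
      intro k
      rw [← hX, ← hY, hG, hH, Gr_symm (T := {i}) (z := w) (ω := Y) k j]
      ring
    rw [Finset.sum_congr rfl fun k _ => h1 k, Finset.sum_add_distrib, Finset.sum_add_distrib,
      ← Finset.mul_sum, ← Finset.mul_sum, ← Finset.mul_sum, ← Finset.mul_sum, ← Finset.sum_mul,
      ← Finset.mul_sum]
  have hsum : ∑ j, (τ j : ℂ) * (AA ∅ z w p j j - AA {i} z w p j j) =
      γ * (∑ j, (τ j : ℂ) * (a j * v j)) + δ * (∑ j, (τ j : ℂ) * (b j * v' j)) +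
        γ * δ * (∑ k, a k * b k) * (∑ j, (τ j : ℂ) * (a j * b j)) := by
    rw [Finset.mul_sum, Finset.mul_sum, Finset.mul_sum, ← Finset.sum_add_distrib,
      ← Finset.sum_add_distrib]
    refine Finset.sum_congr rfl fun j _ => ?_
    rw [hdiff]
    ring
  set SA := ∑ k, ‖a k‖ ^ 2 with hSA
  set SB := ∑ k, ‖b k‖ ^ 2 with hSB
  have hSA0 : 0 ≤ SA := by positivity
  have hSB0 : 0 ≤ SB := by positivity
  have hvb : ∑ j, ‖v j‖ ^ 2 ≤ (η ^ 2)⁻¹ * SA := by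
    rw [← hw2]
    exact Gr_op hw0 a
  have hvb' : ∑ j, ‖v' j‖ ^ 2 ≤ (η ^ 2)⁻¹ * SB := by
    rw [← hz2]
    exact Gr_op hz0 b
  have t1 := wsum_le hη τ hτ a v hvb
  have t2 := wsum_le hη τ hτ b v' hvb'
  have t3 := cs_le τ hτ a b
  have t4 := cs_le (fun _ => 1) (fun _ => by simp) a b
  simp only [Complex.ofReal_one, one_mul] at t4
  have t5 : ‖∑ k, a k * b k‖ * ‖∑ j, (τ j : ℂ) * (a j * b j)‖ ≤ SA * SB := by
    nlinarith [sq_nonneg (‖∑ k, a k * b k‖ - ‖∑ j, (τ j : ℂ) * (a j * b j)‖)]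
  rw [hsum]
  refine (norm_add_le _ _).trans ?_
  refine (add_le_add (norm_add_le _ _) le_rfl).trans ?_
  rw [norm_mul, norm_mul, norm_mul, norm_mul, norm_mul]
  have u1 : ‖γ‖ * ‖∑ j, (τ j : ℂ) * (a j * v j)‖ ≤ ‖γ‖ * (η⁻¹ * SA) :=
    mul_le_mul_of_nonneg_left t1 (norm_nonneg _)
  have u2 : ‖δ‖ * ‖∑ j, (τ j : ℂ) * (b j * v' j)‖ ≤ ‖δ‖ * (η⁻¹ * SB) :=
    mul_le_mul_of_nonneg_left t2 (norm_nonneg _)
  have u3 : ‖γ‖ * ‖δ‖ * (‖∑ k, a k * b k‖ * ‖∑ j, (τ j : ℂ) * (a j * b j)‖) ≤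
      ‖γ‖ * ‖δ‖ * (SA * SB) := mul_le_mul_of_nonneg_left t5 (by positivity)
  have u4 : ‖γ‖ * ‖δ‖ * (SA * SB) ≤ (‖γ‖ * SA) ^ 2 / 2 + (‖δ‖ * SB) ^ 2 / 2 := by
    nlinarith [sq_nonneg (‖γ‖ * SA - ‖δ‖ * SB)]
  calc ‖γ‖ * ‖∑ j, (τ j : ℂ) * (a j * v j)‖ + ‖δ‖ * ‖∑ j, (τ j : ℂ) * (b j * v' j)‖ +
        ‖γ‖ * ‖δ‖ * ‖∑ k, a k * b k‖ * ‖∑ j, (τ j : ℂ) * (a j * b j)‖
      ≤ ‖γ‖ * (η⁻¹ * SA) + ‖δ‖ * (η⁻¹ * SB) +
        ((‖γ‖ * SA) ^ 2 / 2 + (‖δ‖ * SB) ^ 2 / 2) := by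
        have u5 : ‖γ‖ * ‖δ‖ * ‖∑ k, a k * b k‖ * ‖∑ j, (τ j : ℂ) * (a j * b j)‖ =
          ‖γ‖ * ‖δ‖ * (‖∑ k, a k * b k‖ * ‖∑ j, (τ j : ℂ) * (a j * b j)‖) := by ring
        rw [u5]
        linarith
    _ = _ := by ring

theorem av_conj (z : ℂ) (i : Fin n) (ω : Ent n) (k : Fin n) :
    av ∅ ((starRingEnd ℂ) z) i ω k = (starRingEnd ℂ) (av ∅ z i ω k) := by
  unfold av
  rw [map_add, map_sum]
  congr 1
  · split_ifs <;> simp
  · refine Finset.sum_congr rfl fun l _ => ?_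
    rw [Gr_conj, map_mul, Complex.conj_ofReal]

/-- the function of one matrix -/
noncomputable def psi (z : ℂ) (i : Fin n) (ω : Ent n) : ℝ :=
  |z.im|⁻¹ * (‖Gr ∅ z ω i i‖ * ∑ k, ‖av ∅ z i ω k‖ ^ 2) +
    (‖Gr ∅ z ω i i‖ * ∑ k, ‖av ∅ z i ω k‖ ^ 2) ^ 2 / 2

theorem psi_conj (z : ℂ) (i : Fin n) (ω : Ent n) : psi ((starRingEnd ℂ) z) i ω = psi z i ω := by
  unfold psi
  rw [Gr_conj]
  simp only [av_conj, RCLike.norm_conj, Complex.conj_im, abs_neg]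

theorem PB_psi {z : ℂ} (hz : z.im ≠ 0) (i : Fin n) : PB (fun ω : Ent n => psi z i ω) := by
  have h1 : PB (fun ω : Ent n => ‖Gr ∅ z ω i i‖ * ∑ k, ‖av ∅ z i ω k‖ ^ 2) :=
    (PB.Gr hz i i).norm.mul (PBW.sum one_le_wt _ fun k _ => (PB.av hz i k).norm.pow 2)
  have h2 := ((PBW.const one_le_wt (|z.im|⁻¹ : ℝ)).mul h1).add
    ((h1.pow 2).mul (PBW.const one_le_wt ((2:ℝ)⁻¹)))
  unfold psi
  simpa only [div_eq_mul_inv] using h2

theorem psi_nonneg (z : ℂ) (i : Fin n) (ω : Ent n) : 0 ≤ psi z i ω := by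
  unfold psi
  positivity

theorem meas_bad {z : ℂ} (hz : z.im ≠ 0) : MeasurableSet {ω : Ent n | ¬ Good z ω} := by
  have h : {ω : Ent n | Good z ω} =
      (⋂ i, {ω : Ent n | ‖xi ∅ z i ω‖ ≤ (n : ℝ) ^ ((1 : ℝ) / 20) * (1 + √(NN {i} z ω))}) ∩
      (⋂ i, ⋂ j, ⋂ (_ : i ≠ j), {ω : Ent n | ‖xi {i} z j ω‖ ≤
        (n : ℝ) ^ ((1 : ℝ) / 20) * (1 + √(NN {i, j} z ω))}) := by
    ext ω
    simp [Good]
  have hcl : IsClosed {ω : Ent n | Good z ω} := by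
    rw [h]
    refine IsClosed.inter (isClosed_iInter fun i => ?_)
      (isClosed_iInter fun i => isClosed_iInter fun j => isClosed_iInter fun _ => ?_)
    · exact isClosed_le (PB.xi hz i).cont.norm
        (continuous_const.mul (continuous_const.add (PB.NN hz).cont.sqrt))
    · exact isClosed_le (PB.xi hz j).cont.norm
        (continuous_const.mul (continuous_const.add (PB.NN hz).cont.sqrt))
  exact hcl.measurableSet.compl

/-- powers of `t = n^(1/6)` -/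
theorem exists_t (n : ℕ) (hn : 1 ≤ n) : ∃ t : ℝ, 1 ≤ t ∧ t ^ 6 = n ∧
    (n : ℝ) ^ (-(1 : ℝ) / 6) = t⁻¹ ∧ (n : ℝ) ^ ((1 : ℝ) / 3) = t ^ 2 ∧
    (n : ℝ) ^ ((2 : ℝ) / 3) = t ^ 4 ∧ √(n : ℝ) = t ^ 3 := by
  have hn' : (1 : ℝ) ≤ n := by exact_mod_cast hn
  have hn0 : (0 : ℝ) < n := by linarith
  refine ⟨(n : ℝ) ^ ((1 : ℝ) / 6), ?_, ?_, ?_, ?_, ?_, ?_⟩
  · exact Real.one_le_rpow hn' (by norm_num)
  · rw [← Real.rpow_natCast, ← Real.rpow_mul hn0.le]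
    norm_num
  · rw [← Real.rpow_neg hn0.le]
    congr 1
    norm_num
  · rw [← Real.rpow_natCast, ← Real.rpow_mul hn0.le]
    norm_num
  · rw [← Real.rpow_natCast, ← Real.rpow_mul hn0.le]
    norm_num
  · rw [Real.sqrt_eq_rpow, ← Real.rpow_natCast, ← Real.rpow_mul hn0.le]
    norm_num

theorem dom_zc {K : ℝ} (hK : 1 ≤ K) {n : ℕ} (hn : 1 ≤ n) (hnK : K ≤ √(n : ℝ)) :
    Dom 3 n (zc K n) := by
  obtain ⟨t, ht1, ht6, htm, _, _, ht3⟩ := exists_t n hn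
  have ht0 : 0 < t := by linarith
  refine ⟨?_, ?_⟩
  · simp only [zc]
    rw [htm]
    have : 0 < t⁻¹ := by positivity
    nlinarith
  · have h1 : ‖zc K n‖ ≤ |(zc K n).re| + |(zc K n).im| := Complex.norm_le_abs_re_add_abs_im _
    have h2 : |(zc K n).re| = 2 * √(n : ℝ) := by
      simp only [zc]
      exact abs_of_nonneg (by positivity)
    have h3 : |(zc K n).im| ≤ √(n : ℝ) := by
      simp only [zc]
      rw [htm, abs_of_nonneg (by positivity)]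
      have h4 : t⁻¹ ≤ 1 := inv_le_one_of_one_le₀ ht1
      calc K * t⁻¹ ≤ K * 1 := by gcongr
        _ = K := mul_one K
        _ ≤ _ := hnK
    linarith

/-- second moment of `1 + N^(i)` at the edge -/
theorem NN_mom (b : ℝ) : ∃ K0 : ℝ, 1 ≤ K0 ∧ ∀ K ≥ K0, ∃ C : ℝ, 0 ≤ C ∧ ∃ n0 : ℕ, 1 ≤ n0 ∧
    ∀ n ≥ n0, ∀ μ : Sym2 (Fin n) → Measure ℝ, (∀ e, GoodLaw b (μ e)) → ∀ i : Fin n,
    ∫ ω, (1 + NN {i} (zc K n) ω) ^ 2 ∂(Measure.pi μ) ≤ C * (n : ℝ) ^ ((2 : ℝ) / 3) ∧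
    ∫ ω, (1 + NN {i} (zc K n) ω) ∂(Measure.pi μ) ≤ C * (n : ℝ) ^ ((1 : ℝ) / 3) := by
  obtain ⟨K0, C, hK0, hC0, hcb⟩ := center_bound b
  refine ⟨K0, hK0, fun K hK => ?_⟩
  obtain ⟨n0, hn0⟩ := hcb K hK
  have hK1 : 1 ≤ K := hK0.trans hK
  refine ⟨3 * (2 + C) + 1, by positivity, max n0 1, le_max_right _ _, ?_⟩
  intro n hn μ hμ i
  have hn1 : 1 ≤ n := (le_max_right _ _).trans hn
  have hprob : ∀ e, IsProbabilityMeasure (μ e) := fun e => (hμ e).prob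
  obtain ⟨t, ht1, ht6, htm, ht2, ht4, ht3⟩ := exists_t n hn1
  have ht0 : 0 < t := by linarith
  set z := zc K n with hz
  have hzim : z.im = K * t⁻¹ := by
    rw [hz]
    simp only [zc]
    rw [htm]
  have hzpos : 0 < z.im := by rw [hzim]; positivity
  have hz0 : z.im ≠ 0 := hzpos.ne'
  have hnR : (0 : ℝ) < (n : ℝ) := by exact_mod_cast hn1
  obtain ⟨g, hg, hgi⟩ := exists_root hnR hzpos
  have hcb1 := (hn0 n ((le_max_left _ _).trans hn) μ hμ g (by rw [← hz]; simpa using hg) hgi).1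
  rw [← hz, ht4] at hcb1
  have hcb2 : ∫ ω, (NN ∅ z ω) ^ 2 ∂(Measure.pi μ) ≤ C * t ^ 4 := by
    refine hcb1.trans ?_
    rw [div_le_iff₀ (by linarith)]
    have : 0 ≤ C * t ^ 4 := by positivity
    nlinarith
  -- pointwise
  have hinv : (z.im ^ 2)⁻¹ ≤ t ^ 2 := by
    rw [hzim, mul_pow, inv_pow, mul_inv, inv_inv]
    have : (K ^ 2)⁻¹ ≤ 1 := inv_le_one_of_one_le₀ (one_le_pow₀ hK1)
    calc (K ^ 2)⁻¹ * t ^ 2 ≤ 1 * t ^ 2 := by gcongr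
      _ = t ^ 2 := one_mul _
  have hpt : ∀ ω, (1 + NN {i} z ω) ^ 2 ≤ 3 * (1 + (NN ∅ z ω) ^ 2 + t ^ 4) := by
    intro ω
    have h1 := NN_insert_le (T := ∅) (ω := ω) hz0 (i := i) (by simp)
    have h2 : NN {i} z ω ≤ NN ∅ z ω + t ^ 2 := by
      have h3 : NN {i} z ω ≤ NN ∅ z ω + (z.im ^ 2)⁻¹ := by simpa using h1
      linarith
    have h4 := NN_nonneg (T := {i}) (z := z) ω
    have h5 := NN_nonneg (T := ∅) (z := z) ω
    have h6 : (1 + NN {i} z ω) ^ 2 ≤ (1 + NN ∅ z ω + t ^ 2) ^ 2 :=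
      pow_le_pow_left₀ (by linarith) (by linarith) 2
    nlinarith [sq_nonneg (1 - NN ∅ z ω), sq_nonneg (1 - t ^ 2), sq_nonneg (NN ∅ z ω - t ^ 2)]
  have hI0 : Integrable (fun ω : Ent n => (NN ∅ z ω) ^ 2) (Measure.pi μ) :=
    PB.int hμ ((PB.NN hz0).pow 2)
  have hI1 : Integrable (fun ω : Ent n => NN {i} z ω) (Measure.pi μ) := (PB.NN hz0).int hμ
  have hI2 : Integrable (fun ω : Ent n => (1 + NN {i} z ω) ^ 2) (Measure.pi μ) :=
    PB.int hμ (((PBW.const one_le_wt (1:ℝ)).add (PB.NN hz0)).pow 2)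
  have hmaj : Integrable (fun ω : Ent n => 3 * (1 + (NN ∅ z ω) ^ 2 + t ^ 4)) (Measure.pi μ) :=
    ((((integrable_const (1:ℝ)).add hI0).add (integrable_const _)).const_mul 3)
  have hE2 : ∫ ω, (1 + NN {i} z ω) ^ 2 ∂(Measure.pi μ) ≤ 3 * (2 + C) * t ^ 4 := by
    refine (integral_mono hI2 hmaj hpt).trans ?_
    have e1 := integral_add ((integrable_const (μ := Measure.pi μ) (1:ℝ)).add hI0)
      (integrable_const (t ^ 4))
    have e2 := integral_add (integrable_const (μ := Measure.pi μ) (1:ℝ)) hI0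
    simp only [Pi.add_apply] at e1
    rw [integral_const_mul, e1, e2]
    simp only [integral_const, probReal_univ, smul_eq_mul, one_mul]
    have h7 : 1 ≤ t ^ 4 := one_le_pow₀ ht1
    nlinarith
  have h7 : 0 ≤ t ^ 4 := by positivity
  constructor
  · rw [ht4]
    linarith
  · rw [ht2]
    have hpt2 : ∀ ω, 1 + NN {i} z ω ≤ t ^ 2 / 2 + (t ^ 2)⁻¹ / 2 * (1 + NN {i} z ω) ^ 2 := by
      intro ω
      have h8 : 0 ≤ (t ^ 2)⁻¹ / 2 * ((1 + NN {i} z ω) - t ^ 2) ^ 2 := by positivity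
      have h9 : (t ^ 2)⁻¹ / 2 * ((1 + NN {i} z ω) - t ^ 2) ^ 2 =
          t ^ 2 / 2 + (t ^ 2)⁻¹ / 2 * (1 + NN {i} z ω) ^ 2 - (1 + NN {i} z ω) := by
        field_simp
        ring
      linarith
    have hmaj2 : Integrable (fun ω : Ent n =>
        t ^ 2 / 2 + (t ^ 2)⁻¹ / 2 * (1 + NN {i} z ω) ^ 2) (Measure.pi μ) :=
      (integrable_const _).add (hI2.const_mul _)
    refine (integral_mono ((integrable_const (1:ℝ)).add hI1) hmaj2 hpt2).trans ?_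
    have e3 := integral_add (integrable_const (μ := Measure.pi μ) (t ^ 2 / 2))
      (hI2.const_mul ((t ^ 2)⁻¹ / 2))
    rw [e3, integral_const_mul]
    simp only [integral_const, probReal_univ, smul_eq_mul, one_mul]
    have h10 : (t ^ 2)⁻¹ / 2 * ∫ ω, (1 + NN {i} z ω) ^ 2 ∂(Measure.pi μ) ≤
        (t ^ 2)⁻¹ / 2 * (3 * (2 + C) * t ^ 4) := by gcongr
    have h11 : (t ^ 2)⁻¹ / 2 * (3 * (2 + C) * t ^ 4) = 3 * (2 + C) / 2 * t ^ 2 := by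
      field_simp
    have h12 : 0 ≤ t ^ 2 := by positivity
    nlinarith

theorem psi_int (b : ℝ) : ∃ K0 : ℝ, 1 ≤ K0 ∧ ∀ K ≥ K0, ∃ C : ℝ, 0 ≤ C ∧ ∃ n0 : ℕ, 1 ≤ n0 ∧
    ∀ n ≥ n0, ∀ μ : Sym2 (Fin n) → Measure ℝ, (∀ e, GoodLaw b (μ e)) → ∀ i : Fin n,
    ∫ ω, psi (zc K n) i ω ∂(Measure.pi μ) ≤ C := by
  obtain ⟨K0, hK0, hNN⟩ := NN_mom b
  obtain ⟨c, hc0, hc1, nw, hweak⟩ := weak_law 3 (by norm_num)
  obtain ⟨Cg, hCg0, hgood⟩ := good_prob b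
  obtain ⟨C1, hC10, hav1⟩ := av_mom b 1
  obtain ⟨C2, hC20, hav2⟩ := av_mom b 2
  refine ⟨K0, hK0, fun K hK => ?_⟩
  obtain ⟨CN, hCN0, nN, hnN1, hN⟩ := hNN K hK
  have hK1 : 1 ≤ K := hK0.trans hK
  refine ⟨c⁻¹ * (C1 * CN) + (c⁻¹) ^ 2 / 2 * (C2 * CN) + 2 * Cg, by positivity,
    max (max nw nN) ⌈K ^ 2⌉₊, (hnN1.trans (le_max_right _ _)).trans (le_max_left _ _), ?_⟩
  intro n hn μ hμ i
  have hnw : nw ≤ n := ((le_max_left _ _).trans (le_max_left _ _)).trans hn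
  have hnN : nN ≤ n := ((le_max_right _ _).trans (le_max_left _ _)).trans hn
  have hn1 : 1 ≤ n := hnN1.trans hnN
  have hnK : K ≤ √(n : ℝ) := by
    refine Real.le_sqrt_of_sq_le ?_
    calc K ^ 2 ≤ ⌈K ^ 2⌉₊ := Nat.le_ceil _
      _ ≤ n := by exact_mod_cast (le_max_right _ _).trans hn
  have hprob : ∀ e, IsProbabilityMeasure (μ e) := fun e => (hμ e).prob
  obtain ⟨t, ht1, ht6, htm, ht2, ht4, ht3⟩ := exists_t n hn1
  have ht0 : 0 < t := by linarith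
  set z := zc K n with hz
  have hzim : z.im = K * t⁻¹ := by
    rw [hz]
    simp only [zc]
    rw [htm]
  have hzpos : 0 < z.im := by rw [hzim]; positivity
  have hz0 : z.im ≠ 0 := hzpos.ne'
  have hinv : |z.im|⁻¹ ≤ t := by
    rw [abs_of_pos hzpos, hzim, mul_inv, inv_inv]
    have : K⁻¹ ≤ 1 := inv_le_one_of_one_le₀ hK1
    calc K⁻¹ * t ≤ 1 * t := by gcongr
      _ = t := one_mul _
  have hinv0 : 0 ≤ |z.im|⁻¹ := by positivity
  set A : Ent n → ℝ := fun ω => ∑ k, ‖av ∅ z i ω k‖ ^ 2 with hA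
  have hA0 : ∀ ω, 0 ≤ A ω := fun ω => by rw [hA]; positivity
  have hPA : PB A := PBW.sum one_le_wt _ fun k _ => (PB.av hz0 i k).norm.pow 2
  set B : Set (Ent n) := {ω | ¬ Good z ω} with hB
  have hBm : MeasurableSet B := meas_bad hz0
  have hpt : ∀ ω, psi z i ω ≤ (t * (c⁻¹ / t ^ 3)) * A ω + ((c⁻¹ / t ^ 3) ^ 2 / 2) * (A ω) ^ 2 +
      B.indicator (fun _ => 2 * t ^ 2) ω := by
    intro ω
    unfold psi
    by_cases hω : Good z ω
    · have hW := hweak n hnw z (dom_zc hK1 hn1 hnK) ω hω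
      have h1 : ‖Gr ∅ z ω i i‖ ≤ c⁻¹ / t ^ 3 := by
        have := hW.2.1 i
        rwa [ht3] at this
      have h2 : B.indicator (fun _ => 2 * t ^ 2) ω = 0 := by
        rw [Set.indicator_of_notMem]
        rw [hB]
        simpa using hω
      rw [h2, add_zero]
      have h3 : ‖Gr ∅ z ω i i‖ * A ω ≤ c⁻¹ / t ^ 3 * A ω :=
        mul_le_mul_of_nonneg_right h1 (hA0 ω)
      have h4 : |z.im|⁻¹ * (‖Gr ∅ z ω i i‖ * A ω) ≤ t * (c⁻¹ / t ^ 3 * A ω) := by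
        have h5 : 0 ≤ ‖Gr ∅ z ω i i‖ * A ω := mul_nonneg (norm_nonneg _) (hA0 ω)
        exact mul_le_mul hinv h3 h5 ht0.le
      have h6 : (‖Gr ∅ z ω i i‖ * A ω) ^ 2 ≤ (c⁻¹ / t ^ 3 * A ω) ^ 2 :=
        pow_le_pow_left₀ (mul_nonneg (norm_nonneg _) (hA0 ω)) h3 2
      have h7 : (c⁻¹ / t ^ 3 * A ω) ^ 2 = (c⁻¹ / t ^ 3) ^ 2 * (A ω) ^ 2 := by ring
      calc |z.im|⁻¹ * (‖Gr ∅ z ω i i‖ * A ω) + (‖Gr ∅ z ω i i‖ * A ω) ^ 2 / 2
          ≤ t * (c⁻¹ / t ^ 3 * A ω) + (c⁻¹ / t ^ 3) ^ 2 * (A ω) ^ 2 / 2 := by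
            rw [← h7]
            linarith
        _ = _ := by ring
    · have h2 : B.indicator (fun _ => 2 * t ^ 2) ω = 2 * t ^ 2 := by
        rw [Set.indicator_of_mem]
        exact hω
      rw [h2]
      have h3 : ‖Gr ∅ z ω i i‖ * A ω ≤ |z.im|⁻¹ :=
        Gr_av_le (T := ∅) (ω := ω) hz0 (i := i) (by simp)
      have h3' : ‖Gr ∅ z ω i i‖ * A ω ≤ t := h3.trans hinv
      have h30 : 0 ≤ ‖Gr ∅ z ω i i‖ * A ω := mul_nonneg (norm_nonneg _) (hA0 ω)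
      have h4 : |z.im|⁻¹ * (‖Gr ∅ z ω i i‖ * A ω) ≤ t * t :=
        mul_le_mul hinv h3' h30 ht0.le
      have h5 : (‖Gr ∅ z ω i i‖ * A ω) ^ 2 ≤ t ^ 2 := pow_le_pow_left₀ h30 h3' 2
      have h6 : 0 ≤ (t * (c⁻¹ / t ^ 3)) * A ω := mul_nonneg (by positivity) (hA0 ω)
      have h7 : 0 ≤ ((c⁻¹ / t ^ 3) ^ 2 / 2) * (A ω) ^ 2 := by positivity
      have h8 : |z.im|⁻¹ * (‖Gr ∅ z ω i i‖ * A ω) + (‖Gr ∅ z ω i i‖ * A ω) ^ 2 / 2 ≤
          2 * t ^ 2 := by nlinarith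
      linarith
  have hIA : Integrable A (Measure.pi μ) := hPA.int hμ
  have hIA2 : Integrable (fun ω => (A ω) ^ 2) (Measure.pi μ) := PB.int hμ (hPA.pow 2)
  have hIB : Integrable (B.indicator (fun _ => 2 * t ^ 2)) (Measure.pi μ) :=
    (integrable_const _).indicator hBm
  have hmaj : Integrable (fun ω => (t * (c⁻¹ / t ^ 3)) * A ω +
      ((c⁻¹ / t ^ 3) ^ 2 / 2) * (A ω) ^ 2 + B.indicator (fun _ => 2 * t ^ 2) ω) (Measure.pi μ) :=
    ((hIA.const_mul _).add (hIA2.const_mul _)).add hIB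
  refine (integral_mono ((PB_psi hz0 i).int hμ) hmaj hpt).trans ?_
  have e1 := integral_add ((hIA.const_mul (t * (c⁻¹ / t ^ 3))).add
    (hIA2.const_mul ((c⁻¹ / t ^ 3) ^ 2 / 2))) hIB
  have e2 := integral_add (hIA.const_mul (t * (c⁻¹ / t ^ 3)))
    (hIA2.const_mul ((c⁻¹ / t ^ 3) ^ 2 / 2))
  simp only [Pi.add_apply] at e1
  rw [e1, e2, integral_const_mul, integral_const_mul]
  have hA1 : ∫ ω, A ω ∂(Measure.pi μ) ≤ C1 * (CN * t ^ 2) := by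
    have h1 := hav1 n μ hμ ∅ i (by simp) z hz0
    simp only [pow_one, insert_empty_eq] at h1
    refine h1.trans (mul_le_mul_of_nonneg_left ?_ hC10)
    have h2 := (hN n hnN μ hμ i).2
    rw [ht2] at h2
    exact h2
  have hA2 : ∫ ω, (A ω) ^ 2 ∂(Measure.pi μ) ≤ C2 * (CN * t ^ 4) := by
    have h1 := hav2 n μ hμ ∅ i (by simp) z hz0
    simp only [insert_empty_eq] at h1
    refine h1.trans (mul_le_mul_of_nonneg_left ?_ hC20)
    have h2 := (hN n hnN μ hμ i).1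
    rw [ht4] at h2
    exact h2
  have hB1 : ∫ ω, B.indicator (fun _ => 2 * t ^ 2) ω ∂(Measure.pi μ) ≤ 2 * Cg := by
    rw [integral_indicator hBm]
    simp only [integral_const, smul_eq_mul]
    have h1 := hgood n μ hn1 hμ z hz0
    have h2 : (Measure.pi μ).real B ≤ Cg * ((n : ℝ) ^ 100)⁻¹ := h1
    have h3 : ((n : ℝ) ^ 100)⁻¹ ≤ (t ^ 2)⁻¹ := by
      rw [← ht6]
      apply inv_anti₀ (by positivity)
      rw [← pow_mul]
      exact pow_le_pow_right₀ ht1 (by norm_num)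
    have h4 : (Measure.pi μ).real B ≤ Cg * (t ^ 2)⁻¹ :=
      h2.trans (mul_le_mul_of_nonneg_left h3 hCg0)
    have h5 : (Measure.pi μ).real B * (2 * t ^ 2) ≤ Cg * (t ^ 2)⁻¹ * (2 * t ^ 2) :=
      mul_le_mul_of_nonneg_right h4 (by positivity)
    have h6 : Cg * (t ^ 2)⁻¹ * (2 * t ^ 2) = 2 * Cg := by
      field_simp
    simp only [Measure.real, Measure.restrict_apply_univ] at *
    linarith
  have k1 : t * (c⁻¹ / t ^ 3) * ∫ ω, A ω ∂(Measure.pi μ) ≤ c⁻¹ * (C1 * CN) := by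
    refine (mul_le_mul_of_nonneg_left hA1 (by positivity)).trans (le_of_eq ?_)
    field_simp
  have k2 : (c⁻¹ / t ^ 3) ^ 2 / 2 * ∫ ω, (A ω) ^ 2 ∂(Measure.pi μ) ≤
      (c⁻¹) ^ 2 / 2 * (C2 * CN) := by
    refine (mul_le_mul_of_nonneg_left hA2 (by positivity)).trans ?_
    have h1 : (c⁻¹ / t ^ 3) ^ 2 / 2 * (C2 * (CN * t ^ 4)) =
        (c⁻¹) ^ 2 / 2 * (C2 * CN) * (t ^ 2)⁻¹ := by
      field_simp
    rw [h1]
    have h2 : (t ^ 2)⁻¹ ≤ 1 := inv_le_one_of_one_le₀ (one_le_pow₀ ht1)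
    have h3 : 0 ≤ (c⁻¹) ^ 2 / 2 * (C2 * CN) := by positivity
    nlinarith
  linarith

end ADiffAux

open ADiffAux

theorem AA_diff (b : ℝ) : ∃ K0 : ℝ, 1 ≤ K0 ∧ ∀ K ≥ K0, ∃ C : ℝ, 0 ≤ C ∧ ∃ n0 : ℕ, ∀ n ≥ n0,
    ∀ (σ : Sym2 (Fin n) → ℝ) (ν : Sym2 (Fin n) → Measure (ℝ × ℝ)),
    (∀ e, GoodPair b (σ e) (ν e)) → ∀ w : ℂ,
    (w = zc K n ∨ w = (starRingEnd ℂ) (zc K n)) → ∀ i : Fin n,
    ∫ p, ‖∑ j, (σ s(i, j) : ℂ) * (AA ∅ (zc K n) w p j j - AA {i} (zc K n) w p j j)‖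
      ∂(Measure.pi ν) ≤ C := by
  obtain ⟨K0, hK0, hpsi⟩ := psi_int b
  refine ⟨K0, hK0, fun K hK => ?_⟩
  obtain ⟨C, hC0, n0, hn01, hpsi⟩ := hpsi K hK
  refine ⟨C + C, by positivity, n0, ?_⟩
  intro n hn σ ν hν w hw i
  have hn1 : 1 ≤ n := hn01.trans hn
  have hK1 : 1 ≤ K := hK0.trans hK
  set z := zc K n with hz
  have hzpos : 0 < z.im := by
    rw [hz]
    simp only [zc]
    have : (0 : ℝ) < (n : ℝ) := by exact_mod_cast hn1
    positivity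
  have hz0 : z.im ≠ 0 := hzpos.ne'
  have hwim : |w.im| = |z.im| := by
    rcases hw with rfl | rfl
    · rfl
    · rw [Complex.conj_im, abs_neg]
  have hw0 : w.im ≠ 0 := by
    intro h
    rw [h, abs_zero] at hwim
    exact hz0 (abs_eq_zero.1 hwim.symm)
  have hprob : ∀ e, IsProbabilityMeasure (ν e) := fun e => (hν e).isProb
  have hσ : ∀ k, |σ s(i, k)| ≤ 1 := by
    intro k
    have h := hν s(i, k)
    have i1 : Integrable (fun p : ℝ × ℝ => p.1 ^ 2) (ν s(i, k)) := by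
      obtain ⟨C', _, hC'⟩ := abs_mom b 2
      have h1 := (hC' _ h.fst).1
      have h2 := (integrable_map_measure (g := fun x : ℝ => |x| ^ 2)
        (continuous_abs.pow 2).aestronglyMeasurable measurable_fst.aemeasurable).1 h1
      simpa [Function.comp_def] using h2
    have i2 : Integrable (fun p : ℝ × ℝ => p.2 ^ 2) (ν s(i, k)) := by
      obtain ⟨C', _, hC'⟩ := abs_mom b 2
      have h1 := (hC' _ h.snd).1
      have h2 := (integrable_map_measure (g := fun x : ℝ => |x| ^ 2)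
        (continuous_abs.pow 2).aestronglyMeasurable measurable_snd.aemeasurable).1 h1
      simpa [Function.comp_def] using h2
    have v1 : ∫ q, q.1 ^ 2 ∂(ν s(i, k)) = 1 := by
      rw [← h.fst.var]
      exact (integral_map (f := fun x : ℝ => x ^ 2) measurable_fst.aemeasurable
        (continuous_pow 2).aestronglyMeasurable).symm
    have v2 : ∫ q, q.2 ^ 2 ∂(ν s(i, k)) = 1 := by
      rw [← h.snd.var]
      exact (integral_map (f := fun x : ℝ => x ^ 2) measurable_snd.aemeasurable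
        (continuous_pow 2).aestronglyMeasurable).symm
    have i3 : Integrable (fun p : ℝ × ℝ => (p.1 ^ 2 + p.2 ^ 2) / 2) (ν s(i, k)) :=
      (i1.add i2).div_const 2
    have h3 : ∫ p, (p.1 ^ 2 + p.2 ^ 2) / 2 ∂(ν s(i, k)) = 1 := by
      rw [integral_div, integral_add i1 i2, v1, v2]
      norm_num
    rw [← h.cov, ← h3]
    refine (abs_integral_le_integral_abs).trans ?_
    refine integral_mono_of_nonneg (Filter.Eventually.of_forall fun _ => abs_nonneg _) i3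
      (Filter.Eventually.of_forall fun p => ?_)
    simp only
    rw [abs_le]
    constructor <;> nlinarith [sq_nonneg (p.1 - p.2), sq_nonneg (p.1 + p.2)]
  have hpsiw : ∀ ω : Ent n, psi w i ω = psi z i ω := by
    intro ω
    rcases hw with rfl | rfl
    · rfl
    · exact psi_conj z i ω
  have hpt : ∀ p : Sym2 (Fin n) → ℝ × ℝ,
      ‖∑ j, (σ s(i, j) : ℂ) * (AA ∅ z w p j j - AA {i} z w p j j)‖ ≤
        psi z i (fX p) + psi z i (fY p) := by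
    intro p
    have h := det_bound (z := z) (w := w) (η := |z.im|) (abs_pos.2 hz0) rfl hwim p i
      (fun k => σ s(i, k)) hσ
    rw [← hpsiw (fY p)]
    refine h.trans (le_of_eq ?_)
    unfold psi
    rw [hwim]
  have hPX : PBP (fun p : Sym2 (Fin n) → ℝ × ℝ => psi z i (fX p)) := (PB_psi hz0 i).comp_fX
  have hPY : PBP (fun p : Sym2 (Fin n) → ℝ × ℝ => psi z i (fY p)) := (PB_psi hz0 i).comp_fY
  have hIX := hPX.int hν
  have hIY := hPY.int hν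
  refine (integral_mono_of_nonneg (Filter.Eventually.of_forall fun _ => norm_nonneg _)
    (hIX.add hIY) (Filter.Eventually.of_forall hpt)).trans ?_
  have e1 := integral_add hIX hIY
  simp only [Pi.add_apply] at e1 ⊢
  rw [e1]
  have hX : ∫ p, psi z i (fX p) ∂(Measure.pi ν) =
      ∫ ω, psi z i ω ∂(Measure.pi (fun e => (ν e).map Prod.fst)) := by
    rw [← map_fX hν]
    exact (integral_map continuous_fX.measurable.aemeasurable
      (PB_psi hz0 i).cont.aestronglyMeasurable).symm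
  have hY : ∫ p, psi z i (fY p) ∂(Measure.pi ν) =
      ∫ ω, psi z i ω ∂(Measure.pi (fun e => (ν e).map Prod.snd)) := by
    rw [← map_fY hν]
    exact (integral_map continuous_fY.measurable.aemeasurable
      (PB_psi hz0 i).cont.aestronglyMeasurable).symm
  rw [hX, hY]
  exact add_le_add (hpsi n hn _ (fun e => (hν e).fst) i) (hpsi n hn _ (fun e => (hν e).snd) i)

end Pool.Agent.Eig
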