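import Pool.Agent.Work.MP_1c1c8a_pr.Defs

/-! # The quadratic equation -/

namespace Pool.Agent.Eig

open MeasureTheory Filter Topology Matrix

section Quad

theorem exists_root {n : ℝ} (hn : 0 < n) {z : ℂ} (hz : 0 < z.im) :
    ∃ g : ℂ, g * (z - g) = n ∧ g.im < 0 := by
  obtain ⟨δ, hδ⟩ := IsAlgClosed.exists_pow_nat_eq (z ^ 2 - 4 * n) (n := 2) (by norm_num)
  by_cases h1 : ((z - δ) / 2).im < 0
  · exact ⟨(z - δ) / 2, by linear_combination (-1 / 4 : ℂ) * hδ, h1⟩
  by_cases h2 : ((z + δ) / 2).im < 0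
  · exact ⟨(z + δ) / 2, by linear_combination (-1 / 4 : ℂ) * hδ, h2⟩
  exfalso
  push Not at h1 h2
  set g1 := (z - δ) / 2 with hg1
  set g2 := (z + δ) / 2 with hg2
  have hs : g1 + g2 = z := by rw [hg1, hg2]; ring
  have hp : g1 * g2 = n := by rw [hg1, hg2]; linear_combination (-1 / 4 : ℂ) * hδ
  have hre := congrArg Complex.re hp
  have him := congrArg Complex.im hp
  have hsi := congrArg Complex.im hs
  simp only [Complex.mul_re, Complex.mul_im, Complex.ofReal_re, Complex.ofReal_im,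
    Complex.add_im] at hre him hsi
  have hb : 0 ≤ g1.im * g2.im := mul_nonneg h1 h2
  have ha : 0 < g1.re * g2.re := by linarith
  have h3 : g1.re * g2.im * (g2.re * g1.im) ≤ 0 := by
    have : g1.re * g2.im = -(g1.im * g2.re) := by linarith
    rw [this]; nlinarith [sq_nonneg (g1.im * g2.re)]
  have h4 : 0 ≤ (g1.re * g2.re) * (g1.im * g2.im) := by positivity
  have h5 : g1.im * g2.im = 0 := by
    by_contra hne
    have : 0 < g1.im * g2.im := lt_of_le_of_ne hb (Ne.symm hne)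
    nlinarith [mul_pos ha this]
  rcases mul_eq_zero.1 h5 with h | h
  · have h6 : g1.re * g2.im = 0 := by rw [h] at him; linarith
    have h7 : g1.re ≠ 0 := fun hh => by rw [hh] at ha; simp at ha
    have h8 := (mul_eq_zero.1 h6).resolve_left h7
    linarith
  · have h6 : g1.im * g2.re = 0 := by rw [h] at him; linarith
    have h7 : g2.re ≠ 0 := fun hh => by rw [hh] at ha; simp at ha
    have h8 := (mul_eq_zero.1 h6).resolve_right h7
    linarith

variable {n : ℝ} {z g : ℂ}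

theorem root_norm (hn : 0 < n) (hz : 0 < z.im) (hg : g * (z - g) = n) (hi : g.im < 0) :
    ‖g‖ ^ 2 ≤ n := by
  have hre := congrArg Complex.re hg
  have him := congrArg Complex.im hg
  simp only [Complex.mul_re, Complex.mul_im, Complex.ofReal_re, Complex.ofReal_im,
    Complex.sub_im, Complex.sub_re] at hre him
  rw [← Complex.normSq_eq_norm_sq, Complex.normSq_apply]
  have key : -g.im * n = (g.re * g.re + g.im * g.im) * (z.im - g.im) := by
    linear_combination g.im * hre - g.re * him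
  have h1 : -g.im * (g.re * g.re + g.im * g.im) ≤ -g.im * n := by
    rw [key]
    nlinarith [mul_nonneg (mul_self_nonneg g.re) hz.le, mul_nonneg (mul_self_nonneg g.im) hz.le]
  exact le_of_mul_le_mul_left h1 (by linarith)

namespace QuadAux

lemma factor (hg : g * (z - g) = n) (s : ℂ) :
    ‖s - g‖ * ‖s - (z - g)‖ = ‖s * (z - s) - n‖ := by
  rw [← norm_mul, ← norm_neg (s * (z - s) - n)]
  congr 1
  linear_combination hg

end QuadAux

theorem stab (hz : 0 < z.im) (hg : g * (z - g) = n) (hi : g.im < 0) {s : ℂ} (hs : s.im ≤ 0) :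
    ‖s - g‖ * (z.im - g.im) ≤ ‖s * (z - s) - n‖ := by
  rw [← QuadAux.factor hg s]
  refine mul_le_mul_of_nonneg_left ?_ (norm_nonneg _)
  have h := Complex.abs_im_le_norm (s - (z - g))
  have h2 := neg_abs_le (s - (z - g)).im
  simp only [Complex.sub_im] at h h2
  linarith

theorem stab2 (hg : g * (z - g) = n) {s : ℂ} (hs : ‖s - g‖ ≤ ‖z - 2 * g‖ / 2) :
    ‖s - g‖ * ‖z - 2 * g‖ ≤ 2 * ‖s * (z - s) - n‖ := by
  rw [← QuadAux.factor hg s]
  have h1 : ‖z - 2 * g‖ ≤ ‖s - g‖ + ‖s - (z - g)‖ := by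
    have : z - 2 * g = (s - g) - (s - (z - g)) := by ring
    calc ‖z - 2 * g‖ = ‖(s - g) - (s - (z - g))‖ := by rw [← this]
      _ ≤ _ := norm_sub_le _ _
  have h2 : ‖z - 2 * g‖ ≤ 2 * ‖s - (z - g)‖ := by linarith
  calc ‖s - g‖ * ‖z - 2 * g‖ ≤ ‖s - g‖ * (2 * ‖s - (z - g)‖) :=
        mul_le_mul_of_nonneg_left h2 (norm_nonneg _)
    _ = _ := by ring

/-- At the edge. -/
theorem root_center {η : ℝ} (hn : 0 < n) (hη : 0 < η) (hz : z = ⟨2 * √n, η⟩)
    (hg : g * (z - g) = n) (hi : g.im < 0) :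
    √(√n * η / 2) - η / 2 ≤ -g.im ∧ -g.im ≤ √(√n * η / 2) := by
  have hre := congrArg Complex.re hg
  have him := congrArg Complex.im hg
  subst hz
  simp only [Complex.mul_re, Complex.mul_im, Complex.ofReal_re, Complex.ofReal_im,
    Complex.sub_im, Complex.sub_re] at hre him
  have hs0 : 0 < √n := Real.sqrt_pos.2 hn
  have hsn : √n ^ 2 = n := Real.sq_sqrt hn.le
  set s := √n with hs
  set q := √(s * η / 2) with hq
  have hq0 : 0 ≤ q := Real.sqrt_nonneg _
  have hq2 : q ^ 2 = s * η / 2 := Real.sq_sqrt (by positivity)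
  set β := -g.im with hβ
  have hgi : g.im = -β := by rw [hβ]; ring
  rw [hgi] at hre him
  have hβ0 : 0 < β := by rw [hβ]; linarith
  have h1 : g.re * (η + 2 * β) = 2 * s * β := by linarith
  have h2 : β * (β + η) = (s - g.re) ^ 2 := by nlinarith
  have h3 : (s - g.re) * (η + 2 * β) = s * η := by linear_combination -h1
  have h4 : β * (β + η) * (η + 2 * β) ^ 2 = s ^ 2 * η ^ 2 := by
    rw [h2, ← mul_pow, h3, mul_pow]
  set p := β * (β + η) with hp
  have hp0 : 0 < p := by positivity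
  have h5 : p * (4 * p + η ^ 2) = 4 * (q ^ 2) ^ 2 := by
    rw [hq2]
    have : (η + 2 * β) ^ 2 = 4 * p + η ^ 2 := by rw [hp]; ring
    rw [this] at h4
    linear_combination h4
  have h6 : p ≤ q ^ 2 := by
    have : p ^ 2 ≤ (q ^ 2) ^ 2 := by nlinarith [mul_nonneg hp0.le (sq_nonneg η)]
    exact (pow_le_pow_iff_left₀ hp0.le (by positivity) (by norm_num)).1 this
  have h7 : q ^ 2 ≤ p + η ^ 2 / 4 := by
    have : (q ^ 2) ^ 2 ≤ (p + η ^ 2 / 4) ^ 2 := by
      nlinarith [mul_nonneg hp0.le (sq_nonneg η), sq_nonneg (η ^ 2)]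
    exact (pow_le_pow_iff_left₀ (by positivity) (by positivity) (by norm_num)).1 this
  constructor
  · have h8 : q ^ 2 ≤ (β + η / 2) ^ 2 := by
      calc q ^ 2 ≤ p + η ^ 2 / 4 := h7
        _ = (β + η / 2) ^ 2 := by rw [hp]; ring
    have := (pow_le_pow_iff_left₀ hq0 (by positivity) (by norm_num)).1 h8
    linarith
  · have h8 : β ^ 2 ≤ q ^ 2 := by
      refine le_trans ?_ h6
      rw [hp]; nlinarith [mul_pos hβ0 hη]
    exact (pow_le_pow_iff_left₀ hβ0.le hq0 (by norm_num)).1 h8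

namespace QuadAux

/-- Real and imaginary parts of `z - 2 g` outside the bulk. -/
lemma outer {n e η : ℝ} {g : ℂ} (hn : 1 ≤ n) (hη : 0 < η) (he : η ≤ e)
    (hg : g * ((⟨2 * √n + e, η⟩ : ℂ) - g) = n) (hi : g.im < 0) :
    (2 * √n + e - 2 * g.re) * (η - 2 * g.im) = (2 * √n + e) * η ∧
    (2 * √n + e - 2 * g.re) ^ 2 - (η - 2 * g.im) ^ 2 = 4 * √n * e + e ^ 2 - η ^ 2 ∧
    0 < 2 * √n + e - 2 * g.re ∧ 2 * √(√n * e) ≤ 2 * √n + e - 2 * g.re := by
  have hre := congrArg Complex.re hg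
  have him := congrArg Complex.im hg
  simp only [Complex.mul_re, Complex.mul_im, Complex.ofReal_re, Complex.ofReal_im,
    Complex.sub_im, Complex.sub_re] at hre him
  have hs0 : 0 < √n := Real.sqrt_pos.2 (by linarith)
  have hsn : √n ^ 2 = n := Real.sq_sqrt (by linarith)
  set s := √n with hs
  have he0 : 0 < e := by linarith
  have h1 : (2 * s + e - 2 * g.re) * (η - 2 * g.im) = (2 * s + e) * η := by
    linear_combination -2 * him
  have h2 : (2 * s + e - 2 * g.re) ^ 2 - (η - 2 * g.im) ^ 2 = 4 * s * e + e ^ 2 - η ^ 2 := by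
    linear_combination -4 * hre + 4 * hsn
  have hv : 0 < η - 2 * g.im := by linarith
  have hu : 0 < 2 * s + e - 2 * g.re := by
    by_contra hneg
    push Not at hneg
    have h3 : 0 < (2 * s + e) * η := by positivity
    nlinarith
  refine ⟨h1, h2, hu, ?_⟩
  have hw : √(s * e) ^ 2 = s * e := Real.sq_sqrt (by positivity)
  have h4 : (2 * √(s * e)) ^ 2 ≤ (2 * s + e - 2 * g.re) ^ 2 := by
    rw [mul_pow, hw]
    nlinarith [sq_nonneg (η - 2 * g.im)]
  exact (pow_le_pow_iff_left₀ (by positivity) hu.le (by norm_num)).1 h4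

lemma tw {s e : ℝ} (hs : 0 < s) (he : 0 < e) : √(s / e) * √(s * e) = s := by
  rw [← Real.sqrt_mul (by positivity)]
  have : s / e * (s * e) = s ^ 2 := by field_simp
  rw [this, Real.sqrt_sq hs.le]

end QuadAux

/-- Outside the bulk. -/
theorem root_outer (C0 : ℝ) (hC0 : 1 ≤ C0) : ∃ c : ℝ, 0 < c ∧ ∀ (n : ℝ) (z g : ℂ) (e η : ℝ),
    1 ≤ n → 0 < η → η ≤ e → e ≤ C0 * √n → z = ⟨2 * √n + e, η⟩ → g * (z - g) = n → g.im < 0 →
    c * √(√n / e) * η ≤ z.im - g.im ∧ -g.im ≤ c⁻¹ * √(√n / e) * η ∧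
      4 * √n * e ≤ ‖z - 2 * g‖ ^ 2 := by
  refine ⟨(C0 + 4)⁻¹, by positivity, ?_⟩
  intro n z g e η hn hη hηe he hz hg hi
  subst hz
  obtain ⟨h1, h2, hu, hu2⟩ := QuadAux.outer hn hη hηe hg hi
  have hs0 : 0 < √n := Real.sqrt_pos.2 (by linarith)
  have he0 : 0 < e := by linarith
  have htw := QuadAux.tw hs0 he0
  have ht0 : 0 ≤ √(√n / e) := Real.sqrt_nonneg _
  have hw0 : 0 < √(√n * e) := Real.sqrt_pos.2 (by positivity)
  have hw2 : √(√n * e) ^ 2 = √n * e := Real.sq_sqrt (by positivity)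
  have hg3 : ‖(⟨2 * √n + e, η⟩ : ℂ) - 2 * g‖ ^ 2 =
      (2 * √n + e - 2 * g.re) ^ 2 + (η - 2 * g.im) ^ 2 := by
    rw [← Complex.normSq_eq_norm_sq, Complex.normSq_apply]
    simp only [Complex.sub_re, Complex.sub_im, Complex.mul_re, Complex.mul_im, Complex.re_ofNat,
      Complex.im_ofNat]
    ring
  set s := √n with hs
  set t := √(s / e) with ht
  set w := √(s * e) with hw
  set u := 2 * s + e - 2 * g.re with hudef
  set v := η - 2 * g.im with hvdef
  have hv0 : 0 < v := by rw [hvdef]; linarith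
  -- upper bound for v
  have hvup : 2 * v ≤ (2 + C0) * t * η := by
    have h3 : v * (2 * w) ≤ v * u := mul_le_mul_of_nonneg_left hu2 hv0.le
    have h4 : v * u ≤ ((2 + C0) * s) * η := by
      rw [mul_comm v u, h1]
      refine mul_le_mul_of_nonneg_right ?_ hη.le
      linarith
    have h5 : (2 * v) * w ≤ ((2 + C0) * t * η) * w := by
      calc (2 * v) * w = v * (2 * w) := by ring
        _ ≤ ((2 + C0) * s) * η := h3.trans h4
        _ = ((2 + C0) * t * η) * w := by rw [← htw]; ring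
    exact le_of_mul_le_mul_right h5 hw0
  -- upper bound for u
  have htη : t * η ≤ w := by
    have hte : t * e = w := by
      have h3 : t * e * w = w * w := by
        calc t * e * w = (t * w) * e := by ring
          _ = s * e := by rw [htw]
          _ = w * w := by rw [← hw2]; ring
      exact mul_right_cancel₀ hw0.ne' h3
    rw [← hte]
    exact mul_le_mul_of_nonneg_left hηe ht0
  have huup : u ≤ (C0 + 4) * w := by
    have h3 : v ≤ (2 + C0) / 2 * w := by nlinarith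
    have h4 : v ^ 2 ≤ ((2 + C0) / 2 * w) ^ 2 := pow_le_pow_left₀ hv0.le h3 2
    have h5 : e ^ 2 ≤ C0 * w ^ 2 := by rw [hw2]; nlinarith
    have h6 : u ^ 2 ≤ ((C0 + 4) * w) ^ 2 := by
      have h7 : u ^ 2 = v ^ 2 + 4 * s * e + e ^ 2 - η ^ 2 := by linarith
      have h8 : 4 * s * e = 4 * w ^ 2 := by rw [hw2]; ring
      rw [h7, h8]
      have h9 : v ^ 2 + 4 * w ^ 2 + e ^ 2 - η ^ 2 ≤
          ((2 + C0) / 2 * w) ^ 2 + 4 * w ^ 2 + C0 * w ^ 2 := by nlinarith [sq_nonneg η]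
      refine h9.trans ?_
      have h10 : ((C0 + 4) * w) ^ 2 - (((2 + C0) / 2 * w) ^ 2 + 4 * w ^ 2 + C0 * w ^ 2) =
          (3 / 4 * C0 ^ 2 + 6 * C0 + 11) * w ^ 2 := by ring
      have h11 : 0 ≤ (3 / 4 * C0 ^ 2 + 6 * C0 + 11) * w ^ 2 := by positivity
      linarith
    exact (pow_le_pow_iff_left₀ hu.le (by positivity) (by norm_num)).1 h6
  have hvlow : 2 * (C0 + 4)⁻¹ * t * η ≤ v := by
    have h3 : (2 * s) * η ≤ v * ((C0 + 4) * w) := by
      calc (2 * s) * η ≤ (2 * s + e) * η := mul_le_mul_of_nonneg_right (by linarith) hη.le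
        _ = v * u := by rw [← h1]; ring
        _ ≤ _ := mul_le_mul_of_nonneg_left huup hv0.le
    have h4 : (2 * (C0 + 4)⁻¹ * t * η) * ((C0 + 4) * w) ≤ v * ((C0 + 4) * w) := by
      calc (2 * (C0 + 4)⁻¹ * t * η) * ((C0 + 4) * w) = 2 * (t * w) * η := by
            field_simp
        _ = (2 * s) * η := by rw [htw]
        _ ≤ _ := h3
    exact le_of_mul_le_mul_right h4 (by positivity)
  refine ⟨?_, ?_, ?_⟩
  · show (C0 + 4)⁻¹ * t * η ≤ η - g.im
    have : η - g.im = (v + η) / 2 := by rw [hvdef]; ring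
    rw [this]
    linarith
  · rw [inv_inv]
    have : -g.im = (v - η) / 2 := by rw [hvdef]; ring
    rw [this]
    have h3 : 0 ≤ t * η := by positivity
    nlinarith
  · rw [hg3]
    nlinarith [sq_nonneg v]

/-- The root in the imaginary direction, outside the bulk. -/
theorem root_outer_diff (C0 : ℝ) (hC0 : 1 ≤ C0) : ∃ C : ℝ, 0 < C ∧
    ∀ (n e η1 η2 : ℝ) (g1 g2 : ℂ), 1 ≤ n → 0 < η2 → η2 ≤ η1 → η1 ≤ e → e ≤ C0 * √n →
    g1 * ((⟨2 * √n + e, η1⟩ : ℂ) - g1) = n → g1.im < 0 →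
    g2 * ((⟨2 * √n + e, η2⟩ : ℂ) - g2) = n → g2.im < 0 →
    ‖g1 - g2‖ ≤ C * √(√n / e) * η1 := by
  refine ⟨C0 + 1, by positivity, ?_⟩
  intro n e η1 η2 g1 g2 hn hη2 h21 h1e he hg1 hi1 hg2 hi2
  have hη1 : 0 < η1 := by linarith
  have he0 : 0 < e := by linarith
  obtain ⟨-, -, hu1, hu1'⟩ := QuadAux.outer hn hη1 h1e hg1 hi1
  obtain ⟨-, -, hu2, hu2'⟩ := QuadAux.outer hn hη2 (h21.trans h1e) hg2 hi2
  have hs0 : 0 < √n := Real.sqrt_pos.2 (by linarith)
  have htw := QuadAux.tw hs0 he0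
  have ht0 : 0 ≤ √(√n / e) := Real.sqrt_nonneg _
  have hw0 : 0 < √(√n * e) := Real.sqrt_pos.2 (by positivity)
  set z1 : ℂ := ⟨2 * √n + e, η1⟩ with hz1
  set z2 : ℂ := ⟨2 * √n + e, η2⟩ with hz2
  set D1 : ℂ := z1 - 2 * g1 with hD1
  set D2 : ℂ := z2 - 2 * g2 with hD2
  set s := √n with hs
  set t := √(s / e) with ht
  set w := √(s * e) with hw
  have hsum : 4 * w ≤ ‖D1 + D2‖ := by
    refine le_trans ?_ (Complex.re_le_norm _)
    have : (D1 + D2).re = (2 * s + e - 2 * g1.re) + (2 * s + e - 2 * g2.re) := by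
      simp [hD1, hD2, hz1, hz2]
    rw [this]; linarith
  have hprod : (D1 - D2) * (D1 + D2) = (z1 - z2) * (z1 + z2) := by
    rw [hD1, hD2]
    linear_combination -4 * hg1 + 4 * hg2
  have hz12 : ‖z1 - z2‖ ≤ η1 := by
    have : z1 - z2 = ((η1 - η2 : ℝ) : ℂ) * Complex.I := by
      apply Complex.ext <;> simp [hz1, hz2]
    rw [this, norm_mul, Complex.norm_I, mul_one, Complex.norm_real, Real.norm_eq_abs,
      abs_of_nonneg (by linarith)]
    linarith
  have hzp : ‖z1 + z2‖ ≤ 4 * (1 + C0) * s := by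
    have h3 := Complex.norm_le_abs_re_add_abs_im (z1 + z2)
    have h4 : (z1 + z2).re = 2 * (2 * s + e) := by simp [hz1, hz2]; ring
    have h5 : (z1 + z2).im = η1 + η2 := by simp [hz1, hz2]
    rw [h4, h5, abs_of_pos (by positivity), abs_of_pos (by positivity)] at h3
    nlinarith
  have hD : ‖D1 - D2‖ ≤ (1 + C0) * t * η1 := by
    have h3 : ‖D1 - D2‖ * (4 * w) ≤ η1 * (4 * (1 + C0) * s) := by
      calc ‖D1 - D2‖ * (4 * w) ≤ ‖D1 - D2‖ * ‖D1 + D2‖ :=
            mul_le_mul_of_nonneg_left hsum (norm_nonneg _)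
        _ = ‖z1 - z2‖ * ‖z1 + z2‖ := by rw [← norm_mul, hprod, norm_mul]
        _ ≤ _ := mul_le_mul hz12 hzp (norm_nonneg _) hη1.le
    have h4 : ‖D1 - D2‖ * (4 * w) ≤ ((1 + C0) * t * η1) * (4 * w) := by
      refine h3.trans (le_of_eq ?_)
      rw [← htw]; ring
    exact le_of_mul_le_mul_right h4 (by positivity)
  have ht1 : 1 ≤ C0 * t := by
    have h3 : (1 : ℝ) ≤ C0 ^ 2 * (s / e) := by
      rw [← mul_div_assoc, le_div_iff₀ he0]
      nlinarith
    have h4 : t ^ 2 = s / e := Real.sq_sqrt (by positivity)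
    have h5 : (1 : ℝ) ^ 2 ≤ (C0 * t) ^ 2 := by rw [mul_pow, h4, one_pow]; exact h3
    exact (pow_le_pow_iff_left₀ (by norm_num) (by positivity) (by norm_num)).1 h5
  have hgg : g1 - g2 = (z1 - z2) / 2 - (D1 - D2) / 2 := by
    rw [hD1, hD2]; ring
  calc ‖g1 - g2‖ = ‖(z1 - z2) / 2 - (D1 - D2) / 2‖ := by rw [hgg]
    _ ≤ ‖(z1 - z2) / 2‖ + ‖(D1 - D2) / 2‖ := norm_sub_le _ _
    _ = ‖z1 - z2‖ / 2 + ‖D1 - D2‖ / 2 := by simp
    _ ≤ η1 / 2 + (1 + C0) * t * η1 / 2 := by linarith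
    _ ≤ (C0 + 1) * t * η1 := by
        have h3 : η1 ≤ C0 * t * η1 := by nlinarith
        have h4 : 0 ≤ t * η1 := by positivity
        nlinarith

end Quad

end Pool.Agent.Eig
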