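import Pool.Agent.Work.MP_1c1c8a_pr.EBound
import Pool.Agent.Work.MP_1c1c8a_pr.Quad

/-! # Bounds at the edge -/

namespace Pool.Agent.Eig

open MeasureTheory Filter Topology Matrix

namespace CenterAux

theorem alg {K t C D M : ℝ} (hK : 1 ≤ K) (hKC : 8 * C ≤ K) (ht : 0 < t) (htK : K ≤ t ^ 4)
    (hC : 0 ≤ C) (hM : 0 ≤ M)
    (hD : D ≤ 2 / (K * t ^ 2) * (C * (1 + t ^ 4 / K ^ 4 + M)))
    (hN : M ≤ t ^ 4 / K + 2 * D * (t ^ 2 / K ^ 2)) :
    M ≤ 4 * (t ^ 4 / K) ∧ D ≤ 12 * C * (t ^ 2 / K ^ 2) := by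
  have hK0 : 0 < K := by linarith
  set X := t ^ 4 / K with hX
  have hX1 : 1 ≤ X := by rw [hX, le_div_iff₀ hK0]; linarith
  have hX2 : t ^ 4 / K ^ 4 ≤ X := by
    rw [hX]
    exact div_le_div_of_nonneg_left (by positivity) hK0 (by
      calc K = K ^ 1 := (pow_one K).symm
        _ ≤ K ^ 4 := pow_le_pow_right₀ hK (by norm_num))
  have h1 : D ≤ 2 / (K * t ^ 2) * (C * (2 * X + M)) := by
    refine hD.trans ?_
    gcongr
    linarith
  have h2 : 2 * D * (t ^ 2 / K ^ 2) ≤ 4 * C / K ^ 3 * (2 * X + M) := by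
    calc 2 * D * (t ^ 2 / K ^ 2) ≤ 2 * (2 / (K * t ^ 2) * (C * (2 * X + M))) * (t ^ 2 / K ^ 2) := by
          gcongr
      _ = _ := by field_simp; ring
  have h3 : 4 * C / K ^ 3 ≤ 1 / 2 := by
    rw [div_le_div_iff₀ (by positivity) (by norm_num)]
    have : K ≤ K ^ 3 := by
      calc K = K ^ 1 := (pow_one K).symm
        _ ≤ K ^ 3 := pow_le_pow_right₀ hK (by norm_num)
    linarith
  have h4 : M ≤ 4 * X := by
    have : 4 * C / K ^ 3 * (2 * X + M) ≤ 1 / 2 * (2 * X + M) :=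
      mul_le_mul_of_nonneg_right h3 (by linarith)
    linarith
  refine ⟨h4, h1.trans ?_⟩
  calc 2 / (K * t ^ 2) * (C * (2 * X + M)) ≤ 2 / (K * t ^ 2) * (C * (2 * X + 4 * X)) := by gcongr
    _ = 12 * C * (t ^ 2 / K ^ 2) := by rw [hX]; field_simp; ring

theorem pow_facts {n : ℕ} (hn : 1 ≤ n) : ∃ t : ℝ, 1 ≤ t ∧ (n : ℝ) = t ^ 6 ∧ √(n : ℝ) = t ^ 3 ∧
    (n : ℝ) ^ (-(1 : ℝ) / 6) = t⁻¹ ∧ (n : ℝ) ^ ((1 : ℝ) / 3) = t ^ 2 ∧
    (n : ℝ) ^ ((2 : ℝ) / 3) = t ^ 4 := by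
  have hn' : (1 : ℝ) ≤ n := by exact_mod_cast hn
  have hn0 : (0 : ℝ) ≤ n := by linarith
  refine ⟨(n : ℝ) ^ ((1 : ℝ) / 6), Real.one_le_rpow hn' (by norm_num), ?_, ?_, ?_, ?_, ?_⟩
  · rw [← Real.rpow_natCast, ← Real.rpow_mul hn0]; norm_num
  · rw [Real.sqrt_eq_rpow, ← Real.rpow_natCast, ← Real.rpow_mul hn0]; norm_num
  · rw [← Real.rpow_neg hn0]; norm_num
  · rw [← Real.rpow_natCast, ← Real.rpow_mul hn0]; norm_num
  · rw [← Real.rpow_natCast, ← Real.rpow_mul hn0]; norm_num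

end CenterAux

open CenterAux in
theorem center_bound (b : ℝ) : ∃ K0 C : ℝ, 1 ≤ K0 ∧ 0 ≤ C ∧ ∀ K ≥ K0, ∃ n0 : ℕ, ∀ n ≥ n0,
    ∀ μ : Sym2 (Fin n) → Measure ℝ, (∀ e, GoodLaw b (μ e)) → ∀ g : ℂ,
    g * (zc K n - g) = n → g.im < 0 →
    ∫ ω, (NN ∅ (zc K n) ω) ^ 2 ∂(Measure.pi μ) ≤ C * (n : ℝ) ^ ((2 : ℝ) / 3) / K ∧
    ∫ ω, ‖st ∅ (zc K n) ω - g‖ ^ 2 ∂(Measure.pi μ) ≤
      C * (n : ℝ) ^ ((1 : ℝ) / 3) / K ^ 2 := by
  obtain ⟨C, hC, n1, hE⟩ := E_bound b 3 (by norm_num)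
  refine ⟨8 * C + 1, 4 + 12 * C, by linarith, by positivity, fun K hK => ?_⟩
  obtain ⟨m, hm⟩ := exists_nat_ge (K ^ 2)
  refine ⟨max (max n1 m) 1, fun n hn μ hμ g hg hgi => ?_⟩
  have hn1 : n1 ≤ n := (le_max_left _ _).trans ((le_max_left _ _).trans hn)
  have hn2 : m ≤ n := (le_max_right _ _).trans ((le_max_left _ _).trans hn)
  have hn3 : 1 ≤ n := (le_max_right _ _).trans hn
  have hK1 : 1 ≤ K := by linarith
  have hK0 : 0 < K := by linarith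
  obtain ⟨t, ht1, hnt, hst, hit, h13, h23⟩ := pow_facts hn3
  have ht0 : 0 < t := by linarith
  have hKn : K ^ 2 ≤ t ^ 6 := by
    rw [← hnt]; exact hm.trans (by exact_mod_cast hn2)
  have htK : K ≤ t ^ 4 := by
    have h1 : K ^ 3 ≤ (t ^ 4) ^ 3 := by
      calc K ^ 3 ≤ K ^ 4 := pow_le_pow_right₀ hK1 (by norm_num)
        _ = (K ^ 2) ^ 2 := by ring
        _ ≤ (t ^ 6) ^ 2 := pow_le_pow_left₀ (by positivity) hKn 2
        _ = (t ^ 4) ^ 3 := by ring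
    exact le_of_pow_le_pow_left₀ (by norm_num) (by positivity) h1
  have hzim : (zc K n).im = K / t := by
    show K * (n : ℝ) ^ (-(1 : ℝ) / 6) = K / t
    rw [hit]; rfl
  have hzre : (zc K n).re = 2 * t ^ 3 := by
    show 2 * √(n : ℝ) = 2 * t ^ 3
    rw [hst]
  have hη : 0 < K / t := by positivity
  have hz0 : (zc K n).im ≠ 0 := by rw [hzim]; exact hη.ne'
  have hzpos : 0 < (zc K n).im := by rw [hzim]; exact hη
  have hDom : Dom 3 n (zc K n) := by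
    refine ⟨?_, ?_⟩
    · rw [hzim, hit, ← one_div]
      gcongr
    · rw [hst]
      refine (Complex.norm_le_abs_re_add_abs_im _).trans ?_
      rw [hzre, hzim, abs_of_pos (by positivity), abs_of_pos hη]
      have : K / t ≤ t ^ 3 := by
        rw [div_le_iff₀ ht0]; calc K ≤ t ^ 4 := htK
          _ = t ^ 3 * t := by ring
      linarith
  have : ∀ e, IsProbabilityMeasure (μ e) := fun e => (hμ e).prob
  have hE' := hE n hn1 μ hμ (zc K n) hDom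
  have hcen := root_center (n := (n : ℝ)) (z := zc K n) (g := g) (η := K / t)
    (by exact_mod_cast hn3) hη (by
      apply Complex.ext
      · rfl
      · exact hzim) hg hgi
  rw [hst] at hcen
  set a := √(t ^ 3 * (K / t) / 2) with ha
  have ha0 : 0 < a := Real.sqrt_pos.mpr (by positivity)
  have ha2 : a ^ 2 = K * t ^ 2 / 2 := by
    rw [ha, Real.sq_sqrt (by positivity)]; field_simp
  set P := Measure.pi μ with hP
  set N2 : ℝ := ∫ ω, (NN ∅ (zc K n) ω) ^ 2 ∂P with hN2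
  set D : ℝ := ∫ ω, ‖st ∅ (zc K n) ω - g‖ ^ 2 ∂P with hD
  have hN20 : 0 ≤ N2 := integral_nonneg fun ω => by positivity
  have hPs : PB (fun ω : Ent n => ‖st ∅ (zc K n) ω - g‖ ^ 2) :=
    ((PB.st hz0).sub (PBW.const one_le_wt g)).norm.pow 2
  -- stability
  have hstab : ∀ ω : Ent n, ‖st ∅ (zc K n) ω - g‖ ^ 2 ≤ (2 / (K * t ^ 2)) * ‖EE (zc K n) ω‖ ^ 2 := by
    intro ω
    have hs : (st ∅ (zc K n) ω).im ≤ 0 := by
      rw [st_im hz0, neg_mul]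
      have := mul_nonneg hzpos.le (NN_nonneg (T := ∅) (z := zc K n) ω)
      linarith
    have h1 := stab (n := (n : ℝ)) hzpos hg hgi hs
    have h2 : a ≤ (zc K n).im - g.im := by rw [hzim]; linarith [hcen.1]
    have h3 : ‖st ∅ (zc K n) ω - g‖ * a ≤ ‖EE (zc K n) ω‖ :=
      (mul_le_mul_of_nonneg_left h2 (norm_nonneg _)).trans (by exact_mod_cast h1)
    have h4 : (‖st ∅ (zc K n) ω - g‖ * a) ^ 2 ≤ ‖EE (zc K n) ω‖ ^ 2 :=
      pow_le_pow_left₀ (by positivity) h3 2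
    rw [mul_pow, ha2] at h4
    rw [div_mul_eq_mul_div, le_div_iff₀ (by positivity)]
    linarith
  have hDle : D ≤ 2 / (K * t ^ 2) * (C * (1 + t ^ 4 / K ^ 4 + N2)) := by
    have h1 : D ≤ ∫ ω, (2 / (K * t ^ 2)) * ‖EE (zc K n) ω‖ ^ 2 ∂P :=
      integral_mono (PB.int hμ hPs) ((PB.int hμ ((PB.EE hz0).norm.pow 2)).const_mul _) hstab
    rw [integral_const_mul] at h1
    refine h1.trans ?_
    gcongr
    refine hE'.trans ?_
    rw [hzim, div_pow, inv_div]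
  have hNle : N2 ≤ t ^ 4 / K + 2 * D * (t ^ 2 / K ^ 2) := by
    have h0 : ∀ ω : Ent n, (NN ∅ (zc K n) ω) ^ 2 ≤
        t ^ 4 / K + 2 * (t ^ 2 / K ^ 2) * ‖st ∅ (zc K n) ω - g‖ ^ 2 := by
      intro ω
      have h1 : (K / t) * NN ∅ (zc K n) ω ≤ a + ‖st ∅ (zc K n) ω - g‖ := by
        have h2 : (K / t) * NN ∅ (zc K n) ω = -(st ∅ (zc K n) ω).im := by
          rw [st_im hz0, hzim]; ring
        have h3 : -(st ∅ (zc K n) ω - g).im ≤ ‖st ∅ (zc K n) ω - g‖ :=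
          (neg_le_abs _).trans (Complex.abs_im_le_norm _)
        rw [Complex.sub_im] at h3
        rw [h2]; linarith [hcen.2]
      have h4 : ((K / t) * NN ∅ (zc K n) ω) ^ 2 ≤ (a + ‖st ∅ (zc K n) ω - g‖) ^ 2 :=
        pow_le_pow_left₀ (mul_nonneg hη.le (NN_nonneg _)) h1 2
      have h5 : (a + ‖st ∅ (zc K n) ω - g‖) ^ 2 ≤ K * t ^ 2 + 2 * ‖st ∅ (zc K n) ω - g‖ ^ 2 := by
        have : K * t ^ 2 = 2 * a ^ 2 := by rw [ha2]; ring
        rw [this]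
        nlinarith [sq_nonneg (a - ‖st ∅ (zc K n) ω - g‖)]
      have h6 : (NN ∅ (zc K n) ω) ^ 2 = (t ^ 2 / K ^ 2) * ((K / t) * NN ∅ (zc K n) ω) ^ 2 := by
        field_simp
      rw [h6]
      calc (t ^ 2 / K ^ 2) * ((K / t) * NN ∅ (zc K n) ω) ^ 2
          ≤ (t ^ 2 / K ^ 2) * (K * t ^ 2 + 2 * ‖st ∅ (zc K n) ω - g‖ ^ 2) := by
            gcongr
            exact h4.trans h5
        _ = _ := by field_simp
    have h1 : N2 ≤ ∫ ω, (t ^ 4 / K + 2 * (t ^ 2 / K ^ 2) * ‖st ∅ (zc K n) ω - g‖ ^ 2) ∂P :=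
      integral_mono (PB.int hμ ((PB.NN hz0).pow 2))
        ((integrable_const _).add ((PB.int hμ hPs).const_mul _)) h0
    rw [integral_add (integrable_const _) ((PB.int hμ hPs).const_mul _), integral_const_mul] at h1
    simp only [integral_const, probReal_univ, smul_eq_mul, one_mul] at h1
    linarith
  obtain ⟨r1, r2⟩ := alg hK1 (by linarith) ht0 htK hC hN20 hDle hNle
  rw [h13, h23]
  refine ⟨r1.trans ?_, r2.trans ?_⟩
  · rw [mul_div_assoc]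
    have : 0 ≤ t ^ 4 / K := by positivity
    nlinarith
  · rw [mul_div_assoc]
    have : 0 ≤ t ^ 2 / K ^ 2 := by positivity
    nlinarith

end Pool.Agent.Eig
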