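import Mathlib

/-!
# Top eigenvector of Wigner matrices under deterministic resampling: definitions

A symmetric random matrix is given by a point `ω : Sym2 (Fin n) → ℝ` (the entry `(i, j)` is
`ω s(i, j)`), under a product measure.  For a set `T` of removed rows and columns, `Gr T z ω` is the
resolvent of the minor, extended by zero.
-/

namespace Pool.Agent.Eig

open MeasureTheory Filter Topology Matrix

/-- Centred law of variance one with sub-Gaussian moment generating function. -/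
structure GoodLaw (b : ℝ) (μ : Measure ℝ) : Prop where
  prob : IsProbabilityMeasure μ
  mean : ∫ x, x ∂μ = 0
  var : ∫ x, x ^ 2 ∂μ = 1
  mgf : ∀ t : ℝ, Integrable (fun x => Real.exp (t * x)) μ ∧
    ∫ x, Real.exp (t * x) ∂μ ≤ Real.exp (b * t ^ 2)

/-- Joint law of an entry and of the resampled entry; `σ` is the covariance. -/
structure GoodPair (b σ : ℝ) (ν : Measure (ℝ × ℝ)) : Prop where
  fst : GoodLaw b (ν.map Prod.fst)
  snd : GoodLaw b (ν.map Prod.snd)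
  cov : ∫ p, p.1 * p.2 ∂ν = σ

variable {n : ℕ}

/-- Entries on and above the diagonal. -/
abbrev Ent (n : ℕ) : Type := Sym2 (Fin n) → ℝ

/-- The symmetric matrix with entries `ω`. -/
def symMat (ω : Ent n) : Matrix (Fin n) (Fin n) ℝ := Matrix.of fun i j => ω s(i, j)

/-- `x` is an eigenvalue. -/
def IsEig (ω : Ent n) (x : ℝ) : Prop := ∃ v : Fin n → ℝ, v ≠ 0 ∧ symMat ω *ᵥ v = x • v

/-- The matrix with the rows and columns in `T` replaced by zero. -/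
noncomputable def cutM (T : Finset (Fin n)) (ω : Ent n) : Matrix (Fin n) (Fin n) ℂ :=
  Matrix.of fun i j => if i ∈ T ∨ j ∈ T then 0 else ((ω s(i, j) : ℝ) : ℂ)

/-- The resolvent of the minor without `T`, extended by zero. -/
noncomputable def Gr (T : Finset (Fin n)) (z : ℂ) (ω : Ent n) : Matrix (Fin n) (Fin n) ℂ :=
  Matrix.of fun i j => if i ∈ T ∨ j ∈ T then 0
    else ((z • (1 : Matrix (Fin n) (Fin n) ℂ) - cutM T ω)⁻¹) i j

/-- Its trace. -/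
noncomputable def st (T : Finset (Fin n)) (z : ℂ) (ω : Ent n) : ℂ := ∑ i, Gr T z ω i i

/-- Its squared Frobenius norm. -/
noncomputable def NN (T : Finset (Fin n)) (z : ℂ) (ω : Ent n) : ℝ := ∑ i, ∑ j, ‖Gr T z ω i j‖ ^ 2

/-- Centred quadratic form of the row `i` (for `i ∉ T`), independent of the rows in `T`. -/
noncomputable def xi (T : Finset (Fin n)) (z : ℂ) (i : Fin n) (ω : Ent n) : ℂ :=
  ((ω s(i, i) : ℝ) : ℂ) +
    ∑ k, ∑ l, ((ω s(i, k) : ℝ) : ℂ) * Gr (insert i T) z ω k l * ((ω s(i, l) : ℝ) : ℂ) -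
    st (insert i T) z ω

/-- The vector `(G^(i) x_i, 1)`. -/
noncomputable def av (T : Finset (Fin n)) (z : ℂ) (i : Fin n) (ω : Ent n) (k : Fin n) : ℂ :=
  (if k = i then 1 else 0) + ∑ l, Gr (insert i T) z ω k l * ((ω s(i, l) : ℝ) : ℂ)

/-- `x_ij + x_i' G^(ij) x_j`. -/
noncomputable def bb (z : ℂ) (i j : Fin n) (ω : Ent n) : ℂ :=
  ((ω s(i, j) : ℝ) : ℂ) +
    ∑ k, ∑ l, ((ω s(i, k) : ℝ) : ℂ) * Gr {i, j} z ω k l * ((ω s(j, l) : ℝ) : ℂ)

/-- `h_i ξ_i` -/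
noncomputable def Yv (T : Finset (Fin n)) (z : ℂ) (i : Fin n) (ω : Ent n) : ℂ :=
  (z - st (insert i T) z ω)⁻¹ * xi T z i ω

/-- `s (z - s) - n` -/
noncomputable def EE (z : ℂ) (ω : Ent n) : ℂ := st ∅ z ω * (z - st ∅ z ω) - n

/-- The good event: all quadratic forms have the right size, up to a factor `n^(1/20)`. -/
def Good (z : ℂ) (ω : Ent n) : Prop :=
  (∀ i, ‖xi ∅ z i ω‖ ≤ (n : ℝ) ^ ((1 : ℝ) / 20) * (1 + √(NN {i} z ω))) ∧
  ∀ i j, i ≠ j → ‖xi {i} z j ω‖ ≤ (n : ℝ) ^ ((1 : ℝ) / 20) * (1 + √(NN {i, j} z ω))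

/-- The conclusions of the weak law. -/
def Weak (c : ℝ) (z : ℂ) (ω : Ent n) : Prop :=
  c * √n ≤ ‖z - st ∅ z ω‖ ∧ (∀ i, ‖Gr ∅ z ω i i‖ ≤ c⁻¹ / √n) ∧
  (∀ i, c * √n ≤ ‖z - st {i} z ω‖) ∧ (∀ i j, i ≠ j → ‖Gr {i} z ω j j‖ ≤ c⁻¹ / √n) ∧
  (∀ i j, i ≠ j → c * √n ≤ ‖z - st {i, j} z ω‖) ∧ ‖st ∅ z ω‖ ≤ c⁻¹ * √n

/-- `φ` does not depend on the entries of the rows in `A`. -/
def OffRows {E : Type*} (A : Finset (Fin n)) (φ : (Sym2 (Fin n) → E) → ℝ) : Prop :=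
  ∀ ω ω', (∀ e : Sym2 (Fin n), (∀ i ∈ A, i ∉ e) → ω e = ω' e) → φ ω = φ ω'

/-- Replace the entries of the rows in `A` by those of `x`. -/
noncomputable def mixR {E : Type*} (A : Finset (Fin n)) (ω x : Sym2 (Fin n) → E) :
    Sym2 (Fin n) → E :=
  open Classical in fun e => if ∃ i ∈ A, i ∈ e then x e else ω e

/-- The two components of a pair of matrices. -/
def fX (p : Sym2 (Fin n) → ℝ × ℝ) : Ent n := fun e => (p e).1
def fY (p : Sym2 (Fin n) → ℝ × ℝ) : Ent n := fun e => (p e).2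

/-- Product of the resolvents of `X` (at `z`) and of `Y` (at `w`). -/
noncomputable def AA (T : Finset (Fin n)) (z w : ℂ) (p : Sym2 (Fin n) → ℝ × ℝ) :
    Matrix (Fin n) (Fin n) ℂ := Gr T z (fX p) * Gr T w (fY p)

/-- `u_i = x_i' G_X^(i) G_Y^(i) y_i` -/
noncomputable def uu (z w : ℂ) (i : Fin n) (p : Sym2 (Fin n) → ℝ × ℝ) : ℂ :=
  ∑ k, ∑ l, ((fX p s(i, k) : ℝ) : ℂ) * AA {i} z w p k l * ((fY p s(i, l) : ℝ) : ℂ)

/-- `v` is a unit eigenvector for the largest eigenvalue `c` of `A`. -/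
def IsTopVec (A : Matrix (Fin n) (Fin n) ℝ) (v : Fin n → ℝ) (c : ℝ) : Prop :=
  v ⬝ᵥ v = 1 ∧ A *ᵥ v = c • v ∧ ∀ (d : ℝ) (u : Fin n → ℝ), u ≠ 0 → A *ᵥ u = d • u → d ≤ c

/-- Domain of spectral parameters. -/
def Dom (C0 : ℝ) (n : ℕ) (z : ℂ) : Prop :=
  (n : ℝ) ^ (-(1 : ℝ) / 6) ≤ z.im ∧ ‖z‖ ≤ C0 * √n

/-- The spectral parameter `2 √n + i K n^(-1/6)`. -/
noncomputable def zc (K : ℝ) (n : ℕ) : ℂ := ⟨2 * √n, K * (n : ℝ) ^ (-(1 : ℝ) / 6)⟩

end Pool.Agent.Eig
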