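import Pool.Agent.Work.MP_1c1c8a_pr.GoodProb
import Pool.Agent.Work.MP_1c1c8a_pr.WeakLaw
import Pool.Agent.Work.MP_1c1c8a_pr.Meas

/-! # Diagonal terms and second order terms -/

namespace Pool.Agent.Eig

open MeasureTheory Filter Topology Matrix

namespace YDiagAux

variable {n : ℕ} {z : ℂ}

theorem measurable_good (hz : z.im ≠ 0) : MeasurableSet {ω : Ent n | Good z ω} := by
  have h1 : {ω : Ent n | Good z ω} =
      (⋂ i, {ω : Ent n | ‖xi ∅ z i ω‖ ≤ (n : ℝ) ^ ((1 : ℝ) / 20) * (1 + √(NN {i} z ω))}) ∩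
      (⋂ i, ⋂ j, {ω : Ent n | i ≠ j →
        ‖xi {i} z j ω‖ ≤ (n : ℝ) ^ ((1 : ℝ) / 20) * (1 + √(NN {i, j} z ω))}) := by
    ext ω
    simp [Good]
  rw [h1]
  have hc : ∀ (T T' : Finset (Fin n)) (i : Fin n), MeasurableSet {ω : Ent n |
      ‖xi T z i ω‖ ≤ (n : ℝ) ^ ((1 : ℝ) / 20) * (1 + √(NN T' z ω))} := by
    intro T T' i
    apply IsClosed.measurableSet
    apply isClosed_le
    · exact (PB.xi hz i).1.norm
    · exact continuous_const.mul (continuous_const.add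
        (Real.continuous_sqrt.comp (PB.NN hz).1))
  apply MeasurableSet.inter
  · exact MeasurableSet.iInter fun i => hc _ _ _
  · refine MeasurableSet.iInter fun i => MeasurableSet.iInter fun j => ?_
    by_cases hij : i = j
    · simp [hij]
    · simpa [hij] using hc {i} {i, j} j

theorem NN_single_le (hz : z.im ≠ 0) (i : Fin n) (ω : Ent n) :
    NN {i} z ω ≤ NN ∅ z ω + (z.im ^ 2)⁻¹ :=
  NN_insert_le (T := ∅) (ω := ω) hz (i := i) (Finset.notMem_empty i)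

/-- bounds from the domain -/
theorem dom_inv {C0 : ℝ} (hn : 1 ≤ n) (hz : Dom C0 n z) :
    0 < z.im ∧ (z.im)⁻¹ ^ 2 ≤ n := by
  have hn0 : (0 : ℝ) < n := by exact_mod_cast hn
  have hp : 0 < (n : ℝ) ^ (-(1 : ℝ) / 6) := Real.rpow_pos_of_pos hn0 _
  have h1 : 0 < z.im := lt_of_lt_of_le hp hz.1
  refine ⟨h1, ?_⟩
  have h2 : z.im⁻¹ ≤ ((n : ℝ) ^ (-(1 : ℝ) / 6))⁻¹ := inv_anti₀ hp hz.1
  have h3 : ((n : ℝ) ^ (-(1 : ℝ) / 6))⁻¹ = (n : ℝ) ^ ((1 : ℝ) / 6) := by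
    rw [← Real.rpow_neg hn0.le]
    norm_num
  rw [h3] at h2
  calc z.im⁻¹ ^ 2 ≤ ((n : ℝ) ^ ((1 : ℝ) / 6)) ^ 2 :=
        pow_le_pow_left₀ (inv_nonneg.2 h1.le) h2 2
    _ = (n : ℝ) ^ ((1 : ℝ) / 3) := by
        rw [← Real.rpow_natCast, ← Real.rpow_mul hn0.le]
        norm_num
    _ ≤ (n : ℝ) ^ (1 : ℝ) :=
        Real.rpow_le_rpow_of_exponent_le (by exact_mod_cast hn) (by norm_num)
    _ = n := Real.rpow_one _

theorem inv_sq_le (hz : z.im ≠ 0) (T : Finset (Fin n)) (ω : Ent n) :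
    ‖(z - st T z ω)⁻¹‖ ^ 2 ≤ (z.im ^ 2)⁻¹ := by
  calc ‖(z - st T z ω)⁻¹‖ ^ 2 ≤ (|z.im|⁻¹) ^ 2 :=
        pow_le_pow_left₀ (norm_nonneg _) (norm_inv_sub_st_le hz ω) 2
    _ = (z.im ^ 2)⁻¹ := by rw [inv_pow, sq_abs]

theorem good_inv_sq {c : ℝ} (hc : 0 < c) (hn : 0 < (n : ℝ)) (T : Finset (Fin n)) (ω : Ent n)
    (h : c * √n ≤ ‖z - st T z ω‖) : ‖(z - st T z ω)⁻¹‖ ^ 2 ≤ c⁻¹ ^ 2 / n := by
  rw [norm_inv, inv_pow]
  have h1 : (c * √n) ^ 2 ≤ ‖z - st T z ω‖ ^ 2 := pow_le_pow_left₀ (by positivity) h 2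
  rw [mul_pow, Real.sq_sqrt hn.le] at h1
  calc (‖z - st T z ω‖ ^ 2)⁻¹ ≤ (c ^ 2 * n)⁻¹ := inv_anti₀ (by positivity) h1
    _ = c⁻¹ ^ 2 / n := by rw [mul_inv, inv_pow, div_eq_mul_inv]

end YDiagAux

open YDiagAux in
theorem Y_diag (b C0 : ℝ) (hC0 : 1 ≤ C0) : ∃ C : ℝ, 0 ≤ C ∧ ∃ n0 : ℕ, ∀ n ≥ n0,
    ∀ μ : Sym2 (Fin n) → Measure ℝ, (∀ e, GoodLaw b (μ e)) → ∀ z : ℂ, Dom C0 n z → ∀ i : Fin n,
    ∫ ω, ‖Yv ∅ z i ω‖ ^ 2 ∂(Measure.pi μ) ≤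
      C / n * (1 + (z.im ^ 2)⁻¹ + ∫ ω, NN ∅ z ω ∂(Measure.pi μ)) := by
  obtain ⟨c, hc, hc1, n1, hweak⟩ := weak_law C0 hC0
  obtain ⟨Cg, hCg, hgood⟩ := good_prob b
  obtain ⟨Cx, hCx, hxi⟩ := xi_mom b 1
  refine ⟨Cx * (c⁻¹ ^ 2 + 2 * Cg), by positivity, max n1 1, ?_⟩
  intro n hn μ hμ z hz i
  have hn1 : n1 ≤ n := le_trans (le_max_left _ _) hn
  have hn2 : 1 ≤ n := le_trans (le_max_right _ _) hn
  have hnR : (1 : ℝ) ≤ n := by exact_mod_cast hn2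
  have hn0 : (0 : ℝ) < n := by linarith
  obtain ⟨hzim, hη⟩ := dom_inv hn2 hz
  have hz0 : z.im ≠ 0 := hzim.ne'
  have hprob : ∀ e, IsProbabilityMeasure (μ e) := fun e => (hμ e).prob
  have hP : IsProbabilityMeasure (Measure.pi μ) := inferInstance
  set P := Measure.pi μ with hPdef
  set η2 : ℝ := (z.im ^ 2)⁻¹ with hη2
  have hη2pos : 0 < η2 := by positivity
  have hη2n : η2 ≤ n := by rw [hη2, ← inv_pow]; exact hη
  set B : Set (Ent n) := {ω | ¬ Good z ω} with hB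
  have hBm : MeasurableSet B := (measurable_good hz0).compl
  have hBP : P.real B ≤ Cg * ((n : ℝ) ^ 100)⁻¹ := hgood n μ hn2 hμ z hz0
  set ind : Ent n → ℝ := B.indicator (fun _ => (1 : ℝ)) with hind
  have hindI : Integrable ind P := (integrable_const (1 : ℝ)).indicator hBm
  have hindint : ∫ ω, ind ω ∂P = P.real B := by
    rw [hind, integral_indicator hBm, setIntegral_const]
    simp
  have hind0 : ∀ ω, 0 ≤ ind ω := fun ω => by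
    rw [hind]; exact Set.indicator_nonneg (fun _ _ => zero_le_one) ω
  have hNI : Integrable (fun ω => NN ∅ z ω) P := (PB.NN hz0).int hμ
  set φ : Ent n → ℝ := fun ω => ‖(z - st {i} z ω)⁻¹‖ ^ 2 with hφ
  have hφPB : PB φ := (PB.inv_sub_st hz0).norm.pow 2
  have hφ0 : ∀ ω, 0 ≤ φ ω := fun ω => by positivity
  have hφη : ∀ ω, φ ω ≤ η2 := fun ω => inv_sq_le hz0 _ ω
  have hφgood : ∀ ω, Good z ω → φ ω ≤ c⁻¹ ^ 2 / n := fun ω hω =>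
    good_inv_sq hc hn0 {i} ω ((hweak n hn1 z hz ω hω).2.2.1 i)
  have hφoff : OffRows {i} φ := by
    intro ω ω' h
    have e1 : Gr {i} z ω = Gr {i} z ω' := Gr_off h
    simp only [hφ, st, e1]
  have hpart1 : ∫ ω, φ ω * ‖xi ∅ z i ω‖ ^ (2 * 1) ∂P ≤
      Cx * ∫ ω, φ ω * (1 + NN {i} z ω) ^ 1 ∂P :=
    hxi n μ hμ ∅ i (Finset.notMem_empty i) z hz0 φ η2 hφPB.1.measurable hφ0 hφη hφoff
  have hY : ∀ ω, ‖Yv ∅ z i ω‖ ^ 2 = φ ω * ‖xi ∅ z i ω‖ ^ (2 * 1) := by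
    intro ω
    have e1 : Yv ∅ z i ω = (z - st {i} z ω)⁻¹ * xi ∅ z i ω := rfl
    rw [e1, norm_mul, mul_pow]
  have hNi : ∀ ω : Ent n, NN {i} z ω ≤ NN ∅ z ω + η2 := NN_single_le hz0 i
  have hNn : ∀ (T : Finset (Fin n)) (ω : Ent n), NN T z ω ≤ n * η2 := fun T ω => NN_le hz0
  have hpart1b : ∫ ω, φ ω * (1 + NN {i} z ω) ^ 1 ∂P ≤
      c⁻¹ ^ 2 / n * (1 + η2 + ∫ ω, NN ∅ z ω ∂P) + η2 * (1 + n * η2) * P.real B := by
    have hpt : ∀ ω, φ ω * (1 + NN {i} z ω) ^ 1 ≤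
        c⁻¹ ^ 2 / n * (1 + η2 + NN ∅ z ω) + η2 * (1 + n * η2) * ind ω := by
      intro ω
      rw [pow_one]
      have hN0 : 0 ≤ NN {i} z ω := NN_nonneg ω
      have hN1 := hNi ω
      have hN2 : 0 ≤ NN ∅ z ω := NN_nonneg ω
      by_cases hω : Good z ω
      · have h1 := hφgood ω hω
        have h2 : φ ω * (1 + NN {i} z ω) ≤ c⁻¹ ^ 2 / n * (1 + η2 + NN ∅ z ω) := by
          apply mul_le_mul h1 (by linarith) (by linarith) (by positivity)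
        have h3 : 0 ≤ η2 * (1 + n * η2) * ind ω := by
          have := hind0 ω
          positivity
        linarith
      · have hi1 : ind ω = 1 := by
          rw [hind, Set.indicator_of_mem]
          exact hω
        rw [hi1, mul_one]
        have h2 : φ ω * (1 + NN {i} z ω) ≤ η2 * (1 + n * η2) := by
          apply mul_le_mul (hφη ω) _ (by linarith) (by positivity)
          have := hNn {i} ω
          linarith
        have h3 : 0 ≤ c⁻¹ ^ 2 / n * (1 + η2 + NN ∅ z ω) := by positivity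
        linarith
    have hI2 : Integrable (fun ω => c⁻¹ ^ 2 / n * (1 + η2 + NN ∅ z ω)) P :=
      ((integrable_const _).add hNI).const_mul _
    have hI3 : Integrable (fun ω => η2 * (1 + n * η2) * ind ω) P := hindI.const_mul _
    have hI1 : Integrable (fun ω => φ ω * (1 + NN {i} z ω) ^ 1) P :=
      PB.int hμ (hφPB.mul (((PBW.const one_le_wt (1 : ℝ)).add (PB.NN hz0)).pow 1))
    calc ∫ ω, φ ω * (1 + NN {i} z ω) ^ 1 ∂P ≤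
          ∫ ω, (c⁻¹ ^ 2 / n * (1 + η2 + NN ∅ z ω) + η2 * (1 + n * η2) * ind ω) ∂P :=
          integral_mono hI1 (hI2.add hI3) hpt
      _ = c⁻¹ ^ 2 / n * (1 + η2 + ∫ ω, NN ∅ z ω ∂P) + η2 * (1 + n * η2) * P.real B := by
          have hIc : Integrable (fun _ : Ent n => 1 + η2) P := integrable_const _
          rw [integral_add hI2 hI3, integral_const_mul, integral_const_mul, hindint,
            integral_add hIc hNI, integral_const]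
          simp
  have hN10 : 0 ≤ ∫ ω, NN ∅ z ω ∂P := integral_nonneg fun ω => NN_nonneg ω
  set R : ℝ := 1 + η2 + ∫ ω, NN ∅ z ω ∂P with hR
  have hR1 : 1 ≤ R := by rw [hR]; linarith
  have hsmall : η2 * (1 + n * η2) * P.real B ≤ 2 * Cg / n * R := by
    have h4 : η2 * (1 + n * η2) ≤ 2 * (n : ℝ) ^ 3 := by
      have h6 : 1 + n * η2 ≤ 2 * (n : ℝ) ^ 2 := by nlinarith
      calc η2 * (1 + n * η2) ≤ (n : ℝ) * (2 * (n : ℝ) ^ 2) :=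
            mul_le_mul hη2n h6 (by positivity) (by positivity)
        _ = 2 * (n : ℝ) ^ 3 := by ring
    have hp : (n : ℝ) ^ 3 * ((n : ℝ) ^ 100)⁻¹ ≤ 1 / (n : ℝ) := by
      rw [← div_eq_mul_inv, div_le_div_iff₀ (by positivity) (by positivity), one_mul, ← pow_succ]
      exact pow_le_pow_right₀ hnR (by norm_num)
    have h8 : 0 ≤ 2 * Cg / (n : ℝ) := by positivity
    calc η2 * (1 + n * η2) * P.real B ≤ (2 * (n : ℝ) ^ 3) * (Cg * ((n : ℝ) ^ 100)⁻¹) :=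
          mul_le_mul h4 hBP measureReal_nonneg (by positivity)
      _ = 2 * Cg * ((n : ℝ) ^ 3 * ((n : ℝ) ^ 100)⁻¹) := by ring
      _ ≤ 2 * Cg * (1 / (n : ℝ)) := mul_le_mul_of_nonneg_left hp (by positivity)
      _ = 2 * Cg / n * 1 := by ring
      _ ≤ 2 * Cg / n * R := mul_le_mul_of_nonneg_left hR1 h8
  calc ∫ ω, ‖Yv ∅ z i ω‖ ^ 2 ∂P = ∫ ω, φ ω * ‖xi ∅ z i ω‖ ^ (2 * 1) ∂P := by
        simp only [hY]
    _ ≤ Cx * ∫ ω, φ ω * (1 + NN {i} z ω) ^ 1 ∂P := hpart1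
    _ ≤ Cx * (c⁻¹ ^ 2 / n * R + η2 * (1 + n * η2) * P.real B) :=
        mul_le_mul_of_nonneg_left hpart1b hCx
    _ ≤ Cx * (c⁻¹ ^ 2 / n * R + 2 * Cg / n * R) :=
        mul_le_mul_of_nonneg_left (by linarith) hCx
    _ = Cx * (c⁻¹ ^ 2 + 2 * Cg) / n * R := by ring

open YDiagAux in
theorem B_bound (b C0 : ℝ) (hC0 : 1 ≤ C0) : ∃ C : ℝ, 0 ≤ C ∧ ∃ n0 : ℕ, ∀ n ≥ n0,
    ∀ μ : Sym2 (Fin n) → Measure ℝ, (∀ e, GoodLaw b (μ e)) → ∀ z : ℂ, Dom C0 n z →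
    ∫ ω, ‖∑ i, (z - st {i} z ω)⁻¹ * Gr ∅ z ω i i * (xi ∅ z i ω) ^ 2‖ ^ 2 ∂(Measure.pi μ) ≤
      C * (1 + (z.im ^ 4)⁻¹ + ∫ ω, (NN ∅ z ω) ^ 2 ∂(Measure.pi μ)) := by
  obtain ⟨c, hc, hc1, n1, hweak⟩ := weak_law C0 hC0
  obtain ⟨Cg, hCg, hgood⟩ := good_prob b
  obtain ⟨C2, hC2, hxi2⟩ := xi_mom b 2
  obtain ⟨C4, hC4, hxi4⟩ := xi_mom b 4
  set c4 : ℝ := c⁻¹ ^ 4 with hc4
  have hc4pos : 0 < c4 := by positivity
  refine ⟨c4 * (12 * C2) + Cg + 8 * C4, by positivity, max n1 1, ?_⟩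
  intro n hn μ hμ z hz
  have hn1 : n1 ≤ n := le_trans (le_max_left _ _) hn
  have hn2 : 1 ≤ n := le_trans (le_max_right _ _) hn
  have hnR : (1 : ℝ) ≤ n := by exact_mod_cast hn2
  have hn0 : (0 : ℝ) < n := by linarith
  obtain ⟨hzim, hη⟩ := dom_inv hn2 hz
  have hz0 : z.im ≠ 0 := hzim.ne'
  have hprob : ∀ e, IsProbabilityMeasure (μ e) := fun e => (hμ e).prob
  have hP : IsProbabilityMeasure (Measure.pi μ) := inferInstance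
  set P := Measure.pi μ with hPdef
  set η2 : ℝ := (z.im ^ 2)⁻¹ with hη2
  have hη2pos : 0 < η2 := by positivity
  have hη2n : η2 ≤ n := by rw [hη2, ← inv_pow]; exact hη
  have hη4 : (z.im ^ 4)⁻¹ = η2 ^ 2 := by
    rw [hη2, ← inv_pow, ← inv_pow, ← pow_mul]
  set B : Set (Ent n) := {ω | ¬ Good z ω} with hB
  have hBm : MeasurableSet B := (measurable_good hz0).compl
  have hBP : P.real B ≤ Cg * ((n : ℝ) ^ 100)⁻¹ := hgood n μ hn2 hμ z hz0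
  set ind : Ent n → ℝ := B.indicator (fun _ => (1 : ℝ)) with hind
  have hindI : Integrable ind P := (integrable_const (1 : ℝ)).indicator hBm
  have hindint : ∫ ω, ind ω ∂P = P.real B := by
    rw [hind, integral_indicator hBm, setIntegral_const]
    simp
  have hind0 : ∀ ω, 0 ≤ ind ω := fun ω => by
    rw [hind]; exact Set.indicator_nonneg (fun _ _ => zero_le_one) ω
  have hNI : Integrable (fun ω => NN ∅ z ω) P := (PB.NN hz0).int hμ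
  have hN2I : Integrable (fun ω => (NN ∅ z ω) ^ 2) P := PB.int hμ ((PB.NN hz0).pow 2)
  set S : ℝ := ∫ ω, (NN ∅ z ω) ^ 2 ∂P with hS
  have hS0 : 0 ≤ S := integral_nonneg fun ω => sq_nonneg _
  rw [hη4]
  set R : ℝ := 1 + η2 ^ 2 + S with hR
  have hR1 : 1 ≤ R := by
    have : 0 ≤ η2 ^ 2 := sq_nonneg _
    rw [hR]; linarith
  have hNn : ∀ (T : Finset (Fin n)) (ω : Ent n), NN T z ω ≤ n * η2 := fun T ω => NN_le hz0
  have hGle : ∀ (i : Fin n) (ω : Ent n), ‖Gr ∅ z ω i i‖ ^ 2 ≤ η2 := by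
    intro i ω
    calc ‖Gr ∅ z ω i i‖ ^ 2 ≤ (|z.im|⁻¹) ^ 2 :=
          pow_le_pow_left₀ (norm_nonneg _) (Gr_le hz0 i i) 2
      _ = η2 := by rw [inv_pow, sq_abs]
  -- weights
  set ψ : Fin n → Ent n → ℝ := fun i ω =>
    ‖(z - st {i} z ω)⁻¹‖ ^ 2 * ‖Gr ∅ z ω i i‖ ^ 2 with hψ
  have hψ0 : ∀ i ω, 0 ≤ ψ i ω := fun i ω => by positivity
  have hψη : ∀ i ω, ψ i ω ≤ η2 ^ 2 := fun i ω => by
    rw [sq]
    exact mul_le_mul (inv_sq_le hz0 _ ω) (hGle i ω) (by positivity) hη2pos.le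
  have hψgood : ∀ i ω, Good z ω → ψ i ω ≤ c4 / (n : ℝ) ^ 2 := by
    intro i ω hω
    have hw := hweak n hn1 z hz ω hω
    have h1 := good_inv_sq hc hn0 {i} ω (hw.2.2.1 i)
    have h2 : ‖Gr ∅ z ω i i‖ ^ 2 ≤ c⁻¹ ^ 2 / n := by
      have h3 := hw.2.1 i
      calc ‖Gr ∅ z ω i i‖ ^ 2 ≤ (c⁻¹ / √n) ^ 2 := pow_le_pow_left₀ (norm_nonneg _) h3 2
        _ = c⁻¹ ^ 2 / n := by rw [div_pow, Real.sq_sqrt hn0.le]
    calc ψ i ω ≤ (c⁻¹ ^ 2 / n) * (c⁻¹ ^ 2 / n) := mul_le_mul h1 h2 (by positivity) (by positivity)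
      _ = c4 / (n : ℝ) ^ 2 := by rw [hc4]; ring
  -- moments
  have hone : ∀ A : Finset (Fin n), OffRows A (fun _ : Ent n => (1 : ℝ)) :=
    fun A ω ω' _ => rfl
  have hE2 : ∀ i : Fin n, ∫ ω, (1 + NN {i} z ω) ^ 2 ∂P ≤ 12 * R := by
    intro i
    have hI1 : Integrable (fun ω => (1 + NN {i} z ω) ^ 2) P :=
      PB.int hμ (((PBW.const one_le_wt (1 : ℝ)).add (PB.NN hz0)).pow 2)
    have hIc : Integrable (fun _ : Ent n => 1 + η2 ^ 2) P := integrable_const _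
    have hI2 : Integrable (fun ω => 12 * (1 + η2 ^ 2 + (NN ∅ z ω) ^ 2)) P :=
      (hIc.add hN2I).const_mul _
    refine (integral_mono hI1 hI2 fun ω => ?_).trans (le_of_eq ?_)
    · simp only
      have h1 : NN {i} z ω ≤ NN ∅ z ω + η2 := NN_single_le hz0 i ω
      have h2 : 0 ≤ NN {i} z ω := NN_nonneg ω
      have h3 : 0 ≤ NN ∅ z ω := NN_nonneg ω
      have h4 : (1 + NN {i} z ω) ^ 2 ≤ (1 + (NN ∅ z ω + η2)) ^ 2 :=
        pow_le_pow_left₀ (by linarith) (by linarith) 2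
      nlinarith [sq_nonneg (1 - NN ∅ z ω), sq_nonneg (1 - η2), sq_nonneg (NN ∅ z ω - η2),
        sq_nonneg η2, sq_nonneg (NN ∅ z ω)]
    · rw [integral_const_mul, integral_add hIc hN2I, integral_const, ← hS, hR]
      simp
  have hE4 : ∀ i : Fin n, ∫ ω, (1 + NN {i} z ω) ^ 4 ∂P ≤ 16 * (n : ℝ) ^ 8 := by
    intro i
    have hI1 : Integrable (fun ω => (1 + NN {i} z ω) ^ 4) P :=
      PB.int hμ (((PBW.const one_le_wt (1 : ℝ)).add (PB.NN hz0)).pow 4)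
    refine (integral_mono hI1 (integrable_const (16 * (n : ℝ) ^ 8)) fun ω => ?_).trans
      (le_of_eq (by simp))
    simp only
    have h1 := hNn {i} ω
    have h2 : 0 ≤ NN {i} z ω := NN_nonneg ω
    have h3 : 1 + NN {i} z ω ≤ 2 * (n : ℝ) ^ 2 := by nlinarith
    calc (1 + NN {i} z ω) ^ 4 ≤ (2 * (n : ℝ) ^ 2) ^ 4 :=
          pow_le_pow_left₀ (by linarith) h3 4
      _ = 16 * (n : ℝ) ^ 8 := by ring
  have hx4 : ∀ i : Fin n, ∫ ω, ‖xi ∅ z i ω‖ ^ 4 ∂P ≤ C2 * (12 * R) := by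
    intro i
    have h1 := hxi2 n μ hμ ∅ i (Finset.notMem_empty i) z hz0 (fun _ => (1 : ℝ)) 1
      measurable_const (fun _ => zero_le_one) (fun _ => le_refl _) (hone _)
    simp only [one_mul] at h1
    exact h1.trans (mul_le_mul_of_nonneg_left (hE2 i) hC2)
  have hx8 : ∀ i : Fin n, ∫ ω, ‖xi ∅ z i ω‖ ^ 8 ∂P ≤ C4 * (16 * (n : ℝ) ^ 8) := by
    intro i
    have h1 := hxi4 n μ hμ ∅ i (Finset.notMem_empty i) z hz0 (fun _ => (1 : ℝ)) 1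
      measurable_const (fun _ => zero_le_one) (fun _ => le_refl _) (hone _)
    simp only [one_mul] at h1
    exact h1.trans (mul_le_mul_of_nonneg_left (hE4 i) hC4)
  -- pointwise bound
  have hpt : ∀ ω, ‖∑ i, (z - st {i} z ω)⁻¹ * Gr ∅ z ω i i * (xi ∅ z i ω) ^ 2‖ ^ 2 ≤
      n * ∑ i, (c4 / (n : ℝ) ^ 2 * ‖xi ∅ z i ω‖ ^ 4 +
        ((n : ℝ) ^ 40 / 2 * ind ω + η2 ^ 4 / (2 * (n : ℝ) ^ 40) * ‖xi ∅ z i ω‖ ^ 8)) := by
    intro ω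
    have h1 : ‖∑ i, (z - st {i} z ω)⁻¹ * Gr ∅ z ω i i * (xi ∅ z i ω) ^ 2‖ ≤
        ∑ i, ‖(z - st {i} z ω)⁻¹ * Gr ∅ z ω i i * (xi ∅ z i ω) ^ 2‖ := norm_sum_le _ _
    have h2 : ‖∑ i, (z - st {i} z ω)⁻¹ * Gr ∅ z ω i i * (xi ∅ z i ω) ^ 2‖ ^ 2 ≤
        (∑ i, ‖(z - st {i} z ω)⁻¹ * Gr ∅ z ω i i * (xi ∅ z i ω) ^ 2‖) ^ 2 :=
      pow_le_pow_left₀ (norm_nonneg _) h1 2
    have h3 : (∑ i, ‖(z - st {i} z ω)⁻¹ * Gr ∅ z ω i i * (xi ∅ z i ω) ^ 2‖) ^ 2 ≤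
        n * ∑ i, ‖(z - st {i} z ω)⁻¹ * Gr ∅ z ω i i * (xi ∅ z i ω) ^ 2‖ ^ 2 := by
      have := sq_sum_le_card_mul_sum_sq (s := (Finset.univ : Finset (Fin n)))
        (f := fun i => ‖(z - st {i} z ω)⁻¹ * Gr ∅ z ω i i * (xi ∅ z i ω) ^ 2‖)
      simpa using this
    refine (h2.trans h3).trans (mul_le_mul_of_nonneg_left (Finset.sum_le_sum fun i _ => ?_)
      hn0.le)
    have e1 : ‖(z - st {i} z ω)⁻¹ * Gr ∅ z ω i i * (xi ∅ z i ω) ^ 2‖ ^ 2 =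
        ψ i ω * ‖xi ∅ z i ω‖ ^ 4 := by
      simp only [hψ, norm_mul, norm_pow]
      ring
    rw [e1]
    set x := ‖xi ∅ z i ω‖ with hx
    have hx0 : 0 ≤ x := norm_nonneg _
    by_cases hω : Good z ω
    · have h1 := mul_le_mul_of_nonneg_right (hψgood i ω hω) (by positivity : 0 ≤ x ^ 4)
      have h2 := hind0 ω
      have h3 : 0 ≤ (n : ℝ) ^ 40 / 2 * ind ω + η2 ^ 4 / (2 * (n : ℝ) ^ 40) * x ^ 8 := by
        positivity
      linarith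
    · have hi1 : ind ω = 1 := by
        rw [hind, Set.indicator_of_mem]
        exact hω
      rw [hi1, mul_one]
      have h1 : ψ i ω * x ^ 4 ≤ η2 ^ 2 * x ^ 4 :=
        mul_le_mul_of_nonneg_right (hψη i ω) (by positivity)
      have h2 : η2 ^ 2 * x ^ 4 ≤ (n : ℝ) ^ 40 / 2 +
          η2 ^ 4 / (2 * (n : ℝ) ^ 40) * x ^ 8 := by
        have hN : (0 : ℝ) < (n : ℝ) ^ 40 := by positivity
        have h4 : (n : ℝ) ^ 40 / 2 + η2 ^ 4 / (2 * (n : ℝ) ^ 40) * x ^ 8 -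
            η2 ^ 2 * x ^ 4 =
            ((n : ℝ) ^ 40 - η2 ^ 2 * x ^ 4) ^ 2 / (2 * (n : ℝ) ^ 40) := by
          field_simp
          ring
        have h5 : 0 ≤ ((n : ℝ) ^ 40 - η2 ^ 2 * x ^ 4) ^ 2 / (2 * (n : ℝ) ^ 40) := by
          positivity
        linarith
      have h3 : 0 ≤ c4 / (n : ℝ) ^ 2 * x ^ 4 := by positivity
      linarith
  -- integrability
  have hxPB : ∀ i : Fin n, PB (fun ω : Ent n => ‖xi ∅ z i ω‖) := fun i => (PB.xi hz0 i).norm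
  have hJ4 : ∀ i : Fin n, Integrable (fun ω => ‖xi ∅ z i ω‖ ^ 4) P := fun i =>
    PB.int hμ ((hxPB i).pow 4)
  have hJ8 : ∀ i : Fin n, Integrable (fun ω => ‖xi ∅ z i ω‖ ^ 8) P := fun i =>
    PB.int hμ ((hxPB i).pow 8)
  have hK1 : ∀ i : Fin n, Integrable (fun ω => c4 / (n : ℝ) ^ 2 * ‖xi ∅ z i ω‖ ^ 4) P :=
    fun i => (hJ4 i).const_mul _
  have hK2 : Integrable (fun ω => (n : ℝ) ^ 40 / 2 * ind ω) P := hindI.const_mul _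
  have hK3 : ∀ i : Fin n, Integrable (fun ω =>
      η2 ^ 4 / (2 * (n : ℝ) ^ 40) * ‖xi ∅ z i ω‖ ^ 8) P := fun i => (hJ8 i).const_mul _
  have hK23 : ∀ i : Fin n, Integrable (fun ω => (n : ℝ) ^ 40 / 2 * ind ω +
      η2 ^ 4 / (2 * (n : ℝ) ^ 40) * ‖xi ∅ z i ω‖ ^ 8) P := fun i => hK2.add (hK3 i)
  have hK : ∀ i : Fin n, Integrable (fun ω => c4 / (n : ℝ) ^ 2 * ‖xi ∅ z i ω‖ ^ 4 +
      ((n : ℝ) ^ 40 / 2 * ind ω + η2 ^ 4 / (2 * (n : ℝ) ^ 40) * ‖xi ∅ z i ω‖ ^ 8)) P :=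
    fun i => (hK1 i).add (hK23 i)
  have hL : Integrable (fun ω =>
      ‖∑ i, (z - st {i} z ω)⁻¹ * Gr ∅ z ω i i * (xi ∅ z i ω) ^ 2‖ ^ 2) P := by
    refine PB.int hμ (PBW.pow (PBW.norm ?_) 2)
    exact PBW.sum one_le_wt _ fun i _ =>
      ((PB.inv_sub_st hz0).mul (PB.Gr hz0 i i)).mul ((PB.xi hz0 i).cpow 2)
  -- one summand
  have hpow : ∀ k m : ℕ, k + 2 ≤ m → (n : ℝ) ^ k * ((n : ℝ) ^ m)⁻¹ ≤ 1 / (n : ℝ) ^ 2 := by
    intro k m hkm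
    rw [← div_eq_mul_inv, div_le_div_iff₀ (by positivity) (by positivity), one_mul, ← pow_add]
    exact pow_le_pow_right₀ hnR hkm
  have hterm : ∀ i : Fin n, ∫ ω, (c4 / (n : ℝ) ^ 2 * ‖xi ∅ z i ω‖ ^ 4 +
      ((n : ℝ) ^ 40 / 2 * ind ω + η2 ^ 4 / (2 * (n : ℝ) ^ 40) * ‖xi ∅ z i ω‖ ^ 8)) ∂P ≤
      (c4 * (12 * C2) + Cg + 8 * C4) / (n : ℝ) ^ 2 * R := by
    intro i
    rw [integral_add (hK1 i) (hK23 i), integral_add hK2 (hK3 i), integral_const_mul,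
      integral_const_mul, integral_const_mul, hindint]
    have t1 : c4 / (n : ℝ) ^ 2 * ∫ ω, ‖xi ∅ z i ω‖ ^ 4 ∂P ≤
        c4 / (n : ℝ) ^ 2 * (C2 * (12 * R)) :=
      mul_le_mul_of_nonneg_left (hx4 i) (by positivity)
    have t2 : (n : ℝ) ^ 40 / 2 * P.real B ≤ Cg / (n : ℝ) ^ 2 * R := by
      calc (n : ℝ) ^ 40 / 2 * P.real B ≤ (n : ℝ) ^ 40 / 2 * (Cg * ((n : ℝ) ^ 100)⁻¹) :=
            mul_le_mul_of_nonneg_left hBP (by positivity)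
        _ = Cg / 2 * ((n : ℝ) ^ 40 * ((n : ℝ) ^ 100)⁻¹) := by ring
        _ ≤ Cg / 2 * (1 / (n : ℝ) ^ 2) :=
            mul_le_mul_of_nonneg_left (hpow 40 100 (by norm_num)) (by positivity)
        _ ≤ Cg / (n : ℝ) ^ 2 * R := by
            have h8 : 0 ≤ Cg / (n : ℝ) ^ 2 := by positivity
            have : Cg / 2 * (1 / (n : ℝ) ^ 2) = Cg / (n : ℝ) ^ 2 * (1 / 2) := by ring
            rw [this]
            exact mul_le_mul_of_nonneg_left (by linarith) h8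
    have t3 : η2 ^ 4 / (2 * (n : ℝ) ^ 40) * ∫ ω, ‖xi ∅ z i ω‖ ^ 8 ∂P ≤
        8 * C4 / (n : ℝ) ^ 2 * R := by
      have h1 : η2 ^ 4 ≤ (n : ℝ) ^ 4 := pow_le_pow_left₀ hη2pos.le hη2n 4
      calc η2 ^ 4 / (2 * (n : ℝ) ^ 40) * ∫ ω, ‖xi ∅ z i ω‖ ^ 8 ∂P ≤
            (n : ℝ) ^ 4 / (2 * (n : ℝ) ^ 40) * (C4 * (16 * (n : ℝ) ^ 8)) := by
            apply mul_le_mul _ (hx8 i) (integral_nonneg fun ω => by positivity) (by positivity)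
            exact div_le_div_of_nonneg_right h1 (by positivity)
        _ = 8 * C4 * ((n : ℝ) ^ 12 * ((n : ℝ) ^ 40)⁻¹) := by
            field_simp
            ring
        _ ≤ 8 * C4 * (1 / (n : ℝ) ^ 2) :=
            mul_le_mul_of_nonneg_left (hpow 12 40 (by norm_num)) (by positivity)
        _ = 8 * C4 / (n : ℝ) ^ 2 * 1 := by ring
        _ ≤ 8 * C4 / (n : ℝ) ^ 2 * R := mul_le_mul_of_nonneg_left hR1 (by positivity)
    calc _ ≤ c4 / (n : ℝ) ^ 2 * (C2 * (12 * R)) +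
          (Cg / (n : ℝ) ^ 2 * R + 8 * C4 / (n : ℝ) ^ 2 * R) := by linarith
      _ = (c4 * (12 * C2) + Cg + 8 * C4) / (n : ℝ) ^ 2 * R := by ring
  calc ∫ ω, ‖∑ i, (z - st {i} z ω)⁻¹ * Gr ∅ z ω i i * (xi ∅ z i ω) ^ 2‖ ^ 2 ∂P
      ≤ ∫ ω, (n : ℝ) * ∑ i, (c4 / (n : ℝ) ^ 2 * ‖xi ∅ z i ω‖ ^ 4 +
        ((n : ℝ) ^ 40 / 2 * ind ω + η2 ^ 4 / (2 * (n : ℝ) ^ 40) * ‖xi ∅ z i ω‖ ^ 8)) ∂P :=
        integral_mono hL ((integrable_finsetSum _ fun i _ => hK i).const_mul _) hpt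
    _ = n * ∑ i, ∫ ω, (c4 / (n : ℝ) ^ 2 * ‖xi ∅ z i ω‖ ^ 4 +
        ((n : ℝ) ^ 40 / 2 * ind ω + η2 ^ 4 / (2 * (n : ℝ) ^ 40) * ‖xi ∅ z i ω‖ ^ 8)) ∂P := by
        rw [integral_const_mul, integral_finsetSum _ fun i _ => hK i]
    _ ≤ n * ∑ _i : Fin n, (c4 * (12 * C2) + Cg + 8 * C4) / (n : ℝ) ^ 2 * R :=
        mul_le_mul_of_nonneg_left (Finset.sum_le_sum fun i _ => hterm i) hn0.le
    _ = (c4 * (12 * C2) + Cg + 8 * C4) * R := by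
        rw [Finset.sum_const, Finset.card_univ, Fintype.card_fin, nsmul_eq_mul]
        field_simp

end Pool.Agent.Eig
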