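import Pool.Agent.Work.MP_1c1c8a_pr.GoodProb
import Pool.Agent.Work.MP_1c1c8a_pr.WeakLaw
import Pool.Agent.Work.MP_1c1c8a_pr.Meas

/-! # Off-diagonal terms -/

namespace Pool.Agent.Eig

open MeasureTheory Filter Topology Matrix

namespace YOffAux

variable {n : ℕ} {z : ℂ}

theorem measurable_good (hz : z.im ≠ 0) : MeasurableSet {ω : Ent n | Good z ω} := by
  have h1 : {ω : Ent n | Good z ω} =
      (⋂ i, {ω : Ent n | ‖xi ∅ z i ω‖ ≤ (n : ℝ) ^ ((1 : ℝ) / 20) * (1 + √(NN {i} z ω))}) ∩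
      (⋂ i, ⋂ j, {ω : Ent n | i ≠ j →
        ‖xi {i} z j ω‖ ≤ (n : ℝ) ^ ((1 : ℝ) / 20) * (1 + √(NN {i, j} z ω))}) := by
    ext ω
    simp [Good]
  rw [h1]
  have hc : ∀ (T T' : Finset (Fin n)) (i : Fin n), MeasurableSet {ω : Ent n |
      ‖xi T z i ω‖ ≤ (n : ℝ) ^ ((1 : ℝ) / 20) * (1 + √(NN T' z ω))} := by
    intro T T' i
    apply IsClosed.measurableSet
    apply isClosed_le
    · exact (PB.xi hz i).1.norm
    · exact continuous_const.mul (continuous_const.add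
        (Real.continuous_sqrt.comp (PB.NN hz).1))
  apply MeasurableSet.inter
  · exact MeasurableSet.iInter fun i => hc _ _ _
  · refine MeasurableSet.iInter fun i => MeasurableSet.iInter fun j => ?_
    by_cases hij : i = j
    · simp [hij]
    · simpa [hij] using hc {i} {i, j} j

theorem insert_eq (i j : Fin n) : (insert j {i} : Finset (Fin n)) = {i, j} :=
  Finset.pair_comm j i

/-- removal of two rows -/
theorem NN_pair_le (hz : z.im ≠ 0) {i j : Fin n} (hij : i ≠ j) (ω : Ent n) :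
    NN {i, j} z ω ≤ NN ∅ z ω + 2 * (z.im ^ 2)⁻¹ := by
  have h1 := NN_insert_le (T := ∅) (ω := ω) hz (i := i) (Finset.notMem_empty i)
  have h2 := NN_insert_le (T := {i}) (ω := ω) hz (i := j) (by simp [Ne.symm hij])
  rw [insert_eq] at h2
  have h3 : (insert i ∅ : Finset (Fin n)) = {i} := rfl
  rw [h3] at h1
  linarith

theorem NN_single_le (hz : z.im ≠ 0) (i : Fin n) (ω : Ent n) :
    NN {i} z ω ≤ NN ∅ z ω + (z.im ^ 2)⁻¹ :=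
  NN_insert_le (T := ∅) (ω := ω) hz (i := i) (Finset.notMem_empty i)

/-- pointwise bound for the difference -/
theorem point (hz : z.im ≠ 0) {i j : Fin n} (hij : i ≠ j) (ω : Ent n) :
    ‖Yv ∅ z i ω - Yv {j} z i ω‖ ^ 2 ≤
      2 * ((z.im ^ 2)⁻¹ * ((‖(z - st {i} z ω)⁻¹‖ ^ 2 * ‖(z - st {i, j} z ω)⁻¹‖ ^ 2) *
        ‖xi ∅ z i ω‖ ^ (2 * 1))) +
      2 * ((‖(z - st {i, j} z ω)⁻¹‖ ^ 2 * ‖Gr {i} z ω j j‖ ^ 2) *
        (‖bb z i j ω‖ ^ 2 + ∑ k, ‖av {i} z j ω k‖ ^ 2) ^ 2) := by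
  have hne : ∀ T : Finset (Fin n), z - st T z ω ≠ 0 := fun T => sub_st_ne hz ω
  have e1 : Yv ∅ z i ω = (z - st {i} z ω)⁻¹ * xi ∅ z i ω := rfl
  have e2 : Yv {j} z i ω = (z - st {i, j} z ω)⁻¹ * xi {j} z i ω := rfl
  have hst := st_sub_le (T := {i}) (ω := ω) hz (i := j) (by simp [Ne.symm hij])
  rw [insert_eq] at hst
  have hx := xi_sub (ω := ω) hz hij
  set h1 := (z - st {i} z ω)⁻¹ with hh1
  set h2 := (z - st {i, j} z ω)⁻¹ with hh2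
  have hdiff : h1 - h2 = h1 * h2 * (st {i} z ω - st {i, j} z ω) := by
    rw [hh1, hh2]
    field_simp [hne {i}, hne {i, j}]
    ring
  have hsplit : Yv ∅ z i ω - Yv {j} z i ω =
      (h1 - h2) * xi ∅ z i ω + h2 * (xi ∅ z i ω - xi {j} z i ω) := by
    rw [e1, e2]; ring
  have ha : ‖(h1 - h2) * xi ∅ z i ω‖ ^ 2 ≤
      (z.im ^ 2)⁻¹ * ((‖h1‖ ^ 2 * ‖h2‖ ^ 2) * ‖xi ∅ z i ω‖ ^ (2 * 1)) := by
    rw [hdiff, norm_mul, norm_mul, norm_mul, mul_pow, mul_pow, mul_pow]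
    have h3 : ‖st {i} z ω - st {i, j} z ω‖ ^ 2 ≤ (z.im ^ 2)⁻¹ := by
      calc ‖st {i} z ω - st {i, j} z ω‖ ^ 2 ≤ (|z.im|⁻¹) ^ 2 :=
            pow_le_pow_left₀ (norm_nonneg _) hst 2
        _ = (z.im ^ 2)⁻¹ := by rw [inv_pow, sq_abs]
    calc ‖h1‖ ^ 2 * ‖h2‖ ^ 2 * ‖st {i} z ω - st {i, j} z ω‖ ^ 2 * ‖xi ∅ z i ω‖ ^ 2
        = ‖st {i} z ω - st {i, j} z ω‖ ^ 2 * (‖h1‖ ^ 2 * ‖h2‖ ^ 2 * ‖xi ∅ z i ω‖ ^ 2) := by ring
      _ ≤ (z.im ^ 2)⁻¹ * (‖h1‖ ^ 2 * ‖h2‖ ^ 2 * ‖xi ∅ z i ω‖ ^ 2) :=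
          mul_le_mul_of_nonneg_right h3 (by positivity)
      _ = _ := by ring
  have hb : ‖h2 * (xi ∅ z i ω - xi {j} z i ω)‖ ^ 2 ≤
      (‖h2‖ ^ 2 * ‖Gr {i} z ω j j‖ ^ 2) *
        (‖bb z i j ω‖ ^ 2 + ∑ k, ‖av {i} z j ω k‖ ^ 2) ^ 2 := by
    rw [hx, norm_mul, norm_mul, mul_pow, mul_pow, ← mul_assoc]
    apply mul_le_mul_of_nonneg_left _ (by positivity)
    apply pow_le_pow_left₀ (norm_nonneg _)
    refine (norm_sub_le _ _).trans ?_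
    rw [norm_pow]
    gcongr
    refine (norm_sum_le _ _).trans (le_of_eq ?_)
    exact Finset.sum_congr rfl fun k _ => by rw [norm_pow]
  have hc : ‖Yv ∅ z i ω - Yv {j} z i ω‖ ^ 2 ≤
      2 * ‖(h1 - h2) * xi ∅ z i ω‖ ^ 2 + 2 * ‖h2 * (xi ∅ z i ω - xi {j} z i ω)‖ ^ 2 := by
    rw [hsplit]
    have h4 := norm_add_le ((h1 - h2) * xi ∅ z i ω) (h2 * (xi ∅ z i ω - xi {j} z i ω))
    have h5 := norm_nonneg ((h1 - h2) * xi ∅ z i ω + h2 * (xi ∅ z i ω - xi {j} z i ω))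
    nlinarith [sq_nonneg (‖(h1 - h2) * xi ∅ z i ω‖ - ‖h2 * (xi ∅ z i ω - xi {j} z i ω)‖)]
  linarith

/-- bounds from the domain -/
theorem dom_inv {C0 : ℝ} (hn : 1 ≤ n) (hz : Dom C0 n z) :
    0 < z.im ∧ (z.im)⁻¹ ^ 2 ≤ n := by
  have hn0 : (0 : ℝ) < n := by exact_mod_cast hn
  have hp : 0 < (n : ℝ) ^ (-(1 : ℝ) / 6) := Real.rpow_pos_of_pos hn0 _
  have h1 : 0 < z.im := lt_of_lt_of_le hp hz.1
  refine ⟨h1, ?_⟩
  have h2 : z.im⁻¹ ≤ ((n : ℝ) ^ (-(1 : ℝ) / 6))⁻¹ := inv_anti₀ hp hz.1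
  have h3 : ((n : ℝ) ^ (-(1 : ℝ) / 6))⁻¹ = (n : ℝ) ^ ((1 : ℝ) / 6) := by
    rw [← Real.rpow_neg hn0.le]
    norm_num
  rw [h3] at h2
  calc z.im⁻¹ ^ 2 ≤ ((n : ℝ) ^ ((1 : ℝ) / 6)) ^ 2 :=
        pow_le_pow_left₀ (inv_nonneg.2 h1.le) h2 2
    _ = (n : ℝ) ^ ((1 : ℝ) / 3) := by
        rw [← Real.rpow_natCast, ← Real.rpow_mul hn0.le]
        norm_num
    _ ≤ (n : ℝ) ^ (1 : ℝ) :=
        Real.rpow_le_rpow_of_exponent_le (by exact_mod_cast hn) (by norm_num)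
    _ = n := Real.rpow_one _

end YOffAux

open YOffAux in
theorem Y_off (b C0 : ℝ) (hC0 : 1 ≤ C0) : ∃ C : ℝ, 0 ≤ C ∧ ∃ n0 : ℕ, ∀ n ≥ n0,
    ∀ μ : Sym2 (Fin n) → Measure ℝ, (∀ e, GoodLaw b (μ e)) → ∀ z : ℂ, Dom C0 n z →
    ∀ i j : Fin n, i ≠ j →
    ∫ ω, ‖Yv ∅ z i ω - Yv {j} z i ω‖ ^ 2 ∂(Measure.pi μ) ≤
      C / (n : ℝ) ^ 2 * (1 + (z.im ^ 4)⁻¹ + ∫ ω, (NN ∅ z ω) ^ 2 ∂(Measure.pi μ)) := by
  obtain ⟨c, hc, hc1, n1, hweak⟩ := weak_law C0 hC0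
  obtain ⟨Cg, hCg, hgood⟩ := good_prob b
  obtain ⟨Cx, hCx, hxi⟩ := xi_mom b 1
  obtain ⟨Ca2, hCa2, hav2⟩ := av_mom b 2
  obtain ⟨Ca4, hCa4, hav4⟩ := av_mom b 4
  obtain ⟨Cb2, hCb2, hbb2⟩ := bb_mom b 2
  obtain ⟨Cb4, hCb4, hbb4⟩ := bb_mom b 4
  set c4 : ℝ := c⁻¹ ^ 4 with hc4
  have hc4pos : 0 < c4 := by positivity
  refine ⟨2 * (Cx * (6 * c4 + 4 * Cg)) + 2 * (c4 * (24 * (Cb2 + Ca2)) + Cg +
    64 * (Cb4 + Ca4)), by positivity, max n1 1, ?_⟩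
  intro n hn μ hμ z hz i j hij
  have hn1 : n1 ≤ n := le_trans (le_max_left _ _) hn
  have hn2 : 1 ≤ n := le_trans (le_max_right _ _) hn
  have hnR : (1 : ℝ) ≤ n := by exact_mod_cast hn2
  have hn0 : (0 : ℝ) < n := by linarith
  obtain ⟨hzim, hη⟩ := dom_inv hn2 hz
  have hz0 : z.im ≠ 0 := hzim.ne'
  have hprob : ∀ e, IsProbabilityMeasure (μ e) := fun e => (hμ e).prob
  have hP : IsProbabilityMeasure (Measure.pi μ) := inferInstance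
  set P := Measure.pi μ with hPdef
  set η2 : ℝ := (z.im ^ 2)⁻¹ with hη2
  have hη2pos : 0 < η2 := by positivity
  have hη2n : η2 ≤ n := by rw [hη2, ← inv_pow]; exact hη
  have hη4 : (z.im ^ 4)⁻¹ = η2 ^ 2 := by
    rw [hη2, ← inv_pow, ← inv_pow, ← pow_mul]
  set B : Set (Ent n) := {ω | ¬ Good z ω} with hB
  have hBm : MeasurableSet B := (measurable_good hz0).compl
  have hBP : P.real B ≤ Cg * ((n : ℝ) ^ 100)⁻¹ := hgood n μ hn2 hμ z hz0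
  set ind : Ent n → ℝ := B.indicator (fun _ => (1 : ℝ)) with hind
  have hindI : Integrable ind P := (integrable_const (1 : ℝ)).indicator hBm
  have hindint : ∫ ω, ind ω ∂P = P.real B := by
    rw [hind, integral_indicator hBm, setIntegral_const]
    simp
  have hind0 : ∀ ω, 0 ≤ ind ω := fun ω => by
    rw [hind]; exact Set.indicator_nonneg (fun _ _ => zero_le_one) ω
  -- second moment
  set S : ℝ := ∫ ω, (NN ∅ z ω) ^ 2 ∂P with hS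
  have hS0 : 0 ≤ S := integral_nonneg fun ω => sq_nonneg _
  have hNI : Integrable (fun ω => NN ∅ z ω) P := (PB.NN hz0).int hμ
  have hN2I : Integrable (fun ω => (NN ∅ z ω) ^ 2) P := PB.int hμ ((PB.NN hz0).pow 2)
  -- bounds on resolvents
  have hinvle : ∀ (T : Finset (Fin n)) (ω : Ent n), ‖(z - st T z ω)⁻¹‖ ^ 2 ≤ η2 := by
    intro T ω
    calc ‖(z - st T z ω)⁻¹‖ ^ 2 ≤ (|z.im|⁻¹) ^ 2 :=
          pow_le_pow_left₀ (norm_nonneg _) (norm_inv_sub_st_le hz0 ω) 2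
      _ = η2 := by rw [inv_pow, sq_abs]
  have hGle : ∀ ω : Ent n, ‖Gr {i} z ω j j‖ ^ 2 ≤ η2 := by
    intro ω
    calc ‖Gr {i} z ω j j‖ ^ 2 ≤ (|z.im|⁻¹) ^ 2 :=
          pow_le_pow_left₀ (norm_nonneg _) (Gr_le hz0 j j) 2
      _ = η2 := by rw [inv_pow, sq_abs]
  have hgoodinv : ∀ (T : Finset (Fin n)) (ω : Ent n), c * √n ≤ ‖z - st T z ω‖ →
      ‖(z - st T z ω)⁻¹‖ ^ 2 ≤ c⁻¹ ^ 2 / n := by
    intro T ω h
    rw [norm_inv, inv_pow]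
    have h1 : (c * √n) ^ 2 ≤ ‖z - st T z ω‖ ^ 2 := pow_le_pow_left₀ (by positivity) h 2
    rw [mul_pow, Real.sq_sqrt hn0.le] at h1
    calc (‖z - st T z ω‖ ^ 2)⁻¹ ≤ (c ^ 2 * n)⁻¹ := inv_anti₀ (by positivity) h1
      _ = c⁻¹ ^ 2 / n := by rw [mul_inv, inv_pow, div_eq_mul_inv]
  -- Part 1
  set φ : Ent n → ℝ := fun ω => ‖(z - st {i} z ω)⁻¹‖ ^ 2 * ‖(z - st {i, j} z ω)⁻¹‖ ^ 2 with hφ
  have hφPB : PB φ := ((PB.inv_sub_st hz0).norm.pow 2).mul ((PB.inv_sub_st hz0).norm.pow 2)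
  have hφ0 : ∀ ω, 0 ≤ φ ω := fun ω => by positivity
  have hφη : ∀ ω, φ ω ≤ η2 ^ 2 := fun ω => by
    rw [sq]
    exact mul_le_mul (hinvle _ ω) (hinvle _ ω) (by positivity) hη2pos.le
  have hφgood : ∀ ω, Good z ω → φ ω ≤ c4 / (n : ℝ) ^ 2 := by
    intro ω hω
    have hw := hweak n hn1 z hz ω hω
    have h1 := hgoodinv {i} ω (hw.2.2.1 i)
    have h2 := hgoodinv {i, j} ω (hw.2.2.2.2.1 i j hij)
    calc φ ω ≤ (c⁻¹ ^ 2 / n) * (c⁻¹ ^ 2 / n) := mul_le_mul h1 h2 (by positivity) (by positivity)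
      _ = c4 / (n : ℝ) ^ 2 := by rw [hc4]; ring
  have hφoff : OffRows {i} φ := by
    intro ω ω' h
    have e1 : Gr {i} z ω = Gr {i} z ω' := Gr_off h
    have e2 : Gr {i, j} z ω = Gr {i, j} z ω' := by
      apply Gr_off
      intro e he
      apply h
      intro k hk
      rw [Finset.mem_singleton] at hk
      subst hk
      exact he k (by simp)
    simp only [hφ, st, e1, e2]
  have hpart1 : ∫ ω, φ ω * ‖xi ∅ z i ω‖ ^ (2 * 1) ∂P ≤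
      Cx * ∫ ω, φ ω * (1 + NN {i} z ω) ^ 1 ∂P :=
    hxi n μ hμ ∅ i (Finset.notMem_empty i) z hz0 φ (η2 ^ 2) hφPB.1.measurable hφ0 hφη hφoff
  have hNi : ∀ ω : Ent n, NN {i} z ω ≤ NN ∅ z ω + η2 := NN_single_le hz0 i
  have hNn : ∀ (T : Finset (Fin n)) (ω : Ent n), NN T z ω ≤ n * η2 := fun T ω => NN_le hz0
  have hpart1b : ∫ ω, φ ω * (1 + NN {i} z ω) ^ 1 ∂P ≤
      c4 / (n : ℝ) ^ 2 * (1 + η2 + ∫ ω, NN ∅ z ω ∂P) + η2 ^ 2 * (1 + n * η2) * P.real B := by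
    have hpt : ∀ ω, φ ω * (1 + NN {i} z ω) ^ 1 ≤
        c4 / (n : ℝ) ^ 2 * (1 + η2 + NN ∅ z ω) + η2 ^ 2 * (1 + n * η2) * ind ω := by
      intro ω
      rw [pow_one]
      have hN0 : 0 ≤ NN {i} z ω := NN_nonneg ω
      have hN1 := hNi ω
      have hN2 : 0 ≤ NN ∅ z ω := NN_nonneg ω
      by_cases hω : Good z ω
      · have h1 := hφgood ω hω
        have h2 : φ ω * (1 + NN {i} z ω) ≤ c4 / (n : ℝ) ^ 2 * (1 + η2 + NN ∅ z ω) := by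
          apply mul_le_mul h1 (by linarith) (by linarith) (by positivity)
        have h3 : 0 ≤ η2 ^ 2 * (1 + n * η2) * ind ω := by
          have := hind0 ω
          positivity
        linarith
      · have hi1 : ind ω = 1 := by
          rw [hind, Set.indicator_of_mem]
          exact hω
        rw [hi1, mul_one]
        have h2 : φ ω * (1 + NN {i} z ω) ≤ η2 ^ 2 * (1 + n * η2) := by
          apply mul_le_mul (hφη ω) _ (by linarith) (by positivity)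
          have := hNn {i} ω
          linarith
        have h3 : 0 ≤ c4 / (n : ℝ) ^ 2 * (1 + η2 + NN ∅ z ω) := by positivity
        linarith
    have hI2 : Integrable (fun ω => c4 / (n : ℝ) ^ 2 * (1 + η2 + NN ∅ z ω)) P :=
      ((integrable_const _).add hNI).const_mul _
    have hI3 : Integrable (fun ω => η2 ^ 2 * (1 + n * η2) * ind ω) P := hindI.const_mul _
    have hI1 : Integrable (fun ω => φ ω * (1 + NN {i} z ω) ^ 1) P :=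
      PB.int hμ (hφPB.mul (((PBW.const one_le_wt (1 : ℝ)).add (PB.NN hz0)).pow 1))
    calc ∫ ω, φ ω * (1 + NN {i} z ω) ^ 1 ∂P ≤
          ∫ ω, (c4 / (n : ℝ) ^ 2 * (1 + η2 + NN ∅ z ω) + η2 ^ 2 * (1 + n * η2) * ind ω) ∂P :=
          integral_mono hI1 (hI2.add hI3) hpt
      _ = c4 / (n : ℝ) ^ 2 * (1 + η2 + ∫ ω, NN ∅ z ω ∂P) + η2 ^ 2 * (1 + n * η2) * P.real B := by
          have hIc : Integrable (fun _ : Ent n => 1 + η2) P := integrable_const _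
          rw [integral_add hI2 hI3, integral_const_mul, integral_const_mul, hindint,
            integral_add hIc hNI, integral_const]
          simp
  -- first moment against second moment
  have hfirst : η2 * ∫ ω, NN ∅ z ω ∂P ≤ (η2 ^ 2 + S) / 2 := by
    rw [← integral_const_mul]
    have hIc : Integrable (fun _ : Ent n => η2 ^ 2 / 2) P := integrable_const _
    have hId : Integrable (fun ω : Ent n => (NN ∅ z ω) ^ 2 / 2) P := hN2I.div_const 2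
    have hIs : Integrable (fun ω : Ent n => η2 ^ 2 / 2 + (NN ∅ z ω) ^ 2 / 2) P := hIc.add hId
    have : ∫ ω, η2 * NN ∅ z ω ∂P ≤ ∫ ω, (η2 ^ 2 / 2 + (NN ∅ z ω) ^ 2 / 2) ∂P := by
      refine integral_mono (hNI.const_mul _) hIs fun ω => ?_
      show η2 * NN ∅ z ω ≤ η2 ^ 2 / 2 + (NN ∅ z ω) ^ 2 / 2
      nlinarith [sq_nonneg (η2 - NN ∅ z ω)]
    refine this.trans (le_of_eq ?_)
    have e1 : ∫ _ω : Ent n, η2 ^ 2 / 2 ∂P = η2 ^ 2 / 2 := by simp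
    have e2 : ∫ ω : Ent n, (NN ∅ z ω) ^ 2 / 2 ∂P = S / 2 := by rw [integral_div]
    rw [integral_add hIc hId, e1, e2]
    ring
  have hη2le : η2 ≤ (1 + η2 ^ 2) / 2 := by nlinarith [sq_nonneg (1 - η2)]
  have hpow : ∀ k m : ℕ, k + 2 ≤ m → (n : ℝ) ^ k * ((n : ℝ) ^ m)⁻¹ ≤ 1 / (n : ℝ) ^ 2 := by
    intro k m hkm
    rw [← div_eq_mul_inv, div_le_div_iff₀ (by positivity) (by positivity), one_mul, ← pow_add]
    exact pow_le_pow_right₀ hnR hkm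
  have hpart1c : η2 * ∫ ω, φ ω * (1 + NN {i} z ω) ^ 1 ∂P ≤
      (6 * c4 + 4 * Cg) / (n : ℝ) ^ 2 * (1 + η2 ^ 2 + S) := by
    have h1 : η2 * ∫ ω, φ ω * (1 + NN {i} z ω) ^ 1 ∂P ≤
        η2 * (c4 / (n : ℝ) ^ 2 * (1 + η2 + ∫ ω, NN ∅ z ω ∂P) +
          η2 ^ 2 * (1 + n * η2) * P.real B) := mul_le_mul_of_nonneg_left hpart1b hη2pos.le
    have h2 : η2 * (c4 / (n : ℝ) ^ 2 * (1 + η2 + ∫ ω, NN ∅ z ω ∂P)) ≤
        c4 / (n : ℝ) ^ 2 * (6 * (1 + η2 ^ 2 + S)) := by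
      have : η2 * (c4 / (n : ℝ) ^ 2 * (1 + η2 + ∫ ω, NN ∅ z ω ∂P)) =
          c4 / (n : ℝ) ^ 2 * (η2 + η2 ^ 2 + η2 * ∫ ω, NN ∅ z ω ∂P) := by ring
      rw [this]
      apply mul_le_mul_of_nonneg_left _ (by positivity)
      nlinarith [sq_nonneg η2]
    have h3 : η2 * (η2 ^ 2 * (1 + n * η2) * P.real B) ≤ 2 * Cg / (n : ℝ) ^ 2 := by
      have h4 : η2 * (η2 ^ 2 * (1 + n * η2)) ≤ 2 * (n : ℝ) ^ 5 := by
        have h5 : η2 ^ 3 ≤ (n : ℝ) ^ 3 := pow_le_pow_left₀ hη2pos.le hη2n 3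
        have h6 : 1 + n * η2 ≤ 2 * (n : ℝ) ^ 2 := by nlinarith
        calc η2 * (η2 ^ 2 * (1 + n * η2)) = η2 ^ 3 * (1 + n * η2) := by ring
          _ ≤ (n : ℝ) ^ 3 * (2 * (n : ℝ) ^ 2) :=
              mul_le_mul h5 h6 (by positivity) (by positivity)
          _ = 2 * (n : ℝ) ^ 5 := by ring
      calc η2 * (η2 ^ 2 * (1 + n * η2) * P.real B) =
            (η2 * (η2 ^ 2 * (1 + n * η2))) * P.real B := by ring
        _ ≤ (2 * (n : ℝ) ^ 5) * (Cg * ((n : ℝ) ^ 100)⁻¹) :=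
            mul_le_mul h4 hBP measureReal_nonneg (by positivity)
        _ = 2 * Cg * ((n : ℝ) ^ 5 * ((n : ℝ) ^ 100)⁻¹) := by ring
        _ ≤ 2 * Cg * (1 / (n : ℝ) ^ 2) :=
            mul_le_mul_of_nonneg_left (hpow 5 100 (by norm_num)) (by positivity)
        _ = 2 * Cg / (n : ℝ) ^ 2 := by ring
    have h7 : 2 * Cg / (n : ℝ) ^ 2 ≤ 4 * Cg / (n : ℝ) ^ 2 * (1 + η2 ^ 2 + S) := by
      have h8 : 0 ≤ Cg / (n : ℝ) ^ 2 := by positivity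
      have h9 : 0 ≤ η2 ^ 2 + S := by positivity
      have : 4 * Cg / (n : ℝ) ^ 2 * (1 + η2 ^ 2 + S) - 2 * Cg / (n : ℝ) ^ 2 =
          (Cg / (n : ℝ) ^ 2) * (2 + 4 * (η2 ^ 2 + S)) := by ring
      nlinarith [mul_nonneg h8 h9]
    have h10 : (6 * c4 + 4 * Cg) / (n : ℝ) ^ 2 * (1 + η2 ^ 2 + S) =
        c4 / (n : ℝ) ^ 2 * (6 * (1 + η2 ^ 2 + S)) +
          4 * Cg / (n : ℝ) ^ 2 * (1 + η2 ^ 2 + S) := by ring
    rw [h10]
    have h11 : η2 * (c4 / (n : ℝ) ^ 2 * (1 + η2 + ∫ ω, NN ∅ z ω ∂P) +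
          η2 ^ 2 * (1 + n * η2) * P.real B) =
        η2 * (c4 / (n : ℝ) ^ 2 * (1 + η2 + ∫ ω, NN ∅ z ω ∂P)) +
        η2 * (η2 ^ 2 * (1 + n * η2) * P.real B) := by ring
    linarith
  -- Part 2
  set Q : Ent n → ℝ := fun ω => ‖bb z i j ω‖ ^ 2 + ∑ k, ‖av {i} z j ω k‖ ^ 2 with hQ
  have hQ0 : ∀ ω, 0 ≤ Q ω := fun ω => by
    have : 0 ≤ ∑ k, ‖av {i} z j ω k‖ ^ 2 := Finset.sum_nonneg fun _ _ => by positivity
    positivity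
  have hbPB : PB (fun ω : Ent n => ‖bb z i j ω‖) := (PB.bb hz0 i j).norm
  have haPB : PB (fun ω : Ent n => ∑ k, ‖av {i} z j ω k‖ ^ 2) :=
    PBW.sum one_le_wt _ fun k _ => (PB.av hz0 j k).norm.pow 2
  have hQPB : PB Q := (hbPB.pow 2).add haPB
  set ψ : Ent n → ℝ := fun ω => ‖(z - st {i, j} z ω)⁻¹‖ ^ 2 * ‖Gr {i} z ω j j‖ ^ 2 with hψ
  have hψPB : PB ψ := ((PB.inv_sub_st hz0).norm.pow 2).mul ((PB.Gr hz0 j j).norm.pow 2)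
  have hψ0 : ∀ ω, 0 ≤ ψ ω := fun ω => by positivity
  have hψη : ∀ ω, ψ ω ≤ η2 ^ 2 := fun ω => by
    rw [sq]
    exact mul_le_mul (hinvle _ ω) (hGle ω) (by positivity) hη2pos.le
  have hψgood : ∀ ω, Good z ω → ψ ω ≤ c4 / (n : ℝ) ^ 2 := by
    intro ω hω
    have hw := hweak n hn1 z hz ω hω
    have h1 := hgoodinv {i, j} ω (hw.2.2.2.2.1 i j hij)
    have h2 : ‖Gr {i} z ω j j‖ ^ 2 ≤ c⁻¹ ^ 2 / n := by
      have h3 := hw.2.2.2.1 i j hij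
      calc ‖Gr {i} z ω j j‖ ^ 2 ≤ (c⁻¹ / √n) ^ 2 := pow_le_pow_left₀ (norm_nonneg _) h3 2
        _ = c⁻¹ ^ 2 / n := by rw [div_pow, Real.sq_sqrt hn0.le]
    calc ψ ω ≤ (c⁻¹ ^ 2 / n) * (c⁻¹ ^ 2 / n) := mul_le_mul h1 h2 (by positivity) (by positivity)
      _ = c4 / (n : ℝ) ^ 2 := by rw [hc4]; ring
  -- moments of Q
  have hpairN : ∀ ω : Ent n, NN {i, j} z ω ≤ NN ∅ z ω + 2 * η2 := NN_pair_le hz0 hij
  have hji : j ∉ ({i} : Finset (Fin n)) := by simp [Ne.symm hij]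
  have hE2 : ∫ ω, (1 + NN {i, j} z ω) ^ 2 ∂P ≤ 12 * (1 + η2 ^ 2 + S) := by
    have hI1 : Integrable (fun ω => (1 + NN {i, j} z ω) ^ 2) P :=
      PB.int hμ (((PBW.const one_le_wt (1 : ℝ)).add (PB.NN hz0)).pow 2)
    have hIc : Integrable (fun _ : Ent n => 1 + η2 ^ 2) P := integrable_const _
    have hI2 : Integrable (fun ω => 12 * (1 + η2 ^ 2 + (NN ∅ z ω) ^ 2)) P :=
      (hIc.add hN2I).const_mul _
    refine (integral_mono hI1 hI2 fun ω => ?_).trans (le_of_eq ?_)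
    · simp only
      have h1 := hpairN ω
      have h2 : 0 ≤ NN {i, j} z ω := NN_nonneg ω
      have h3 : 0 ≤ NN ∅ z ω := NN_nonneg ω
      have h4 : (1 + NN {i, j} z ω) ^ 2 ≤ (1 + (NN ∅ z ω + 2 * η2)) ^ 2 :=
        pow_le_pow_left₀ (by linarith) (by linarith) 2
      nlinarith [sq_nonneg (1 - NN ∅ z ω), sq_nonneg (1 - 2 * η2), sq_nonneg (NN ∅ z ω - 2 * η2),
        sq_nonneg η2, sq_nonneg (NN ∅ z ω)]
    · rw [integral_const_mul, integral_add hIc hN2I, integral_const, ← hS]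
      simp
  have hE4 : ∫ ω, (1 + NN {i, j} z ω) ^ 4 ∂P ≤ 16 * (n : ℝ) ^ 8 := by
    have hI1 : Integrable (fun ω => (1 + NN {i, j} z ω) ^ 4) P :=
      PB.int hμ (((PBW.const one_le_wt (1 : ℝ)).add (PB.NN hz0)).pow 4)
    refine (integral_mono hI1 (integrable_const (16 * (n : ℝ) ^ 8)) fun ω => ?_).trans
      (le_of_eq (by simp))
    simp only
    have h1 := hNn {i, j} ω
    have h2 : 0 ≤ NN {i, j} z ω := NN_nonneg ω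
    have h3 : 1 + NN {i, j} z ω ≤ 2 * (n : ℝ) ^ 2 := by nlinarith
    calc (1 + NN {i, j} z ω) ^ 4 ≤ (2 * (n : ℝ) ^ 2) ^ 4 :=
          pow_le_pow_left₀ (by linarith) h3 4
      _ = 16 * (n : ℝ) ^ 8 := by ring
  have hb2 := hbb2 n μ hμ i j hij z hz0
  have hb4 := hbb4 n μ hμ i j hij z hz0
  have ha2 := hav2 n μ hμ {i} j hji z hz0
  have ha4 := hav4 n μ hμ {i} j hji z hz0
  rw [insert_eq] at ha2 ha4
  have hQ2 : ∫ ω, (Q ω) ^ 2 ∂P ≤ 24 * (Cb2 + Ca2) * (1 + η2 ^ 2 + S) := by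
    have hI1 : Integrable (fun ω => (Q ω) ^ 2) P := PB.int hμ (hQPB.pow 2)
    have hI2 : Integrable (fun ω => ‖bb z i j ω‖ ^ (2 * 2)) P := PB.int hμ (hbPB.pow _)
    have hI3 : Integrable (fun ω => (∑ k, ‖av {i} z j ω k‖ ^ 2) ^ 2) P :=
      PB.int hμ (haPB.pow 2)
    have h1 : ∫ ω, (Q ω) ^ 2 ∂P ≤ 2 * (∫ ω, ‖bb z i j ω‖ ^ (2 * 2) ∂P) +
        2 * ∫ ω, (∑ k, ‖av {i} z j ω k‖ ^ 2) ^ 2 ∂P := by
      rw [← integral_const_mul, ← integral_const_mul,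
        ← integral_add (hI2.const_mul 2) (hI3.const_mul 2)]
      refine integral_mono hI1 ((hI2.const_mul 2).add (hI3.const_mul 2)) fun ω => ?_
      simp only [hQ]
      have e : ‖bb z i j ω‖ ^ (2 * 2) = (‖bb z i j ω‖ ^ 2) ^ 2 := by rw [← pow_mul]
      rw [e]
      nlinarith [sq_nonneg (‖bb z i j ω‖ ^ 2 - ∑ k, ‖av {i} z j ω k‖ ^ 2)]
    have h2 : Cb2 * ∫ ω, (1 + NN {i, j} z ω) ^ 2 ∂P ≤ Cb2 * (12 * (1 + η2 ^ 2 + S)) :=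
      mul_le_mul_of_nonneg_left hE2 hCb2
    have h3 : Ca2 * ∫ ω, (1 + NN {i, j} z ω) ^ 2 ∂P ≤ Ca2 * (12 * (1 + η2 ^ 2 + S)) :=
      mul_le_mul_of_nonneg_left hE2 hCa2
    calc ∫ ω, (Q ω) ^ 2 ∂P ≤ 2 * (Cb2 * (12 * (1 + η2 ^ 2 + S))) +
          2 * (Ca2 * (12 * (1 + η2 ^ 2 + S))) := by linarith
      _ = 24 * (Cb2 + Ca2) * (1 + η2 ^ 2 + S) := by ring
  have hQ4 : ∫ ω, (Q ω) ^ 4 ∂P ≤ 128 * (Cb4 + Ca4) * (n : ℝ) ^ 8 := by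
    have hI1 : Integrable (fun ω => (Q ω) ^ 4) P := PB.int hμ (hQPB.pow 4)
    have hI2 : Integrable (fun ω => ‖bb z i j ω‖ ^ (2 * 4)) P := PB.int hμ (hbPB.pow _)
    have hI3 : Integrable (fun ω => (∑ k, ‖av {i} z j ω k‖ ^ 2) ^ 4) P :=
      PB.int hμ (haPB.pow 4)
    have h1 : ∫ ω, (Q ω) ^ 4 ∂P ≤ 8 * (∫ ω, ‖bb z i j ω‖ ^ (2 * 4) ∂P) +
        8 * ∫ ω, (∑ k, ‖av {i} z j ω k‖ ^ 2) ^ 4 ∂P := by
      rw [← integral_const_mul, ← integral_const_mul,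
        ← integral_add (hI2.const_mul 8) (hI3.const_mul 8)]
      refine integral_mono hI1 ((hI2.const_mul 8).add (hI3.const_mul 8)) fun ω => ?_
      simp only [hQ]
      set x := ‖bb z i j ω‖ ^ 2 with hx
      set y := ∑ k, ‖av {i} z j ω k‖ ^ 2 with hy
      have e : ‖bb z i j ω‖ ^ (2 * 4) = x ^ 4 := by rw [hx, ← pow_mul]
      rw [e]
      have h5 : (x + y) ^ 2 ≤ 2 * (x ^ 2 + y ^ 2) := by nlinarith [sq_nonneg (x - y)]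
      have h6 : ((x + y) ^ 2) ^ 2 ≤ (2 * (x ^ 2 + y ^ 2)) ^ 2 :=
        pow_le_pow_left₀ (sq_nonneg _) h5 2
      nlinarith [sq_nonneg (x ^ 2 - y ^ 2)]
    have h2 : Cb4 * ∫ ω, (1 + NN {i, j} z ω) ^ 4 ∂P ≤ Cb4 * (16 * (n : ℝ) ^ 8) :=
      mul_le_mul_of_nonneg_left hE4 hCb4
    have h3 : Ca4 * ∫ ω, (1 + NN {i, j} z ω) ^ 4 ∂P ≤ Ca4 * (16 * (n : ℝ) ^ 8) :=
      mul_le_mul_of_nonneg_left hE4 hCa4
    calc ∫ ω, (Q ω) ^ 4 ∂P ≤ 8 * (Cb4 * (16 * (n : ℝ) ^ 8)) +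
          8 * (Ca4 * (16 * (n : ℝ) ^ 8)) := by linarith
      _ = 128 * (Cb4 + Ca4) * (n : ℝ) ^ 8 := by ring
  have hpart2 : ∫ ω, ψ ω * (Q ω) ^ 2 ∂P ≤
      (c4 * (24 * (Cb2 + Ca2)) + Cg + 64 * (Cb4 + Ca4)) / (n : ℝ) ^ 2 *
        (1 + η2 ^ 2 + S) := by
    have hpt : ∀ ω, ψ ω * (Q ω) ^ 2 ≤ c4 / (n : ℝ) ^ 2 * (Q ω) ^ 2 +
        ((n : ℝ) ^ 40 / 2 * ind ω + η2 ^ 4 / (2 * (n : ℝ) ^ 40) * (Q ω) ^ 4) := by
      intro ω
      by_cases hω : Good z ω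
      · have h1 := mul_le_mul_of_nonneg_right (hψgood ω hω) (sq_nonneg (Q ω))
        have h2 := hind0 ω
        have h3 : 0 ≤ (n : ℝ) ^ 40 / 2 * ind ω + η2 ^ 4 / (2 * (n : ℝ) ^ 40) * (Q ω) ^ 4 := by
          positivity
        linarith
      · have hi1 : ind ω = 1 := by
          rw [hind, Set.indicator_of_mem]
          exact hω
        rw [hi1, mul_one]
        have h1 : ψ ω * (Q ω) ^ 2 ≤ η2 ^ 2 * (Q ω) ^ 2 :=
          mul_le_mul_of_nonneg_right (hψη ω) (sq_nonneg _)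
        have h2 : η2 ^ 2 * (Q ω) ^ 2 ≤ (n : ℝ) ^ 40 / 2 +
            η2 ^ 4 / (2 * (n : ℝ) ^ 40) * (Q ω) ^ 4 := by
          have hN : (0 : ℝ) < (n : ℝ) ^ 40 := by positivity
          have h4 : (n : ℝ) ^ 40 / 2 + η2 ^ 4 / (2 * (n : ℝ) ^ 40) * (Q ω) ^ 4 -
              η2 ^ 2 * (Q ω) ^ 2 =
              ((n : ℝ) ^ 40 - η2 ^ 2 * (Q ω) ^ 2) ^ 2 / (2 * (n : ℝ) ^ 40) := by
            field_simp
            ring
          have h5 : 0 ≤ ((n : ℝ) ^ 40 - η2 ^ 2 * (Q ω) ^ 2) ^ 2 / (2 * (n : ℝ) ^ 40) := by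
            positivity
          linarith
        have h3 : 0 ≤ c4 / (n : ℝ) ^ 2 * (Q ω) ^ 2 := by positivity
        linarith
    have hI1 : Integrable (fun ω => ψ ω * (Q ω) ^ 2) P := PB.int hμ (hψPB.mul (hQPB.pow 2))
    have hI2 : Integrable (fun ω => c4 / (n : ℝ) ^ 2 * (Q ω) ^ 2) P :=
      (PB.int hμ (hQPB.pow 2)).const_mul _
    have hI3 : Integrable (fun ω => (n : ℝ) ^ 40 / 2 * ind ω) P := hindI.const_mul _
    have hI4 : Integrable (fun ω => η2 ^ 4 / (2 * (n : ℝ) ^ 40) * (Q ω) ^ 4) P :=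
      (PB.int hμ (hQPB.pow 4)).const_mul _
    have hI34 : Integrable (fun ω => (n : ℝ) ^ 40 / 2 * ind ω +
        η2 ^ 4 / (2 * (n : ℝ) ^ 40) * (Q ω) ^ 4) P := hI3.add hI4
    have hI234 : Integrable (fun ω => c4 / (n : ℝ) ^ 2 * (Q ω) ^ 2 +
        ((n : ℝ) ^ 40 / 2 * ind ω + η2 ^ 4 / (2 * (n : ℝ) ^ 40) * (Q ω) ^ 4)) P :=
      hI2.add hI34
    have hint : ∫ ω, ψ ω * (Q ω) ^ 2 ∂P ≤ c4 / (n : ℝ) ^ 2 * ∫ ω, (Q ω) ^ 2 ∂P +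
        ((n : ℝ) ^ 40 / 2 * P.real B + η2 ^ 4 / (2 * (n : ℝ) ^ 40) * ∫ ω, (Q ω) ^ 4 ∂P) := by
      refine (integral_mono hI1 hI234 hpt).trans (le_of_eq ?_)
      rw [integral_add hI2 hI34, integral_add hI3 hI4, integral_const_mul, integral_const_mul,
        integral_const_mul, hindint]
    set R : ℝ := 1 + η2 ^ 2 + S with hR
    have hR1 : 1 ≤ R := by
      have : 0 ≤ η2 ^ 2 := sq_nonneg _
      rw [hR]; linarith
    have t1 : c4 / (n : ℝ) ^ 2 * ∫ ω, (Q ω) ^ 2 ∂P ≤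
        c4 / (n : ℝ) ^ 2 * (24 * (Cb2 + Ca2) * R) :=
      mul_le_mul_of_nonneg_left hQ2 (by positivity)
    have t2 : (n : ℝ) ^ 40 / 2 * P.real B ≤ Cg / (n : ℝ) ^ 2 * R := by
      calc (n : ℝ) ^ 40 / 2 * P.real B ≤ (n : ℝ) ^ 40 / 2 * (Cg * ((n : ℝ) ^ 100)⁻¹) :=
            mul_le_mul_of_nonneg_left hBP (by positivity)
        _ = Cg / 2 * ((n : ℝ) ^ 40 * ((n : ℝ) ^ 100)⁻¹) := by ring
        _ ≤ Cg / 2 * (1 / (n : ℝ) ^ 2) :=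
            mul_le_mul_of_nonneg_left (hpow 40 100 (by norm_num)) (by positivity)
        _ ≤ Cg / (n : ℝ) ^ 2 * R := by
            have h8 : 0 ≤ Cg / (n : ℝ) ^ 2 := by positivity
            have : Cg / 2 * (1 / (n : ℝ) ^ 2) = Cg / (n : ℝ) ^ 2 * (1 / 2) := by ring
            rw [this]
            exact mul_le_mul_of_nonneg_left (by linarith) h8
    have t3 : η2 ^ 4 / (2 * (n : ℝ) ^ 40) * ∫ ω, (Q ω) ^ 4 ∂P ≤
        64 * (Cb4 + Ca4) / (n : ℝ) ^ 2 * R := by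
      have h1 : η2 ^ 4 ≤ (n : ℝ) ^ 4 := pow_le_pow_left₀ hη2pos.le hη2n 4
      calc η2 ^ 4 / (2 * (n : ℝ) ^ 40) * ∫ ω, (Q ω) ^ 4 ∂P ≤
            (n : ℝ) ^ 4 / (2 * (n : ℝ) ^ 40) * (128 * (Cb4 + Ca4) * (n : ℝ) ^ 8) := by
            apply mul_le_mul _ hQ4 (integral_nonneg fun ω => by
              have := hQ0 ω
              positivity) (by positivity)
            exact div_le_div_of_nonneg_right h1 (by positivity)
        _ = 64 * (Cb4 + Ca4) * ((n : ℝ) ^ 12 * ((n : ℝ) ^ 40)⁻¹) := by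
            field_simp
            ring
        _ ≤ 64 * (Cb4 + Ca4) * (1 / (n : ℝ) ^ 2) :=
            mul_le_mul_of_nonneg_left (hpow 12 40 (by norm_num)) (by positivity)
        _ ≤ 64 * (Cb4 + Ca4) / (n : ℝ) ^ 2 * R := by
            have h8 : 0 ≤ 64 * (Cb4 + Ca4) / (n : ℝ) ^ 2 := by positivity
            have : 64 * (Cb4 + Ca4) * (1 / (n : ℝ) ^ 2) =
                64 * (Cb4 + Ca4) / (n : ℝ) ^ 2 * 1 := by ring
            rw [this]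
            exact mul_le_mul_of_nonneg_left hR1 h8
    have h12 : (c4 * (24 * (Cb2 + Ca2)) + Cg + 64 * (Cb4 + Ca4)) / (n : ℝ) ^ 2 * R =
        c4 / (n : ℝ) ^ 2 * (24 * (Cb2 + Ca2) * R) + (Cg / (n : ℝ) ^ 2 * R +
        64 * (Cb4 + Ca4) / (n : ℝ) ^ 2 * R) := by ring
    rw [h12]
    linarith
  -- conclusion
  have hIY : Integrable (fun ω => ‖Yv ∅ z i ω - Yv {j} z i ω‖ ^ 2) P :=
    PB.int hμ (((PB.Yv hz0 i).sub (PB.Yv hz0 i)).norm.pow 2)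
  have hIa : Integrable (fun ω => 2 * (η2 * (φ ω * ‖xi ∅ z i ω‖ ^ (2 * 1)))) P :=
    (((PB.int hμ (hφPB.mul ((PB.xi hz0 i).norm.pow _))).const_mul η2).const_mul 2)
  have hIb : Integrable (fun ω => 2 * (ψ ω * (Q ω) ^ 2)) P :=
    (PB.int hμ (hψPB.mul (hQPB.pow 2))).const_mul 2
  have hfin : ∫ ω, ‖Yv ∅ z i ω - Yv {j} z i ω‖ ^ 2 ∂P ≤
      2 * (η2 * ∫ ω, φ ω * ‖xi ∅ z i ω‖ ^ (2 * 1) ∂P) + 2 * ∫ ω, ψ ω * (Q ω) ^ 2 ∂P := by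
    have hIab : Integrable (fun ω => 2 * (η2 * (φ ω * ‖xi ∅ z i ω‖ ^ (2 * 1))) +
        2 * (ψ ω * (Q ω) ^ 2)) P := hIa.add hIb
    refine (integral_mono hIY hIab fun ω => point hz0 hij ω).trans (le_of_eq ?_)
    rw [integral_add hIa hIb, integral_const_mul, integral_const_mul, integral_const_mul]
  rw [hη4]
  have hx1 : η2 * ∫ ω, φ ω * ‖xi ∅ z i ω‖ ^ (2 * 1) ∂P ≤
      Cx * ((6 * c4 + 4 * Cg) / (n : ℝ) ^ 2 * (1 + η2 ^ 2 + S)) := by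
    calc η2 * ∫ ω, φ ω * ‖xi ∅ z i ω‖ ^ (2 * 1) ∂P ≤
          η2 * (Cx * ∫ ω, φ ω * (1 + NN {i} z ω) ^ 1 ∂P) :=
          mul_le_mul_of_nonneg_left hpart1 hη2pos.le
      _ = Cx * (η2 * ∫ ω, φ ω * (1 + NN {i} z ω) ^ 1 ∂P) := by ring
      _ ≤ _ := mul_le_mul_of_nonneg_left hpart1c hCx
  calc ∫ ω, ‖Yv ∅ z i ω - Yv {j} z i ω‖ ^ 2 ∂P ≤
        2 * (Cx * ((6 * c4 + 4 * Cg) / (n : ℝ) ^ 2 * (1 + η2 ^ 2 + S))) +
        2 * ((c4 * (24 * (Cb2 + Ca2)) + Cg + 64 * (Cb4 + Ca4)) / (n : ℝ) ^ 2 *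
        (1 + η2 ^ 2 + S)) := by linarith
    _ = _ := by ring

end Pool.Agent.Eig
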