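import Pool.Agent.Work.MP_1c1c8a_pr.Ortho
import Pool.Agent.Work.MP_1c1c8a_pr.YDiag
import Pool.Agent.Work.MP_1c1c8a_pr.YOff
import Pool.Agent.Work.MP_1c1c8a_pr.Meas

/-! # L2 bound of the self-consistent equation -/

namespace Pool.Agent.Eig

open MeasureTheory Filter Topology Matrix

namespace EBoundAux

variable {n : ℕ} {z : ℂ} {ω : Ent n}

theorem diag_term (hz : z.im ≠ 0) (i : Fin n) :
    Gr ∅ z ω i i * xi ∅ z i ω =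
      Yv ∅ z i ω + (z - st {i} z ω)⁻¹ * Gr ∅ z ω i i * (xi ∅ z i ω) ^ 2 := by
  have h1 := schur (T := ∅) (ω := ω) hz (Finset.notMem_empty i)
  have h2 : z - st {i} z ω ≠ 0 := sub_st_ne hz ω
  have h3 : insert i (∅ : Finset (Fin n)) = {i} := by simp
  unfold Yv
  rw [h3] at h1 ⊢
  have h4 : Gr ∅ z ω i i * (z - st {i} z ω) = 1 + Gr ∅ z ω i i * xi ∅ z i ω := by
    linear_combination h1
  field_simp
  linear_combination (xi ∅ z i ω) * h4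

theorem EE_decomp (hz : z.im ≠ 0) :
    EE z ω = ∑ i, Yv ∅ z i ω + ∑ i, (z - st {i} z ω)⁻¹ * Gr ∅ z ω i i * (xi ∅ z i ω) ^ 2 -
      ∑ i, ∑ k, (Gr ∅ z ω i k) ^ 2 := by
  rw [EE_eq hz, Finset.sum_congr rfl fun i _ => diag_term hz i, Finset.sum_add_distrib]

theorem sq_sum_le : ‖∑ i, ∑ k, (Gr ∅ z ω i k) ^ 2‖ ≤ NN ∅ z ω := by
  refine (norm_sum_le _ _).trans ?_
  unfold NN
  refine Finset.sum_le_sum fun i _ => (norm_sum_le _ _).trans ?_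
  exact Finset.sum_le_sum fun k _ => by rw [norm_pow]

theorem EE_norm_sq (hz : z.im ≠ 0) :
    ‖EE z ω‖ ^ 2 ≤ 3 * (‖∑ i, Yv ∅ z i ω‖ ^ 2 +
      ‖∑ i, (z - st {i} z ω)⁻¹ * Gr ∅ z ω i i * (xi ∅ z i ω) ^ 2‖ ^ 2 + (NN ∅ z ω) ^ 2) := by
  rw [EE_decomp hz]
  set a := ∑ i, Yv ∅ z i ω
  set b := ∑ i, (z - st {i} z ω)⁻¹ * Gr ∅ z ω i i * (xi ∅ z i ω) ^ 2
  set d := ∑ i, ∑ k, (Gr ∅ z ω i k) ^ 2
  have h1 : ‖a + b - d‖ ≤ ‖a‖ + ‖b‖ + NN ∅ z ω :=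
    (norm_sub_le _ _).trans (add_le_add (norm_add_le _ _) sq_sum_le)
  have h2 : ‖a + b - d‖ ^ 2 ≤ (‖a‖ + ‖b‖ + NN ∅ z ω) ^ 2 :=
    pow_le_pow_left₀ (norm_nonneg _) h1 2
  nlinarith [sq_nonneg (‖a‖ - ‖b‖), sq_nonneg (‖a‖ - NN ∅ z ω), sq_nonneg (‖b‖ - NN ∅ z ω)]

end EBoundAux

open EBoundAux in
theorem E_bound (b C0 : ℝ) (hC0 : 1 ≤ C0) : ∃ C : ℝ, 0 ≤ C ∧ ∃ n0 : ℕ, ∀ n ≥ n0,
    ∀ μ : Sym2 (Fin n) → Measure ℝ, (∀ e, GoodLaw b (μ e)) → ∀ z : ℂ, Dom C0 n z →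
    ∫ ω, ‖EE z ω‖ ^ 2 ∂(Measure.pi μ) ≤
      C * (1 + (z.im ^ 4)⁻¹ + ∫ ω, (NN ∅ z ω) ^ 2 ∂(Measure.pi μ)) := by
  obtain ⟨C1, hC1, n1, h1⟩ := Y_diag b C0 hC0
  obtain ⟨C2, hC2, n2, h2⟩ := B_bound b C0 hC0
  obtain ⟨C3, hC3, n3, h3⟩ := Y_off b C0 hC0
  refine ⟨3 * (C1 * 3 + C3 + C2 + 1), by positivity, max (max n1 n2) (max n3 1),
    fun n hn μ hμ z hz => ?_⟩
  have hn1 : n1 ≤ n := (le_max_left _ _).trans ((le_max_left _ _).trans hn)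
  have hn2 : n2 ≤ n := (le_max_right _ _).trans ((le_max_left _ _).trans hn)
  have hn3 : n3 ≤ n := (le_max_left _ _).trans ((le_max_right _ _).trans hn)
  have hn4 : 1 ≤ n := (le_max_right _ _).trans ((le_max_right _ _).trans hn)
  have hnR : (1 : ℝ) ≤ n := by exact_mod_cast hn4
  have hpos : 0 < z.im := lt_of_lt_of_le (Real.rpow_pos_of_pos (by linarith) _) hz.1
  have hz0 : z.im ≠ 0 := hpos.ne'
  have : ∀ e, IsProbabilityMeasure (μ e) := fun e => (hμ e).prob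
  set P := Measure.pi μ with hP
  set r : ℝ := (z.im ^ 4)⁻¹ with hr
  set q : ℝ := 1 + r with hq
  set N1 : ℝ := ∫ ω, NN ∅ z ω ∂P with hN1
  set N2 : ℝ := ∫ ω, (NN ∅ z ω) ^ 2 ∂P with hN2
  have hr0 : 0 < r := by positivity
  have hq0 : 0 < q := by positivity
  have hN20 : 0 ≤ N2 := integral_nonneg fun ω => by positivity
  -- comparison of the lower order quantities
  have hq2 : (z.im ^ 2)⁻¹ ≤ q := by
    have : r = ((z.im ^ 2)⁻¹) ^ 2 := by rw [hr, ← inv_pow, ← inv_pow]; ring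
    rw [hq, this]; nlinarith [sq_nonneg ((z.im ^ 2)⁻¹ - 1)]
  have hN1le : N1 ≤ 1 + N2 := by
    have : N1 ≤ ∫ ω, (1 + (NN ∅ z ω) ^ 2) ∂P := by
      refine integral_mono (PB.int hμ (PB.NN hz0))
        (PB.int hμ ((PBW.const one_le_wt 1).add ((PB.NN hz0).pow 2))) fun ω => ?_
      show NN ∅ z ω ≤ 1 + (NN ∅ z ω) ^ 2
      nlinarith [sq_nonneg (NN ∅ z ω - 1)]
    rw [integral_add (integrable_const _) (PB.int hμ ((PB.NN hz0).pow 2))] at this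
    simpa using this
  -- the three parts
  have hI1 : Integrable (fun ω => ‖∑ i, Yv ∅ z i ω‖ ^ 2) P :=
    PB.int hμ ((PBW.sum one_le_wt _ fun i _ => PB.Yv hz0 i).norm.pow 2)
  have hI2 : Integrable (fun ω =>
      ‖∑ i, (z - st {i} z ω)⁻¹ * Gr ∅ z ω i i * (xi ∅ z i ω) ^ 2‖ ^ 2) P :=
    PB.int hμ ((PBW.sum one_le_wt _ fun i _ =>
      ((PB.inv_sub_st hz0).mul (PB.Gr hz0 i i)).mul ((PB.xi hz0 i).cpow 2)).norm.pow 2)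
  have hI3 : Integrable (fun ω : Ent n => (NN ∅ z ω) ^ 2) P := PB.int hμ ((PB.NN hz0).pow 2)
  have hI12 : Integrable (fun ω : Ent n => ‖∑ i, Yv ∅ z i ω‖ ^ 2 +
      ‖∑ i, (z - st {i} z ω)⁻¹ * Gr ∅ z ω i i * (xi ∅ z i ω) ^ 2‖ ^ 2) P := hI1.add hI2
  have hA : ∫ ω, ‖∑ i, Yv ∅ z i ω‖ ^ 2 ∂P ≤ C1 * (1 + (z.im ^ 2)⁻¹ + N1) + C3 * (q + N2) := by
    refine (ortho hμ hz0).trans (add_le_add ?_ ?_)
    · calc ∑ i, ∫ ω, ‖Yv ∅ z i ω‖ ^ 2 ∂P ≤ ∑ _i : Fin n, C1 / n * (1 + (z.im ^ 2)⁻¹ + N1) :=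
            Finset.sum_le_sum fun i _ => h1 n hn1 μ hμ z hz i
        _ = _ := by
            rw [Finset.sum_const, Finset.card_univ, Fintype.card_fin, nsmul_eq_mul]
            field_simp
    · calc ∑ i, ∑ j ∈ Finset.univ.erase i, ∫ ω, ‖Yv ∅ z i ω - Yv {j} z i ω‖ ^ 2 ∂P
          ≤ ∑ i : Fin n, ∑ _j ∈ Finset.univ.erase i, C3 / (n : ℝ) ^ 2 * (q + N2) :=
            Finset.sum_le_sum fun i _ => Finset.sum_le_sum fun j hj =>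
              h3 n hn3 μ hμ z hz i j (Finset.ne_of_mem_erase hj).symm
        _ ≤ ∑ i : Fin n, ∑ _j : Fin n, C3 / (n : ℝ) ^ 2 * (q + N2) :=
            Finset.sum_le_sum fun i _ => Finset.sum_le_sum_of_subset_of_nonneg
              (Finset.erase_subset _ _) fun _ _ _ => by positivity
        _ = _ := by
            simp only [Finset.sum_const, Finset.card_univ, Fintype.card_fin, nsmul_eq_mul]
            field_simp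
  have hB := h2 n hn2 μ hμ z hz
  calc ∫ ω, ‖EE z ω‖ ^ 2 ∂P ≤ ∫ ω, 3 * (‖∑ i, Yv ∅ z i ω‖ ^ 2 +
      ‖∑ i, (z - st {i} z ω)⁻¹ * Gr ∅ z ω i i * (xi ∅ z i ω) ^ 2‖ ^ 2 + (NN ∅ z ω) ^ 2) ∂P :=
        integral_mono (PB.int hμ ((PB.EE hz0).norm.pow 2)) (((hI1.add hI2).add hI3).const_mul 3)
          fun ω => EE_norm_sq hz0
    _ = 3 * (∫ ω, ‖∑ i, Yv ∅ z i ω‖ ^ 2 ∂P +
      ∫ ω, ‖∑ i, (z - st {i} z ω)⁻¹ * Gr ∅ z ω i i * (xi ∅ z i ω) ^ 2‖ ^ 2 ∂P + N2) := by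
        rw [integral_const_mul, integral_add hI12 hI3, integral_add hI1 hI2]
    _ ≤ 3 * ((C1 * (1 + (z.im ^ 2)⁻¹ + N1) + C3 * (q + N2)) + C2 * (q + N2) + N2) := by
        gcongr
    _ ≤ 3 * ((C1 * (3 * (q + N2)) + C3 * (q + N2)) + C2 * (q + N2) +
          1 * (q + N2)) := by
        have : 1 + (z.im ^ 2)⁻¹ + N1 ≤ 3 * (q + N2) := by linarith
        gcongr
        linarith
    _ = _ := by rw [hq]; ring

end Pool.Agent.Eig
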