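import Pool.Agent.Work.MP_1c1c8a_pr.Mix

/-! # Crude bound of the norm -/

namespace Pool.Agent.Eig

open MeasureTheory Filter Topology Matrix

namespace FarAux

variable {n : ℕ}

/-- quadratic form -/
noncomputable def QQ (ω : Ent n) (u : Fin n → ℝ) : ℝ := ∑ i, ∑ j, ω s(i, j) * u i * u j

/-- bilinear form -/
noncomputable def BF (ω : Ent n) (u v : Fin n → ℝ) : ℝ := ∑ i, ∑ j, ω s(i, j) * u i * v j

/-- squared norm -/
noncomputable def N2 (u : Fin n → ℝ) : ℝ := ∑ i, u i ^ 2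

lemma BF_comm (ω : Ent n) (u v : Fin n → ℝ) : BF ω u v = BF ω v u := by
  unfold BF
  rw [Finset.sum_comm]
  refine Finset.sum_congr rfl fun i _ => Finset.sum_congr rfl fun j _ => ?_
  rw [Sym2.eq_swap]; ring

lemma QQ_add (ω : Ent n) (u v : Fin n → ℝ) :
    QQ ω (u + v) = QQ ω u + 2 * BF ω v u + QQ ω v := by
  have h : QQ ω (u + v) = QQ ω u + BF ω u v + BF ω v u + QQ ω v := by
    unfold QQ BF
    simp only [← Finset.sum_add_distrib, Pi.add_apply]
    refine Finset.sum_congr rfl fun i _ => Finset.sum_congr rfl fun j _ => by ring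
  rw [h, BF_comm ω u v]; ring

lemma QQ_smul (ω : Ent n) (c : ℝ) (u : Fin n → ℝ) : QQ ω (c • u) = c ^ 2 * QQ ω u := by
  unfold QQ
  simp only [Finset.mul_sum, Pi.smul_apply, smul_eq_mul]
  refine Finset.sum_congr rfl fun i _ => Finset.sum_congr rfl fun j _ => by ring

lemma BF_smul_left (ω : Ent n) (c : ℝ) (u v : Fin n → ℝ) : BF ω (c • u) v = c * BF ω u v := by
  unfold BF
  simp only [Finset.mul_sum, Pi.smul_apply, smul_eq_mul]
  refine Finset.sum_congr rfl fun i _ => Finset.sum_congr rfl fun j _ => by ring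

lemma N2_smul (c : ℝ) (u : Fin n → ℝ) : N2 (c • u) = c ^ 2 * N2 u := by
  unfold N2
  simp only [Finset.mul_sum, Pi.smul_apply, smul_eq_mul]
  refine Finset.sum_congr rfl fun i _ => by ring

lemma N2_nonneg (u : Fin n → ℝ) : 0 ≤ N2 u := Finset.sum_nonneg fun i _ => sq_nonneg _

lemma N2_eq_zero {u : Fin n → ℝ} (h : N2 u = 0) : u = 0 := by
  unfold N2 at h
  rw [Finset.sum_eq_zero_iff_of_nonneg (fun i _ => sq_nonneg _)] at h
  funext i
  have := h i (Finset.mem_univ i)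
  simpa using this

lemma N2_para (u v : Fin n → ℝ) : N2 (u + v) + N2 (u - v) = 2 * (N2 u + N2 v) := by
  unfold N2
  rw [← Finset.sum_add_distrib, ← Finset.sum_add_distrib, Finset.mul_sum]
  refine Finset.sum_congr rfl fun i _ => ?_
  simp only [Pi.add_apply, Pi.sub_apply]; ring

lemma continuous_QQ (ω : Ent n) : Continuous (QQ ω) := by
  unfold QQ; fun_prop

lemma continuous_N2 : Continuous (N2 : (Fin n → ℝ) → ℝ) := by
  unfold N2; fun_prop

lemma isCompact_sphere : IsCompact {u : Fin n → ℝ | N2 u = 1} := by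
  refine Metric.isCompact_of_isClosed_isBounded (isClosed_eq continuous_N2 continuous_const) ?_
  refine (Metric.isBounded_closedBall (x := (0 : Fin n → ℝ)) (r := 1)).subset fun u hu => ?_
  rw [mem_closedBall_zero_iff, pi_norm_le_iff_of_nonneg zero_le_one]
  intro i
  have h1 : u i ^ 2 ≤ N2 u := Finset.single_le_sum (f := fun i => u i ^ 2)
    (fun _ _ => sq_nonneg _) (Finset.mem_univ i)
  rw [hu] at h1
  rw [Real.norm_eq_abs]
  exact abs_le_one_iff_mul_self_le_one.2 (by nlinarith)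

/-- The deterministic part: a ball of radius `1/4` where the form is large. -/
lemma det_part {ω : Ent n} {x L : ℝ} (hL : 0 < L) (hx : IsEig ω x) (hLx : L < x) :
    ∃ v0 : Fin n → ℝ, N2 v0 = 1 ∧ ∀ w : Fin n → ℝ, N2 w ≤ 1 / 16 → 7 / 16 * L ≤ |QQ ω (v0 + w)| := by
  obtain ⟨v, hv0, hv⟩ := hx
  have hN : 0 < N2 v := lt_of_le_of_ne (N2_nonneg v) fun h => hv0 (N2_eq_zero h.symm)
  have hQv : QQ ω v = x * N2 v := by
    have h1 : ∀ i, ∑ j, ω s(i, j) * v j = x * v i := by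
      intro i
      have := congrFun hv i
      simpa [symMat, mulVec, dotProduct] using this
    unfold QQ N2
    rw [Finset.mul_sum]
    refine Finset.sum_congr rfl fun i _ => ?_
    have h2 : ∑ j, ω s(i, j) * v i * v j = v i * ∑ j, ω s(i, j) * v j := by
      rw [Finset.mul_sum]; exact Finset.sum_congr rfl fun j _ => by ring
    rw [h2, h1]; ring
  have hne : {u : Fin n → ℝ | N2 u = 1}.Nonempty := by
    refine ⟨(√(N2 v))⁻¹ • v, ?_⟩
    show N2 _ = 1
    rw [N2_smul, inv_pow, Real.sq_sqrt hN.le, inv_mul_cancel₀ hN.ne']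
  obtain ⟨v0, hv0S, hmax⟩ := isCompact_sphere.exists_isMaxOn hne
    (continuous_QQ ω).abs.continuousOn
  have hv01 : N2 v0 = 1 := hv0S
  set Λ := |QQ ω v0| with hΛ
  have hbd : ∀ u : Fin n → ℝ, |QQ ω u| ≤ Λ * N2 u := by
    intro u
    rcases eq_or_lt_of_le (N2_nonneg u) with h | h
    · have := N2_eq_zero h.symm
      rw [this]
      simp [QQ, N2]
    · have h1 : N2 ((√(N2 u))⁻¹ • u) = 1 := by
        rw [N2_smul, inv_pow, Real.sq_sqrt h.le, inv_mul_cancel₀ h.ne']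
      have h2 : |QQ ω ((√(N2 u))⁻¹ • u)| ≤ Λ := hmax h1
      rw [QQ_smul, inv_pow, Real.sq_sqrt h.le, abs_mul, abs_of_pos (inv_pos.2 h)] at h2
      rwa [inv_mul_le_iff₀ h, mul_comm] at h2
  have hxΛ : x ≤ Λ := by
    have h1 := hbd v
    rw [hQv] at h1
    have h2 := (le_abs_self (x * N2 v)).trans h1
    exact le_of_mul_le_mul_right h2 hN
  refine ⟨v0, hv01, fun w hw => ?_⟩
  have hΛ0 : 0 < Λ := hL.trans (hLx.trans_le hxΛ)
  -- the mixed term
  have hB : |BF ω w v0| ≤ Λ / 4 := by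
    have e1 : v0 - (4 : ℝ) • w = v0 + (-4 : ℝ) • w := by rw [neg_smul, sub_eq_add_neg]
    have h1 : QQ ω (v0 + (4 : ℝ) • w) - QQ ω (v0 - (4 : ℝ) • w) = 16 * BF ω w v0 := by
      rw [e1, QQ_add, QQ_add, BF_smul_left, BF_smul_left, QQ_smul, QQ_smul]; ring
    have h2 := hbd (v0 + (4 : ℝ) • w)
    have h3 := hbd (v0 - (4 : ℝ) • w)
    have h4 := N2_para v0 ((4 : ℝ) • w)
    rw [N2_smul, hv01] at h4
    have h5 : |16 * BF ω w v0| ≤ Λ * (2 * (1 + 4 ^ 2 * N2 w)) := by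
      rw [← h1, ← h4, mul_add]
      exact (abs_sub _ _).trans (add_le_add h2 h3)
    rw [abs_mul, abs_of_pos (by norm_num : (0 : ℝ) < 16)] at h5
    have h6 : Λ * (2 * (1 + 4 ^ 2 * N2 w)) ≤ Λ * 4 :=
      mul_le_mul_of_nonneg_left (by linarith) hΛ0.le
    linarith
  have hQ : |QQ ω w| ≤ Λ / 16 := by
    have h1 := hbd w
    have h2 : Λ * N2 w ≤ Λ * (1 / 16) := mul_le_mul_of_nonneg_left hw hΛ0.le
    linarith
  rw [QQ_add]
  have h1 : |QQ ω v0| - |2 * BF ω w v0 + QQ ω w| ≤ |QQ ω v0 + 2 * BF ω w v0 + QQ ω w| := by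
    have := abs_sub_abs_le_abs_sub (QQ ω v0) (-(2 * BF ω w v0 + QQ ω w))
    rw [abs_neg, sub_neg_eq_add, ← add_assoc] at this
    exact this
  have h2 : |2 * BF ω w v0 + QQ ω w| ≤ Λ / 2 + Λ / 16 := by
    refine (abs_add_le _ _).trans (add_le_add ?_ hQ)
    rw [abs_mul, abs_of_pos (by norm_num : (0 : ℝ) < 2)]
    linarith
  rw [← hΛ] at h1
  linarith

/-- coefficient of the entry `e` -/
noncomputable def cf (u : Fin n → ℝ) (e : Sym2 (Fin n)) : ℝ :=
  ∑ p : Fin n × Fin n with s(p.1, p.2) = e, u p.1 * u p.2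

lemma QQ_eq (ω : Ent n) (u : Fin n → ℝ) : QQ ω u = ∑ e, cf u e * ω e := by
  unfold QQ cf
  rw [← Finset.sum_product', Finset.univ_product_univ,
    ← Finset.sum_fiberwise_of_maps_to (s := Finset.univ) (t := Finset.univ)
      (g := fun p : Fin n × Fin n => s(p.1, p.2)) (fun _ _ => Finset.mem_univ _)]
  refine Finset.sum_congr rfl fun e _ => ?_
  rw [Finset.sum_mul]
  refine Finset.sum_congr rfl fun p hp => ?_
  rw [(Finset.mem_filter.1 hp).2]
  ring

lemma card_fib (e : Sym2 (Fin n)) :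
    (Finset.univ.filter fun p : Fin n × Fin n => s(p.1, p.2) = e).card ≤ 2 := by
  induction e using Sym2.ind with
  | _ a b =>
    refine (Finset.card_le_card (t := {(a, b), (b, a)}) fun p hp => ?_).trans Finset.card_le_two
    have h := (Finset.mem_filter.1 hp).2
    rw [Sym2.eq_iff] at h
    rcases h with ⟨h1, h2⟩ | ⟨h1, h2⟩
    · simp [← h1, ← h2]
    · simp [← h1, ← h2]

lemma sum_cf_sq (u : Fin n → ℝ) : ∑ e, cf u e ^ 2 ≤ 2 * (N2 u) ^ 2 := by
  have h1 : ∀ e : Sym2 (Fin n), cf u e ^ 2 ≤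
      2 * ∑ p : Fin n × Fin n with s(p.1, p.2) = e, (u p.1 * u p.2) ^ 2 := by
    intro e
    unfold cf
    refine (sq_sum_le_card_mul_sum_sq).trans ?_
    refine mul_le_mul_of_nonneg_right ?_ (Finset.sum_nonneg fun _ _ => sq_nonneg _)
    exact_mod_cast card_fib e
  refine (Finset.sum_le_sum fun e _ => h1 e).trans ?_
  rw [← Finset.mul_sum, Finset.sum_fiberwise_of_maps_to (s := Finset.univ) (t := Finset.univ)
      (g := fun p : Fin n × Fin n => s(p.1, p.2)) (fun _ _ => Finset.mem_univ _)]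
  refine mul_le_mul_of_nonneg_left (le_of_eq ?_) zero_le_two
  unfold N2
  rw [sq, Finset.sum_mul_sum, ← Finset.univ_product_univ, Finset.sum_product]
  refine Finset.sum_congr rfl fun i _ => Finset.sum_congr rfl fun j _ => by ring

lemma b_nonneg {b : ℝ} {μ : Measure ℝ} (h : GoodLaw b μ) : 0 ≤ b := by
  have := h.prob
  have h1 := h.mgf 1
  have hint : Integrable (fun x : ℝ => x) μ := by
    by_contra hc
    have h2 := (abs_mom b 1)
    obtain ⟨C, _, hC⟩ := h2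
    have h3 := (hC μ h).1
    simp only [pow_one] at h3
    exact hc ((integrable_norm_iff (by fun_prop)).1 h3)
  have h2 : ∫ x, (x + 1) ∂μ ≤ ∫ x, Real.exp (1 * x) ∂μ := by
    refine integral_mono (hint.add (integrable_const _)) h1.1 fun x => ?_
    simp only [one_mul]
    exact Real.add_one_le_exp x
  rw [integral_add hint (integrable_const _), h.mean] at h2
  simp only [integral_const, probReal_univ, smul_eq_mul, one_mul, zero_add] at h2
  have h1' := h1.2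
  simp only [one_mul] at h1'
  have h3 := h2.trans h1'
  rw [one_pow, mul_one] at h3
  exact Real.one_le_exp_iff.1 h3

lemma mgf_QQ {b : ℝ} (μ : Sym2 (Fin n) → Measure ℝ) (hμ : ∀ e, GoodLaw b (μ e)) (hb : 0 ≤ b)
    (t : ℝ) (u : Fin n → ℝ) :
    ∫⁻ ω, ENNReal.ofReal (Real.exp (t * QQ ω u)) ∂(Measure.pi μ) ≤
      ENNReal.ofReal (Real.exp (2 * b * t ^ 2 * (N2 u) ^ 2)) := by
  have : ∀ e, IsProbabilityMeasure (μ e) := fun e => (hμ e).prob
  have h1 : ∀ ω : Ent n, Real.exp (t * QQ ω u) = ∏ e, Real.exp ((t * cf u e) * ω e) := by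
    intro ω
    rw [QQ_eq, Finset.mul_sum, Real.exp_sum]
    refine Finset.prod_congr rfl fun e _ => by ring_nf
  have hint : Integrable (fun ω : Ent n => ∏ e, Real.exp ((t * cf u e) * ω e)) (Measure.pi μ) :=
    Integrable.fintype_prod_dep (f := fun e (x : ℝ) => Real.exp ((t * cf u e) * x))
      (fun e => ((hμ e).mgf _).1)
  simp_rw [h1]
  rw [← ofReal_integral_eq_lintegral_ofReal hint
    (Eventually.of_forall fun ω => Finset.prod_nonneg fun e _ => (Real.exp_pos _).le)]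
  apply ENNReal.ofReal_le_ofReal
  rw [integral_fintype_prod_eq_prod (fun e (x : ℝ) => Real.exp ((t * cf u e) * x))]
  calc ∏ e, ∫ x, Real.exp ((t * cf u e) * x) ∂(μ e)
      ≤ ∏ e, Real.exp (b * (t * cf u e) ^ 2) := by
        refine Finset.prod_le_prod (fun e _ => integral_nonneg fun x => (Real.exp_pos _).le)
          fun e _ => ((hμ e).mgf _).2
    _ = Real.exp (b * t ^ 2 * ∑ e, cf u e ^ 2) := by
        rw [← Real.exp_sum]
        congr 1
        rw [Finset.mul_sum]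
        refine Finset.sum_congr rfl fun e _ => by ring
    _ ≤ Real.exp (2 * b * t ^ 2 * (N2 u) ^ 2) := by
        apply Real.exp_le_exp.2
        have := mul_le_mul_of_nonneg_left (sum_cf_sq u) (show 0 ≤ b * t ^ 2 by positivity)
        linarith

/-- closed Euclidean ball -/
def BB (n : ℕ) (r : ℝ) : Set (Fin n → ℝ) := {u | N2 u ≤ r ^ 2}

lemma measurableSet_BB (r : ℝ) : MeasurableSet (BB n r) :=
  (isClosed_le continuous_N2 continuous_const).measurableSet

open Pointwise in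
lemma BB_scale (r : ℝ) : BB n (5 * r) = (5 : ℝ) • BB n r := by
  ext u
  rw [Set.mem_smul_set_iff_inv_smul_mem₀ (by norm_num)]
  unfold BB
  simp only [Set.mem_ofPred_eq, N2_smul]
  constructor
  · intro h; nlinarith
  · intro h; nlinarith

open Pointwise in
lemma vol_BB (r : ℝ) : volume (BB n (5 * r)) = ENNReal.ofReal (5 ^ n) * volume (BB n r) := by
  rw [BB_scale, Measure.addHaar_smul]
  congr 2
  rw [Module.finrank_fin_fun, abs_of_pos (by positivity)]

lemma vol_BB_pos {r : ℝ} (hr : 0 < r) : 0 < volume (BB n r) := by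
  have h1 : {u : Fin n → ℝ | N2 u < r ^ 2} ⊆ BB n r := by
    intro u hu
    have hu' : N2 u < r ^ 2 := hu
    exact hu'.le
  refine lt_of_lt_of_le ?_ (measure_mono h1)
  refine (isOpen_lt continuous_N2 continuous_const).measure_pos volume ⟨0, ?_⟩
  show N2 0 < r ^ 2
  have : N2 (0 : Fin n → ℝ) = 0 := by simp [N2]
  rw [this]; positivity

lemma vol_BB_lt_top {r : ℝ} (hr : 0 ≤ r) : volume (BB n r) < ⊤ := by
  refine lt_of_le_of_lt (measure_mono (t := Metric.closedBall 0 r) fun u hu => ?_)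
    measure_closedBall_lt_top
  rw [mem_closedBall_zero_iff, pi_norm_le_iff_of_nonneg hr]
  intro i
  have h1 : u i ^ 2 ≤ N2 u := Finset.single_le_sum (f := fun i => u i ^ 2)
    (fun _ _ => sq_nonneg _) (Finset.mem_univ i)
  rw [Real.norm_eq_abs]
  exact abs_le_of_sq_le_sq (h1.trans hu) hr

/-- the partition function -/
noncomputable def ZZ (t : ℝ) (ω : Ent n) : ENNReal :=
  ∫⁻ u in BB n (5 / 4), (ENNReal.ofReal (Real.exp (t * QQ ω u)) +
    ENNReal.ofReal (Real.exp (-t * QQ ω u)))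

lemma continuous_QQ2 : Continuous (fun p : Ent n × (Fin n → ℝ) => QQ p.1 p.2) := by
  unfold QQ; fun_prop

lemma ZZ_mean {b : ℝ} (μ : Sym2 (Fin n) → Measure ℝ) (hμ : ∀ e, GoodLaw b (μ e)) (hb : 0 ≤ b)
    (t : ℝ) :
    ∫⁻ ω, ZZ t ω ∂(Measure.pi μ) ≤
      2 * ENNReal.ofReal (Real.exp (2 * b * t ^ 2 * (5 / 4) ^ 4)) * volume (BB n (5 / 4)) := by
  have : ∀ e, IsProbabilityMeasure (μ e) := fun e => (hμ e).prob
  have hmeas : Measurable (fun p : Ent n × (Fin n → ℝ) =>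
      ENNReal.ofReal (Real.exp (t * QQ p.1 p.2)) + ENNReal.ofReal (Real.exp (-t * QQ p.1 p.2))) := by
    have := continuous_QQ2 (n := n)
    fun_prop
  unfold ZZ
  rw [lintegral_lintegral_swap (μ := Measure.pi μ) (ν := volume.restrict (BB n (5 / 4)))
    (f := fun ω u => ENNReal.ofReal (Real.exp (t * QQ ω u)) +
      ENNReal.ofReal (Real.exp (-t * QQ ω u))) hmeas.aemeasurable]
  have hle : ∀ u ∈ BB n (5 / 4), ∫⁻ ω, (ENNReal.ofReal (Real.exp (t * QQ ω u)) +
      ENNReal.ofReal (Real.exp (-t * QQ ω u))) ∂(Measure.pi μ) ≤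
        2 * ENNReal.ofReal (Real.exp (2 * b * t ^ 2 * (5 / 4) ^ 4)) := by
    intro u hu
    have hm : Measurable (fun ω : Ent n => ENNReal.ofReal (Real.exp (t * QQ ω u))) := by
      have : Continuous (fun ω : Ent n => QQ ω u) := by unfold QQ; fun_prop
      fun_prop
    rw [lintegral_add_left hm, two_mul]
    have hu' : N2 u ≤ (5 / 4) ^ 2 := hu
    have hN : (N2 u) ^ 2 ≤ (5 / 4) ^ 4 := by
      have := pow_le_pow_left₀ (N2_nonneg u) hu' 2
      calc (N2 u) ^ 2 ≤ ((5 / 4) ^ 2) ^ 2 := this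
        _ = (5 / 4) ^ 4 := by norm_num
    have hexp : ENNReal.ofReal (Real.exp (2 * b * t ^ 2 * (N2 u) ^ 2)) ≤
        ENNReal.ofReal (Real.exp (2 * b * t ^ 2 * (5 / 4) ^ 4)) := by
      apply ENNReal.ofReal_le_ofReal
      apply Real.exp_le_exp.2
      exact mul_le_mul_of_nonneg_left hN (by positivity)
    refine add_le_add ((mgf_QQ μ hμ hb t u).trans hexp) ?_
    have h2 := mgf_QQ μ hμ hb (-t) u
    rw [neg_sq] at h2
    exact h2.trans hexp
  calc ∫⁻ u in BB n (5 / 4), ∫⁻ ω, (ENNReal.ofReal (Real.exp (t * QQ ω u)) +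
      ENNReal.ofReal (Real.exp (-t * QQ ω u))) ∂(Measure.pi μ)
      ≤ ∫⁻ _u in BB n (5 / 4), 2 * ENNReal.ofReal (Real.exp (2 * b * t ^ 2 * (5 / 4) ^ 4)) :=
        setLIntegral_mono' (measurableSet_BB _) hle
    _ = _ := by rw [setLIntegral_const]

lemma ZZ_lower {ω : Ent n} {x L t : ℝ} (hL : 0 < L) (ht : 0 ≤ t) (hx : IsEig ω x) (hLx : L < x) :
    ENNReal.ofReal (Real.exp (7 / 16 * t * L)) * volume (BB n (1 / 4)) ≤ ZZ t ω := by
  obtain ⟨v0, hv0, hv⟩ := det_part hL hx hLx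
  -- the translated ball
  have hvol : volume ((fun u : Fin n → ℝ => u + (-v0)) ⁻¹' BB n (1 / 4)) = volume (BB n (1 / 4)) :=
    measure_preimage_add_right _ _ _
  have hsub : (fun u : Fin n → ℝ => u + (-v0)) ⁻¹' BB n (1 / 4) ⊆ BB n (5 / 4) := by
    intro u hu
    have hw : N2 (u + (-v0)) ≤ (1 / 4) ^ 2 := hu
    show N2 u ≤ (5 / 4) ^ 2
    -- Minkowski: `N2 (v0 + w) ≤ (1 + 1/4) N2 v0 + (1 + 4) N2 w`
    have h1 : N2 u ≤ (5 / 4) * N2 v0 + 5 * N2 (u + (-v0)) := by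
      unfold N2
      rw [Finset.mul_sum, Finset.mul_sum, ← Finset.sum_add_distrib]
      refine Finset.sum_le_sum fun i _ => ?_
      simp only [Pi.add_apply, Pi.neg_apply]
      nlinarith [sq_nonneg (v0 i - 4 * (u i + -v0 i))]
    rw [hv0] at h1
    linarith
  rw [← hvol, ← setLIntegral_const]
  unfold ZZ
  refine le_trans ?_ (lintegral_mono_set hsub)
  refine setLIntegral_mono' ((measurableSet_BB _).preimage (by fun_prop)) fun u hu => ?_
  have hw : N2 (u + (-v0)) ≤ 1 / 16 := by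
    have : N2 (u + (-v0)) ≤ (1 / 4) ^ 2 := hu
    linarith
  have h1 := hv _ hw
  have e1 : v0 + (u + -v0) = u := by abel
  rw [e1] at h1
  rcases abs_cases (QQ ω u) with ⟨h, _⟩ | ⟨h, _⟩
  · refine le_add_right (ENNReal.ofReal_le_ofReal (Real.exp_le_exp.2 ?_))
    rw [h] at h1
    nlinarith [mul_le_mul_of_nonneg_left h1 ht]
  · refine le_add_left (ENNReal.ofReal_le_ofReal (Real.exp_le_exp.2 ?_))
    rw [h] at h1
    nlinarith [mul_le_mul_of_nonneg_left h1 ht]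

lemma measurable_ZZ (t : ℝ) : Measurable (ZZ t : Ent n → ENNReal) := by
  unfold ZZ
  refine Measurable.lintegral_prod_right' (f := fun p : Ent n × (Fin n → ℝ) =>
      ENNReal.ofReal (Real.exp (t * QQ p.1 p.2)) + ENNReal.ofReal (Real.exp (-t * QQ p.1 p.2))) ?_
  have := continuous_QQ2 (n := n)
  fun_prop

lemma prob_bound {b : ℝ} (μ : Sym2 (Fin n) → Measure ℝ) (hμ : ∀ e, GoodLaw b (μ e)) (hb : 0 ≤ b)
    {t L : ℝ} (ht : 0 ≤ t) (hL : 0 < L) :
    (Measure.pi μ) {ω | ∃ x, IsEig ω x ∧ L < x} ≤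
      ENNReal.ofReal (2 * 5 ^ n * Real.exp (2 * b * t ^ 2 * (5 / 4) ^ 4 - 7 / 16 * t * L)) := by
  have : ∀ e, IsProbabilityMeasure (μ e) := fun e => (hμ e).prob
  set A : ENNReal := ENNReal.ofReal (Real.exp (7 / 16 * t * L)) * volume (BB n (1 / 4)) with hA
  have hsub : {ω | ∃ x, IsEig ω x ∧ L < x} ⊆ {ω : Ent n | A ≤ ZZ t ω} := by
    rintro ω ⟨x, hx, hLx⟩
    exact ZZ_lower hL ht hx hLx
  refine (measure_mono hsub).trans ?_
  have hA0 : A ≠ 0 := by
    rw [hA]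
    refine mul_ne_zero ?_ (vol_BB_pos (by norm_num)).ne'
    simp [Real.exp_pos]
  have hAt : A ≠ ⊤ := ENNReal.mul_ne_top ENNReal.ofReal_ne_top (vol_BB_lt_top (by norm_num)).ne
  refine (meas_ge_le_lintegral_div (measurable_ZZ t).aemeasurable hA0 hAt).trans ?_
  rw [ENNReal.div_le_iff hA0 hAt]
  refine (ZZ_mean μ hμ hb t).trans ?_
  have hv : volume (BB n (5 / 4)) = ENNReal.ofReal (5 ^ n) * volume (BB n (1 / 4)) := by
    have := vol_BB (n := n) (1 / 4)
    norm_num at this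
    norm_num
    exact this
  rw [hv, hA]
  have e2 : (2 : ENNReal) = ENNReal.ofReal 2 := by simp
  rw [e2, ← mul_assoc, ← mul_assoc, ← ENNReal.ofReal_mul (by norm_num),
    ← ENNReal.ofReal_mul (by positivity), ← ENNReal.ofReal_mul (by positivity)]
  refine mul_le_mul_left (ENNReal.ofReal_le_ofReal (le_of_eq ?_)) _
  rw [sub_eq_add_neg, Real.exp_add]
  have h1 : Real.exp (-(7 / 16 * t * L)) * Real.exp (7 / 16 * t * L) = 1 := by
    rw [← Real.exp_add]; simp
  linear_combination (-2 * 5 ^ n * Real.exp (2 * b * t ^ 2 * (5 / 4) ^ 4)) * h1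

end FarAux

theorem far_edge (b : ℝ) : ∃ C0 : ℝ, 1 ≤ C0 ∧ ∀ ε > 0, ∃ n0 : ℕ, ∀ n ≥ n0,
    ∀ μ : Sym2 (Fin n) → Measure ℝ, (∀ e, GoodLaw b (μ e)) →
    (Measure.pi μ).real {ω | ∃ x, IsEig ω x ∧ C0 * √n < x} ≤ ε := by
  obtain ⟨C0, hC0⟩ : ∃ C0 : ℝ, C0 = 16 / 7 * (2 * |b| * (5 / 4) ^ 4 + 3) := ⟨_, rfl⟩
  have hb0 : 0 ≤ 2 * |b| * (5 / 4) ^ 4 := by positivity
  refine ⟨C0, by rw [hC0]; linarith, fun ε hε => ?_⟩
  -- `2 * 5^n * exp (-3 n) ≤ 2 * exp (-n)`
  have hlim : Tendsto (fun n : ℕ => 2 * Real.exp (-(n : ℝ))) atTop (𝓝 0) := by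
    have := (Real.tendsto_exp_neg_atTop_nhds_zero.comp tendsto_natCast_atTop_atTop).const_mul 2
    simpa using this
  obtain ⟨n1, hn1⟩ := (hlim.eventually_le_const hε).exists_forall_of_atTop
  refine ⟨max n1 1, fun n hn μ hμ => ?_⟩
  have hn1' : n1 ≤ n := (le_max_left _ _).trans hn
  have hnpos : 0 < n := (le_max_right n1 1).trans hn
  have hnR : (0 : ℝ) < n := by exact_mod_cast hnpos
  have hsq : √(n : ℝ) ^ 2 = n := Real.sq_sqrt hnR.le
  have hs : 0 < √(n : ℝ) := Real.sqrt_pos.2 hnR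
  have : Nonempty (Sym2 (Fin n)) := ⟨s(⟨0, hnpos⟩, ⟨0, hnpos⟩)⟩
  have hb : 0 ≤ b := FarAux.b_nonneg (hμ (Classical.arbitrary _))
  have hC0pos : 0 < C0 := by rw [hC0]; positivity
  have h := FarAux.prob_bound μ hμ hb (t := √n) (L := C0 * √n) hs.le (mul_pos hC0pos hs)
  refine ENNReal.toReal_le_of_le_ofReal hε.le (h.trans (ENNReal.ofReal_le_ofReal ?_))
  have e1 : 2 * b * √(n : ℝ) ^ 2 * (5 / 4) ^ 4 - 7 / 16 * √(n : ℝ) * (C0 * √(n : ℝ)) = -3 * n := by
    have : 7 / 16 * √(n : ℝ) * (C0 * √(n : ℝ)) = 7 / 16 * C0 * √(n : ℝ) ^ 2 := by ring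
    rw [this, hsq, hC0, abs_of_nonneg hb]; ring
  rw [e1]
  have e2 : (5 : ℝ) ^ n * Real.exp (-3 * n) ≤ Real.exp (-(n : ℝ)) := by
    have h5 : (5 : ℝ) ≤ Real.exp 2 := by
      have h6 : Real.exp 2 = Real.exp 1 ^ 2 := by rw [← Real.exp_nat_mul]; norm_num
      have h7 := Real.exp_one_gt_d9
      rw [h6]
      nlinarith
    have h8 : (5 : ℝ) ^ n ≤ Real.exp 2 ^ n := pow_le_pow_left₀ (by norm_num) h5 n
    have h9 : Real.exp 2 ^ n = Real.exp (2 * n) := by
      rw [← Real.exp_nat_mul]; ring_nf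
    calc (5 : ℝ) ^ n * Real.exp (-3 * n) ≤ Real.exp (2 * n) * Real.exp (-3 * n) := by
          rw [← h9]; exact mul_le_mul_of_nonneg_right h8 (Real.exp_pos _).le
      _ = Real.exp (-(n : ℝ)) := by rw [← Real.exp_add]; congr 1; ring
  calc 2 * 5 ^ n * Real.exp (-3 * n) = 2 * (5 ^ n * Real.exp (-3 * n)) := by ring
    _ ≤ 2 * Real.exp (-(n : ℝ)) := by linarith
    _ ≤ ε := hn1 n hn1'

end Pool.Agent.Eig
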