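import Pool.Agent.Work.MP_1c1c8a_pr.Main

/-! # The theorem -/

namespace Pool.Agent.Eig

open MeasureTheory Filter Topology Matrix

/-- The sub-Gaussian norm `inf {t > 0 : E exp(Z²/t²) ≤ 2}` of a real random variable with law `μ`
(`⊤` if there is no such `t`). -/
noncomputable def psi2 (μ : Measure ℝ) : ENNReal :=
  ⨅ (t : ℝ) (_ : 0 < t ∧ ∫⁻ x, ENNReal.ofReal (Real.exp (x ^ 2 / t ^ 2)) ∂μ ≤ 2), ENNReal.ofReal t

/-- `Y`: the entries in `S` are replaced by the independent copies. -/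
noncomputable def resample {n : ℕ} (S : Finset (Sym2 (Fin n))) (ω ω' : Ent n) : Ent n :=
  fun e => if e ∈ S then ω' e else ω e

namespace FinalAux

lemma exp_le_add_exp_sq (y : ℝ) : Real.exp y ≤ y + Real.exp (y ^ 2) := by
  by_cases h1 : y ≤ 1
  · have h3 : Real.exp y ≤ 1 + y + y ^ 2 := by
      by_cases h2 : -1 ≤ y
      · have := Real.abs_exp_sub_one_sub_id_le (abs_le.2 ⟨h2, h1⟩)
        have := (abs_le.1 this).2
        linarith
      · push Not at h2
        have h4 : Real.exp y ≤ 1 := Real.exp_le_one_iff.2 (by linarith)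
        nlinarith
    have h5 := Real.add_one_le_exp (y ^ 2)
    linarith
  · push Not at h1
    have : Real.exp y ≤ Real.exp (y ^ 2) := Real.exp_le_exp.2 (by nlinarith)
    linarith

lemma exp_interp {θ y : ℝ} (h0 : 0 ≤ θ) (h1 : θ ≤ 1) :
    Real.exp (θ * y) ≤ 1 - θ + θ * Real.exp y := by
  have h := convexOn_exp.2 (Set.mem_univ y) (Set.mem_univ (0 : ℝ)) h0 (sub_nonneg.2 h1)
    (by ring)
  simp only [smul_eq_mul, mul_zero, add_zero, Real.exp_zero, mul_one] at h
  linarith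

end FinalAux

open FinalAux in
theorem goodLaw_of_psi2 {K : ℝ} (hK : 0 < K) {μ : Measure ℝ} (hp : IsProbabilityMeasure μ)
    (hm : ∫ x, x ∂μ = 0) (hv : ∫ x, x ^ 2 ∂μ = 1) (h : psi2 μ ≤ ENNReal.ofReal K) :
    GoodLaw ((K + 1) ^ 2) μ := by
  have hB : 0 < K + 1 := by linarith
  set B := K + 1 with hBdef
  have hlt : psi2 μ < ENNReal.ofReal B := by
    refine lt_of_le_of_lt h ?_
    rw [ENNReal.ofReal_lt_ofReal_iff hB]
    linarith
  unfold psi2 at hlt
  rw [iInf_lt_iff] at hlt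
  obtain ⟨t, ht⟩ := hlt
  rw [iInf_lt_iff] at ht
  obtain ⟨⟨ht0, ht2⟩, htB⟩ := ht
  rw [ENNReal.ofReal_lt_ofReal_iff hB] at htB
  have hle : ∫⁻ x, ENNReal.ofReal (Real.exp (x ^ 2 / B ^ 2)) ∂μ ≤ 2 := by
    refine le_trans (lintegral_mono fun x => ?_) ht2
    apply ENNReal.ofReal_le_ofReal
    apply Real.exp_le_exp.2
    apply div_le_div_of_nonneg_left (sq_nonneg x) (by positivity)
    exact pow_le_pow_left₀ ht0.le htB.le 2
  have hint : Integrable (fun x => Real.exp (x ^ 2 / B ^ 2)) μ := by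
    refine ⟨(by fun_prop : Measurable fun x : ℝ => Real.exp (x ^ 2 / B ^ 2)).aestronglyMeasurable,
      ?_⟩
    rw [hasFiniteIntegral_iff_ofReal (ae_of_all _ fun x => (Real.exp_pos _).le)]
    exact lt_of_le_of_lt hle (by norm_num)
  have hI2 : ∫ x, Real.exp (x ^ 2 / B ^ 2) ∂μ ≤ 2 := by
    rw [integral_eq_lintegral_of_nonneg_ae (ae_of_all _ fun x => (Real.exp_pos _).le)
      hint.aestronglyMeasurable]
    exact ENNReal.toReal_le_of_le_ofReal (by norm_num) (by simpa using hle)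
  have hidx : Integrable (fun x : ℝ => x) μ := by
    refine Integrable.mono' (hint.const_mul (B + 1)) (by fun_prop) (ae_of_all _ fun x => ?_)
    have h1 := Real.add_one_le_exp (x ^ 2 / B ^ 2)
    rw [Real.norm_eq_abs]
    have h2 : |x| ≤ B * (x ^ 2 / B ^ 2 + 1) := by
      have h3 : B * (x ^ 2 / B ^ 2 + 1) = x ^ 2 / B + B := by
        field_simp
      rw [h3]
      rcases le_total |x| B with h4 | h4
      · have : 0 ≤ x ^ 2 / B := by positivity
        linarith
      · have : |x| ≤ x ^ 2 / B := by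
          rw [le_div_iff₀ hB, ← sq_abs x, sq]
          exact mul_le_mul_of_nonneg_left h4 (abs_nonneg x)
        linarith
    have h5 : (0 : ℝ) ≤ Real.exp (x ^ 2 / B ^ 2) := (Real.exp_pos _).le
    nlinarith
  refine ⟨hp, hm, hv, fun s => ?_⟩
  -- integrability
  have hdom : ∀ x : ℝ, Real.exp (s * x) ≤
      Real.exp (s ^ 2 * B ^ 2 / 2) * Real.exp (x ^ 2 / (2 * B ^ 2)) := by
    intro x
    rw [← Real.exp_add]
    apply Real.exp_le_exp.2
    have h1 : s ^ 2 * B ^ 2 / 2 + x ^ 2 / (2 * B ^ 2) - s * x = (s * B - x / B) ^ 2 / 2 := by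
      field_simp
      ring
    have h2 : 0 ≤ (s * B - x / B) ^ 2 / 2 := by positivity
    linarith
  have hhalf : ∀ x : ℝ, Real.exp (x ^ 2 / (2 * B ^ 2)) ≤
      1 - 1 / 2 + 1 / 2 * Real.exp (x ^ 2 / B ^ 2) := by
    intro x
    have := exp_interp (θ := 1 / 2) (y := x ^ 2 / B ^ 2) (by norm_num) (by norm_num)
    have h2 : (1 : ℝ) / 2 * (x ^ 2 / B ^ 2) = x ^ 2 / (2 * B ^ 2) := by
      field_simp
    rw [h2] at this
    exact this
  have hinth : Integrable (fun x : ℝ => 1 - 1 / 2 + 1 / 2 * Real.exp (x ^ 2 / B ^ 2)) μ :=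
    (integrable_const _).add (hint.const_mul _)
  have hinte : Integrable (fun x => Real.exp (s * x)) μ := by
    refine Integrable.mono' (hinth.const_mul (Real.exp (s ^ 2 * B ^ 2 / 2))) (by fun_prop)
      (ae_of_all _ fun x => ?_)
    rw [Real.norm_eq_abs, abs_of_pos (Real.exp_pos _)]
    exact (hdom x).trans (mul_le_mul_of_nonneg_left (hhalf x) (Real.exp_pos _).le)
  refine ⟨hinte, ?_⟩
  by_cases hs : s ^ 2 * B ^ 2 ≤ 1
  · have h1 : ∀ x : ℝ, Real.exp (s * x) ≤
        s * x + (1 - s ^ 2 * B ^ 2 + s ^ 2 * B ^ 2 * Real.exp (x ^ 2 / B ^ 2)) := by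
      intro x
      have h2 := exp_le_add_exp_sq (s * x)
      have h3 := exp_interp (θ := s ^ 2 * B ^ 2) (y := x ^ 2 / B ^ 2) (by positivity) hs
      have h4 : s ^ 2 * B ^ 2 * (x ^ 2 / B ^ 2) = (s * x) ^ 2 := by
        field_simp
      rw [h4] at h3
      linarith
    have h2 : ∫ x, Real.exp (s * x) ∂μ ≤
        ∫ x, (s * x + (1 - s ^ 2 * B ^ 2 + s ^ 2 * B ^ 2 * Real.exp (x ^ 2 / B ^ 2))) ∂μ := by
      apply integral_mono hinte _ h1
      exact (hidx.const_mul s).add ((integrable_const _).add (hint.const_mul _))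
    have h3 : ∫ x, (s * x + (1 - s ^ 2 * B ^ 2 + s ^ 2 * B ^ 2 * Real.exp (x ^ 2 / B ^ 2))) ∂μ =
        1 - s ^ 2 * B ^ 2 + s ^ 2 * B ^ 2 * ∫ x, Real.exp (x ^ 2 / B ^ 2) ∂μ := by
      have hA : Integrable (fun x => s ^ 2 * B ^ 2 * Real.exp (x ^ 2 / B ^ 2)) μ :=
        hint.const_mul _
      have hA2 : Integrable (fun x => 1 - s ^ 2 * B ^ 2 +
          s ^ 2 * B ^ 2 * Real.exp (x ^ 2 / B ^ 2)) μ := (integrable_const _).add hA
      rw [integral_add (hidx.const_mul s) hA2,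
        integral_add (integrable_const _) hA, integral_const_mul,
        integral_const_mul, hm]
      simp
    rw [h3] at h2
    have h4 : 1 - s ^ 2 * B ^ 2 + s ^ 2 * B ^ 2 * ∫ x, Real.exp (x ^ 2 / B ^ 2) ∂μ ≤
        s ^ 2 * B ^ 2 + 1 := by
      have : 0 ≤ s ^ 2 * B ^ 2 := by positivity
      nlinarith
    have h5 := Real.add_one_le_exp (B ^ 2 * s ^ 2)
    linarith [mul_comm (B ^ 2) (s ^ 2)]
  · push Not at hs
    have h2 : ∫ x, Real.exp (s * x) ∂μ ≤
        ∫ x, Real.exp (s ^ 2 * B ^ 2 / 2) * (1 - 1 / 2 + 1 / 2 * Real.exp (x ^ 2 / B ^ 2)) ∂μ := by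
      apply integral_mono hinte (hinth.const_mul _)
      intro x
      exact (hdom x).trans (mul_le_mul_of_nonneg_left (hhalf x) (Real.exp_pos _).le)
    rw [integral_const_mul, integral_add (integrable_const _) (hint.const_mul _),
      integral_const_mul] at h2
    have h3 : ∫ _ : ℝ, ((1 : ℝ) - 1 / 2) ∂μ + 1 / 2 * ∫ x, Real.exp (x ^ 2 / B ^ 2) ∂μ ≤
        Real.exp (1 / 2) := by
      have := Real.add_one_le_exp ((1 : ℝ) / 2)
      simp only [integral_const, probReal_univ, one_smul]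
      linarith
    calc ∫ x, Real.exp (s * x) ∂μ ≤ _ := h2
      _ ≤ Real.exp (s ^ 2 * B ^ 2 / 2) * Real.exp (1 / 2) :=
          mul_le_mul_of_nonneg_left h3 (Real.exp_pos _).le
      _ ≤ Real.exp (B ^ 2 * s ^ 2) := by
          rw [← Real.exp_add]
          apply Real.exp_le_exp.2
          linarith [mul_comm (B ^ 2) (s ^ 2)]

namespace FinalAux

/-- The map defining the pair of an entry and its resampled version. -/
noncomputable def gmap {n : ℕ} (S : Finset (Sym2 (Fin n))) (e : Sym2 (Fin n)) :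
    ℝ × ℝ → ℝ × ℝ := fun p => (p.1, if e ∈ S then p.2 else p.1)

lemma gmap_meas {n : ℕ} (S : Finset (Sym2 (Fin n))) (e : Sym2 (Fin n)) :
    Measurable (gmap S e) := by
  unfold gmap
  by_cases h : e ∈ S
  · simp only [h, if_true]
    fun_prop
  · simp only [h, if_false]
    fun_prop

end FinalAux

open FinalAux in
theorem pair_law {n : ℕ} (μ : Measure ℝ) [IsProbabilityMeasure μ] (S : Finset (Sym2 (Fin n))) :
    ∃ ν : Sym2 (Fin n) → Measure (ℝ × ℝ),
      (∀ b, GoodLaw b μ → ∀ e, GoodPair b (if e ∈ S then 0 else 1) (ν e)) ∧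
      ((Measure.pi fun _ : Sym2 (Fin n) => μ).prod (Measure.pi fun _ => μ)).map
        (fun q e => (q.1 e, resample S q.1 q.2 e)) = Measure.pi ν := by
  refine ⟨fun e => (μ.prod μ).map (gmap S e), ?_, ?_⟩
  · intro b hb e
    have h1 : ((μ.prod μ).map (gmap S e)).map Prod.fst = μ := by
      rw [Measure.map_map measurable_fst (gmap_meas S e)]
      have : Prod.fst ∘ gmap S e = Prod.fst := rfl
      rw [this, Measure.map_fst_prod]
      simp
    have h2 : ((μ.prod μ).map (gmap S e)).map Prod.snd = μ := by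
      rw [Measure.map_map measurable_snd (gmap_meas S e)]
      by_cases h : e ∈ S
      · have : Prod.snd ∘ gmap S e = Prod.snd := by
          funext p
          simp [gmap, h]
        rw [this, Measure.map_snd_prod]
        simp
      · have : Prod.snd ∘ gmap S e = Prod.fst := by
          funext p
          simp [gmap, h]
        rw [this, Measure.map_fst_prod]
        simp
    refine ⟨by rw [h1]; exact hb, by rw [h2]; exact hb, ?_⟩
    rw [integral_map (gmap_meas S e).aemeasurable (by fun_prop)]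
    by_cases h : e ∈ S
    · simp only [gmap, h, if_true]
      rw [integral_prod_mul (fun x : ℝ => x) (fun x : ℝ => x), hb.mean]
      simp
    · simp only [gmap, h, if_false]
      have h3 : (fun p : ℝ × ℝ => p.1 * p.1) = fun p => (fun x : ℝ => x ^ 2) p.1 * (1 : ℝ) := by
        funext p
        ring
      rw [h3]
      have h4 := integral_prod_mul (μ := μ) (ν := μ) (fun x : ℝ => x ^ 2) (fun _ : ℝ => (1 : ℝ))
      rw [h4, hb.var]
      simp
  · have h1 := (measurePreserving_arrowProdEquivProdArrow ℝ ℝ (Sym2 (Fin n)) (fun _ => μ)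
      (fun _ => μ)).map_eq
    rw [← h1, Measure.map_map]
    · have h2 : (fun (q : (Sym2 (Fin n) → ℝ) × (Sym2 (Fin n) → ℝ)) e =>
          (q.1 e, resample S q.1 q.2 e)) ∘
          (MeasurableEquiv.arrowProdEquivProdArrow ℝ ℝ (Sym2 (Fin n))) =
          fun p e => gmap S e (p e) := by
        funext p e
        rfl
      rw [h2]
      exact Measure.pi_map_pi (fun e => (gmap_meas S e).aemeasurable)
    · rw [measurable_pi_iff]
      intro e
      have : (fun (q : (Sym2 (Fin n) → ℝ) × (Sym2 (Fin n) → ℝ)) =>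
          (q.1 e, resample S q.1 q.2 e)) = fun q => gmap S e (q.1 e, q.2 e) := rfl
      rw [this]
      exact (gmap_meas S e).comp (by fun_prop)
    · exact MeasurableEquiv.measurable _

theorem sigma_bound {n : ℕ} (hn : 1 ≤ n) (S : Finset (Sym2 (Fin n))) :
    (S.card : ℝ) / (2 * (n : ℝ) ^ 2) ≤
      1 - √(∑ i : Fin n, ∑ j : Fin n, ((if s(i, j) ∈ S then (0 : ℝ) else 1)) ^ 2) / n := by
  have hn0 : (0 : ℝ) < n := by exact_mod_cast hn
  let Q : Finset (Fin n × Fin n) := Finset.univ.filter (fun q => s(q.1, q.2) ∈ S)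
  have hcard : S.card ≤ Q.card := by
    have : S ⊆ Q.image (fun q => s(q.1, q.2)) := by
      intro e he
      induction e using Sym2.inductionOn with
      | _ a c =>
        rw [Finset.mem_image]
        exact ⟨(a, c), by simp [Q, he], rfl⟩
    exact (Finset.card_le_card this).trans Finset.card_image_le
  have hsum : ∑ i : Fin n, ∑ j : Fin n, ((if s(i, j) ∈ S then (0 : ℝ) else 1)) ^ 2 =
      (n : ℝ) ^ 2 - Q.card := by
    have h1 : ∀ i j : Fin n, ((if s(i, j) ∈ S then (0 : ℝ) else 1)) ^ 2 =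
        1 - (if s(i, j) ∈ S then (1 : ℝ) else 0) := by
      intro i j
      split_ifs <;> norm_num
    simp only [h1]
    rw [← Finset.sum_product' (s := Finset.univ) (t := Finset.univ)
      (f := fun i j : Fin n => 1 - (if s(i, j) ∈ S then (1 : ℝ) else 0))]
    rw [Finset.sum_sub_distrib]
    congr 1
    · simp [sq]
    · simp [Q, Finset.univ_product_univ]
  rw [hsum]
  have hm1 : (S.card : ℝ) ≤ (Q.card : ℝ) := by exact_mod_cast hcard
  set m : ℝ := (Q.card : ℝ) with hm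
  have hm2 : m ≤ (n : ℝ) ^ 2 := by
    have h1 : (0 : ℝ) ≤ (n : ℝ) ^ 2 - m := by
      rw [hm, ← hsum]
      positivity
    linarith
  have h2 : √((n : ℝ) ^ 2 - m) ≤ n * (1 - m / (2 * (n : ℝ) ^ 2)) := by
    apply Real.sqrt_le_iff.2
    constructor
    · have : m / (2 * (n : ℝ) ^ 2) ≤ 1 := by
        rw [div_le_one (by positivity)]
        nlinarith
      apply mul_nonneg hn0.le
      linarith
    · have h3 : (n * (1 - m / (2 * (n : ℝ) ^ 2))) ^ 2 =
          (n : ℝ) ^ 2 - m + m ^ 2 / (4 * (n : ℝ) ^ 2) := by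
        field_simp
        ring
      rw [h3]
      have : 0 ≤ m ^ 2 / (4 * (n : ℝ) ^ 2) := by positivity
      linarith
  have h4 : √((n : ℝ) ^ 2 - m) / n ≤ 1 - m / (2 * (n : ℝ) ^ 2) := by
    rw [div_le_iff₀ hn0]
    linarith
  have h5 : (S.card : ℝ) / (2 * (n : ℝ) ^ 2) ≤ m / (2 * (n : ℝ) ^ 2) :=
    div_le_div_of_nonneg_right hm1 (by positivity)
  linarith

/-- **Theorem.** The top eigenvector of a Wigner matrix decorrelates when `k(n) ≫ n^(5/3)`
entries at arbitrary deterministic positions are resampled. -/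
theorem decorrelation (K : ℝ) (μ : ℕ → Measure ℝ) (hprob : ∀ n, IsProbabilityMeasure (μ n))
    (hmean : ∀ n, ∫ x, x ∂(μ n) = 0) (hvar : ∀ n, ∫ x, x ^ 2 ∂(μ n) = 1)
    (hpsi : ∀ n, psi2 (μ n) ≤ ENNReal.ofReal K)
    (S : ∀ n : ℕ, Finset (Sym2 (Fin n)))
    (hS : Tendsto (fun n : ℕ => ((S n).card : ℝ) / (n : ℝ) ^ ((5 : ℝ) / 3)) atTop atTop)
    (ε : ℝ) (hε : 0 < ε) :
    ∀ᶠ n : ℕ in atTop, ∃ U : Ent n × Ent n → ℝ, Measurable U ∧ (∀ q, 0 ≤ U q) ∧
      Integrable U ((Measure.pi fun _ => μ n).prod (Measure.pi fun _ => μ n)) ∧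
      ∫ q, U q ∂((Measure.pi fun _ => μ n).prod (Measure.pi fun _ => μ n)) ≤ ε ∧
      ∀ (q : Ent n × Ent n) (v v' : Fin n → ℝ) (c c' : ℝ),
        IsTopVec (symMat q.1) v c → IsTopVec (symMat (resample (S n) q.1 q.2)) v' c' →
        (v ⬝ᵥ v') ^ 2 ≤ U q := by
  have hK : 0 < K ∨ K ≤ 0 := lt_or_ge 0 K
  set K' := max K 1 with hK'
  have hK'0 : 0 < K' := lt_of_lt_of_le one_pos (le_max_right _ _)
  have hgood : ∀ n, GoodLaw ((K' + 1) ^ 2) (μ n) := fun n =>
    goodLaw_of_psi2 hK'0 (hprob n) (hmean n) (hvar n)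
      ((hpsi n).trans (ENNReal.ofReal_le_ofReal (le_max_left _ _)))
  obtain ⟨W, hW, n0, hmain⟩ := main_pair ((K' + 1) ^ 2) ε hε
  have h1 := hS.eventually_ge_atTop (2 * W)
  filter_upwards [h1, eventually_ge_atTop n0, eventually_ge_atTop 1] with n hn1 hn2 hn3
  have hpn := hprob n
  obtain ⟨ν, hν, hmap⟩ := pair_law (μ n) (S n)
  have hn0 : (0 : ℝ) < n := by exact_mod_cast hn3
  have hsb := sigma_bound hn3 (S n)
  have hWn : W ≤ (1 - √(∑ i : Fin n, ∑ j : Fin n,
      ((fun e => if e ∈ S n then (0 : ℝ) else 1) s(i, j)) ^ 2) / n) * (n : ℝ) ^ ((1 : ℝ) / 3) := by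
    have h2 : ((S n).card : ℝ) / (2 * (n : ℝ) ^ 2) * (n : ℝ) ^ ((1 : ℝ) / 3) =
        ((S n).card : ℝ) / (n : ℝ) ^ ((5 : ℝ) / 3) / 2 := by
      have h3 : (n : ℝ) ^ ((5 : ℝ) / 3) = (n : ℝ) ^ 2 / (n : ℝ) ^ ((1 : ℝ) / 3) := by
        rw [eq_div_iff (by positivity), ← Real.rpow_add hn0, ← Real.rpow_natCast]
        norm_num
      rw [h3]
      field_simp
    calc W ≤ ((S n).card : ℝ) / (n : ℝ) ^ ((5 : ℝ) / 3) / 2 := by linarith
      _ = ((S n).card : ℝ) / (2 * (n : ℝ) ^ 2) * (n : ℝ) ^ ((1 : ℝ) / 3) := h2.symm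
      _ ≤ _ := mul_le_mul_of_nonneg_right hsb (by positivity)
  obtain ⟨U, hUm, hU0, hUi, hUε, hUov⟩ := hmain n hn2 (fun e => if e ∈ S n then (0 : ℝ) else 1) ν
    (hν _ (hgood n)) hWn
  have hTm : Measurable (fun (q : Ent n × Ent n) (e : Sym2 (Fin n)) =>
      (q.1 e, resample (S n) q.1 q.2 e)) := by
    rw [measurable_pi_iff]
    intro e
    have : (fun (q : Ent n × Ent n) => (q.1 e, resample (S n) q.1 q.2 e)) =
        fun q => FinalAux.gmap (S n) e (q.1 e, q.2 e) := rfl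
    rw [this]
    exact (FinalAux.gmap_meas (S n) e).comp (by fun_prop)
  refine ⟨fun q => U (fun e => (q.1 e, resample (S n) q.1 q.2 e)), hUm.comp hTm,
    fun q => hU0 _, ?_, ?_, ?_⟩
  · rw [← hmap] at hUi
    exact hUi.comp_measurable hTm
  · rw [← hmap, integral_map hTm.aemeasurable hUm.aestronglyMeasurable] at hUε
    exact hUε
  · intro q v v' c c' hv hv'
    exact hUov _ v v' c c' hv hv'

end Pool.Agent.Eig
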