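import Pool.Agent.Work.MP_1c1c8a_pr.Center
import Pool.Agent.Work.MP_1c1c8a_pr.GoodProb
import Pool.Agent.Work.MP_1c1c8a_pr.WeakLaw

/-! # Diagonal entries of the resolvent -/

namespace Pool.Agent.Eig

open MeasureTheory Filter Topology Matrix

namespace GiiBoundAux

variable {n : ℕ} {T : Finset (Fin n)} {z : ℂ}

lemma isProb {b : ℝ} {μ : Sym2 (Fin n) → Measure ℝ} (hμ : ∀ e, GoodLaw b (μ e)) :
    IsProbabilityMeasure (Measure.pi μ) := by
  have : ∀ e, IsProbabilityMeasure (μ e) := fun e => (hμ e).prob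
  infer_instance

lemma st_cont (hz : z.im ≠ 0) : Continuous (fun ω : Ent n => st T z ω) := by
  unfold st
  exact continuous_finsetSum _ fun i _ => Gr_continuous hz i i

lemma NN_cont (hz : z.im ≠ 0) : Continuous (fun ω : Ent n => NN T z ω) := by
  unfold NN
  exact continuous_finsetSum _ fun i _ => continuous_finsetSum _ fun j _ =>
    (Gr_continuous hz i j).norm.pow 2

lemma xi_cont (hz : z.im ≠ 0) (i : Fin n) : Continuous (fun ω : Ent n => xi T z i ω) := by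
  unfold xi
  refine Continuous.sub (Continuous.add ?_ ?_) (st_cont hz)
  · exact Complex.continuous_ofReal.comp (continuous_apply _)
  · refine continuous_finsetSum _ fun k _ => continuous_finsetSum _ fun l _ => ?_
    exact ((Complex.continuous_ofReal.comp (continuous_apply _)).mul (Gr_continuous hz k l)).mul
      (Complex.continuous_ofReal.comp (continuous_apply _))

lemma st_norm_le (hz : z.im ≠ 0) (ω : Ent n) : ‖st T z ω‖ ≤ n * |z.im|⁻¹ := by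
  unfold st
  calc _ ≤ ∑ i, ‖Gr T z ω i i‖ := norm_sum_le _ _
    _ ≤ ∑ _i : Fin n, |z.im|⁻¹ := Finset.sum_le_sum fun i _ => Gr_le hz i i
    _ = n * |z.im|⁻¹ := by simp

lemma xi_norm_le (hz : z.im ≠ 0) (i : Fin n) (ω : Ent n) :
    ‖xi T z i ω‖ ≤ (1 + n * |z.im|⁻¹ + (n : ℝ) ^ 2 * |z.im|⁻¹) * (1 + ∑ e, |ω e|) ^ 2 := by
  set S := ∑ e, |ω e| with hS
  have hS0 : 0 ≤ S := Finset.sum_nonneg fun e _ => abs_nonneg _
  have hle : ∀ e, |ω e| ≤ S := fun e =>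
    Finset.single_le_sum (f := fun e => |ω e|) (fun e _ => abs_nonneg _) (Finset.mem_univ e)
  have hi0 : 0 ≤ |z.im|⁻¹ := by positivity
  have t1 : ‖((ω s(i, i) : ℝ) : ℂ)‖ ≤ 1 * (1 + S) ^ 2 := by
    rw [Complex.norm_real, Real.norm_eq_abs]
    nlinarith [hle s(i, i)]
  have t3 : ‖st (insert i T) z ω‖ ≤ (n * |z.im|⁻¹) * (1 + S) ^ 2 := by
    refine (st_norm_le hz ω).trans ?_
    have : (0 : ℝ) ≤ n * |z.im|⁻¹ := by positivity
    nlinarith [mul_nonneg this hS0, mul_nonneg this (mul_nonneg hS0 hS0)]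
  have t2 : ‖∑ k, ∑ l, ((ω s(i, k) : ℝ) : ℂ) * Gr (insert i T) z ω k l *
      ((ω s(i, l) : ℝ) : ℂ)‖ ≤ ((n : ℝ) ^ 2 * |z.im|⁻¹) * (1 + S) ^ 2 := by
    calc _ ≤ ∑ k : Fin n, ∑ l : Fin n, S * |z.im|⁻¹ * S := by
          refine (norm_sum_le _ _).trans (Finset.sum_le_sum fun k _ => ?_)
          refine (norm_sum_le _ _).trans (Finset.sum_le_sum fun l _ => ?_)
          rw [norm_mul, norm_mul, Complex.norm_real, Complex.norm_real, Real.norm_eq_abs,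
            Real.norm_eq_abs]
          have := Gr_le (T := insert i T) (ω := ω) hz k l
          have h1 := hle s(i, k)
          have h2 := hle s(i, l)
          gcongr
      _ = ((n : ℝ) ^ 2 * |z.im|⁻¹) * S ^ 2 := by
          simp only [Finset.sum_const, Finset.card_univ, Fintype.card_fin, nsmul_eq_mul]
          ring
      _ ≤ ((n : ℝ) ^ 2 * |z.im|⁻¹) * (1 + S) ^ 2 := by
          gcongr
          linarith
  unfold xi
  calc _ ≤ (‖((ω s(i, i) : ℝ) : ℂ)‖ + ‖∑ k, ∑ l, ((ω s(i, k) : ℝ) : ℂ) *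
        Gr (insert i T) z ω k l * ((ω s(i, l) : ℝ) : ℂ)‖) + ‖st (insert i T) z ω‖ :=
        (norm_sub_le _ _).trans (add_le_add_left (norm_add_le _ _) _)
    _ ≤ _ := by
        have := add_le_add (add_le_add t1 t2) t3
        linarith

lemma xi_sq_int {b : ℝ} {μ : Sym2 (Fin n) → Measure ℝ} (hμ : ∀ e, GoodLaw b (μ e))
    (hz : z.im ≠ 0) (i : Fin n) :
    Integrable (fun ω => ‖xi T z i ω‖ ^ 2) (Measure.pi μ) := by
  refine integrable_poly hμ (fun ω => ‖xi T z i ω‖ ^ 2)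
    ((xi_cont hz i).norm.pow 2).aestronglyMeasurable
    ((1 + n * |z.im|⁻¹ + (n : ℝ) ^ 2 * |z.im|⁻¹) ^ 2) 4 fun ω => ?_
  rw [Real.norm_of_nonneg (by positivity)]
  calc ‖xi T z i ω‖ ^ 2 ≤ ((1 + n * |z.im|⁻¹ + (n : ℝ) ^ 2 * |z.im|⁻¹) *
        (1 + ∑ e, |ω e|) ^ 2) ^ 2 := by
        have := xi_norm_le (T := T) hz i ω
        gcongr
    _ = _ := by ring

lemma bdd_int {b : ℝ} {μ : Sym2 (Fin n) → Measure ℝ} (hμ : ∀ e, GoodLaw b (μ e))
    {f : Ent n → ℝ} (hf : Continuous f) {M : ℝ} (hM : ∀ ω, |f ω| ≤ M) :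
    Integrable f (Measure.pi μ) := by
  have := isProb hμ
  exact Integrable.of_bound hf.aestronglyMeasurable M (Eventually.of_forall hM)

lemma NN_nonneg (ω : Ent n) : 0 ≤ NN T z ω :=
  Finset.sum_nonneg fun i _ => Finset.sum_nonneg fun j _ => by positivity

lemma NN_int {b : ℝ} {μ : Sym2 (Fin n) → Measure ℝ} (hμ : ∀ e, GoodLaw b (μ e))
    (hz : z.im ≠ 0) : Integrable (fun ω => NN T z ω) (Measure.pi μ) :=
  bdd_int hμ (NN_cont hz) (M := n * (z.im ^ 2)⁻¹) fun ω => by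
    rw [abs_of_nonneg (NN_nonneg ω)]
    exact NN_le hz

lemma NN_sq_int {b : ℝ} {μ : Sym2 (Fin n) → Measure ℝ} (hμ : ∀ e, GoodLaw b (μ e))
    (hz : z.im ≠ 0) : Integrable (fun ω => NN T z ω ^ 2) (Measure.pi μ) :=
  bdd_int hμ ((NN_cont hz).pow 2) (M := (n * (z.im ^ 2)⁻¹) ^ 2) fun ω => by
    rw [abs_of_nonneg (by positivity)]
    have := NN_nonneg (T := T) (z := z) ω
    have := NN_le (T := T) (ω := ω) hz
    gcongr

lemma sg_int {b : ℝ} {μ : Sym2 (Fin n) → Measure ℝ} (hμ : ∀ e, GoodLaw b (μ e))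
    (hz : z.im ≠ 0) (g : ℂ) : Integrable (fun ω => ‖st T z ω - g‖ ^ 2) (Measure.pi μ) :=
  bdd_int hμ (((st_cont hz).sub continuous_const).norm.pow 2)
    (M := (n * |z.im|⁻¹ + ‖g‖) ^ 2) fun ω => by
    rw [abs_of_nonneg (by positivity)]
    have := (norm_sub_le (st T z ω) g).trans
      (add_le_add_left (st_norm_le (T := T) hz ω) ‖g‖)
    gcongr

/-- the main pointwise bound -/
lemma key {g : ℂ} {c : ℝ} (hc : 0 < c) (hz : z.im ≠ 0) (hn : 0 < (n : ℝ))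
    (hg : g * (z - g) = n) (hgn : ‖g‖ ^ 2 ≤ n) {ω : Ent n} {i : Fin n}
    (hG : ‖Gr ∅ z ω i i‖ ≤ c⁻¹ / √n) :
    ‖Gr ∅ z ω i i - g / n‖ ^ 2 ≤ 3 * c⁻¹ ^ 2 / (n : ℝ) ^ 2 *
      (‖st ∅ z ω - g‖ ^ 2 + (z.im ^ 2)⁻¹ + ‖xi ∅ z i ω‖ ^ 2) := by
  have hn' : (n : ℂ) ≠ 0 := by exact_mod_cast hn.ne'
  have h1 : (g / n) * (z - g) = 1 := by
    rw [div_mul_eq_mul_div, hg, div_self hn']
  have h2 := schur (T := ∅) (ω := ω) hz (Finset.notMem_empty i)
  have h3 := st_sub_le (T := ∅) (ω := ω) hz (Finset.notMem_empty i)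
  set G := Gr ∅ z ω i i
  set s' := st (insert i ∅) z ω
  set s := st ∅ z ω
  set x := xi ∅ z i ω
  have e1 : G - g / n = G * (g / n) * ((s' - s) + (s - g) + x) := by
    calc G - g / n = G * ((g / n) * (z - g)) - (g / n) * (G * (z - s' - x)) := by
          rw [h1, h2]; ring
      _ = _ := by ring
  have hsn : 0 < √(n : ℝ) := Real.sqrt_pos.2 hn
  have hss : √(n : ℝ) * √n = n := Real.mul_self_sqrt hn.le
  have hg1 : ‖g / n‖ ≤ 1 / √n := by
    rw [norm_div, Complex.norm_natCast, div_le_div_iff₀ hn hsn, one_mul]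
    have : ‖g‖ ≤ √n := Real.le_sqrt_of_sq_le hgn
    calc ‖g‖ * √n ≤ √n * √n := by gcongr
      _ = n := hss
  have h4 : ‖G - g / n‖ ≤ c⁻¹ / n * (|z.im|⁻¹ + ‖s - g‖ + ‖x‖) := by
    rw [e1, norm_mul, norm_mul]
    calc ‖G‖ * ‖g / (n : ℂ)‖ * ‖(s' - s) + (s - g) + x‖ ≤
        (c⁻¹ / √n) * (1 / √n) * (|z.im|⁻¹ + ‖s - g‖ + ‖x‖) := by
          gcongr
          refine (norm_add_le _ _).trans ?_
          gcongr
          refine (norm_add_le _ _).trans ?_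
          gcongr
          rw [norm_sub_rev]
          exact h3
      _ = _ := by
          rw [div_mul_div_comm, hss, mul_one]
  have h5 : |z.im|⁻¹ ^ 2 = (z.im ^ 2)⁻¹ := by
    rw [inv_pow, sq_abs]
  calc ‖G - g / n‖ ^ 2 ≤ (c⁻¹ / n * (|z.im|⁻¹ + ‖s - g‖ + ‖x‖)) ^ 2 := by gcongr
    _ = c⁻¹ ^ 2 / (n : ℝ) ^ 2 * (|z.im|⁻¹ + ‖s - g‖ + ‖x‖) ^ 2 := by ring
    _ ≤ c⁻¹ ^ 2 / (n : ℝ) ^ 2 * (3 * (‖s - g‖ ^ 2 + |z.im|⁻¹ ^ 2 + ‖x‖ ^ 2)) := by
        gcongr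
        nlinarith [sq_nonneg (|z.im|⁻¹ - ‖s - g‖), sq_nonneg (|z.im|⁻¹ - ‖x‖),
          sq_nonneg (‖s - g‖ - ‖x‖)]
    _ = _ := by rw [h5]; ring

lemma crude {g : ℂ} (hz : z.im ≠ 0) (hn : 1 ≤ (n : ℝ)) (hgn : ‖g‖ ^ 2 ≤ n) (ω : Ent n)
    (i : Fin n) : ‖Gr ∅ z ω i i - g / n‖ ^ 2 ≤ (|z.im|⁻¹ + 1) ^ 2 := by
  have h0 : (0 : ℝ) < n := by linarith
  have hg1 : ‖g / (n : ℂ)‖ ≤ 1 := by
    rw [norm_div, Complex.norm_natCast, div_le_one h0]
    nlinarith [norm_nonneg g]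
  have := (norm_sub_le (Gr ∅ z ω i i) (g / n)).trans (add_le_add (Gr_le hz i i) hg1)
  gcongr

end GiiBoundAux

open GiiBoundAux in
theorem Gii_bound (b : ℝ) : ∃ K0 : ℝ, 1 ≤ K0 ∧ ∀ K ≥ K0, ∃ C : ℝ, 0 ≤ C ∧ ∃ n0 : ℕ, ∀ n ≥ n0,
    ∀ μ : Sym2 (Fin n) → Measure ℝ, (∀ e, GoodLaw b (μ e)) → ∀ g : ℂ,
    g * (zc K n - g) = n → g.im < 0 → ∀ i : Fin n,
    ∫ ω, ‖Gr ∅ (zc K n) ω i i - g / n‖ ^ 2 ∂(Measure.pi μ) ≤
      C * (n : ℝ) ^ (-(5 : ℝ) / 3) := by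
  obtain ⟨K0, C1, hK0, hC1, hcen⟩ := center_bound b
  obtain ⟨Cx, hCx, hxi⟩ := xi_mom b 1
  obtain ⟨C3, hC3, hgood⟩ := good_prob b
  refine ⟨K0, hK0, fun K hK => ?_⟩
  have hK1 : 1 ≤ K := hK0.trans hK
  obtain ⟨c, hc, hc1, n1, hweak⟩ := weak_law (K + 2) (by linarith)
  obtain ⟨n2, hcen⟩ := hcen K hK
  refine ⟨3 * c⁻¹ ^ 2 * (C1 + 1 + Cx * (C1 + 3)) + 4 * C3, by positivity,
    max 1 (max n1 n2), fun n hn μ hμ g hg hgi i => ?_⟩
  have hn1 : 1 ≤ n := (le_max_left _ _).trans hn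
  have hnn1 : n1 ≤ n := ((le_max_left _ _).trans (le_max_right _ _)).trans hn
  have hnn2 : n2 ≤ n := ((le_max_right _ _).trans (le_max_right _ _)).trans hn
  have hnR : (1 : ℝ) ≤ n := by exact_mod_cast hn1
  have hn0 : (0 : ℝ) < n := by linarith
  have := isProb hμ
  obtain ⟨cen1, cen2⟩ := hcen n hnn2 μ hμ g hg hgi
  have him : (zc K n).im = K * (n : ℝ) ^ (-(1 : ℝ) / 6) := rfl
  have hre : (zc K n).re = 2 * √n := rfl
  set z := zc K n with hzdef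
  have hp : 0 < (n : ℝ) ^ (-(1 : ℝ) / 6) := Real.rpow_pos_of_pos hn0 _
  have hzpos : 0 < z.im := by rw [him]; positivity
  have hz : z.im ≠ 0 := hzpos.ne'
  have hlow : (n : ℝ) ^ (-(1 : ℝ) / 6) ≤ z.im := by
    rw [him]
    nlinarith
  have hsqrt1 : 1 ≤ √(n : ℝ) := by
    rw [Real.one_le_sqrt]
    exact hnR
  have hpl : (n : ℝ) ^ (-(1 : ℝ) / 6) ≤ 1 :=
    Real.rpow_le_one_of_one_le_of_nonpos hnR (by norm_num)
  have hupp : z.im ≤ K := by
    rw [him]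
    nlinarith
  have hdom : Dom (K + 2) n z := by
    refine ⟨hlow, ?_⟩
    calc ‖z‖ ≤ |z.re| + |z.im| := Complex.norm_le_abs_re_add_abs_im z
      _ ≤ 2 * √n + K := by
        rw [hre, abs_of_nonneg (by positivity), abs_of_pos hzpos]
        linarith
      _ ≤ (K + 2) * √n := by nlinarith
  have hgn : ‖g‖ ^ 2 ≤ n := root_norm hn0 hzpos (by exact_mod_cast hg) hgi
  -- powers
  set t : ℝ := (n : ℝ) ^ ((1 : ℝ) / 3) with ht
  have ht1 : 1 ≤ t := Real.one_le_rpow hnR (by norm_num)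
  have hinv : |z.im|⁻¹ ≤ (n : ℝ) ^ ((1 : ℝ) / 6) := by
    rw [abs_of_pos hzpos]
    refine (inv_anti₀ hp hlow).trans (le_of_eq ?_)
    rw [← Real.rpow_neg hn0.le]
    norm_num
  have h6 : 1 ≤ (n : ℝ) ^ ((1 : ℝ) / 6) := Real.one_le_rpow hnR (by norm_num)
  have h66 : ((n : ℝ) ^ ((1 : ℝ) / 6)) ^ 2 = t := by
    rw [ht, ← Real.rpow_natCast, ← Real.rpow_mul hn0.le]
    norm_num
  have hinv2 : (z.im ^ 2)⁻¹ ≤ t := by
    rw [← h66, ← sq_abs z.im, ← inv_pow]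
    gcongr
  have htt : t * t = (n : ℝ) ^ ((2 : ℝ) / 3) := by
    rw [ht, ← Real.rpow_add hn0]
    norm_num
  have hfin : t / (n : ℝ) ^ 2 = (n : ℝ) ^ (-(5 : ℝ) / 3) := by
    rw [ht, ← Real.rpow_natCast, ← Real.rpow_sub hn0]
    norm_num
  -- first moment of N
  have hNNint := NN_int (T := ∅) hμ hz
  have hNN2int := NN_sq_int (T := ∅) hμ hz
  have hEN : ∫ ω, NN ∅ z ω ∂(Measure.pi μ) ≤ (C1 + 1) * t := by
    have e1 : ∀ ω : Ent n, NN ∅ z ω ≤ (1 / 2) * (t⁻¹ * NN ∅ z ω ^ 2 + t) := by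
      intro ω
      have h0 := NN_nonneg (T := ∅) (z := z) ω
      have : 0 < t := by linarith
      rw [show (1 / 2) * (t⁻¹ * NN ∅ z ω ^ 2 + t) = NN ∅ z ω +
        (1 / 2) * t⁻¹ * (NN ∅ z ω - t) ^ 2 by field_simp; ring]
      have : 0 ≤ (1 / 2) * t⁻¹ * (NN ∅ z ω - t) ^ 2 := by positivity
      linarith
    have hint : Integrable (fun ω => (1 / 2) * (t⁻¹ * NN ∅ z ω ^ 2 + t)) (Measure.pi μ) :=
      ((hNN2int.const_mul _).add (integrable_const _)).const_mul _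
    calc ∫ ω, NN ∅ z ω ∂(Measure.pi μ) ≤
        ∫ ω, (1 / 2) * (t⁻¹ * NN ∅ z ω ^ 2 + t) ∂(Measure.pi μ) :=
          integral_mono hNNint hint e1
      _ = (1 / 2) * (t⁻¹ * ∫ ω, NN ∅ z ω ^ 2 ∂(Measure.pi μ) + t) := by
          rw [integral_const_mul, integral_add (hNN2int.const_mul _) (integrable_const _),
            integral_const_mul, integral_const]
          simp
      _ ≤ (1 / 2) * (t⁻¹ * (C1 * (n : ℝ) ^ ((2 : ℝ) / 3) / K) + t) := by
          gcongr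
      _ ≤ (1 / 2) * (t⁻¹ * (C1 * (n : ℝ) ^ ((2 : ℝ) / 3)) + t) := by
          gcongr
          exact div_le_self (by positivity) hK1
      _ = (1 / 2) * (C1 * t + t) := by
          rw [← htt]
          have : t ≠ 0 := by linarith
          field_simp
      _ ≤ (C1 + 1) * t := by nlinarith
  have hxi1 : ∫ ω, ‖xi ∅ z i ω‖ ^ 2 ∂(Measure.pi μ) ≤ Cx * ((C1 + 3) * t) := by
    have h1 := hxi n μ hμ ∅ i (Finset.notMem_empty i) z hz (fun _ => 1) 1 measurable_const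
      (fun _ => zero_le_one) (fun _ => le_rfl) (fun _ _ _ => rfl)
    simp only [one_mul, mul_one, pow_one] at h1
    refine h1.trans ?_
    gcongr
    have hint : Integrable (fun ω => 1 + (NN ∅ z ω + (z.im ^ 2)⁻¹)) (Measure.pi μ) :=
      (integrable_const _).add (hNNint.add (integrable_const _))
    calc ∫ ω, (1 + NN (insert i ∅) z ω) ∂(Measure.pi μ) ≤
        ∫ ω, (1 + (NN ∅ z ω + (z.im ^ 2)⁻¹)) ∂(Measure.pi μ) := by
          refine integral_mono ((integrable_const _).add (NN_int hμ hz)) hint fun ω => ?_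
          have := NN_insert_le (T := ∅) (ω := ω) hz (Finset.notMem_empty i)
          simp only
          linarith
      _ = 1 + (∫ ω, NN ∅ z ω ∂(Measure.pi μ) + (z.im ^ 2)⁻¹) := by
          have hadd : Integrable (fun ω => NN ∅ z ω + (z.im ^ 2)⁻¹) (Measure.pi μ) :=
            hNNint.add (integrable_const _)
          rw [integral_add (integrable_const _) hadd,
            integral_add hNNint (integrable_const _), integral_const, integral_const]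
          simp
      _ ≤ (C1 + 3) * t := by nlinarith
  -- the pointwise bound
  set bad : Set (Ent n) := toMeasurable (Measure.pi μ) {ω | ¬ Good z ω} with hbad
  have hbadm : MeasurableSet bad := measurableSet_toMeasurable _ _
  set M : ℝ := (|z.im|⁻¹ + 1) ^ 2 with hM
  set A : ℝ := 3 * c⁻¹ ^ 2 / (n : ℝ) ^ 2 with hA
  have hM0 : 0 ≤ M := by positivity
  have hA0 : 0 ≤ A := by positivity
  have hpt : ∀ ω, ‖Gr ∅ z ω i i - g / n‖ ^ 2 ≤
      A * (‖st ∅ z ω - g‖ ^ 2 + (z.im ^ 2)⁻¹ + ‖xi ∅ z i ω‖ ^ 2) +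
        bad.indicator (fun _ => M) ω := by
    intro ω
    by_cases hω : Good z ω
    · have hw := (hweak n hnn1 z hdom ω hω).2.1 i
      have h1 := key hc hz hn0 hg hgn hw
      have h2 : 0 ≤ bad.indicator (fun _ => M) ω := Set.indicator_nonneg (fun _ _ => hM0) _
      linarith
    · have hmem : ω ∈ bad := subset_toMeasurable _ _ hω
      rw [Set.indicator_of_mem hmem]
      have h1 := crude hz hnR hgn ω i
      have h2 : 0 ≤ A * (‖st ∅ z ω - g‖ ^ 2 + (z.im ^ 2)⁻¹ + ‖xi ∅ z i ω‖ ^ 2) := by positivity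
      linarith
  have i1 := sg_int (T := ∅) hμ hz g
  have i2 := xi_sq_int (T := ∅) hμ hz i
  have i3 : Integrable (fun ω => A * (‖st ∅ z ω - g‖ ^ 2 + (z.im ^ 2)⁻¹ +
      ‖xi ∅ z i ω‖ ^ 2)) (Measure.pi μ) :=
    ((i1.add (integrable_const _)).add i2).const_mul A
  have i4 : Integrable (bad.indicator (fun _ => M)) (Measure.pi μ) :=
    (integrable_const M).indicator hbadm
  have hprob : (Measure.pi μ).real bad ≤ C3 * ((n : ℝ) ^ 100)⁻¹ := by
    have := hgood n μ hn1 hμ z hz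
    rw [Measure.real] at this ⊢
    rwa [hbad, measure_toMeasurable]
  calc ∫ ω, ‖Gr ∅ z ω i i - g / n‖ ^ 2 ∂(Measure.pi μ) ≤
      ∫ ω, (A * (‖st ∅ z ω - g‖ ^ 2 + (z.im ^ 2)⁻¹ + ‖xi ∅ z i ω‖ ^ 2) +
        bad.indicator (fun _ => M) ω) ∂(Measure.pi μ) :=
        integral_mono_of_nonneg (Eventually.of_forall fun ω => by positivity) (i3.add i4)
          (Eventually.of_forall hpt)
    _ = A * (∫ ω, ‖st ∅ z ω - g‖ ^ 2 ∂(Measure.pi μ) + (z.im ^ 2)⁻¹ +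
          ∫ ω, ‖xi ∅ z i ω‖ ^ 2 ∂(Measure.pi μ)) + (Measure.pi μ).real bad * M := by
        have i12 : Integrable (fun ω => ‖st ∅ z ω - g‖ ^ 2 + (z.im ^ 2)⁻¹) (Measure.pi μ) :=
          i1.add (integrable_const _)
        rw [integral_add i3 i4, integral_const_mul, integral_add i12 i2,
          integral_add i1 (integrable_const _), integral_const, integral_indicator_const _ hbadm]
        simp
    _ ≤ A * (C1 * t + t + Cx * ((C1 + 3) * t)) + (C3 * ((n : ℝ) ^ 100)⁻¹) * (4 * t) := by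
        have hs : ∫ ω, ‖st ∅ z ω - g‖ ^ 2 ∂(Measure.pi μ) ≤ C1 * t := by
          refine cen2.trans ?_
          refine div_le_self (by positivity) ?_
          nlinarith
        have hM4 : M ≤ 4 * t := by
          calc M ≤ ((n : ℝ) ^ ((1 : ℝ) / 6) + (n : ℝ) ^ ((1 : ℝ) / 6)) ^ 2 := by
                rw [hM]
                gcongr
            _ = 4 * t := by rw [← h66]; ring
        gcongr
    _ ≤ (3 * c⁻¹ ^ 2 * (C1 + 1 + Cx * (C1 + 3)) + 4 * C3) * (n : ℝ) ^ (-(5 : ℝ) / 3) := by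
        rw [← hfin]
        have h100 : ((n : ℝ) ^ 100)⁻¹ ≤ ((n : ℝ) ^ 2)⁻¹ := by
          apply inv_anti₀ (by positivity)
          exact pow_le_pow_right₀ hnR (by norm_num)
        have e1 : A * (C1 * t + t + Cx * ((C1 + 3) * t)) =
            3 * c⁻¹ ^ 2 * (C1 + 1 + Cx * (C1 + 3)) * (t / (n : ℝ) ^ 2) := by
          rw [hA]
          ring
        have e2 : (C3 * ((n : ℝ) ^ 100)⁻¹) * (4 * t) ≤ 4 * C3 * (t / (n : ℝ) ^ 2) := by
          calc (C3 * ((n : ℝ) ^ 100)⁻¹) * (4 * t) ≤ (C3 * ((n : ℝ) ^ 2)⁻¹) * (4 * t) := by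
                gcongr
            _ = 4 * C3 * (t / (n : ℝ) ^ 2) := by ring
        rw [e1]
        linarith

end Pool.Agent.Eig
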