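import Pool.Agent.Work.MP_1c1c8a_pr.Lin1

/-! # Linear algebra, part 2 -/

namespace Pool.Agent.Eig

open MeasureTheory Filter Topology Matrix

section Lin

variable {n : ℕ} {T : Finset (Fin n)} {z : ℂ} {ω : Ent n}

namespace Lin2Aux

theorem cutM_symm (T : Finset (Fin n)) (ω : Ent n) (i j : Fin n) :
    cutM T ω i j = cutM T ω j i := by
  simp only [cutM, Matrix.of_apply]
  rw [Sym2.eq_swap (a := i) (b := j)]
  simp only [or_comm]

theorem cutM_conj (T : Finset (Fin n)) (ω : Ent n) (i j : Fin n) :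
    (starRingEnd ℂ) (cutM T ω i j) = cutM T ω i j := by
  simp only [cutM, Matrix.of_apply]
  split_ifs <;> simp

theorem isUnit_det (T : Finset (Fin n)) (ω : Ent n) (hz : z.im ≠ 0) :
    IsUnit (z • (1 : Matrix (Fin n) (Fin n) ℂ) - cutM T ω).det := by
  rw [isUnit_iff_ne_zero]
  intro h0
  obtain ⟨v, hv, hv0⟩ := (Matrix.exists_mulVec_eq_zero_iff).2 h0
  apply hv
  -- `z v = M v`
  have h1 : ∀ i, z * v i = ∑ j, cutM T ω i j * v j := by
    intro i
    have := congrFun hv0 i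
    rw [Matrix.sub_mulVec, Matrix.smul_mulVec, Matrix.one_mulVec] at this
    simp only [Pi.sub_apply, Pi.smul_apply, smul_eq_mul, Pi.zero_apply, Matrix.mulVec,
      dotProduct] at this
    linear_combination this
  -- the quadratic form
  set S : ℂ := ∑ i, (starRingEnd ℂ) (v i) * ∑ j, cutM T ω i j * v j with hS
  have hSr : (starRingEnd ℂ) S = S := by
    rw [hS]
    simp only [map_sum, map_mul, Complex.conj_conj, cutM_conj, Finset.mul_sum]
    rw [Finset.sum_comm]
    refine Finset.sum_congr rfl fun i _ => Finset.sum_congr rfl fun j _ => ?_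
    rw [cutM_symm T ω j i]
    ring
  have h2 : z * ((∑ i, ‖v i‖ ^ 2 : ℝ) : ℂ) = S := by
    rw [hS]
    push_cast
    rw [Finset.mul_sum]
    refine Finset.sum_congr rfl fun i _ => ?_
    rw [← h1 i, ← Complex.mul_conj' (v i)]
    ring
  have h3 : S.im = 0 := Complex.conj_eq_iff_im.1 hSr
  have h4 : z.im * (∑ i, ‖v i‖ ^ 2 : ℝ) = 0 := by
    have := congrArg Complex.im h2
    rw [h3, Complex.mul_im, Complex.ofReal_im, Complex.ofReal_re, mul_zero, zero_add] at this
    exact this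
  have h5 : (∑ i, ‖v i‖ ^ 2 : ℝ) = 0 := by
    rcases mul_eq_zero.1 h4 with h | h
    · exact absurd h hz
    · exact h
  have h6 := (Finset.sum_eq_zero_iff_of_nonneg (fun i _ => sq_nonneg ‖v i‖)).1 h5
  funext i
  have := h6 i (Finset.mem_univ i)
  simpa using this

/-- entries of the inverse -/
theorem inv_row (hz : z.im ≠ 0) {j k : Fin n} (hj : j ∈ T) (hk : k ∉ T) :
    ((z • (1 : Matrix (Fin n) (Fin n) ℂ) - cutM T ω)⁻¹) j k = 0 := by
  have h := Matrix.mul_nonsing_inv _ (isUnit_det T ω hz)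
  have h1 := congrFun (congrFun h j) k
  rw [Matrix.mul_apply] at h1
  have h2 : ∀ m, (z • (1 : Matrix (Fin n) (Fin n) ℂ) - cutM T ω) j m =
      z * (if j = m then 1 else 0) := by
    intro m
    simp [cutM, hj, Matrix.one_apply]
  simp only [h2] at h1
  have hjk : j ≠ k := fun e => hk (e ▸ hj)
  rw [Matrix.one_apply_ne hjk] at h1
  simp only [mul_assoc, ite_mul, one_mul, zero_mul, mul_ite, mul_zero, Finset.sum_ite_eq,
    Finset.mem_univ, if_true] at h1
  rcases mul_eq_zero.1 h1 with h | h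
  · exact absurd (by rw [h]; rfl) hz
  · exact h

theorem Gr_eq_inv (hz : z.im ≠ 0) {j k : Fin n} (hk : k ∉ T) :
    Gr T z ω j k = ((z • (1 : Matrix (Fin n) (Fin n) ℂ) - cutM T ω)⁻¹) j k := by
  by_cases hj : j ∈ T
  · rw [inv_row hz hj hk]
    simp [Gr, hj]
  · simp [Gr, hj, hk]

theorem Gr_zero_right {k : Fin n} (hk : k ∈ T) (j : Fin n) : Gr T z ω j k = 0 := by
  simp [Gr, hk]

/-- resolvent equation -/
theorem res_eq (hz : z.im ≠ 0) {i k : Fin n} (hi : i ∉ T) (hk : k ∉ T) :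
    z * Gr T z ω i k - ∑ j, ((ω s(i, j) : ℝ) : ℂ) * Gr T z ω j k = if i = k then 1 else 0 := by
  have h := Matrix.mul_nonsing_inv _ (isUnit_det T ω hz)
  have h1 := congrFun (congrFun h i) k
  rw [Matrix.mul_apply, Matrix.one_apply] at h1
  rw [← h1]
  simp only [Matrix.sub_apply, Matrix.smul_apply, smul_eq_mul, sub_mul]
  rw [Finset.sum_sub_distrib]
  congr 1
  · simp only [Matrix.one_apply, mul_ite, mul_one, mul_zero, ite_mul, zero_mul,
      Finset.sum_ite_eq, Finset.mem_univ, if_true]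
    rw [Gr_eq_inv hz hk]
  · refine Finset.sum_congr rfl fun j _ => ?_
    by_cases hj : j ∈ T
    · rw [Gr_zero_left hj, inv_row hz hj hk]
      simp
    · rw [Gr_eq_inv hz hk]
      simp [cutM, hi, hj]

/-- uniqueness -/
theorem uniq (hz : z.im ≠ 0) (g f : Fin n → ℂ) (hg : ∀ j ∈ T, g j = 0)
    (h : ∀ i, i ∉ T → z * g i - ∑ j, ((ω s(i, j) : ℝ) : ℂ) * g j = f i) (i : Fin n) :
    g i = ∑ k, Gr T z ω i k * f k := by
  by_cases hi : i ∈ T
  · rw [hg i hi]
    symm
    apply Finset.sum_eq_zero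
    intro k _
    rw [Gr_zero_left hi, zero_mul]
  set f' : Fin n → ℂ := fun k => if k ∈ T then 0 else f k with hf'
  have h1 : (z • (1 : Matrix (Fin n) (Fin n) ℂ) - cutM T ω) *ᵥ g = f' := by
    funext m
    rw [Matrix.sub_mulVec, Matrix.smul_mulVec, Matrix.one_mulVec]
    simp only [Pi.sub_apply, Pi.smul_apply, smul_eq_mul, Matrix.mulVec, dotProduct]
    by_cases hm : m ∈ T
    · simp [hf', hm, hg m hm, cutM]
    · simp only [hf', hm, if_false]
      rw [← h m hm]
      congr 1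
      refine Finset.sum_congr rfl fun j _ => ?_
      by_cases hj : j ∈ T
      · rw [hg j hj]; simp
      · simp [cutM, hm, hj]
  have h2 : g = (z • (1 : Matrix (Fin n) (Fin n) ℂ) - cutM T ω)⁻¹ *ᵥ f' := by
    rw [← h1, Matrix.mulVec_mulVec, Matrix.nonsing_inv_mul _ (isUnit_det T ω hz),
      Matrix.one_mulVec]
  have h3 := congrFun h2 i
  rw [h3]
  simp only [Matrix.mulVec, dotProduct]
  refine Finset.sum_congr rfl fun k _ => ?_
  by_cases hk : k ∈ T
  · simp only [hf', hk, if_true]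
    rw [Gr_zero_right hk]
    simp
  · simp only [hf', hk, if_false]
    rw [Gr_eq_inv hz hk]

theorem av_self (T : Finset (Fin n)) (z : ℂ) (ω : Ent n) (i : Fin n) : av T z i ω i = 1 := by
  unfold av
  simp only [if_true]
  rw [Finset.sum_eq_zero]
  · simp
  · intro l _
    rw [Gr_zero_left (Finset.mem_insert_self i T), zero_mul]

theorem av_zero {i : Fin n} (hi : i ∉ T) {k : Fin n} (hk : k ∈ T) : av T z i ω k = 0 := by
  unfold av
  have hki : k ≠ i := fun e => hi (e ▸ hk)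
  simp only [hki, if_false, zero_add]
  apply Finset.sum_eq_zero
  intro l _
  rw [Gr_zero_left (Finset.mem_insert_of_mem hk), zero_mul]

/-- `(z - X) a = γ e_i` -/
theorem av_eq (hz : z.im ≠ 0) {i : Fin n} (hi : i ∉ T) {j : Fin n} (hj : j ∉ T) :
    z * av T z i ω j - ∑ k, ((ω s(j, k) : ℝ) : ℂ) * av T z i ω k =
      if j = i then (z - st (insert i T) z ω - xi T z i ω) else 0 := by
  have hsum : ∑ k, ((ω s(j, k) : ℝ) : ℂ) * av T z i ω k = ((ω s(j, i) : ℝ) : ℂ) +
      ∑ k, ∑ l, ((ω s(j, k) : ℝ) : ℂ) * Gr (insert i T) z ω k l * ((ω s(i, l) : ℝ) : ℂ) := by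
    unfold av
    simp only [mul_add, Finset.sum_add_distrib, mul_ite, mul_one, mul_zero,
      Finset.sum_ite_eq', Finset.mem_univ, if_true, Finset.mul_sum]
    congr 1
    refine Finset.sum_congr rfl fun k _ => Finset.sum_congr rfl fun l _ => ?_
    ring
  rw [hsum]
  by_cases hji : j = i
  · subst hji
    rw [av_self]
    simp only [if_true]
    unfold xi
    ring
  · simp only [hji, if_false]
    have hjB : j ∉ insert i T := by
      simp [hji, hj]
    have hav : z * av T z i ω j = ∑ l, (z * Gr (insert i T) z ω j l) * ((ω s(i, l) : ℝ) : ℂ) := by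
      unfold av
      simp only [hji, if_false, zero_add, Finset.mul_sum]
      refine Finset.sum_congr rfl fun l _ => ?_
      ring
    have hswap : ∑ k, ∑ l, ((ω s(j, k) : ℝ) : ℂ) * Gr (insert i T) z ω k l *
        ((ω s(i, l) : ℝ) : ℂ) = ∑ l, (∑ k, ((ω s(j, k) : ℝ) : ℂ) * Gr (insert i T) z ω k l) *
        ((ω s(i, l) : ℝ) : ℂ) := by
      rw [Finset.sum_comm]
      refine Finset.sum_congr rfl fun l _ => ?_
      rw [Finset.sum_mul]
    have hmain : ∑ l, (z * Gr (insert i T) z ω j l) * ((ω s(i, l) : ℝ) : ℂ) -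
        ∑ l, (∑ k, ((ω s(j, k) : ℝ) : ℂ) * Gr (insert i T) z ω k l) * ((ω s(i, l) : ℝ) : ℂ) =
        ((ω s(i, j) : ℝ) : ℂ) := by
      rw [← Finset.sum_sub_distrib]
      rw [Finset.sum_eq_single j]
      · rw [← sub_mul, res_eq hz hjB hjB]
        simp
      · intro l _ hlj
        rw [← sub_mul]
        by_cases hl : l ∈ insert i T
        · have : ∀ m, Gr (insert i T) z ω m l = 0 := fun m => Gr_zero_right hl m
          simp [this]
        · rw [res_eq hz hjB hl, if_neg (Ne.symm hlj), zero_mul]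
      · intro h; exact absurd (Finset.mem_univ j) h
    rw [hav, hswap]
    have hsymm : ((ω s(j, i) : ℝ) : ℂ) = ((ω s(i, j) : ℝ) : ℂ) := by
      rw [Sym2.eq_swap]
    rw [hsymm]
    linear_combination hmain

theorem av_col (hz : z.im ≠ 0) {i : Fin n} (hi : i ∉ T) (k : Fin n) :
    av T z i ω k = Gr T z ω k i * (z - st (insert i T) z ω - xi T z i ω) := by
  have h := uniq (T := T) (ω := ω) hz (av T z i ω)
    (fun j => if j = i then (z - st (insert i T) z ω - xi T z i ω) else 0)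
    (fun j hj => av_zero hi hj) (fun j hj => av_eq hz hi hj) k
  rw [h]
  simp

end Lin2Aux

open Lin2Aux

theorem schur (hz : z.im ≠ 0) {i : Fin n} (hi : i ∉ T) :
    Gr T z ω i i * (z - st (insert i T) z ω - xi T z i ω) = 1 := by
  rw [← av_col hz hi i, av_self]

theorem Gr_col (hz : z.im ≠ 0) {i : Fin n} (hi : i ∉ T) (k : Fin n) :
    Gr T z ω k i = Gr T z ω i i * av T z i ω k := by
  rw [av_col hz hi k]
  have h := schur (ω := ω) hz hi
  linear_combination (-(Gr T z ω k i)) * h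

theorem Gr_update (hz : z.im ≠ 0) {i : Fin n} (hi : i ∉ T) (k l : Fin n) :
    Gr T z ω k l = Gr (insert i T) z ω k l +
      Gr T z ω i i * av T z i ω k * av T z i ω l := by
  by_cases hl : l ∈ T
  · rw [Gr_zero_right hl, Gr_zero_right (Finset.mem_insert_of_mem hl), av_zero hi hl]
    simp
  have h := uniq (T := T) (ω := ω) hz
    (fun k => Gr (insert i T) z ω k l + Gr T z ω i i * av T z i ω k * av T z i ω l)
    (fun j => if j = l then 1 else 0)
    (fun j hj => by
      show Gr (insert i T) z ω j l + Gr T z ω i i * av T z i ω j * av T z i ω l = 0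
      rw [Gr_zero_left (Finset.mem_insert_of_mem hj), av_zero hi hj]
      simp)
    (fun j hj => by
      show z * (Gr (insert i T) z ω j l + Gr T z ω i i * av T z i ω j * av T z i ω l) -
          ∑ m, ((ω s(j, m) : ℝ) : ℂ) *
            (Gr (insert i T) z ω m l + Gr T z ω i i * av T z i ω m * av T z i ω l) =
          if j = l then 1 else 0
      have hsplit : z * (Gr (insert i T) z ω j l + Gr T z ω i i * av T z i ω j * av T z i ω l) -
          ∑ m, ((ω s(j, m) : ℝ) : ℂ) *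
            (Gr (insert i T) z ω m l + Gr T z ω i i * av T z i ω m * av T z i ω l) =
          (z * Gr (insert i T) z ω j l -
            ∑ m, ((ω s(j, m) : ℝ) : ℂ) * Gr (insert i T) z ω m l) +
          Gr T z ω i i * av T z i ω l *
            (z * av T z i ω j - ∑ m, ((ω s(j, m) : ℝ) : ℂ) * av T z i ω m) := by
        simp only [mul_add, Finset.sum_add_distrib, mul_sub, Finset.mul_sum]
        have : ∑ m, ((ω s(j, m) : ℝ) : ℂ) * (Gr T z ω i i * av T z i ω m * av T z i ω l) =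
            ∑ m, Gr T z ω i i * av T z i ω l * (((ω s(j, m) : ℝ) : ℂ) * av T z i ω m) :=
          Finset.sum_congr rfl fun m _ => by ring
        rw [this]
        ring
      rw [hsplit, av_eq hz hi hj]
      by_cases hji : j = i
      · subst hji
        simp only [if_true]
        have e1 : Gr (insert j T) z ω j l = 0 := Gr_zero_left (Finset.mem_insert_self j T) l
        have e2 := schur (ω := ω) hz hj
        have e3 : ∑ m, ((ω s(j, m) : ℝ) : ℂ) * Gr (insert j T) z ω m l =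
            ∑ m, Gr (insert j T) z ω l m * ((ω s(j, m) : ℝ) : ℂ) :=
          Finset.sum_congr rfl fun m _ => by rw [Gr_symm m l]; ring
        have e4 : av T z j ω l = (if l = j then 1 else 0) +
            ∑ m, Gr (insert j T) z ω l m * ((ω s(j, m) : ℝ) : ℂ) := rfl
        rw [e1, e3]
        have e5 : (if l = j then (1 : ℂ) else 0) = if j = l then 1 else 0 := by
          simp only [eq_comm]
        rw [← e5]
        linear_combination (av T z j ω l) * e2 + e4
      · simp only [hji, if_false, mul_zero, add_zero]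
        have hjB : j ∉ insert i T := by simp [hji, hj]
        by_cases hli : l = i
        · subst hli
          have : ∀ m, Gr (insert l T) z ω m l = 0 :=
            fun m => Gr_zero_right (Finset.mem_insert_self l T) m
          simp [this, hji]
        · have hlB : l ∉ insert i T := by simp [hli, hl]
          rw [res_eq hz hjB hlB]) k
  rw [h]
  simp

theorem st_sub (hz : z.im ≠ 0) {i : Fin n} (hi : i ∉ T) :
    st T z ω - st (insert i T) z ω = Gr T z ω i i * ∑ k, (av T z i ω k) ^ 2 := by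
  unfold st
  rw [← Finset.sum_sub_distrib, Finset.mul_sum]
  refine Finset.sum_congr rfl fun k _ => ?_
  rw [Gr_update hz hi k k]
  ring

/-- `|G_ii| ‖a‖² ≤ 1/η`. -/
theorem Gr_av_le (hz : z.im ≠ 0) {i : Fin n} (hi : i ∉ T) :
    ‖Gr T z ω i i‖ * ∑ k, ‖av T z i ω k‖ ^ 2 ≤ |z.im|⁻¹ := by
  have h0 : Gr T z ω i i ≠ 0 := by
    intro h
    have := schur (ω := ω) hz hi
    rw [h, zero_mul] at this
    exact zero_ne_one this
  have hpos : 0 < ‖Gr T z ω i i‖ := norm_pos_iff.2 h0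
  have h1 := ward (ω := ω) hz hi
  have h2 : ∑ k, ‖Gr T z ω i k‖ ^ 2 = ‖Gr T z ω i i‖ ^ 2 * ∑ k, ‖av T z i ω k‖ ^ 2 := by
    rw [Finset.mul_sum]
    refine Finset.sum_congr rfl fun k _ => ?_
    rw [Gr_symm i k, Gr_col hz hi k, norm_mul, mul_pow]
  rw [h2] at h1
  have h3 : -(Gr T z ω i i).im / z.im ≤ ‖Gr T z ω i i‖ * |z.im|⁻¹ := by
    calc -(Gr T z ω i i).im / z.im ≤ |-(Gr T z ω i i).im / z.im| := le_abs_self _
      _ = |(Gr T z ω i i).im| * |z.im|⁻¹ := by rw [abs_div, abs_neg, div_eq_mul_inv]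
      _ ≤ ‖Gr T z ω i i‖ * |z.im|⁻¹ :=
        mul_le_mul_of_nonneg_right (Complex.abs_im_le_norm _) (by positivity)
  rw [← h1] at h3
  have h4 : ‖Gr T z ω i i‖ * (‖Gr T z ω i i‖ * ∑ k, ‖av T z i ω k‖ ^ 2) ≤
      ‖Gr T z ω i i‖ * |z.im|⁻¹ := by
    calc _ = ‖Gr T z ω i i‖ ^ 2 * ∑ k, ‖av T z i ω k‖ ^ 2 := by ring
      _ ≤ _ := h3
  exact le_of_mul_le_mul_left h4 hpos

theorem st_sub_le (hz : z.im ≠ 0) {i : Fin n} (hi : i ∉ T) :
    ‖st T z ω - st (insert i T) z ω‖ ≤ |z.im|⁻¹ := by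
  rw [st_sub hz hi, norm_mul]
  refine le_trans ?_ (Gr_av_le (ω := ω) hz hi)
  apply mul_le_mul_of_nonneg_left _ (norm_nonneg _)
  refine (norm_sum_le _ _).trans (le_of_eq ?_)
  refine Finset.sum_congr rfl fun k _ => ?_
  rw [norm_pow]

theorem NN_insert_le (hz : z.im ≠ 0) {i : Fin n} (hi : i ∉ T) :
    NN (insert i T) z ω ≤ NN T z ω + (z.im ^ 2)⁻¹ := by
  have h1 := st_im (T := T) (ω := ω) hz
  have h2 := st_im (T := insert i T) (ω := ω) hz
  have h3 := st_sub_le (ω := ω) hz hi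
  have h4 : z.im * (NN (insert i T) z ω - NN T z ω) =
      (st T z ω - st (insert i T) z ω).im := by
    rw [Complex.sub_im, h1, h2]
    ring
  have h5 : |z.im| * |NN (insert i T) z ω - NN T z ω| ≤ |z.im|⁻¹ := by
    rw [← abs_mul, h4]
    exact (Complex.abs_im_le_norm _).trans h3
  have hp : 0 < |z.im| := abs_pos.2 hz
  have h6 : |NN (insert i T) z ω - NN T z ω| ≤ (z.im ^ 2)⁻¹ := by
    have e : (z.im ^ 2)⁻¹ = |z.im|⁻¹ * |z.im|⁻¹ := by
      rw [← sq_abs, sq, mul_inv]
    rw [e]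
    calc |NN (insert i T) z ω - NN T z ω| =
          |z.im|⁻¹ * (|z.im| * |NN (insert i T) z ω - NN T z ω|) := by
            field_simp
      _ ≤ |z.im|⁻¹ * |z.im|⁻¹ := mul_le_mul_of_nonneg_left h5 (by positivity)
  have := le_abs_self (NN (insert i T) z ω - NN T z ω)
  linarith

theorem xi_sub (hz : z.im ≠ 0) {i j : Fin n} (hij : i ≠ j) :
    xi ∅ z i ω - xi {j} z i ω =
      Gr {i} z ω j j * ((bb z i j ω) ^ 2 - ∑ k, (av {i} z j ω k) ^ 2) := by
  have hj : j ∉ ({i} : Finset (Fin n)) := by simp [Ne.symm hij]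
  have hB : (insert i {j} : Finset (Fin n)) = insert j {i} := Finset.pair_comm i j
  have hE : (insert i ∅ : Finset (Fin n)) = {i} := rfl
  have hst := st_sub (ω := ω) hz hj
  have hbb : ∑ k, ((ω s(i, k) : ℝ) : ℂ) * av {i} z j ω k = bb z i j ω := by
    unfold av bb
    simp only [mul_add, Finset.sum_add_distrib, mul_ite, mul_one, mul_zero,
      Finset.sum_ite_eq', Finset.mem_univ, if_true, Finset.mul_sum]
    rw [hB]
    congr 1
    refine Finset.sum_congr rfl fun k _ => Finset.sum_congr rfl fun l _ => ?_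
    ring
  have hquad : ∑ k, ∑ l, ((ω s(i, k) : ℝ) : ℂ) * Gr {i} z ω k l * ((ω s(i, l) : ℝ) : ℂ) =
      ∑ k, ∑ l, ((ω s(i, k) : ℝ) : ℂ) * Gr (insert j {i}) z ω k l * ((ω s(i, l) : ℝ) : ℂ) +
      Gr {i} z ω j j * (bb z i j ω) ^ 2 := by
    rw [← hbb, sq, Finset.sum_mul_sum, Finset.mul_sum, ← Finset.sum_add_distrib]
    refine Finset.sum_congr rfl fun k _ => ?_
    rw [Finset.mul_sum, ← Finset.sum_add_distrib]
    refine Finset.sum_congr rfl fun l _ => ?_
    rw [Gr_update hz hj k l]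
    ring
  unfold xi
  rw [hB, hE, hquad]
  linear_combination (-1 : ℂ) * hst

theorem EE_eq (hz : z.im ≠ 0) :
    EE z ω = ∑ i, Gr ∅ z ω i i * xi ∅ z i ω - ∑ i, ∑ k, (Gr ∅ z ω i k) ^ 2 := by
  have h : ∀ i : Fin n, Gr ∅ z ω i i * (z - st ∅ z ω) - 1 =
      Gr ∅ z ω i i * xi ∅ z i ω - ∑ k, (Gr ∅ z ω i k) ^ 2 := by
    intro i
    have hi : i ∉ (∅ : Finset (Fin n)) := Finset.notMem_empty i
    have h1 := schur (ω := ω) hz hi
    have h2 := st_sub (ω := ω) hz hi
    have h3 : ∑ k, (Gr ∅ z ω i k) ^ 2 = (Gr ∅ z ω i i) ^ 2 * ∑ k, (av ∅ z i ω k) ^ 2 := by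
      rw [Finset.mul_sum]
      refine Finset.sum_congr rfl fun k _ => ?_
      rw [Gr_symm i k, Gr_col hz hi k, mul_pow]
    rw [h3]
    linear_combination h1 - (Gr ∅ z ω i i) * h2
  unfold EE
  rw [← Finset.sum_sub_distrib, ← Finset.sum_congr rfl fun i _ => h i, Finset.sum_sub_distrib,
    ← Finset.sum_mul]
  simp [st]

theorem AA_diag (hz : z.im ≠ 0) {w : ℂ} (hw : w.im ≠ 0) (p : Sym2 (Fin n) → ℝ × ℝ) (i : Fin n) :
    AA ∅ z w p i i = Gr ∅ z (fX p) i i * Gr ∅ w (fY p) i i * (1 + uu z w i p) := by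
  have hi : i ∉ (∅ : Finset (Fin n)) := Finset.notMem_empty i
  have hE : (insert i ∅ : Finset (Fin n)) = {i} := rfl
  unfold AA
  rw [Matrix.mul_apply]
  have h1 : ∀ k, Gr ∅ z (fX p) i k * Gr ∅ w (fY p) k i =
      Gr ∅ z (fX p) i i * Gr ∅ w (fY p) i i * (av ∅ z i (fX p) k * av ∅ w i (fY p) k) := by
    intro k
    rw [Gr_symm i k, Gr_col hz hi k, Gr_col hw hi k]
    ring
  rw [Finset.sum_congr rfl fun k _ => h1 k, ← Finset.mul_sum]
  congr 1
  -- sum of the products of the vectors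
  have h2 : ∀ k, av ∅ z i (fX p) k * av ∅ w i (fY p) k = (if k = i then 1 else 0) +
      (∑ l, Gr {i} z (fX p) k l * ((fX p s(i, l) : ℝ) : ℂ)) *
        (∑ l, Gr {i} w (fY p) k l * ((fY p s(i, l) : ℝ) : ℂ)) := by
    intro k
    unfold av
    rw [hE]
    by_cases hk : k = i
    · subst hk
      have e1 : ∀ l, Gr {k} z (fX p) k l = 0 := fun l => Gr_zero_left (Finset.mem_singleton_self k) l
      have e2 : ∀ l, Gr {k} w (fY p) k l = 0 := fun l => Gr_zero_left (Finset.mem_singleton_self k) l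
      simp [e1, e2]
    · simp [hk]
  rw [Finset.sum_congr rfl fun k _ => h2 k, Finset.sum_add_distrib]
  simp only [Finset.sum_ite_eq', Finset.mem_univ, if_true]
  congr 1
  unfold uu AA
  simp only [Matrix.mul_apply]
  have h3 : ∀ k, (∑ l, Gr {i} z (fX p) k l * ((fX p s(i, l) : ℝ) : ℂ)) *
        (∑ l, Gr {i} w (fY p) k l * ((fY p s(i, l) : ℝ) : ℂ)) =
      ∑ l, ∑ m, ((fX p s(i, l) : ℝ) : ℂ) * (Gr {i} z (fX p) l k * Gr {i} w (fY p) k m) *
        ((fY p s(i, m) : ℝ) : ℂ) := by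
    intro k
    rw [Finset.sum_mul_sum]
    refine Finset.sum_congr rfl fun l _ => Finset.sum_congr rfl fun m _ => ?_
    rw [Gr_symm k l]
    ring
  rw [Finset.sum_congr rfl fun k _ => h3 k, Finset.sum_comm]
  refine Finset.sum_congr rfl fun l _ => ?_
  rw [Finset.sum_comm]
  refine Finset.sum_congr rfl fun m _ => ?_
  rw [Finset.mul_sum, Finset.sum_mul]

end Lin

end Pool.Agent.Eig
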