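import Pool.Agent.Work.MP_1c1c8a_pr.Lin2

/-! # Linear algebra, part 3: spectral decomposition -/

namespace Pool.Agent.Eig

open MeasureTheory Filter Topology Matrix

section Lin

variable {n : ℕ} {T : Finset (Fin n)} {z : ℂ} {ω : Ent n}

/-- real spectral decomposition -/
theorem spec_core (ω : Ent n) : ∃ (ev : Fin n → ℝ) (U : Matrix (Fin n) (Fin n) ℝ),
    Uᵀ * U = 1 ∧ U * Uᵀ = 1 ∧ symMat ω = U * diagonal ev * Uᵀ := by
  have hA : (symMat ω).IsHermitian := by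
    ext i j
    simp only [conjTranspose_apply, symMat, of_apply, star_trivial]
    rw [Sym2.eq_swap]
  refine ⟨hA.eigenvalues, (hA.eigenvectorUnitary : Matrix (Fin n) (Fin n) ℝ), ?_, ?_, ?_⟩
  · have := Unitary.coe_star_mul_self hA.eigenvectorUnitary
    simpa [star_eq_conjTranspose, conjTranspose_eq_transpose_of_trivial] using this
  · have := Unitary.coe_mul_star_self hA.eigenvectorUnitary
    simpa [star_eq_conjTranspose, conjTranspose_eq_transpose_of_trivial] using this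
  · have := hA.spectral_theorem
    rw [Unitary.conjStarAlgAut_apply] at this
    simpa [star_eq_conjTranspose, conjTranspose_eq_transpose_of_trivial] using this

/-- entries of the resolvent -/
theorem Gr_spec {ev : Fin n → ℝ} {U : Matrix (Fin n) (Fin n) ℝ} (h1 : Uᵀ * U = 1)
    (h2 : U * Uᵀ = 1) (h3 : symMat ω = U * diagonal ev * Uᵀ) (hz : z.im ≠ 0) (i j : Fin n) :
    Gr ∅ z ω i j = ∑ k, ((U i k * U j k : ℝ) : ℂ) * (z - ev k)⁻¹ := by
  have hne : ∀ k, z - (ev k : ℂ) ≠ 0 := by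
    intro k h
    apply hz
    have := congrArg Complex.im h
    simpa using this
  set V : Matrix (Fin n) (Fin n) ℂ := U.map Complex.ofReal with hV
  have hV1 : Vᵀ * V = 1 := by
    have := congrArg (fun M : Matrix (Fin n) (Fin n) ℝ => M.map Complex.ofRealHom) h1
    simp only [Matrix.map_mul, Matrix.map_one Complex.ofRealHom (map_zero _) (map_one _)] at this
    exact this
  have hV2 : V * Vᵀ = 1 := by
    have := congrArg (fun M : Matrix (Fin n) (Fin n) ℝ => M.map Complex.ofRealHom) h2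
    simp only [Matrix.map_mul, Matrix.map_one Complex.ofRealHom (map_zero _) (map_one _)] at this
    exact this
  have hcut : cutM ∅ ω = V * diagonal (fun k => (ev k : ℂ)) * Vᵀ := by
    have := congrArg (fun M : Matrix (Fin n) (Fin n) ℝ => M.map Complex.ofRealHom) h3
    simp only [Matrix.map_mul, diagonal_map (map_zero Complex.ofRealHom)] at this
    have h4 : cutM ∅ ω = (symMat ω).map Complex.ofRealHom := by
      ext a b
      simp [cutM, symMat]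
    rw [h4, this]
    rfl
  have hinv : (z • (1 : Matrix (Fin n) (Fin n) ℂ) - cutM ∅ ω)⁻¹ =
      V * diagonal (fun k => (z - ev k)⁻¹) * Vᵀ := by
    apply Matrix.inv_eq_right_inv
    have h5 : z • (1 : Matrix (Fin n) (Fin n) ℂ) - cutM ∅ ω =
        V * diagonal (fun k => z - ev k) * Vᵀ := by
      have h6 : diagonal (fun k => z - (ev k : ℂ)) =
          z • (1 : Matrix (Fin n) (Fin n) ℂ) - diagonal (fun k => (ev k : ℂ)) := by
        rw [smul_one_eq_diagonal, diagonal_sub]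
      rw [h6, Matrix.mul_sub, Matrix.sub_mul, ← hcut, Matrix.mul_smul, Matrix.mul_one,
        Matrix.smul_mul, hV2]
    rw [h5]
    calc V * diagonal (fun k => z - (ev k : ℂ)) * Vᵀ *
          (V * diagonal (fun k => (z - (ev k : ℂ))⁻¹) * Vᵀ)
        = V * (diagonal (fun k => z - (ev k : ℂ)) * (Vᵀ * V) *
            diagonal (fun k => (z - (ev k : ℂ))⁻¹)) * Vᵀ := by
          simp only [Matrix.mul_assoc]
      _ = V * 1 * Vᵀ := by
          rw [hV1, Matrix.mul_one, diagonal_mul_diagonal]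
          congr 2
          rw [← diagonal_one]
          congr 1
          funext k
          exact mul_inv_cancel₀ (hne k)
      _ = 1 := by rw [Matrix.mul_one, hV2]
  have h7 : Gr ∅ z ω i j = ((z • (1 : Matrix (Fin n) (Fin n) ℂ) - cutM ∅ ω)⁻¹) i j := by
    simp [Gr]
  rw [h7, hinv, Matrix.mul_apply]
  refine Finset.sum_congr rfl fun k _ => ?_
  rw [mul_diagonal, transpose_apply, hV, Matrix.map_apply, Matrix.map_apply]
  push_cast
  ring

theorem orth_col {U : Matrix (Fin n) (Fin n) ℝ} (h1 : Uᵀ * U = 1) (k l : Fin n) :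
    ∑ i, U i k * U i l = if k = l then 1 else 0 := by
  have := congrFun (congrFun h1 k) l
  rw [Matrix.mul_apply, Matrix.one_apply] at this
  simpa [transpose_apply] using this

theorem spec (ω : Ent n) : ∃ ev : Fin n → ℝ,
    (∀ z : ℂ, z.im ≠ 0 → st ∅ z ω = ∑ i, (z - ev i)⁻¹ ∧
      NN ∅ z ω = ∑ i, (‖z - ev i‖ ^ 2)⁻¹) ∧
    ∀ x : ℝ, IsEig ω x ↔ ∃ i, ev i = x := by
  obtain ⟨ev, U, h1, h2, h3⟩ := spec_core ω
  refine ⟨ev, fun z hz => ⟨?_, ?_⟩, fun x => ⟨?_, ?_⟩⟩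
  · unfold st
    simp only [Gr_spec h1 h2 h3 hz]
    rw [Finset.sum_comm]
    refine Finset.sum_congr rfl fun k _ => ?_
    rw [← Finset.sum_mul, ← Complex.ofReal_sum, orth_col h1]
    simp
  · unfold NN
    have key : ∀ i, ∑ j, ‖Gr ∅ z ω i j‖ ^ 2 = ∑ k, U i k * U i k * (‖z - ev k‖ ^ 2)⁻¹ := by
      intro i
      have h4 : ((∑ j, ‖Gr ∅ z ω i j‖ ^ 2 : ℝ) : ℂ) =
          ((∑ k, U i k * U i k * (‖z - ev k‖ ^ 2)⁻¹ : ℝ) : ℂ) := by
        push_cast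
        have h5 : ∀ j, ((‖Gr ∅ z ω i j‖ : ℂ)) ^ 2 = ∑ k, ∑ l,
            ((U i k * U i l : ℝ) : ℂ) * ((z - ev k)⁻¹ * (starRingEnd ℂ) ((z - ev l)⁻¹)) *
              ((U j k * U j l : ℝ) : ℂ) := by
          intro j
          rw [← Complex.mul_conj', Gr_spec h1 h2 h3 hz, map_sum, Finset.sum_mul_sum]
          refine Finset.sum_congr rfl fun k _ => Finset.sum_congr rfl fun l _ => ?_
          rw [map_mul, Complex.conj_ofReal]
          push_cast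
          ring
        simp only [h5]
        rw [Finset.sum_comm]
        refine Finset.sum_congr rfl fun k _ => ?_
        rw [Finset.sum_comm]
        simp only [← Finset.mul_sum, ← Complex.ofReal_sum, orth_col h1]
        rw [Finset.sum_eq_single k]
        · rw [if_pos rfl, Complex.mul_conj', norm_inv]
          push_cast
          rw [inv_pow]
          ring
        · intro l _ hl
          rw [if_neg (Ne.symm hl)]
          simp
        · intro h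
          exact absurd (Finset.mem_univ k) h
      exact_mod_cast h4
    simp only [key]
    rw [Finset.sum_comm]
    refine Finset.sum_congr rfl fun k _ => ?_
    rw [← Finset.sum_mul, orth_col h1]
    simp
  · rintro ⟨v, hv, hvx⟩
    have hw : Uᵀ *ᵥ v ≠ 0 := by
      intro h
      apply hv
      have : U *ᵥ (Uᵀ *ᵥ v) = v := by rw [mulVec_mulVec, h2, one_mulVec]
      rw [← this, h, mulVec_zero]
    have hD : diagonal ev *ᵥ (Uᵀ *ᵥ v) = x • (Uᵀ *ᵥ v) := by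
      have h4 : Uᵀ *ᵥ (symMat ω *ᵥ v) = diagonal ev *ᵥ (Uᵀ *ᵥ v) := by
        rw [h3, mulVec_mulVec, mulVec_mulVec, ← Matrix.mul_assoc, ← Matrix.mul_assoc, h1,
          Matrix.one_mul]
      rw [← h4, hvx, mulVec_smul]
    obtain ⟨k, hk⟩ : ∃ k, (Uᵀ *ᵥ v) k ≠ 0 := by
      by_contra hcon
      push Not at hcon
      exact hw (funext hcon)
    refine ⟨k, ?_⟩
    have h5 := congrFun hD k
    rw [mulVec_diagonal, Pi.smul_apply, smul_eq_mul] at h5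
    exact mul_right_cancel₀ hk h5
  · rintro ⟨k, rfl⟩
    refine ⟨U *ᵥ Pi.single k 1, ?_, ?_⟩
    · intro h
      have h4 : Uᵀ *ᵥ (U *ᵥ Pi.single k 1) = (Pi.single k 1 : Fin n → ℝ) := by
        rw [mulVec_mulVec, h1, one_mulVec]
      rw [h, mulVec_zero] at h4
      have := congrFun h4 k
      simp at this
    · rw [h3, mulVec_mulVec, Matrix.mul_assoc, Matrix.mul_assoc, h1, Matrix.mul_one,
        ← mulVec_mulVec, ← mulVec_smul]
      congr 1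
      ext i
      rw [mulVec_diagonal]
      by_cases hik : i = k
      · subst hik; simp
      · simp [hik]

/-- imaginary part of the resolvent -/
theorem Gr_im {ev : Fin n → ℝ} {U : Matrix (Fin n) (Fin n) ℝ} (h1 : Uᵀ * U = 1)
    (h2 : U * Uᵀ = 1) (h3 : symMat ω = U * diagonal ev * Uᵀ) (hz : z.im ≠ 0) (i j : Fin n) :
    (Gr ∅ z ω i j).im = ∑ k, U i k * U j k * (-(z.im * (‖z - ev k‖ ^ 2)⁻¹)) := by
  rw [Gr_spec h1 h2 h3 hz, Complex.im_sum]
  refine Finset.sum_congr rfl fun k _ => ?_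
  rw [Complex.im_ofReal_mul, Complex.inv_im, Complex.normSq_eq_norm_sq]
  congr 1
  simp only [Complex.sub_im, Complex.ofReal_im, sub_zero]
  ring

theorem im_im_eq {ev ev' : Fin n → ℝ} {U U' : Matrix (Fin n) (Fin n) ℝ} {ω ω' : Ent n}
    (h1 : Uᵀ * U = 1)
    (h2 : U * Uᵀ = 1) (h3 : symMat ω = U * diagonal ev * Uᵀ) (h1' : U'ᵀ * U' = 1)
    (h2' : U' * U'ᵀ = 1) (h3' : symMat ω' = U' * diagonal ev' * U'ᵀ) (hz : z.im ≠ 0) :
    ∑ i, ∑ j, (Gr ∅ z ω i j).im * (Gr ∅ z ω' i j).im =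
      ∑ k, ∑ l, (z.im * (‖z - ev k‖ ^ 2)⁻¹) * (z.im * (‖z - ev' l‖ ^ 2)⁻¹) *
        (∑ i, U i k * U' i l) ^ 2 := by
  have h4 : ∀ i j, (Gr ∅ z ω i j).im * (Gr ∅ z ω' i j).im =
      ∑ k, ∑ l, (z.im * (‖z - ev k‖ ^ 2)⁻¹) * (z.im * (‖z - ev' l‖ ^ 2)⁻¹) *
        ((U i k * U' i l) * (U j k * U' j l)) := by
    intro i j
    rw [Gr_im h1 h2 h3 hz, Gr_im h1' h2' h3' hz, Finset.sum_mul_sum]
    refine Finset.sum_congr rfl fun k _ => Finset.sum_congr rfl fun l _ => ?_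
    ring
  simp only [h4]
  calc ∑ i, ∑ j, ∑ k, ∑ l, (z.im * (‖z - ev k‖ ^ 2)⁻¹) * (z.im * (‖z - ev' l‖ ^ 2)⁻¹) *
        ((U i k * U' i l) * (U j k * U' j l))
      = ∑ i, ∑ k, ∑ j, ∑ l, (z.im * (‖z - ev k‖ ^ 2)⁻¹) * (z.im * (‖z - ev' l‖ ^ 2)⁻¹) *
        ((U i k * U' i l) * (U j k * U' j l)) :=
        Finset.sum_congr rfl fun i _ => Finset.sum_comm
    _ = ∑ k, ∑ i, ∑ j, ∑ l, (z.im * (‖z - ev k‖ ^ 2)⁻¹) * (z.im * (‖z - ev' l‖ ^ 2)⁻¹) *
        ((U i k * U' i l) * (U j k * U' j l)) := Finset.sum_comm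
    _ = ∑ k, ∑ i, ∑ l, ∑ j, (z.im * (‖z - ev k‖ ^ 2)⁻¹) * (z.im * (‖z - ev' l‖ ^ 2)⁻¹) *
        ((U i k * U' i l) * (U j k * U' j l)) :=
        Finset.sum_congr rfl fun k _ => Finset.sum_congr rfl fun i _ => Finset.sum_comm
    _ = ∑ k, ∑ l, ∑ i, ∑ j, (z.im * (‖z - ev k‖ ^ 2)⁻¹) * (z.im * (‖z - ev' l‖ ^ 2)⁻¹) *
        ((U i k * U' i l) * (U j k * U' j l)) :=
        Finset.sum_congr rfl fun k _ => Finset.sum_comm
    _ = _ := by
        refine Finset.sum_congr rfl fun k _ => Finset.sum_congr rfl fun l _ => ?_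
        rw [sq (∑ i, U i k * U' i l), Finset.sum_mul_sum, Finset.mul_sum]
        refine Finset.sum_congr rfl fun i _ => ?_
        rw [Finset.mul_sum]

/-- coordinates of an eigenvector -/
theorem coord_eig {ev : Fin n → ℝ} {U : Matrix (Fin n) (Fin n) ℝ} (h1 : Uᵀ * U = 1)
    (h2 : U * Uᵀ = 1) (h3 : symMat ω = U * diagonal ev * Uᵀ) {v : Fin n → ℝ} {c : ℝ}
    (hv : v ⬝ᵥ v = 1) (h : symMat ω *ᵥ v = c • v) :
    (∑ k, (Uᵀ *ᵥ v) k ^ 2 = 1) ∧ (∀ i, v i = ∑ k, U i k * (Uᵀ *ᵥ v) k) ∧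
      ∀ k, (Uᵀ *ᵥ v) k ≠ 0 → ev k = c := by
  have hvU : U *ᵥ (Uᵀ *ᵥ v) = v := by rw [mulVec_mulVec, h2, one_mulVec]
  refine ⟨?_, ?_, ?_⟩
  · have h4 : (Uᵀ *ᵥ v) ⬝ᵥ (Uᵀ *ᵥ v) = v ⬝ᵥ v := by
      rw [Matrix.dotProduct_mulVec, Matrix.vecMul_transpose, hvU]
    rw [← hv, ← h4]
    simp only [dotProduct, sq]
  · intro i
    conv_lhs => rw [← hvU]
    rfl
  · intro k hk
    have hD : diagonal ev *ᵥ (Uᵀ *ᵥ v) = c • (Uᵀ *ᵥ v) := by
      have h4 : Uᵀ *ᵥ (symMat ω *ᵥ v) = diagonal ev *ᵥ (Uᵀ *ᵥ v) := by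
        rw [h3, mulVec_mulVec, mulVec_mulVec, ← Matrix.mul_assoc, ← Matrix.mul_assoc, h1,
          Matrix.one_mul]
      rw [← h4, h, mulVec_smul]
    have h5 := congrFun hD k
    rw [mulVec_diagonal, Pi.smul_apply, smul_eq_mul] at h5
    exact mul_right_cancel₀ hk h5

/-- Unit eigenvectors close to the energy `E` have overlap controlled by the resolvents. -/
theorem overlap_det {E η c c' : ℝ} (hη : 0 < η) (ω ω' : Ent n) (v v' : Fin n → ℝ)
    (hv : v ⬝ᵥ v = 1) (hv' : v' ⬝ᵥ v' = 1) (h : symMat ω *ᵥ v = c • v)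
    (h' : symMat ω' *ᵥ v' = c' • v') (hc : |c - E| ≤ η) (hc' : |c' - E| ≤ η) :
    (v ⬝ᵥ v') ^ 2 ≤ 4 * η ^ 2 *
      ∑ i, ∑ j, (Gr ∅ (⟨E, η⟩ : ℂ) ω i j).im * (Gr ∅ (⟨E, η⟩ : ℂ) ω' i j).im := by
  obtain ⟨ev, U, h1, h2, h3⟩ := spec_core ω
  obtain ⟨ev', U', h1', h2', h3'⟩ := spec_core ω'
  have hz : (⟨E, η⟩ : ℂ).im ≠ 0 := hη.ne'
  rw [im_im_eq h1 h2 h3 h1' h2' h3' hz]
  obtain ⟨ha, hva, hae⟩ := coord_eig h1 h2 h3 hv h
  obtain ⟨hb, hvb, hbe⟩ := coord_eig h1' h2' h3' hv' h'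
  set α := Uᵀ *ᵥ v with hα
  set β := U'ᵀ *ᵥ v' with hβ
  -- lower bound for the weights
  have hq : ∀ x : ℝ, |x - E| ≤ η → (2 * η)⁻¹ ≤ η * (‖(⟨E, η⟩ : ℂ) - (x : ℂ)‖ ^ 2)⁻¹ := by
    intro x hx
    have h5 : ‖(⟨E, η⟩ : ℂ) - (x : ℂ)‖ ^ 2 = (E - x) ^ 2 + η ^ 2 := by
      rw [← Complex.normSq_eq_norm_sq, Complex.normSq_apply]
      simp
      ring
    rw [h5]
    have h6 : (E - x) ^ 2 ≤ η ^ 2 := by
      rw [← sq_abs (E - x), abs_sub_comm]
      exact pow_le_pow_left₀ (abs_nonneg _) hx 2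
    have h7 : 0 < (E - x) ^ 2 + η ^ 2 := by positivity
    rw [← div_eq_mul_inv, le_div_iff₀ h7, inv_mul_le_iff₀ (by positivity)]
    nlinarith
  have hq0 : ∀ x : ℝ, 0 ≤ η * (‖(⟨E, η⟩ : ℂ) - (x : ℂ)‖ ^ 2)⁻¹ := fun x => by positivity
  -- the overlap in coordinates
  have hvv : v ⬝ᵥ v' = ∑ p : Fin n × Fin n, (α p.1 * β p.2) *
      ((if α p.1 ≠ 0 ∧ β p.2 ≠ 0 then 1 else 0) * ∑ i, U i p.1 * U' i p.2) := by
    have h8 : v ⬝ᵥ v' = ∑ k, ∑ l, α k * β l * ∑ i, U i k * U' i l := by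
      unfold dotProduct
      have h9 : ∀ i, v i * v' i = ∑ k, ∑ l, α k * β l * (U i k * U' i l) := by
        intro i
        rw [hva i, hvb i, Finset.sum_mul_sum]
        refine Finset.sum_congr rfl fun k _ => Finset.sum_congr rfl fun l _ => ?_
        ring
      simp only [h9]
      rw [Finset.sum_comm]
      refine Finset.sum_congr rfl fun k _ => ?_
      rw [Finset.sum_comm]
      refine Finset.sum_congr rfl fun l _ => ?_
      rw [Finset.mul_sum]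
    rw [h8, ← Finset.univ_product_univ, Finset.sum_product]
    refine Finset.sum_congr rfl fun k _ => Finset.sum_congr rfl fun l _ => ?_
    by_cases hk : α k = 0
    · simp [hk]
    · by_cases hl : β l = 0
      · simp [hl]
      · simp [hk, hl]
  have hsum1 : ∑ p : Fin n × Fin n, (α p.1 * β p.2) ^ 2 = 1 := by
    rw [← Finset.univ_product_univ, Finset.sum_product]
    simp only [mul_pow]
    simp only [← Finset.mul_sum, hb, mul_one, ha]
  have hfin : ∑ p : Fin n × Fin n, ((if α p.1 ≠ 0 ∧ β p.2 ≠ 0 then 1 else 0) *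
      ∑ i, U i p.1 * U' i p.2) ^ 2 ≤ 4 * η ^ 2 *
      ∑ k, ∑ l, (η * (‖(⟨E, η⟩ : ℂ) - ev k‖ ^ 2)⁻¹) * (η * (‖(⟨E, η⟩ : ℂ) - ev' l‖ ^ 2)⁻¹) *
        (∑ i, U i k * U' i l) ^ 2 := by
    rw [← Finset.univ_product_univ, Finset.sum_product, Finset.mul_sum]
    refine Finset.sum_le_sum fun k _ => ?_
    rw [Finset.mul_sum]
    refine Finset.sum_le_sum fun l _ => ?_
    have hnn : 0 ≤ (∑ i, U i k * U' i l) ^ 2 := sq_nonneg _
    by_cases hkl : α k ≠ 0 ∧ β l ≠ 0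
    · rw [if_pos hkl, one_mul]
      have h10 := hq (ev k) (by rw [hae k hkl.1]; exact hc)
      have h11 := hq (ev' l) (by rw [hbe l hkl.2]; exact hc')
      have h12 : (2 * η)⁻¹ * (2 * η)⁻¹ ≤
          (η * (‖(⟨E, η⟩ : ℂ) - ev k‖ ^ 2)⁻¹) * (η * (‖(⟨E, η⟩ : ℂ) - ev' l‖ ^ 2)⁻¹) :=
        mul_le_mul h10 h11 (by positivity) (hq0 _)
      have h13 : 1 ≤ 4 * η ^ 2 * ((η * (‖(⟨E, η⟩ : ℂ) - ev k‖ ^ 2)⁻¹) *
          (η * (‖(⟨E, η⟩ : ℂ) - ev' l‖ ^ 2)⁻¹)) := by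
        have h14 : 4 * η ^ 2 * ((2 * η)⁻¹ * (2 * η)⁻¹) = 1 := by
          field_simp
          norm_num
        rw [← h14]
        exact mul_le_mul_of_nonneg_left h12 (by positivity)
      calc (∑ i, U i k * U' i l) ^ 2 = 1 * (∑ i, U i k * U' i l) ^ 2 := (one_mul _).symm
        _ ≤ (4 * η ^ 2 * ((η * (‖(⟨E, η⟩ : ℂ) - ev k‖ ^ 2)⁻¹) *
          (η * (‖(⟨E, η⟩ : ℂ) - ev' l‖ ^ 2)⁻¹))) * (∑ i, U i k * U' i l) ^ 2 :=
            mul_le_mul_of_nonneg_right h13 hnn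
        _ = _ := by ring
    · rw [if_neg hkl, zero_mul, zero_pow two_ne_zero]
      have := hq0 (ev k)
      have := hq0 (ev' l)
      positivity
  calc (v ⬝ᵥ v') ^ 2 = (∑ p : Fin n × Fin n, (α p.1 * β p.2) *
      ((if α p.1 ≠ 0 ∧ β p.2 ≠ 0 then 1 else 0) * ∑ i, U i p.1 * U' i p.2)) ^ 2 := by rw [hvv]
    _ ≤ (∑ p : Fin n × Fin n, (α p.1 * β p.2) ^ 2) *
        ∑ p : Fin n × Fin n, ((if α p.1 ≠ 0 ∧ β p.2 ≠ 0 then 1 else 0) *
          ∑ i, U i p.1 * U' i p.2) ^ 2 := Finset.sum_mul_sq_le_sq_mul_sq _ _ _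
    _ ≤ _ := by rw [hsum1, one_mul]; exact hfin

theorem im_im_nonneg {z : ℂ} (hz : z.im ≠ 0) (ω ω' : Ent n) :
    0 ≤ ∑ i, ∑ j, (Gr ∅ z ω i j).im * (Gr ∅ z ω' i j).im := by
  obtain ⟨ev, U, h1, h2, h3⟩ := spec_core ω
  obtain ⟨ev', U', h1', h2', h3'⟩ := spec_core ω'
  rw [im_im_eq h1 h2 h3 h1' h2' h3' hz]
  refine Finset.sum_nonneg fun k _ => Finset.sum_nonneg fun l _ => ?_
  have h4 : (z.im * (‖z - ev k‖ ^ 2)⁻¹) * (z.im * (‖z - ev' l‖ ^ 2)⁻¹) =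
      z.im ^ 2 * ((‖z - ev k‖ ^ 2)⁻¹ * (‖z - ev' l‖ ^ 2)⁻¹) := by ring
  rw [h4]
  positivity

end Lin

end Pool.Agent.Eig
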