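import Pool.Agent.Work.MP_1c1c8a_pr.Center
import Pool.Agent.Work.MP_1c1c8a_pr.Lin3
import Pool.Agent.Work.MP_1c1c8a_pr.Meas

/-! # Lower bound of the largest eigenvalue -/

namespace Pool.Agent.Eig

open MeasureTheory Filter Topology Matrix

namespace LowEdgeAux

/-- Markov's inequality for `‖s - g‖²`. -/
lemma cheb {n : ℕ} {b : ℝ} {μ : Sym2 (Fin n) → Measure ℝ} (hμ : ∀ e, GoodLaw b (μ e))
    {z g : ℂ} (hz : z.im ≠ 0) {a M : ℝ} (ha : 0 < a)
    (hM : ∫ ω, ‖st ∅ z ω - g‖ ^ 2 ∂(Measure.pi μ) ≤ M) :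
    (Measure.pi μ).real {ω | a ≤ ‖st ∅ z ω - g‖} ≤ M / a ^ 2 := by
  have : ∀ e, IsProbabilityMeasure (μ e) := fun e => (hμ e).prob
  have hi : Integrable (fun ω : Ent n => ‖st ∅ z ω - g‖ ^ 2) (Measure.pi μ) :=
    PB.int hμ (PBW.pow (PBW.norm (PBW.sub (PB.st hz) (PBW.const one_le_wt g))) 2)
  have h := mul_meas_ge_le_integral_of_nonneg (μ := Measure.pi μ)
    (Eventually.of_forall fun ω : Ent n => sq_nonneg ‖st ∅ z ω - g‖) hi (a ^ 2)
  rw [le_div_iff₀ (by positivity), mul_comm]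
  refine le_trans ?_ (h.trans hM)
  refine mul_le_mul_of_nonneg_left ?_ (by positivity)
  refine measureReal_mono ?_
  intro ω hω
  exact pow_le_pow_left₀ ha.le hω 2

/-- Comparison of the Poisson kernels at heights `η` and `16 η`. -/
lemma pk {d η : ℝ} (hη : 0 < η) (hd : 16 * η < d) :
    η / (d ^ 2 + η ^ 2) ≤ (1 / 8) * (16 * η / (d ^ 2 + (16 * η) ^ 2)) := by
  have h1 : (16 * η) ^ 2 < d ^ 2 := pow_lt_pow_left₀ hd (by positivity) (by norm_num)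
  rw [div_le_iff₀ (by positivity)]
  have h2 : (1 / 8) * (16 * η / (d ^ 2 + (16 * η) ^ 2)) * (d ^ 2 + η ^ 2) =
      (2 * η * (d ^ 2 + η ^ 2)) / (d ^ 2 + (16 * η) ^ 2) := by
    field_simp; ring
  rw [h2, le_div_iff₀ (by positivity)]
  nlinarith [mul_pos hη hη]

lemma inv_im (E η x : ℝ) :
    (((⟨E, η⟩ : ℂ) - (x : ℂ))⁻¹).im = -(η / ((E - x) ^ 2 + η ^ 2)) := by
  rw [Complex.inv_im, Complex.normSq_apply]
  simp
  ring

end LowEdgeAux

open LowEdgeAux in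
theorem lower_edge (b : ℝ) : ∃ K0 C : ℝ, 1 ≤ K0 ∧ 0 ≤ C ∧ ∀ K ≥ K0, ∃ n0 : ℕ, ∀ n ≥ n0,
    ∀ μ : Sym2 (Fin n) → Measure ℝ, (∀ e, GoodLaw b (μ e)) →
    (Measure.pi μ).real {ω | ∀ x, IsEig ω x →
      x < 2 * √n - 16 * K * (n : ℝ) ^ (-(1 : ℝ) / 6)} ≤ C / K ^ 3 := by
  obtain ⟨K0, C, hK0, hC, H⟩ := center_bound b
  refine ⟨K0, 300 * C, hK0, by positivity, fun K hK => ?_⟩
  have hK1 : 1 ≤ K := hK0.trans hK
  have hK16 : 16 * K ≥ K0 := by linarith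
  obtain ⟨n1, H1⟩ := H K hK
  obtain ⟨n2, H2⟩ := H (16 * K) hK16
  refine ⟨max (max n1 n2) (⌈(50 * K) ^ 2⌉₊ + 1), fun n hn μ hμ => ?_⟩
  have : ∀ e, IsProbabilityMeasure (μ e) := fun e => (hμ e).prob
  have hn1 : n ≥ n1 := le_trans (le_trans (le_max_left _ _) (le_max_left _ _)) hn
  have hn2 : n ≥ n2 := le_trans (le_trans (le_max_right _ _) (le_max_left _ _)) hn
  have hn3 : ⌈(50 * K) ^ 2⌉₊ + 1 ≤ n := le_trans (le_max_right _ _) hn
  have hn4 : (50 * K) ^ 2 ≤ (n : ℝ) := by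
    refine (Nat.le_ceil _).trans ?_
    exact_mod_cast (Nat.le_succ _).trans hn3
  have hnp : (0 : ℝ) < n := lt_of_lt_of_le (by positivity) hn4
  have hnone : (1 : ℝ) ≤ n := le_trans (by nlinarith) hn4
  have hsq : 50 * K ≤ √n := Real.le_sqrt_of_sq_le hn4
  have hsqp : 0 < √(n : ℝ) := Real.sqrt_pos.2 hnp
  -- the heights
  set t : ℝ := (n : ℝ) ^ (-(1 : ℝ) / 6) with ht
  have htp : 0 < t := Real.rpow_pos_of_pos hnp _
  have ht1 : t ≤ 1 := by
    rw [ht]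
    exact Real.rpow_le_one_of_one_le_of_nonpos hnone (by norm_num)
  set η : ℝ := K * t with hη
  have hηp : 0 < η := by positivity
  have hηs : 50 * η ≤ √n := by
    have : η ≤ K := by
      rw [hη]; nlinarith
    linarith
  have hz1 : zc K n = ⟨2 * √n, η⟩ := rfl
  have hz2 : zc (16 * K) n = ⟨2 * √n, 16 * η⟩ := by
    unfold zc
    rw [← ht, hη]
    congr 1
    ring
  -- n^(1/3) = sqrt n * t
  have hn13 : (n : ℝ) ^ ((1 : ℝ) / 3) = √n * t := by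
    rw [ht, Real.sqrt_eq_rpow, ← Real.rpow_add hnp]
    norm_num
  set a : ℝ := √(√n * η / 2) with ha
  have ha2 : a ^ 2 = √n * η / 2 := Real.sq_sqrt (by positivity)
  have hap : 0 < a := Real.sqrt_pos.2 (by positivity)
  have ha4 : √(√n * (16 * η) / 2) = 4 * a := by
    rw [show √n * (16 * η) / 2 = (4 : ℝ) ^ 2 * (√n * η / 2) by ring, Real.sqrt_mul (by norm_num),
      Real.sqrt_sq (by norm_num)]
  have hη_a : η / 2 ≤ a / 10 := by
    have h1 : (5 * η) ^ 2 ≤ a ^ 2 := by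
      rw [ha2]; nlinarith
    have := (pow_le_pow_iff_left₀ (by positivity) hap.le (by norm_num)).1 h1
    linarith
  obtain ⟨g1, hg1, hg1i⟩ := exists_root hnp (z := zc K n) (by rw [hz1]; exact hηp)
  obtain ⟨g2, hg2, hg2i⟩ := exists_root hnp (z := zc (16 * K) n) (by rw [hz2]; simp; exact hηp)
  have c1 := root_center hnp hηp hz1 hg1 hg1i
  have c2 := root_center hnp (by positivity) hz2 hg2 hg2i
  rw [← ha] at c1
  rw [ha4] at c2
  have e1 := (H1 n hn1 μ hμ g1 hg1 hg1i).2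
  have e2 := (H2 n hn2 μ hμ g2 hg2 hg2i).2
  have hz1i : (zc K n).im ≠ 0 := by rw [hz1]; exact hηp.ne'
  have hz2i : (zc (16 * K) n).im ≠ 0 := by rw [hz2]; simp; exact hηp.ne'
  have p1 := cheb hμ hz1i (a := a / 10) (by positivity) e1
  have p2 := cheb hμ hz2i (a := 4 * a / 10) (by positivity) e2
  have hKp : 0 < K := by linarith
  have b1 : C * (n : ℝ) ^ ((1 : ℝ) / 3) / K ^ 2 / (a / 10) ^ 2 = 200 * C / K ^ 3 := by
    rw [hn13, div_pow, ha2, hη]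
    field_simp
    ring
  have b2 : C * (n : ℝ) ^ ((1 : ℝ) / 3) / (16 * K) ^ 2 / (4 * a / 10) ^ 2 ≤ 100 * C / K ^ 3 := by
    have : C * (n : ℝ) ^ ((1 : ℝ) / 3) / (16 * K) ^ 2 / (4 * a / 10) ^ 2 =
        (200 / (256 * 16)) * C / K ^ 3 := by
      rw [hn13, div_pow, mul_pow 4 a 2, ha2, hη]
      field_simp
      ring
    rw [this]
    refine div_le_div_of_nonneg_right ?_ (by positivity)
    nlinarith
  have hsub : {ω : Ent n | ∀ x, IsEig ω x → x < 2 * √n - 16 * K * t} ⊆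
      {ω | a / 10 ≤ ‖st ∅ (zc K n) ω - g1‖} ∪
        {ω | 4 * a / 10 ≤ ‖st ∅ (zc (16 * K) n) ω - g2‖} := by
    intro ω hω
    by_contra hcon
    rw [Set.mem_union, not_or] at hcon
    simp only [Set.mem_ofPred_eq, not_le] at hcon hω
    obtain ⟨h1, h2⟩ := hcon
    obtain ⟨ev, hev, hiff⟩ := spec ω
    have hlt : ∀ i, 16 * η < 2 * √n - ev i := by
      intro i
      have := hω (ev i) ((hiff _).2 ⟨i, rfl⟩)
      rw [hη]; linarith
    have hs1 : -(st ∅ (zc K n) ω).im = ∑ i, η / ((2 * √n - ev i) ^ 2 + η ^ 2) := by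
      rw [(hev _ hz1i).1, hz1, Complex.im_sum, ← Finset.sum_neg_distrib]
      refine Finset.sum_congr rfl fun i _ => ?_
      rw [inv_im, neg_neg]
    have hs2 : -(st ∅ (zc (16 * K) n) ω).im =
        ∑ i, 16 * η / ((2 * √n - ev i) ^ 2 + (16 * η) ^ 2) := by
      rw [(hev _ hz2i).1, hz2, Complex.im_sum, ← Finset.sum_neg_distrib]
      refine Finset.sum_congr rfl fun i _ => ?_
      rw [inv_im, neg_neg]
    have hcmp : -(st ∅ (zc K n) ω).im ≤ (1 / 8) * -(st ∅ (zc (16 * K) n) ω).im := by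
      rw [hs1, hs2, Finset.mul_sum]
      exact Finset.sum_le_sum fun i _ => pk hηp (hlt i)
    have i1 : |(st ∅ (zc K n) ω - g1).im| < a / 10 := (Complex.abs_im_le_norm _).trans_lt h1
    have i2 : |(st ∅ (zc (16 * K) n) ω - g2).im| < 4 * a / 10 :=
      (Complex.abs_im_le_norm _).trans_lt h2
    rw [Complex.sub_im, abs_lt] at i1 i2
    linarith [c1.1, c1.2, c2.1, c2.2, i1.1, i1.2, i2.1, i2.2]
  calc (Measure.pi μ).real {ω | ∀ x, IsEig ω x → x < 2 * √n - 16 * K * t}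
      ≤ (Measure.pi μ).real ({ω | a / 10 ≤ ‖st ∅ (zc K n) ω - g1‖} ∪
        {ω | 4 * a / 10 ≤ ‖st ∅ (zc (16 * K) n) ω - g2‖}) := measureReal_mono hsub
    _ ≤ (Measure.pi μ).real {ω | a / 10 ≤ ‖st ∅ (zc K n) ω - g1‖} +
        (Measure.pi μ).real {ω | 4 * a / 10 ≤ ‖st ∅ (zc (16 * K) n) ω - g2‖} :=
        measureReal_union_le _ _
    _ ≤ 200 * C / K ^ 3 + 100 * C / K ^ 3 := add_le_add (p1.trans b1.le) (p2.trans b2)
    _ = 300 * C / K ^ 3 := by ring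

end Pool.Agent.Eig
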