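import Pool.Agent.Work.MP_1c1c8a_pr.Outer

/-! # Upper bound of the largest eigenvalue -/

namespace Pool.Agent.Eig

open MeasureTheory Filter Topology Matrix

namespace UpperAux

lemma radius {u N : ℝ} (hu : 0 < u) (hN : 0 < N) :
    (u ^ 4 * N ^ (-(1 : ℝ) / 6)) ^ ((1 : ℝ) / 4) * N ^ (-(1 : ℝ) / 8) =
      u * N ^ (-(1 : ℝ) / 6) := by
  rw [Real.mul_rpow (by positivity) (by positivity), ← Real.rpow_natCast u 4,
    ← Real.rpow_mul hu.le, ← Real.rpow_mul hN.le, mul_assoc, ← Real.rpow_add hN]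
  norm_num

lemma prob {u N : ℝ} (hu : 0 < u) (hN : 0 < N) :
    (u ^ 4 * N ^ (-(1 : ℝ) / 6) * N ^ ((1 : ℝ) / 6)) ^ (-(3 : ℝ) / 2) = ((u ^ 3) ^ 2)⁻¹ := by
  rw [mul_assoc, ← Real.rpow_add hN]
  norm_num
  rw [← Real.rpow_natCast u 4, ← Real.rpow_mul hu.le, ← pow_mul, ← Real.rpow_natCast u (3 * 2),
    ← Real.rpow_neg hu.le]
  norm_num

/-- the difference of fourth powers in terms of the difference of cubes -/
lemma diff {u v : ℝ} (hu : 0 < u) (huv : u ≤ v) : v ^ 4 - u ^ 4 ≤ 2 * v * (v ^ 3 - u ^ 3) := by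
  have h1 : u ^ 3 ≤ v ^ 3 := pow_le_pow_left₀ hu.le huv 3
  have h2 : 0 ≤ v - u := by linarith
  have h3 : 0 ≤ (v - u) * (v ^ 3 - u ^ 3 + u * v ^ 2 + u ^ 2 * v) := by
    have hv : 0 < v := by linarith
    have : 0 ≤ v ^ 3 - u ^ 3 + u * v ^ 2 + u ^ 2 * v := by
      have h4 : 0 ≤ u * v ^ 2 + u ^ 2 * v := by positivity
      linarith
    positivity
  nlinarith [h3]

/-- the grid point below `t` -/
lemma grid {α t : ℝ} (hα : 0 < α) (ht : 0 < t) (hαt : 2 * α ≤ t ^ ((3 : ℝ) / 4)) :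
    ∃ k : ℕ, k = ⌊t ^ ((3 : ℝ) / 4) / α⌋₊ ∧ 0 < k ∧ ∀ u : ℝ, u = (α * k) ^ ((1 : ℝ) / 3) →
      0 < u ∧ u ^ 3 = α * k ∧ u ^ 4 ≤ t ∧ t - u ^ 4 ≤ 4 * α * u := by
  refine ⟨_, rfl, ?_, ?_⟩
  · rw [Nat.floor_pos, le_div_iff₀ hα]
    linarith
  · intro u hu
    set k := ⌊t ^ ((3 : ℝ) / 4) / α⌋₊ with hk
    have hk0 : 0 < k := by
      rw [hk, Nat.floor_pos, le_div_iff₀ hα]
      linarith
    have hk1 : (0 : ℝ) < k := by exact_mod_cast hk0
    have hu0 : 0 < u := by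
      rw [hu]
      positivity
    have hu3 : u ^ 3 = α * k := by
      rw [hu, ← Real.rpow_natCast, ← Real.rpow_mul (by positivity)]
      norm_num
    set v : ℝ := t ^ ((1 : ℝ) / 4) with hv
    have hv0 : 0 < v := by positivity
    have hv3 : v ^ 3 = t ^ ((3 : ℝ) / 4) := by
      rw [hv, ← Real.rpow_natCast, ← Real.rpow_mul ht.le]
      norm_num
    have hv4 : v ^ 4 = t := by
      rw [hv, ← Real.rpow_natCast, ← Real.rpow_mul ht.le]
      norm_num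
    have h1 : α * k ≤ v ^ 3 := by
      have := Nat.floor_le (a := t ^ ((3 : ℝ) / 4) / α) (by positivity)
      rw [← hk, le_div_iff₀ hα] at this
      rw [hv3]
      linarith
    have h2 : v ^ 3 < α * (k + 1) := by
      have := Nat.lt_floor_add_one (t ^ ((3 : ℝ) / 4) / α)
      rw [← hk, div_lt_iff₀ hα] at this
      rw [hv3]
      linarith
    have huv : u ≤ v := by
      have : u ^ 3 ≤ v ^ 3 := by rw [hu3]; exact h1
      exact le_of_pow_le_pow_left₀ (by norm_num) hv0.le this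
    have hv2 : v ≤ 2 * u := by
      have h3 : v ^ 3 ≤ (2 * u) ^ 3 := by
        have h4 : (2 * u) ^ 3 = 8 * (α * k) := by
          rw [mul_pow, hu3]
          norm_num
        rw [h4]
        have h5 : (1 : ℝ) ≤ k := by exact_mod_cast hk0
        nlinarith
      exact le_of_pow_le_pow_left₀ (by norm_num) (by positivity) h3
    refine ⟨hu0, hu3, ?_, ?_⟩
    · rw [← hv4]
      exact pow_le_pow_left₀ hu0.le huv 4
    · have h3 := diff hu0 huv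
      rw [hv4] at h3
      have h4 : v ^ 3 - u ^ 3 ≤ α := by
        rw [hu3]
        linarith
      have h5 : 0 ≤ v ^ 3 - u ^ 3 := by
        rw [hu3]
        linarith
      calc t - u ^ 4 ≤ 2 * v * (v ^ 3 - u ^ 3) := h3
        _ ≤ 2 * (2 * u) * α := by gcongr
        _ = 4 * α * u := by ring

end UpperAux

open UpperAux

theorem upper_edge (b C0 : ℝ) (hC0 : 1 ≤ C0) : ∃ L0 C : ℝ, 1 ≤ L0 ∧ 0 ≤ C ∧
    ∀ L ≥ L0, ∃ n0 : ℕ, ∀ n ≥ n0, ∀ μ : Sym2 (Fin n) → Measure ℝ, (∀ e, GoodLaw b (μ e)) →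
    (Measure.pi μ).real {ω | ∃ x, IsEig ω x ∧
      2 * √n + L * (n : ℝ) ^ (-(1 : ℝ) / 6) ≤ x ∧ x ≤ C0 * √n} ≤ C * L ^ (-(3 : ℝ) / 4) := by
  obtain ⟨c, C, L0, hc0, hc1, hC, hL0, n0, hout⟩ := outer_point b C0 hC0
  set α : ℝ := c / 4 with hα
  have hα0 : 0 < α := by positivity
  have hα1 : α ≤ 1 / 4 := by rw [hα]; linarith
  refine ⟨4 * L0, 4 * C / α, by linarith, by positivity, fun L hL => ⟨max n0 1, fun n hn μ hμ => ?_⟩⟩
  have hn0 : n0 ≤ n := (le_max_left _ _).trans hn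
  have hn1 : 1 ≤ n := (le_max_right _ _).trans hn
  have hN : (0 : ℝ) < n := by exact_mod_cast hn1
  have hLpos : 0 < L := by linarith
  have hprob : ∀ e, IsProbabilityMeasure (μ e) := fun e => (hμ e).prob
  -- size of L^(3/4)
  have hL34 : 1 ≤ L ^ ((3 : ℝ) / 4) := Real.one_le_rpow (by linarith) (by norm_num)
  set k0 : ℕ := ⌊L ^ ((3 : ℝ) / 4) / α⌋₊ with hk0
  have hk0a : L ^ ((3 : ℝ) / 4) / (2 * α) ≤ k0 := by
    have h1 := Nat.lt_floor_add_one (L ^ ((3 : ℝ) / 4) / α)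
    rw [← hk0] at h1
    have h2 : L ^ ((3 : ℝ) / 4) / (2 * α) = L ^ ((3 : ℝ) / 4) / α / 2 := by
      field_simp
    have h3 : 2 ≤ L ^ ((3 : ℝ) / 4) / α := by
      rw [le_div_iff₀ hα0]
      linarith
    rw [h2]
    linarith
  have hk0pos : (0 : ℝ) < k0 := lt_of_lt_of_le (by positivity) hk0a
  have hk0nat : 0 < k0 := by exact_mod_cast hk0pos
  -- the grid
  set u : ℕ → ℝ := fun k => (α * k) ^ ((1 : ℝ) / 3) with hu
  set e : ℕ → ℝ := fun k => u k ^ 4 * (n : ℝ) ^ (-(1 : ℝ) / 6) with he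
  set K : ℕ := ⌊(C0 * √n * (n : ℝ) ^ ((1 : ℝ) / 6)) ^ ((3 : ℝ) / 4) / α⌋₊ with hK
  set S : Finset ℕ := (Finset.Icc k0 K).filter fun k => e k ≤ C0 * √n with hS
  set A : ℕ → Set (Ent n) := fun k => {ω | ∃ x, IsEig ω x ∧
      |x - (2 * √n + e k)| ≤ c * e k ^ ((1 : ℝ) / 4) * (n : ℝ) ^ (-(1 : ℝ) / 8)} with hA
  have hsub : {ω : Ent n | ∃ x, IsEig ω x ∧
      2 * √n + L * (n : ℝ) ^ (-(1 : ℝ) / 6) ≤ x ∧ x ≤ C0 * √n} ⊆ ⋃ k ∈ S, A k := by
    rintro ω ⟨x, hx, hx1, hx2⟩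
    set t : ℝ := (x - 2 * √n) * (n : ℝ) ^ ((1 : ℝ) / 6) with ht
    have hinv : (n : ℝ) ^ (-(1 : ℝ) / 6) * (n : ℝ) ^ ((1 : ℝ) / 6) = 1 := by
      rw [← Real.rpow_add hN]
      norm_num
    have hn6 : 0 < (n : ℝ) ^ ((1 : ℝ) / 6) := by positivity
    have hLt : L ≤ t := by
      have h1 : L * (n : ℝ) ^ (-(1 : ℝ) / 6) ≤ x - 2 * √n := by linarith
      calc L = L * (n : ℝ) ^ (-(1 : ℝ) / 6) * (n : ℝ) ^ ((1 : ℝ) / 6) := by
            rw [mul_assoc, hinv, mul_one]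
        _ ≤ t := by rw [ht]; gcongr
    have ht0 : 0 < t := by linarith
    have htx : t * (n : ℝ) ^ (-(1 : ℝ) / 6) = x - 2 * √n := by
      rw [ht, mul_assoc, mul_comm ((n : ℝ) ^ ((1 : ℝ) / 6)), hinv, mul_one]
    have htC : t ≤ C0 * √n * (n : ℝ) ^ ((1 : ℝ) / 6) := by
      rw [ht]
      gcongr
      have : 0 ≤ √(n : ℝ) := Real.sqrt_nonneg _
      linarith
    have hmono : L ^ ((3 : ℝ) / 4) ≤ t ^ ((3 : ℝ) / 4) :=
      Real.rpow_le_rpow hLpos.le hLt (by norm_num)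
    obtain ⟨k, hkdef, hkpos, hk⟩ := grid hα0 ht0 (by linarith)
    obtain ⟨hu0, hu3, hu4, hdist⟩ := hk (u k) rfl
    rw [Set.mem_iUnion₂]
    refine ⟨k, ?_, x, hx, ?_⟩
    · rw [hS, Finset.mem_filter, Finset.mem_Icc]
      refine ⟨⟨?_, ?_⟩, ?_⟩
      · rw [hkdef, hk0]
        apply Nat.floor_le_floor
        gcongr
      · rw [hkdef, hK]
        apply Nat.floor_le_floor
        gcongr
      · calc e k = u k ^ 4 * (n : ℝ) ^ (-(1 : ℝ) / 6) := rfl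
          _ ≤ t * (n : ℝ) ^ (-(1 : ℝ) / 6) := by gcongr
          _ = x - 2 * √n := htx
          _ ≤ C0 * √n := by
            have : 0 ≤ √(n : ℝ) := Real.sqrt_nonneg _
            linarith
    · have h1 : x - (2 * √n + e k) = (t - u k ^ 4) * (n : ℝ) ^ (-(1 : ℝ) / 6) := by
        rw [sub_mul, htx]
        simp only [he]
        ring
      rw [h1, abs_of_nonneg (mul_nonneg (by linarith) (by positivity)), mul_assoc c]
      rw [show e k ^ ((1 : ℝ) / 4) * (n : ℝ) ^ (-(1 : ℝ) / 8) =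
        u k * (n : ℝ) ^ (-(1 : ℝ) / 6) from radius hu0 hN]
      calc (t - u k ^ 4) * (n : ℝ) ^ (-(1 : ℝ) / 6)
          ≤ (4 * α * u k) * (n : ℝ) ^ (-(1 : ℝ) / 6) := by gcongr
        _ = c * (u k * (n : ℝ) ^ (-(1 : ℝ) / 6)) := by rw [hα]; ring
  have hbound : ∀ k ∈ S, (Measure.pi μ).real (A k) ≤ C * (α ^ 2)⁻¹ * ((k : ℝ) ^ 2)⁻¹ := by
    intro k hk
    rw [hS, Finset.mem_filter, Finset.mem_Icc] at hk
    obtain ⟨⟨hk1, hk2⟩, hk3⟩ := hk
    have hk1' : (k0 : ℝ) ≤ k := by exact_mod_cast hk1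
    have hkpos : (0 : ℝ) < k := by linarith
    have hu0 : 0 < u k := by
      simp only [hu]
      positivity
    have hu3 : u k ^ 3 = α * k := by
      simp only [hu]
      rw [← Real.rpow_natCast, ← Real.rpow_mul (by positivity)]
      norm_num
    have hαk : L ^ ((3 : ℝ) / 4) / 2 ≤ α * k := by
      have h1 : α * (L ^ ((3 : ℝ) / 4) / (2 * α)) ≤ α * k := by
        gcongr
        exact hk0a.trans hk1'
      have h2 : α * (L ^ ((3 : ℝ) / 4) / (2 * α)) = L ^ ((3 : ℝ) / 4) / 2 := by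
        field_simp
      linarith
    have hu4 : L0 ≤ u k ^ 4 := by
      -- (u^4)^3 = (u^3)^4 ≥ (L^{3/4}/2)^4 = L^3/16 ≥ L0^3
      have h1 : (L ^ ((3 : ℝ) / 4) / 2) ^ 4 ≤ (u k ^ 3) ^ 4 := by
        rw [hu3]
        gcongr
      have h2 : (L ^ ((3 : ℝ) / 4) / 2) ^ 4 = L ^ 3 / 16 := by
        rw [div_pow, ← Real.rpow_natCast (L ^ ((3 : ℝ) / 4)) 4, ← Real.rpow_mul hLpos.le]
        norm_num
      have h3 : L0 ^ 3 ≤ (u k ^ 4) ^ 3 := by
        have h4 : (4 * L0) ^ 3 ≤ L ^ 3 := pow_le_pow_left₀ (by linarith) hL 3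
        have h5 : (u k ^ 4) ^ 3 = (u k ^ 3) ^ 4 := by ring
        rw [h5]
        have h6 : (4 * L0) ^ 3 = 64 * L0 ^ 3 := by ring
        have h7 : 0 ≤ L0 ^ 3 := by positivity
        rw [h2] at h1
        linarith
      exact le_of_pow_le_pow_left₀ (by norm_num) (by positivity) h3
    have h1 := hout n hn0 μ hμ (e k) (by
      simp only [he]
      gcongr) hk3
    refine h1.trans (le_of_eq ?_)
    rw [show (e k * (n : ℝ) ^ ((1 : ℝ) / 6)) ^ (-(3 : ℝ) / 2) = ((u k ^ 3) ^ 2)⁻¹ from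
      prob hu0 hN, hu3, mul_pow, mul_inv, mul_assoc]
  calc (Measure.pi μ).real {ω | ∃ x, IsEig ω x ∧
      2 * √n + L * (n : ℝ) ^ (-(1 : ℝ) / 6) ≤ x ∧ x ≤ C0 * √n}
      ≤ (Measure.pi μ).real (⋃ k ∈ S, A k) := measureReal_mono hsub (measure_ne_top _ _)
    _ ≤ ∑ k ∈ S, (Measure.pi μ).real (A k) := measureReal_biUnion_finset_le _ _
    _ ≤ ∑ k ∈ S, C * (α ^ 2)⁻¹ * ((k : ℝ) ^ 2)⁻¹ := Finset.sum_le_sum hbound
    _ ≤ ∑ k ∈ Finset.Ioo (k0 - 1) (K + 1), C * (α ^ 2)⁻¹ * ((k : ℝ) ^ 2)⁻¹ := by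
        refine Finset.sum_le_sum_of_subset_of_nonneg ?_ fun k _ _ => by positivity
        intro k hk
        rw [hS, Finset.mem_filter, Finset.mem_Icc] at hk
        rw [Finset.mem_Ioo]
        omega
    _ = C * (α ^ 2)⁻¹ * ∑ k ∈ Finset.Ioo (k0 - 1) (K + 1), ((k : ℝ) ^ 2)⁻¹ := by
        rw [Finset.mul_sum]
    _ ≤ C * (α ^ 2)⁻¹ * (2 / k0) := by
        gcongr
        have h1 := sum_Ioo_inv_sq_le (α := ℝ) (k0 - 1) (K + 1)
        have h2 : ((k0 - 1 : ℕ) : ℝ) + 1 = k0 := by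
          have : (k0 - 1) + 1 = k0 := by omega
          exact_mod_cast this
        rw [h2] at h1
        exact h1
    _ ≤ C * (α ^ 2)⁻¹ * (2 / (L ^ ((3 : ℝ) / 4) / (2 * α))) := by gcongr
    _ = 4 * C / α * L ^ (-(3 : ℝ) / 4) := by
        rw [show (-(3 : ℝ) / 4) = -((3 : ℝ) / 4) by ring, Real.rpow_neg hLpos.le]
        field_simp
        ring

end Pool.Agent.Eig
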