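import Pool.Agent.Work.MP_1c1c8a_pr.TwoRes
import Pool.Agent.Work.MP_1c1c8a_pr.LowEdge
import Pool.Agent.Work.MP_1c1c8a_pr.Upper
import Pool.Agent.Work.MP_1c1c8a_pr.Far
import Pool.Agent.Work.MP_1c1c8a_pr.Meas

/-! # Main theorem for pairs -/

namespace Pool.Agent.Eig

open MeasureTheory Filter Topology Matrix

namespace MainAux

variable {n : ℕ}

/-- The bad event. -/
def Bad (K L C0 : ℝ) (n : ℕ) : Set (Ent n) :=
  {ω | ∀ x, IsEig ω x → x < 2 * √n - 16 * K * (n : ℝ) ^ (-(1 : ℝ) / 6)} ∪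
  {ω | ∃ x, IsEig ω x ∧ 2 * √n + L * (n : ℝ) ^ (-(1 : ℝ) / 6) ≤ x ∧ x ≤ C0 * √n} ∪
  {ω | ∃ x, IsEig ω x ∧ C0 * √n < x}

/-- The sum of products of imaginary parts. -/
noncomputable def imim (z : ℂ) (p : Sym2 (Fin n) → ℝ × ℝ) : ℝ :=
  ∑ i, ∑ j, (Gr ∅ z (fX p) i j).im * (Gr ∅ z (fY p) i j).im

lemma top_close {K L C0 K1 : ℝ} {ω : Ent n} (h : ω ∉ Bad K L C0 n) (hK : 16 * K ≤ K1)
    (hL : L ≤ K1) {v : Fin n → ℝ} {c : ℝ} (hv : IsTopVec (symMat ω) v c) :
    |c - 2 * √n| ≤ K1 * (n : ℝ) ^ (-(1 : ℝ) / 6) := by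
  have hp : (0 : ℝ) ≤ (n : ℝ) ^ (-(1 : ℝ) / 6) := by positivity
  have hv0 : v ≠ 0 := by
    rintro rfl
    have := hv.1
    simp at this
  have hc : IsEig ω c := ⟨v, hv0, hv.2.1⟩
  simp only [Bad, Set.mem_union, Set.mem_ofPred_eq, not_or, not_forall, not_exists, not_and,
    not_lt, not_le] at h
  obtain ⟨⟨⟨x, hx, hx2⟩, h2⟩, h3⟩ := h
  obtain ⟨u, hu0, hu⟩ := hx
  have h4 : x ≤ c := hv.2.2 x u hu0 hu
  have h5 := h3 c hc
  have h6 : c < 2 * √n + L * (n : ℝ) ^ (-(1 : ℝ) / 6) := by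
    by_contra hcon
    push Not at hcon
    have := h2 c hc hcon
    linarith
  rw [abs_le]
  constructor
  · nlinarith
  · nlinarith

lemma imim_eq {z : ℂ} (p : Sym2 (Fin n) → ℝ × ℝ) :
    imim z p = (1 / 2) * ((∑ i, AA ∅ z ((starRingEnd ℂ) z) p i i).re -
      (∑ i, AA ∅ z z p i i).re) := by
  have h1 : ∀ i, AA ∅ z ((starRingEnd ℂ) z) p i i =
      ∑ j, Gr ∅ z (fX p) i j * (starRingEnd ℂ) (Gr ∅ z (fY p) i j) := by
    intro i
    simp only [AA, Matrix.mul_apply]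
    refine Finset.sum_congr rfl fun j _ => ?_
    rw [Gr_conj, Gr_symm j i]
  have h2 : ∀ i, AA ∅ z z p i i = ∑ j, Gr ∅ z (fX p) i j * Gr ∅ z (fY p) i j := by
    intro i
    simp only [AA, Matrix.mul_apply]
    refine Finset.sum_congr rfl fun j _ => ?_
    rw [Gr_symm j i]
  simp only [h1, h2, Complex.re_sum]
  unfold imim
  rw [← Finset.sum_sub_distrib, Finset.mul_sum]
  refine Finset.sum_congr rfl fun i _ => ?_
  rw [← Finset.sum_sub_distrib, Finset.mul_sum]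
  refine Finset.sum_congr rfl fun j _ => ?_
  simp only [Complex.mul_re, Complex.conj_re, Complex.conj_im]
  ring

end MainAux

open MainAux

theorem main_pair (b : ℝ) : ∀ ε > 0, ∃ W : ℝ, 0 < W ∧ ∃ n0 : ℕ, ∀ n ≥ n0,
    ∀ (σ : Sym2 (Fin n) → ℝ) (ν : Sym2 (Fin n) → Measure (ℝ × ℝ)),
    (∀ e, GoodPair b (σ e) (ν e)) →
    W ≤ (1 - √(∑ i, ∑ j, (σ s(i, j)) ^ 2) / n) * (n : ℝ) ^ ((1 : ℝ) / 3) →
    ∃ U : (Sym2 (Fin n) → ℝ × ℝ) → ℝ, Measurable U ∧ (∀ p, 0 ≤ U p) ∧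
      Integrable U (Measure.pi ν) ∧ ∫ p, U p ∂(Measure.pi ν) ≤ ε ∧
      ∀ (p : Sym2 (Fin n) → ℝ × ℝ) (v v' : Fin n → ℝ) (c c' : ℝ),
        IsTopVec (symMat (fX p)) v c → IsTopVec (symMat (fY p)) v' c' →
        (v ⬝ᵥ v') ^ 2 ≤ U p := by
  classical
  intro ε hε
  obtain ⟨Kl, Cl, hKl, hCl, hlow⟩ := lower_edge b
  obtain ⟨C0, hC0, hfar⟩ := far_edge b
  obtain ⟨L0, Cu, hL0, hCu, hup⟩ := upper_edge b C0 hC0
  obtain ⟨Kt, hKt, htwo⟩ := two_res b
  -- choice of K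
  obtain ⟨K, hK1, hK2⟩ : ∃ K ≥ Kl, Cl / K ^ 3 ≤ ε / 12 := by
    have h1 : Tendsto (fun K : ℝ => Cl / K ^ 3) atTop (𝓝 0) :=
      tendsto_const_nhds.div_atTop (tendsto_pow_atTop (by norm_num))
    have h2 := (h1.eventually (ge_mem_nhds (show (0 : ℝ) < ε / 12 by positivity))).and
      (eventually_ge_atTop Kl)
    obtain ⟨K, hK⟩ := h2.exists
    exact ⟨K, hK.2, hK.1⟩
  obtain ⟨L, hL1, hL2⟩ : ∃ L ≥ L0, Cu * L ^ (-(3 : ℝ) / 4) ≤ ε / 12 := by
    have h1 : Tendsto (fun L : ℝ => Cu * L ^ (-(3 : ℝ) / 4)) atTop (𝓝 (Cu * 0)) := by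
      apply Tendsto.const_mul
      have := tendsto_rpow_neg_atTop (show (0 : ℝ) < 3 / 4 by norm_num)
      simpa [neg_div] using this
    rw [mul_zero] at h1
    have h2 := (h1.eventually (ge_mem_nhds (show (0 : ℝ) < ε / 12 by positivity))).and
      (eventually_ge_atTop L0)
    obtain ⟨L, hL⟩ := h2.exists
    exact ⟨L, hL.2, hL.1⟩
  obtain ⟨n1, hn1⟩ := hlow K hK1
  obtain ⟨n2, hn2⟩ := hup L hL1
  obtain ⟨n3, hn3⟩ := hfar (ε / 12) (by positivity)
  set K1 : ℝ := max (max (16 * K) L) Kt with hK1def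
  have hKK1 : 16 * K ≤ K1 := (le_max_left _ _).trans (le_max_left _ _)
  have hLK1 : L ≤ K1 := (le_max_right _ _).trans (le_max_left _ _)
  have hKtK1 : Kt ≤ K1 := le_max_right _ _
  have hK1pos : 0 < K1 := by linarith
  obtain ⟨C, hC, n4, hn4⟩ := htwo K1 hKtK1
  refine ⟨8 * K1 ^ 2 * C / ε + 1, by positivity, max (max n1 n2) (max n3 (max n4 1)), ?_⟩
  intro n hn σ ν hν hW
  have hnn1 : n1 ≤ n := (le_max_left _ _).trans ((le_max_left _ _).trans hn)
  have hnn2 : n2 ≤ n := (le_max_right _ _).trans ((le_max_left _ _).trans hn)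
  have hnn3 : n3 ≤ n := (le_max_left _ _).trans ((le_max_right _ _).trans hn)
  have hnn4 : n4 ≤ n := (le_max_left _ _).trans ((le_max_right _ _).trans
    ((le_max_right _ _).trans hn))
  have hnn5 : 1 ≤ n := (le_max_right _ _).trans ((le_max_right _ _).trans
    ((le_max_right _ _).trans hn))
  have hnpos : (0 : ℝ) < n := by exact_mod_cast hnn5
  have hprob : ∀ e, IsProbabilityMeasure (ν e) := fun e => (hν e).isProb
  set z : ℂ := zc K1 n with hz
  set η : ℝ := K1 * (n : ℝ) ^ (-(1 : ℝ) / 6) with hη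
  have hηpos : 0 < η := by positivity
  have hzim : z.im ≠ 0 := hηpos.ne'
  have hzeq : (⟨2 * √n, η⟩ : ℂ) = z := rfl
  -- bad sets
  set BX : Set (Ent n) :=
    toMeasurable (Measure.pi (fun e => (ν e).map Prod.fst)) (Bad K L C0 n) with hBX
  set BY : Set (Ent n) :=
    toMeasurable (Measure.pi (fun e => (ν e).map Prod.snd)) (Bad K L C0 n) with hBY
  have hbad : ∀ μ : Sym2 (Fin n) → Measure ℝ, (∀ e, GoodLaw b (μ e)) →
      (Measure.pi μ).real (Bad K L C0 n) ≤ ε / 4 := by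
    intro μ hμ
    have hprob' : ∀ e, IsProbabilityMeasure (μ e) := fun e => (hμ e).prob
    unfold Bad
    refine (measureReal_union_le _ _).trans ?_
    have h1 := measureReal_union_le (μ := Measure.pi μ)
      {ω : Ent n | ∀ x, IsEig ω x → x < 2 * √n - 16 * K * (n : ℝ) ^ (-(1 : ℝ) / 6)}
      {ω | ∃ x, IsEig ω x ∧ 2 * √n + L * (n : ℝ) ^ (-(1 : ℝ) / 6) ≤ x ∧ x ≤ C0 * √n}
    have h2 := hn1 n hnn1 μ hμ
    have h3 := hn2 n hnn2 μ hμ
    have h4 := hn3 n hnn3 μ hμ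
    linarith
  have hBXm : MeasurableSet BX := measurableSet_toMeasurable _ _
  have hBYm : MeasurableSet BY := measurableSet_toMeasurable _ _
  have hBXle : (Measure.pi (fun e => (ν e).map Prod.fst)).real BX ≤ ε / 4 := by
    have : (Measure.pi (fun e => (ν e).map Prod.fst)).real BX =
        (Measure.pi (fun e => (ν e).map Prod.fst)).real (Bad K L C0 n) := by
      rw [measureReal_def, measureReal_def, hBX, measure_toMeasurable]
    rw [this]
    exact hbad _ fun e => (hν e).fst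
  have hBYle : (Measure.pi (fun e => (ν e).map Prod.snd)).real BY ≤ ε / 4 := by
    have : (Measure.pi (fun e => (ν e).map Prod.snd)).real BY =
        (Measure.pi (fun e => (ν e).map Prod.snd)).real (Bad K L C0 n) := by
      rw [measureReal_def, measureReal_def, hBY, measure_toMeasurable]
    rw [this]
    exact hbad _ fun e => (hν e).snd
  have hfXm : Measurable (fX : (Sym2 (Fin n) → ℝ × ℝ) → Ent n) := by
    unfold fX
    fun_prop
  have hfYm : Measurable (fY : (Sym2 (Fin n) → ℝ × ℝ) → Ent n) := by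
    unfold fY
    fun_prop
  have hIX : ∫ p, (BX.indicator (fun _ => (1 : ℝ))) (fX p) ∂(Measure.pi ν) ≤ ε / 4 := by
    rw [← integral_map (φ := fX) (f := BX.indicator (fun _ => (1 : ℝ))) hfXm.aemeasurable
      ((measurable_const.indicator hBXm).aestronglyMeasurable), map_fX hν,
      integral_indicator_const _ hBXm]
    simpa using hBXle
  have hIY : ∫ p, (BY.indicator (fun _ => (1 : ℝ))) (fY p) ∂(Measure.pi ν) ≤ ε / 4 := by
    rw [← integral_map (φ := fY) (f := BY.indicator (fun _ => (1 : ℝ))) hfYm.aemeasurable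
      ((measurable_const.indicator hBYm).aestronglyMeasurable), map_fY hν,
      integral_indicator_const _ hBYm]
    simpa using hBYle
  have hInX : Integrable (fun p => (BX.indicator (fun _ => (1 : ℝ))) (fX p)) (Measure.pi ν) := by
    refine Integrable.of_bound
      (((measurable_const.indicator hBXm).comp hfXm).aestronglyMeasurable) 1
      (ae_of_all _ fun p => ?_)
    rw [Set.indicator_apply]
    split_ifs <;> simp
  have hInY : Integrable (fun p => (BY.indicator (fun _ => (1 : ℝ))) (fY p)) (Measure.pi ν) := by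
    refine Integrable.of_bound
      (((measurable_const.indicator hBYm).comp hfYm).aestronglyMeasurable) 1
      (ae_of_all _ fun p => ?_)
    rw [Set.indicator_apply]
    split_ifs <;> simp
  -- the resolvent term
  have hzcim : ((starRingEnd ℂ) z).im ≠ 0 := by
    rw [Complex.conj_im]
    exact neg_ne_zero.2 hzim
  have hA1 : PBP (fun p : Sym2 (Fin n) → ℝ × ℝ => ∑ i, AA ∅ z ((starRingEnd ℂ) z) p i i) :=
    PBW.sum one_le_wtp _ fun i _ => PBP.AA hzim hzcim i i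
  have hA2 : PBP (fun p : Sym2 (Fin n) → ℝ × ℝ => ∑ i, AA ∅ z z p i i) :=
    PBW.sum one_le_wtp _ fun i _ => PBP.AA hzim hzim i i
  have hA1i := PBP.intC hν hA1
  have hA2i := PBP.intC hν hA2
  have hA1r : Integrable (fun p : Sym2 (Fin n) → ℝ × ℝ =>
      (∑ i, AA ∅ z ((starRingEnd ℂ) z) p i i).re) (Measure.pi ν) := hA1i.re
  have hA2r : Integrable (fun p : Sym2 (Fin n) → ℝ × ℝ =>
      (∑ i, AA ∅ z z p i i).re) (Measure.pi ν) := hA2i.re
  have himim : imim z = fun p : Sym2 (Fin n) → ℝ × ℝ =>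
      (1 / 2) * ((∑ i, AA ∅ z ((starRingEnd ℂ) z) p i i).re - (∑ i, AA ∅ z z p i i).re) := by
    funext p
    exact imim_eq p
  have hIm : Integrable (imim z) (Measure.pi ν) := by
    rw [himim]
    exact (hA1r.sub hA2r).const_mul _
  have hImm : Measurable (imim z : (Sym2 (Fin n) → ℝ × ℝ) → ℝ) := by
    rw [himim]
    have h1 := hA1.cont.measurable
    have h2 := hA2.cont.measurable
    exact ((Complex.measurable_re.comp h1).sub (Complex.measurable_re.comp h2)).const_mul _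
  have hρ : 0 < 1 - √(∑ i : Fin n, ∑ j : Fin n, (σ s(i, j)) ^ 2) / n := by
    by_contra hcon
    push Not at hcon
    have h1 : (1 - √(∑ i : Fin n, ∑ j : Fin n, (σ s(i, j)) ^ 2) / n) *
        (n : ℝ) ^ ((1 : ℝ) / 3) ≤ 0 := mul_nonpos_of_nonpos_of_nonneg hcon (by positivity)
    have h2 : 0 < 8 * K1 ^ 2 * C / ε + 1 := by positivity
    linarith
  set ρ : ℝ := 1 - √(∑ i : Fin n, ∑ j : Fin n, (σ s(i, j)) ^ 2) / n with hρdef
  have hImint : ∫ p, imim z p ∂(Measure.pi ν) ≤ C / ρ := by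
    have h1 := hn4 n hnn4 σ ν hν ((starRingEnd ℂ) z) (Or.inr rfl)
    have h2 := hn4 n hnn4 σ ν hν z (Or.inl rfl)
    rw [← le_div_iff₀' hρ] at h1 h2
    have h3 : ∫ p, imim z p ∂(Measure.pi ν) = (1 / 2) *
        ((∫ p, ∑ i, AA ∅ z ((starRingEnd ℂ) z) p i i ∂(Measure.pi ν)).re -
          (∫ p, ∑ i, AA ∅ z z p i i ∂(Measure.pi ν)).re) := by
      rw [himim, integral_const_mul, integral_sub hA1r hA2r]
      congr 2
      · exact (integral_re hA1i)
      · exact (integral_re hA2i)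
    rw [h3]
    have h4 := Complex.re_le_norm (∫ p, ∑ i, AA ∅ z ((starRingEnd ℂ) z) p i i ∂(Measure.pi ν))
    have h5 := Complex.abs_re_le_norm (∫ p, ∑ i, AA ∅ z z p i i ∂(Measure.pi ν))
    have h6 := neg_le_of_abs_le h5
    linarith
  have hη2 : 4 * η ^ 2 * (C / ρ) ≤ ε / 2 := by
    have h1 : η ^ 2 = K1 ^ 2 / (n : ℝ) ^ ((1 : ℝ) / 3) := by
      have h0 : ((n : ℝ) ^ (-(1 : ℝ) / 6)) ^ 2 = ((n : ℝ) ^ ((1 : ℝ) / 3))⁻¹ := by
        rw [← Real.rpow_natCast ((n : ℝ) ^ (-(1 : ℝ) / 6)) 2, ← Real.rpow_mul hnpos.le,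
          ← Real.rpow_neg hnpos.le]
        congr 1
        push_cast
        norm_num
      rw [hη, mul_pow, h0]
      exact (div_eq_mul_inv _ _).symm
    have h2 : 8 * K1 ^ 2 * C / ε ≤ ρ * (n : ℝ) ^ ((1 : ℝ) / 3) := by linarith
    rw [div_le_iff₀ hε] at h2
    have h3 : 0 < ρ * (n : ℝ) ^ ((1 : ℝ) / 3) := by positivity
    have h4 : 4 * η ^ 2 * (C / ρ) = 4 * K1 ^ 2 * C / (ρ * (n : ℝ) ^ ((1 : ℝ) / 3)) := by
      rw [h1]
      field_simp
    rw [h4, div_le_iff₀ h3]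
    linarith
  refine ⟨fun p => (BX.indicator (fun _ => (1 : ℝ))) (fX p) +
    (BY.indicator (fun _ => (1 : ℝ))) (fY p) + 4 * η ^ 2 * imim z p, ?_, ?_, ?_, ?_, ?_⟩
  · exact (((measurable_const.indicator hBXm).comp hfXm).add
      ((measurable_const.indicator hBYm).comp hfYm)).add (hImm.const_mul _)
  · intro p
    have h1 : 0 ≤ imim z p := im_im_nonneg hzim _ _
    have h2 : 0 ≤ (BX.indicator (fun _ => (1 : ℝ))) (fX p) :=
      Set.indicator_nonneg (fun _ _ => zero_le_one) _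
    have h3 : 0 ≤ (BY.indicator (fun _ => (1 : ℝ))) (fY p) :=
      Set.indicator_nonneg (fun _ _ => zero_le_one) _
    positivity
  · exact (hInX.add hInY).add (hIm.const_mul _)
  · have hs : Integrable (fun p => (BX.indicator (fun _ => (1 : ℝ))) (fX p) +
        (BY.indicator (fun _ => (1 : ℝ))) (fY p)) (Measure.pi ν) := hInX.add hInY
    have e1 : ∫ p, ((BX.indicator (fun _ => (1 : ℝ))) (fX p) +
        (BY.indicator (fun _ => (1 : ℝ))) (fY p) + 4 * η ^ 2 * imim z p) ∂(Measure.pi ν) =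
        ∫ p, (BX.indicator (fun _ => (1 : ℝ))) (fX p) ∂(Measure.pi ν) +
        ∫ p, (BY.indicator (fun _ => (1 : ℝ))) (fY p) ∂(Measure.pi ν) +
        4 * η ^ 2 * ∫ p, imim z p ∂(Measure.pi ν) := by
      rw [integral_add hs (hIm.const_mul _), integral_add hInX hInY, integral_const_mul]
    rw [e1]
    have h1 : 4 * η ^ 2 * ∫ p, imim z p ∂(Measure.pi ν) ≤ 4 * η ^ 2 * (C / ρ) :=
      mul_le_mul_of_nonneg_left hImint (by positivity)
    linarith
  · intro p v v' c c' hv hv'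
    have himn : 0 ≤ imim z p := im_im_nonneg hzim _ _
    have hX0 : 0 ≤ (BX.indicator (fun _ => (1 : ℝ))) (fX p) :=
      Set.indicator_nonneg (fun _ _ => zero_le_one) _
    have hY0 : 0 ≤ (BY.indicator (fun _ => (1 : ℝ))) (fY p) :=
      Set.indicator_nonneg (fun _ _ => zero_le_one) _
    have hle1 : (v ⬝ᵥ v') ^ 2 ≤ 1 := by
      have h1 := hv.1
      have h2 := hv'.1
      simp only [dotProduct] at h1 h2 ⊢
      have h3 := Finset.sum_mul_sq_le_sq_mul_sq Finset.univ v v'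
      have h4 : ∑ i, v i ^ 2 = 1 := by
        rw [← h1]
        exact Finset.sum_congr rfl fun i _ => sq _
      have h5 : ∑ i, v' i ^ 2 = 1 := by
        rw [← h2]
        exact Finset.sum_congr rfl fun i _ => sq _
      rw [h4, h5] at h3
      linarith
    by_cases hX : fX p ∈ BX
    · have h1 : (BX.indicator (fun _ => (1 : ℝ))) (fX p) = 1 := Set.indicator_of_mem hX _
      have h2 : 0 ≤ 4 * η ^ 2 * imim z p := by positivity
      linarith
    by_cases hY : fY p ∈ BY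
    · have h1 : (BY.indicator (fun _ => (1 : ℝ))) (fY p) = 1 := Set.indicator_of_mem hY _
      have h2 : 0 ≤ 4 * η ^ 2 * imim z p := by positivity
      linarith
    have hX' : fX p ∉ Bad K L C0 n := fun h => hX (subset_toMeasurable _ _ h)
    have hY' : fY p ∉ Bad K L C0 n := fun h => hY (subset_toMeasurable _ _ h)
    have hcX := top_close hX' hKK1 hLK1 hv
    have hcY := top_close hY' hKK1 hLK1 hv'
    have := overlap_det hηpos (fX p) (fY p) v v' hv.1 hv'.1 hv.2.1 hv'.2.1 hcX hcY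
    rw [hzeq] at this
    have h2 : (v ⬝ᵥ v') ^ 2 ≤ 4 * η ^ 2 * imim z p := this
    linarith

end Pool.Agent.Eig
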