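import Pool.Agent.Work.MP_1c1c8a_pr.Defs

/-! # Mixing, integrability -/

namespace Pool.Agent.Eig

open MeasureTheory Filter Topology Matrix

section Mix

variable {n : ℕ} {E : Type} [MeasurableSpace E]

namespace MixAux

open Classical in
lemma measurable_mix (A : Finset (Fin n)) :
    Measurable (fun p : (Sym2 (Fin n) → E) × (Sym2 (Fin n) → E) => mixR A p.1 p.2) := by
  refine measurable_pi_lambda _ fun e => ?_
  unfold mixR
  by_cases h : ∃ i ∈ A, i ∈ e
  · simp only [h, if_true]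
    exact (measurable_pi_apply e).comp measurable_snd
  · simp only [h, if_false]
    exact (measurable_pi_apply e).comp measurable_fst

open Classical in
lemma mp_mix (μ : Sym2 (Fin n) → Measure E) [∀ e, IsProbabilityMeasure (μ e)]
    (A : Finset (Fin n)) :
    MeasurePreserving (fun p : (Sym2 (Fin n) → E) × (Sym2 (Fin n) → E) => mixR A p.1 p.2)
      ((Measure.pi μ).prod (Measure.pi μ)) (Measure.pi μ) := by
  refine ⟨measurable_mix A, ?_⟩
  refine (Measure.pi_eq fun s hs => ?_).symm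
  rw [Measure.map_apply (measurable_mix A) (MeasurableSet.univ_pi hs)]
  have hpre : (fun p : (Sym2 (Fin n) → E) × (Sym2 (Fin n) → E) => mixR A p.1 p.2) ⁻¹'
      (Set.univ.pi s) = (Set.univ.pi (fun e => if ∃ i ∈ A, i ∈ e then Set.univ else s e)) ×ˢ
        (Set.univ.pi (fun e => if ∃ i ∈ A, i ∈ e then s e else Set.univ)) := by
    ext p
    simp only [Set.mem_preimage, Set.mem_pi, Set.mem_univ, forall_true_left, Set.mem_prod]
    constructor
    · intro h
      constructor
      · intro e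
        have := h e
        unfold mixR at this
        by_cases hc : ∃ i ∈ A, i ∈ e
        · simp [hc]
        · simp only [hc, if_false] at this ⊢
          exact this
      · intro e
        have := h e
        unfold mixR at this
        by_cases hc : ∃ i ∈ A, i ∈ e
        · simp only [hc, if_true] at this ⊢
          exact this
        · simp [hc]
    · rintro ⟨h1, h2⟩ e
      unfold mixR
      by_cases hc : ∃ i ∈ A, i ∈ e
      · have := h2 e
        simp only [hc, if_true] at this ⊢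
        exact this
      · have := h1 e
        simp only [hc, if_false] at this ⊢
        exact this
  rw [hpre, Measure.prod_prod, Measure.pi_pi, Measure.pi_pi, ← Finset.prod_mul_distrib]
  refine Finset.prod_congr rfl fun e _ => ?_
  by_cases hc : ∃ i ∈ A, i ∈ e
  · simp [hc]
  · simp [hc]

end MixAux

theorem integral_mix (μ : Sym2 (Fin n) → Measure E) [∀ e, IsProbabilityMeasure (μ e)]
    (A : Finset (Fin n)) {G : Type} [NormedAddCommGroup G] [NormedSpace ℝ G] [CompleteSpace G]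
    (F : (Sym2 (Fin n) → E) → G) (hF : Integrable F (Measure.pi μ)) :
    (∀ᵐ ω ∂(Measure.pi μ), Integrable (fun x => F (mixR A ω x)) (Measure.pi μ)) ∧
    ∫ ω, F ω ∂(Measure.pi μ) = ∫ ω, ∫ x, F (mixR A ω x) ∂(Measure.pi μ) ∂(Measure.pi μ) := by
  have hmp := MixAux.mp_mix μ A
  have hint : Integrable (fun p : (Sym2 (Fin n) → E) × (Sym2 (Fin n) → E) => F (mixR A p.1 p.2))
      ((Measure.pi μ).prod (Measure.pi μ)) := hmp.integrable_comp_of_integrable hF
  refine ⟨hint.prod_right_ae, ?_⟩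
  rw [← integral_prod _ hint]
  conv_lhs => rw [← hmp.map_eq]
  rw [integral_map hmp.measurable.aemeasurable]
  rw [hmp.map_eq]
  exact hF.aestronglyMeasurable

theorem integral_mix_le (μ : Sym2 (Fin n) → Measure E) [∀ e, IsProbabilityMeasure (μ e)]
    (A : Finset (Fin n)) (F H : (Sym2 (Fin n) → E) → ℝ) (hF : Integrable F (Measure.pi μ))
    (hH : Integrable H (Measure.pi μ))
    (h : ∀ ω, ∫ x, F (mixR A ω x) ∂(Measure.pi μ) ≤ H ω) :
    ∫ ω, F ω ∂(Measure.pi μ) ≤ ∫ ω, H ω ∂(Measure.pi μ) := by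
  have hmp := MixAux.mp_mix μ A
  have hint : Integrable (fun p : (Sym2 (Fin n) → E) × (Sym2 (Fin n) → E) => F (mixR A p.1 p.2))
      ((Measure.pi μ).prod (Measure.pi μ)) := hmp.integrable_comp_of_integrable hF
  rw [(integral_mix μ A F hF).2]
  exact integral_mono hint.integral_prod_left hH h

/-- Moments of a good law. -/
theorem abs_mom (b : ℝ) (q : ℕ) : ∃ C : ℝ, 0 ≤ C ∧ ∀ μ : Measure ℝ, GoodLaw b μ →
    Integrable (fun x => |x| ^ q) μ ∧ ∫ x, |x| ^ q ∂μ ≤ C := by
  refine ⟨2 * q.factorial * Real.exp b, by positivity, fun μ hμ => ?_⟩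
  have h1 := hμ.mgf 1
  have h2 := hμ.mgf (-1)
  have hle : ∀ x : ℝ, |x| ^ q ≤ q.factorial * (Real.exp (1 * x) + Real.exp (-1 * x)) := by
    intro x
    have h3 := Real.pow_div_factorial_le_exp |x| (abs_nonneg x) q
    have h4 : Real.exp |x| ≤ Real.exp (1 * x) + Real.exp (-1 * x) := by
      rcases abs_cases x with ⟨h, _⟩ | ⟨h, _⟩
      · rw [h, one_mul]; linarith [Real.exp_pos (-1 * x)]
      · rw [h, neg_one_mul]; linarith [Real.exp_pos (1 * x)]
    have h5 : (0 : ℝ) < q.factorial := by exact_mod_cast q.factorial_pos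
    rw [div_le_iff₀ h5] at h3
    calc |x| ^ q ≤ Real.exp |x| * q.factorial := h3
      _ ≤ (Real.exp (1 * x) + Real.exp (-1 * x)) * q.factorial :=
        mul_le_mul_of_nonneg_right h4 h5.le
      _ = _ := by ring
  have hmaj : Integrable (fun x : ℝ => q.factorial * (Real.exp (1 * x) + Real.exp (-1 * x))) μ :=
    (h1.1.add h2.1).const_mul _
  have hint : Integrable (fun x : ℝ => |x| ^ q) μ := by
    refine hmaj.mono' (by fun_prop) (Eventually.of_forall fun x => ?_)
    rw [Real.norm_eq_abs, abs_of_nonneg (by positivity)]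
    exact hle x
  refine ⟨hint, ?_⟩
  calc ∫ x, |x| ^ q ∂μ ≤ ∫ x, (q.factorial * (Real.exp (1 * x) + Real.exp (-1 * x))) ∂μ :=
        integral_mono hint hmaj hle
    _ = q.factorial * (∫ x, Real.exp (1 * x) ∂μ + ∫ x, Real.exp (-1 * x) ∂μ) := by
        rw [integral_const_mul, integral_add h1.1 h2.1]
    _ ≤ q.factorial * (Real.exp (b * 1 ^ 2) + Real.exp (b * (-1) ^ 2)) := by
        refine mul_le_mul_of_nonneg_left (add_le_add h1.2 h2.2) (by positivity)
    _ = 2 * q.factorial * Real.exp b := by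
        norm_num; ring

namespace MixAux

lemma exp_abs_le (c x : ℝ) : Real.exp (c * |x|) ≤ Real.exp (c * x) + Real.exp (-c * x) := by
  rcases abs_cases x with ⟨h, _⟩ | ⟨h, _⟩
  · rw [h]; linarith [Real.exp_pos (-c * x)]
  · rw [h]
    have : c * -x = -c * x := by ring
    rw [this]; linarith [Real.exp_pos (c * x)]

lemma integrable_exp_abs {b : ℝ} {μ : Measure ℝ} (hμ : GoodLaw b μ) (c : ℝ) :
    Integrable (fun x : ℝ => Real.exp (c * |x|)) μ := by
  refine ((hμ.mgf c).1.add (hμ.mgf (-c)).1).mono' (by fun_prop) (Eventually.of_forall fun x => ?_)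
  rw [Real.norm_eq_abs, abs_of_pos (Real.exp_pos _)]
  exact exp_abs_le c x

lemma poly_le (t : ℝ) (ht : 0 ≤ t) (p : ℕ) : (1 + t) ^ p ≤ p.factorial * (Real.exp 1 * Real.exp t) := by
  have h3 := Real.pow_div_factorial_le_exp (1 + t) (by linarith) p
  have h5 : (0 : ℝ) < p.factorial := by exact_mod_cast p.factorial_pos
  rw [div_le_iff₀ h5, Real.exp_add] at h3
  linarith

end MixAux

theorem integrable_poly {n : ℕ} {b : ℝ} {μ : Sym2 (Fin n) → Measure ℝ}
    (hμ : ∀ e, GoodLaw b (μ e)) {G : Type} [NormedAddCommGroup G] [NormedSpace ℝ G]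
    (F : Ent n → G) (hF : AEStronglyMeasurable F (Measure.pi μ)) (C : ℝ) (p : ℕ)
    (h : ∀ ω, ‖F ω‖ ≤ C * (1 + ∑ e, |ω e|) ^ p) : Integrable F (Measure.pi μ) := by
  have : ∀ e, IsProbabilityMeasure (μ e) := fun e => (hμ e).prob
  have hprod : Integrable (fun ω : Ent n => ∏ e, Real.exp (1 * |ω e|)) (Measure.pi μ) :=
    Integrable.fintype_prod_dep (f := fun _ (x : ℝ) => Real.exp (1 * |x|))
      (fun e => MixAux.integrable_exp_abs (hμ e) 1)
  refine ((hprod.const_mul (|C| * p.factorial * Real.exp 1))).mono' hF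
    (Eventually.of_forall fun ω => ?_)
  have hs : 0 ≤ ∑ e, |ω e| := Finset.sum_nonneg fun e _ => abs_nonneg _
  have h1 := MixAux.poly_le _ hs p
  calc ‖F ω‖ ≤ C * (1 + ∑ e, |ω e|) ^ p := h ω
    _ ≤ |C| * (1 + ∑ e, |ω e|) ^ p := mul_le_mul_of_nonneg_right (le_abs_self C) (by positivity)
    _ ≤ |C| * (p.factorial * (Real.exp 1 * Real.exp (∑ e, |ω e|))) :=
        mul_le_mul_of_nonneg_left h1 (abs_nonneg _)
    _ = |C| * p.factorial * Real.exp 1 * ∏ e, Real.exp (1 * |ω e|) := by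
        rw [Real.exp_sum]; simp only [one_mul]; ring

theorem GoodPair.isProb {b σ : ℝ} {ν : Measure (ℝ × ℝ)} (h : GoodPair b σ ν) :
    IsProbabilityMeasure ν := by
  have h1 := h.fst.prob
  refine ⟨?_⟩
  have := h1.measure_univ
  rwa [Measure.map_apply measurable_fst MeasurableSet.univ, Set.preimage_univ] at this

theorem integrable_poly_pair {n : ℕ} {b : ℝ} {σ : Sym2 (Fin n) → ℝ}
    {ν : Sym2 (Fin n) → Measure (ℝ × ℝ)}
    (hν : ∀ e, GoodPair b (σ e) (ν e)) {G : Type} [NormedAddCommGroup G] [NormedSpace ℝ G]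
    (F : (Sym2 (Fin n) → ℝ × ℝ) → G) (hF : AEStronglyMeasurable F (Measure.pi ν)) (C : ℝ) (p : ℕ)
    (h : ∀ ω, ‖F ω‖ ≤ C * (1 + ∑ e, (|fX ω e| + |fY ω e|)) ^ p) :
    Integrable F (Measure.pi ν) := by
  have : ∀ e, IsProbabilityMeasure (ν e) := fun e => (hν e).isProb
  have hone : ∀ e, Integrable (fun x : ℝ × ℝ => Real.exp (|x.1| + |x.2|)) (ν e) := by
    intro e
    have h1 : Integrable (fun x : ℝ × ℝ => Real.exp (2 * |x.1|)) (ν e) :=
      (MixAux.integrable_exp_abs (hν e).fst 2).comp_measurable measurable_fst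
    have h2 : Integrable (fun x : ℝ × ℝ => Real.exp (2 * |x.2|)) (ν e) :=
      (MixAux.integrable_exp_abs (hν e).snd 2).comp_measurable measurable_snd
    refine (h1.add h2).mono' (by fun_prop) (Eventually.of_forall fun x => ?_)
    rw [Real.norm_eq_abs, abs_of_pos (Real.exp_pos _)]
    have h3 : Real.exp (|x.1| + |x.2|) = Real.exp |x.1| * Real.exp |x.2| := Real.exp_add _ _
    have h4 : Real.exp (2 * |x.1|) = Real.exp |x.1| ^ 2 := by
      rw [← Real.exp_nat_mul]; norm_num
    have h5 : Real.exp (2 * |x.2|) = Real.exp |x.2| ^ 2 := by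
      rw [← Real.exp_nat_mul]; norm_num
    simp only [Pi.add_apply]
    rw [h3, h4, h5]
    nlinarith [sq_nonneg (Real.exp |x.1| - Real.exp |x.2|), sq_nonneg (Real.exp |x.1|),
      sq_nonneg (Real.exp |x.2|)]
  have hprod : Integrable (fun ω : Sym2 (Fin n) → ℝ × ℝ => ∏ e, Real.exp (|(ω e).1| + |(ω e).2|))
      (Measure.pi ν) :=
    Integrable.fintype_prod_dep (f := fun _ (x : ℝ × ℝ) => Real.exp (|x.1| + |x.2|)) hone
  refine ((hprod.const_mul (|C| * p.factorial * Real.exp 1))).mono' hF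
    (Eventually.of_forall fun ω => ?_)
  have hs : 0 ≤ ∑ e, (|fX ω e| + |fY ω e|) := Finset.sum_nonneg fun e _ => by positivity
  have h1 := MixAux.poly_le _ hs p
  calc ‖F ω‖ ≤ C * (1 + ∑ e, (|fX ω e| + |fY ω e|)) ^ p := h ω
    _ ≤ |C| * (1 + ∑ e, (|fX ω e| + |fY ω e|)) ^ p :=
        mul_le_mul_of_nonneg_right (le_abs_self C) (by positivity)
    _ ≤ |C| * (p.factorial * (Real.exp 1 * Real.exp (∑ e, (|fX ω e| + |fY ω e|)))) :=
        mul_le_mul_of_nonneg_left h1 (abs_nonneg _)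
    _ = |C| * p.factorial * Real.exp 1 * ∏ e, Real.exp (|(ω e).1| + |(ω e).2|) := by
        rw [Real.exp_sum]; simp only [fX, fY]; ring

theorem map_fX {n : ℕ} {b : ℝ} {σ : Sym2 (Fin n) → ℝ} {ν : Sym2 (Fin n) → Measure (ℝ × ℝ)}
    (hν : ∀ e, GoodPair b (σ e) (ν e)) :
    (Measure.pi ν).map fX = Measure.pi (fun e => (ν e).map Prod.fst) := by
  have : ∀ e, IsProbabilityMeasure ((ν e).map Prod.fst) := fun e => (hν e).fst.prob
  exact Measure.pi_map_pi (f := fun _ (x : ℝ × ℝ) => x.1) (fun e => measurable_fst.aemeasurable)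

theorem map_fY {n : ℕ} {b : ℝ} {σ : Sym2 (Fin n) → ℝ} {ν : Sym2 (Fin n) → Measure (ℝ × ℝ)}
    (hν : ∀ e, GoodPair b (σ e) (ν e)) :
    (Measure.pi ν).map fY = Measure.pi (fun e => (ν e).map Prod.snd) := by
  have : ∀ e, IsProbabilityMeasure ((ν e).map Prod.snd) := fun e => (hν e).snd.prob
  exact Measure.pi_map_pi (f := fun _ (x : ℝ × ℝ) => x.2) (fun e => measurable_snd.aemeasurable)

end Mix

end Pool.Agent.Eig
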