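import Mathlib

/-!
Moments of linear and quadratic forms in independent variables
(block version: the variables `(u j, v j, w j)` are independent over `j`).
-/

open MeasureTheory ProbabilityTheory
open scoped ENNReal

namespace TopRes

/-- second order Taylor inequality for `|a+z|^{2p}` -/
theorem taylor_pow (p : ℕ) (hp : 1 ≤ p) : ∃ C : ℝ, 0 ≤ C ∧ ∀ a z : ℂ,
    ‖a + z‖ ^ (2 * p) ≤ ‖a‖ ^ (2 * p)
      + 2 * p * ‖a‖ ^ (2 * p - 2) * (starRingEnd ℂ a * z).re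
      + C * (‖a‖ ^ (2 * p - 2) * ‖z‖ ^ 2 + ‖z‖ ^ (2 * p)) := by
  induction p, hp using Nat.le_induction with
  | base =>
    refine ⟨1, zero_le_one, fun a z => ?_⟩
    have h : ‖a + z‖ ^ 2 = ‖a‖ ^ 2 + 2 * (starRingEnd ℂ a * z).re + ‖z‖ ^ 2 := by
      simp only [← Complex.normSq_eq_norm_sq, Complex.normSq_apply, Complex.mul_re,
        Complex.conj_re, Complex.conj_im, Complex.add_re, Complex.add_im]
      ring
    have hz := sq_nonneg ‖z‖
    simp only [Nat.mul_one, Nat.sub_self, pow_zero, one_mul, mul_one, Nat.cast_one]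
    linarith [h]
  | succ p hp ih =>
    obtain ⟨C, hC, ih⟩ := ih
    refine ⟨1 + 4 * p + 2 * p + 8 * C, by positivity, fun a z => ?_⟩
    set R := (starRingEnd ℂ a * z).re with hR
    have h : ‖a + z‖ ^ 2 = ‖a‖ ^ 2 + 2 * R + ‖z‖ ^ 2 := by
      simp only [hR, ← Complex.normSq_eq_norm_sq, Complex.normSq_apply, Complex.mul_re,
        Complex.conj_re, Complex.conj_im, Complex.add_re, Complex.add_im]
      ring
    have hRle : |R| ≤ ‖a‖ * ‖z‖ := by
      rw [hR]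
      refine (Complex.abs_re_le_norm _).trans ?_
      simp
    have e1 : 2 * (p + 1) = 2 * p + 2 := by ring
    have e2 : 2 * (p + 1) - 2 = 2 * p := by omega
    rw [e2, e1]
    set x := ‖a‖ with hx
    set y := ‖z‖ with hy
    have hx0 : 0 ≤ x := norm_nonneg _
    have hy0 : 0 ≤ y := norm_nonneg _
    have hstep : ‖a + z‖ ^ (2 * p + 2) ≤
        (x ^ (2 * p) + 2 * p * x ^ (2 * p - 2) * R + C * (x ^ (2 * p - 2) * y ^ 2 + y ^ (2 * p)))
          * (x ^ 2 + 2 * R + y ^ 2) := by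
      rw [pow_add, ← h]
      exact mul_le_mul_of_nonneg_right (ih a z) (by positivity)
    obtain ⟨m, rfl⟩ : ∃ m, p = m + 1 := ⟨p - 1, by omega⟩
    have e3 : 2 * (m + 1) - 2 = 2 * m := by omega
    rw [e3] at hstep
    refine hstep.trans ?_
    have hR1 : R ≤ x * y := (le_abs_self R).trans hRle
    have hR2 : R ^ 2 ≤ x ^ 2 * y ^ 2 := by
      rw [← sq_abs R, ← mul_pow]
      exact pow_le_pow_left₀ (abs_nonneg _) hRle 2
    -- expand
    have hx2m : 0 ≤ x ^ (2 * m) := by positivity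
    have A1 : x ^ (2 * m) * R ^ 2 ≤ x ^ (2 * m) * (x ^ 2 * y ^ 2) :=
      mul_le_mul_of_nonneg_left hR2 hx2m
    have A2 : x ^ (2 * m) * R * y ^ 2 ≤ x ^ (2 * m) * (x ^ 2 * y ^ 2) + y ^ (2 * m + 2) * y ^ 2 := by
      rcases le_total y x with hyx | hyx
      · have : x ^ (2 * m) * R * y ^ 2 ≤ x ^ (2 * m) * (x * x) * y ^ 2 := by
          gcongr
          exact hR1.trans (by gcongr)
        have h2 : 0 ≤ y ^ (2 * m + 2) * y ^ 2 := by positivity
        nlinarith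
      · have : x ^ (2 * m) * R * y ^ 2 ≤ y ^ (2 * m) * (y * y) * y ^ 2 := by
          have h3 : x ^ (2 * m) * R ≤ x ^ (2 * m) * (x * y) := by gcongr
          have h4 : x ^ (2 * m) * (x * y) ≤ y ^ (2 * m) * (y * y) := by gcongr
          have h5 : 0 ≤ y ^ 2 := by positivity
          nlinarith
        have h2 : 0 ≤ x ^ (2 * m) * (x ^ 2 * y ^ 2) := by positivity
        have h6 : y ^ (2 * m) * (y * y) * y ^ 2 = y ^ (2 * m + 2) * y ^ 2 := by ring
        linarith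
    have A3 : (x ^ (2 * m) * y ^ 2 + y ^ (2 * (m + 1))) * (x ^ 2 + 2 * R + y ^ 2)
        ≤ 8 * (x ^ (2 * m) * (x ^ 2 * y ^ 2) + y ^ (2 * m + 2) * y ^ 2) := by
      have h7 : x ^ 2 + 2 * R + y ^ 2 ≤ (x + y) ^ 2 := by nlinarith
      have h8 : 0 ≤ x ^ (2 * m) * y ^ 2 + y ^ (2 * (m + 1)) := by positivity
      refine (mul_le_mul_of_nonneg_left h7 h8).trans ?_
      rcases le_total y x with hyx | hyx
      · have h9 : (x + y) ^ 2 ≤ 4 * x ^ 2 := by nlinarith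
        have h10 : x ^ (2 * m) * y ^ 2 + y ^ (2 * (m + 1)) ≤ 2 * (x ^ (2 * m) * y ^ 2) := by
          have : y ^ (2 * (m + 1)) = y ^ (2 * m) * y ^ 2 := by ring
          rw [this]
          have : y ^ (2 * m) * y ^ 2 ≤ x ^ (2 * m) * y ^ 2 := by gcongr
          linarith
        calc (x ^ (2 * m) * y ^ 2 + y ^ (2 * (m + 1))) * (x + y) ^ 2
            ≤ (2 * (x ^ (2 * m) * y ^ 2)) * (4 * x ^ 2) := by gcongr
          _ = 8 * (x ^ (2 * m) * (x ^ 2 * y ^ 2)) := by ring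
          _ ≤ _ := by
            have : 0 ≤ y ^ (2 * m + 2) * y ^ 2 := by positivity
            linarith
      · have h9 : (x + y) ^ 2 ≤ 4 * y ^ 2 := by nlinarith
        have h10 : x ^ (2 * m) * y ^ 2 + y ^ (2 * (m + 1)) ≤ 2 * (y ^ (2 * m) * y ^ 2) := by
          have : y ^ (2 * (m + 1)) = y ^ (2 * m) * y ^ 2 := by ring
          rw [this]
          have : x ^ (2 * m) * y ^ 2 ≤ y ^ (2 * m) * y ^ 2 := by gcongr
          linarith
        calc (x ^ (2 * m) * y ^ 2 + y ^ (2 * (m + 1))) * (x + y) ^ 2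
            ≤ (2 * (y ^ (2 * m) * y ^ 2)) * (4 * y ^ 2) := by gcongr
          _ = 8 * (y ^ (2 * m + 2) * y ^ 2) := by ring
          _ ≤ _ := by
            have : 0 ≤ x ^ (2 * m) * (x ^ 2 * y ^ 2) := by positivity
            linarith
    have A3' := mul_le_mul_of_nonneg_left A3 hC
    have hpm : (0:ℝ) ≤ ((m + 1 : ℕ) : ℝ) := by positivity
    have A1' := mul_le_mul_of_nonneg_left A1 hpm
    have A2' := mul_le_mul_of_nonneg_left A2 hpm
    push_cast at *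
    have E1 : x ^ (2 * (m + 1)) = x ^ (2 * m) * x ^ 2 := by ring
    have E2 : x ^ (2 * (m + 1) + 2) = x ^ (2 * m) * x ^ 2 * x ^ 2 := by ring
    have E3 : y ^ (2 * (m + 1) + 2) = y ^ (2 * m + 2) * y ^ 2 := by ring
    have hpos1 : 0 ≤ x ^ (2 * m) * (x ^ 2 * y ^ 2) := by positivity
    have hpos2 : 0 ≤ y ^ (2 * m + 2) * y ^ 2 := by positivity
    have hm0 : (0:ℝ) ≤ (m:ℝ) := by positivity
    have hmul1 : 0 ≤ (m:ℝ) * (y ^ (2 * m + 2) * y ^ 2) := by positivity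
    have hmul2 : 0 ≤ (m:ℝ) * (x ^ (2 * m) * (x ^ 2 * y ^ 2)) := by positivity
    have key : (x ^ (2 * (m + 1)) + 2 * ((m:ℝ) + 1) * x ^ (2 * m) * R +
        C * (x ^ (2 * m) * y ^ 2 + y ^ (2 * (m + 1)))) * (x ^ 2 + 2 * R + y ^ 2)
        = x ^ (2 * m) * x ^ 2 * x ^ 2 + 2 * (m + 1 + 1) * (x ^ (2 * m) * x ^ 2) * R
          + x ^ (2 * m) * (x ^ 2 * y ^ 2)
          + 4 * (((m:ℝ) + 1) * (x ^ (2 * m) * R ^ 2))
          + 2 * (((m:ℝ) + 1) * (x ^ (2 * m) * R * y ^ 2))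
          + C * ((x ^ (2 * m) * y ^ 2 + y ^ (2 * (m + 1))) * (x ^ 2 + 2 * R + y ^ 2)) := by
      rw [E1]; ring
    rw [key, E1, E2, E3]
    nlinarith [A1', A2', A3', hpos1, hpos2, hmul1, hmul2]

end TopRes
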