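import Pool.Agent.Work.MP_1c1c8a_pr.MomA

open MeasureTheory ProbabilityTheory
open scoped ENNReal NNReal

namespace TopRes

/-- Minkowski for natural powers, lintegral form -/
theorem mink {Ω : Type*} [MeasurableSpace Ω] {μ : Measure Ω} {p : ℕ} (hp : 1 ≤ p)
    {f g : Ω → ℝ≥0∞} (hf : AEMeasurable f μ) (hg : AEMeasurable g μ) {F G : ℝ≥0∞}
    (hF : ∫⁻ ω, f ω ^ p ∂μ ≤ F ^ p) (hG : ∫⁻ ω, g ω ^ p ∂μ ≤ G ^ p) :
    ∫⁻ ω, (f ω + g ω) ^ p ∂μ ≤ (F + G) ^ p := by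
  have hp' : (1:ℝ) ≤ (p:ℝ) := by exact_mod_cast hp
  have hp0 : (0:ℝ) < (p:ℝ) := by linarith
  have h := ENNReal.lintegral_Lp_add_le hf hg hp'
  simp only [Pi.add_apply, ENNReal.rpow_natCast] at h
  have hF' : (∫⁻ ω, f ω ^ p ∂μ) ^ (1 / (p:ℝ)) ≤ F := by
    calc (∫⁻ ω, f ω ^ p ∂μ) ^ (1 / (p:ℝ)) ≤ (F ^ p) ^ (1 / (p:ℝ)) := by gcongr
      _ = F := by
        rw [← ENNReal.rpow_natCast, ← ENNReal.rpow_mul, mul_one_div_cancel hp0.ne', ENNReal.rpow_one]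
  have hG' : (∫⁻ ω, g ω ^ p ∂μ) ^ (1 / (p:ℝ)) ≤ G := by
    calc (∫⁻ ω, g ω ^ p ∂μ) ^ (1 / (p:ℝ)) ≤ (G ^ p) ^ (1 / (p:ℝ)) := by gcongr
      _ = G := by
        rw [← ENNReal.rpow_natCast, ← ENNReal.rpow_mul, mul_one_div_cancel hp0.ne', ENNReal.rpow_one]
  have h2 := h.trans (add_le_add hF' hG')
  calc ∫⁻ ω, (f ω + g ω) ^ p ∂μ
      = ((∫⁻ ω, (f ω + g ω) ^ p ∂μ) ^ (1 / (p:ℝ))) ^ p := by
        rw [← ENNReal.rpow_natCast, ← ENNReal.rpow_mul, one_div_mul_cancel hp0.ne', ENNReal.rpow_one]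
    _ ≤ (F + G) ^ p := by gcongr

theorem const_pow {Ω : Type*} [MeasurableSpace Ω] {μ : Measure Ω} [IsProbabilityMeasure μ] (p : ℕ)
    (c : ℝ≥0∞) : ∫⁻ _ : Ω, c ^ p ∂μ ≤ c ^ p := by simp

/-- the second moment is bounded by the `2p`-th moment -/
theorem second_of_high {Ω : Type*} [MeasurableSpace Ω] {μ : Measure Ω} [IsProbabilityMeasure μ]
    {p : ℕ} (hp : 1 ≤ p) {f : Ω → ℝ≥0∞} (hf : AEMeasurable f μ) {V : ℝ≥0∞}
    (hV : ∫⁻ ω, f ω ^ p ∂μ ≤ V ^ p) : ∫⁻ ω, f ω ∂μ ≤ V := by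
  have hp' : (1:ℝ) ≤ (p:ℝ) := by exact_mod_cast hp
  have hp0 : (0:ℝ) < (p:ℝ) := by linarith
  rcases eq_or_lt_of_le hp' with h1 | h1
  · have : p = 1 := by exact_mod_cast h1.symm
    subst this
    simpa using hV
  · have hc : (p:ℝ).HolderConjugate (Real.conjExponent p) := Real.HolderConjugate.conjExponent h1
    have h := ENNReal.lintegral_mul_le_Lp_mul_Lq μ hc hf (aemeasurable_const (b := (1:ℝ≥0∞)))
    simp only [Pi.mul_apply, mul_one, ENNReal.rpow_natCast, ENNReal.one_rpow, lintegral_const,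
      measure_univ, one_mul] at h
    refine h.trans ?_
    calc (∫⁻ ω, f ω ^ p ∂μ) ^ (1 / (p:ℝ)) ≤ (V ^ p) ^ (1 / (p:ℝ)) := by gcongr
      _ = V := by
        rw [← ENNReal.rpow_natCast, ← ENNReal.rpow_mul, mul_one_div_cancel hp0.ne', ENNReal.rpow_one]

theorem absorb_pow {p : ℕ} (hp : 1 ≤ p) {C s V : ℝ} (hC : 0 ≤ C) (hs : 0 ≤ s) (hV : 0 ≤ V) :
    s ^ p + C * (s ^ (p - 1) * V + V ^ p) ≤ (s + (2 * C + 2) * V) ^ p := by
  obtain ⟨m, rfl⟩ : ∃ m, p = m + 1 := ⟨p - 1, by omega⟩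
  simp only [Nat.add_sub_cancel]
  set t := (2 * C + 2) * V with ht
  have ht0 : 0 ≤ t := by positivity
  have h1 : s ^ m ≤ (s + t) ^ m := pow_le_pow_left₀ hs (by linarith) m
  have h2 : t ^ m ≤ (s + t) ^ m := pow_le_pow_left₀ ht0 (by linarith) m
  have h3 : V ^ m ≤ t ^ m := pow_le_pow_left₀ hV (by rw [ht]; nlinarith) m
  have e1 : (s + t) ^ (m + 1) = (s + t) ^ m * s + (s + t) ^ m * t := by ring
  have e2 : s ^ (m + 1) = s ^ m * s := by ring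
  have e3 : V ^ (m + 1) = V ^ m * V := by ring
  rw [e1, e2, e3]
  have h4 : s ^ m * s ≤ (s + t) ^ m * s := mul_le_mul_of_nonneg_right h1 hs
  have h5 : (s ^ m + V ^ m) * ((C + 1) * V) ≤ (2 * (s + t) ^ m) * ((C + 1) * V) :=
    mul_le_mul_of_nonneg_right (by linarith) (by positivity)
  have h6 : (2 * (s + t) ^ m) * ((C + 1) * V) = (s + t) ^ m * t := by rw [ht]; ring
  have h7 : 0 ≤ (s ^ m + V ^ m) * V := by positivity
  nlinarith

/-- the one step inequality -/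
theorem one_step (p : ℕ) (hp : 1 ≤ p) : ∃ C : ℝ≥0, 1 ≤ C ∧ ∀ {Ω : Type} [MeasurableSpace Ω]
    (μ : Measure Ω) [IsProbabilityMeasure μ] (a : ℂ) (Z : Ω → ℂ) (_ : AEStronglyMeasurable Z μ)
    (_ : ∫ ω, Z ω ∂μ = 0) (V : ℝ≥0∞) (_ : ∫⁻ ω, (‖Z ω‖ₑ ^ 2) ^ p ∂μ ≤ V ^ p),
    ∫⁻ ω, (‖a + Z ω‖ₑ ^ 2) ^ p ∂μ ≤ (‖a‖ₑ ^ 2 + C * V) ^ p := by
  obtain ⟨C, hC, ht⟩ := taylor_pow p hp
  refine ⟨Real.toNNReal (2 * C + 2), ?_, ?_⟩
  · rw [Real.le_toNNReal_iff_coe_le (by positivity)]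
    simp only [NNReal.coe_one]
    linarith
  intro Ω _ μ _ a Z hZ hZ0 V hV
  rcases eq_or_ne V ∞ with rfl | hVtop
  · have hne : ((Real.toNNReal (2 * C + 2) : ℝ≥0) : ℝ≥0∞) ≠ 0 := by
      rw [ne_eq, ENNReal.coe_eq_zero, Real.toNNReal_eq_zero]
      intro h
      linarith
    rw [ENNReal.mul_top hne, add_top, ENNReal.top_pow (by omega)]
    exact le_top
  -- integrability
  have hsec : ∫⁻ ω, ‖Z ω‖ₑ ^ 2 ∂μ ≤ V :=
    second_of_high hp (hZ.enorm.pow_const 2) hV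
  have hpow : ∀ ω, (‖Z ω‖ₑ ^ 2) ^ p = ‖Z ω‖ₑ ^ (2 * p) := fun ω => (pow_mul _ _ _).symm
  have hint2p : Integrable (fun ω => ‖Z ω‖ ^ (2 * p)) μ := by
    refine ⟨(hZ.norm.aemeasurable.pow_const _).aestronglyMeasurable, ?_⟩
    rw [hasFiniteIntegral_iff_enorm]
    have : ∀ ω, ‖‖Z ω‖ ^ (2 * p)‖ₑ = (‖Z ω‖ₑ ^ 2) ^ p := by
      intro ω
      rw [hpow, enorm_pow, enorm_norm]
    simp only [this]
    exact hV.trans_lt (ENNReal.pow_lt_top hVtop.lt_top)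
  have hint2 : Integrable (fun ω => ‖Z ω‖ ^ 2) μ := by
    refine ⟨(hZ.norm.aemeasurable.pow_const _).aestronglyMeasurable, ?_⟩
    rw [hasFiniteIntegral_iff_enorm]
    have : ∀ ω, ‖‖Z ω‖ ^ 2‖ₑ = ‖Z ω‖ₑ ^ 2 := by
      intro ω
      rw [enorm_pow, enorm_norm]
    simp only [this]
    exact hsec.trans_lt hVtop.lt_top
  have hint1 : Integrable Z μ := by
    have : MemLp Z 2 μ := by
      rw [memLp_two_iff_integrable_sq_norm hZ]
      exact hint2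
    exact this.integrable (by norm_num)
  set v := V.toReal with hv
  have hv0 : 0 ≤ v := ENNReal.toReal_nonneg
  have hI2 : ∫ ω, ‖Z ω‖ ^ 2 ∂μ ≤ v := by
    have h1 : ENNReal.ofReal (∫ ω, ‖Z ω‖ ^ 2 ∂μ) ≤ V := by
      rw [ofReal_integral_eq_lintegral_ofReal hint2 (Filter.Eventually.of_forall fun _ => by positivity)]
      refine le_trans (le_of_eq ?_) hsec
      refine lintegral_congr fun ω => ?_
      rw [ENNReal.ofReal_pow (norm_nonneg _), ofReal_norm]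
    have h2 := ENNReal.toReal_mono hVtop h1
    rwa [ENNReal.toReal_ofReal (integral_nonneg fun _ => by positivity)] at h2
  have hI2p : ∫ ω, ‖Z ω‖ ^ (2 * p) ∂μ ≤ v ^ p := by
    have h1 : ENNReal.ofReal (∫ ω, ‖Z ω‖ ^ (2 * p) ∂μ) ≤ V ^ p := by
      rw [ofReal_integral_eq_lintegral_ofReal hint2p (Filter.Eventually.of_forall fun _ => by positivity)]
      refine le_trans (le_of_eq ?_) hV
      refine lintegral_congr fun ω => ?_
      rw [ENNReal.ofReal_pow (norm_nonneg _), ofReal_norm, pow_mul]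
    have h2 := ENNReal.toReal_mono (ENNReal.pow_ne_top hVtop) h1
    rwa [ENNReal.toReal_ofReal (integral_nonneg fun _ => by positivity), ENNReal.toReal_pow] at h2
  -- the upper function
  set U : Ω → ℝ := fun ω => ‖a‖ ^ (2 * p)
      + 2 * p * ‖a‖ ^ (2 * p - 2) * (starRingEnd ℂ a * Z ω).re
      + C * (‖a‖ ^ (2 * p - 2) * ‖Z ω‖ ^ 2 + ‖Z ω‖ ^ (2 * p)) with hU
  have hre : Integrable (fun ω => (starRingEnd ℂ a * Z ω).re) μ := (hint1.const_mul _).re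
  have hUint : Integrable U μ := by
    refine ((integrable_const _).add (hre.const_mul _)).add ?_
    exact ((hint2.const_mul _).add hint2p).const_mul _
  have hUI : ∫ ω, U ω ∂μ ≤ (‖a‖ ^ 2 + (2 * C + 2) * v) ^ p := by
    have e : ∫ ω, U ω ∂μ = ‖a‖ ^ (2 * p)
      + 2 * p * ‖a‖ ^ (2 * p - 2) * (∫ ω, (starRingEnd ℂ a * Z ω).re ∂μ)
      + C * (‖a‖ ^ (2 * p - 2) * (∫ ω, ‖Z ω‖ ^ 2 ∂μ) + ∫ ω, ‖Z ω‖ ^ (2 * p) ∂μ) := by
      rw [hU, integral_add, integral_add, integral_const_mul, integral_const_mul, integral_add,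
        integral_const_mul]
      · simp
      · exact hint2.const_mul _
      · exact hint2p
      · exact integrable_const _
      · exact hre.const_mul _
      · exact (integrable_const _).add (hre.const_mul _)
      · exact ((hint2.const_mul _).add hint2p).const_mul _
    have ere : ∫ ω, (starRingEnd ℂ a * Z ω).re ∂μ = 0 := by
      have h1 : ∫ ω, (starRingEnd ℂ a * Z ω).re ∂μ = (∫ ω, starRingEnd ℂ a * Z ω ∂μ).re := by
        exact integral_re (hint1.const_mul _)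
      rw [h1, integral_const_mul, hZ0]
      simp
    rw [e, ere, mul_zero, add_zero]
    have h3 := absorb_pow hp hC (sq_nonneg ‖a‖) hv0
    have e1 : ‖a‖ ^ (2 * p) = (‖a‖ ^ 2) ^ p := by rw [pow_mul]
    have e2 : ‖a‖ ^ (2 * p - 2) = (‖a‖ ^ 2) ^ (p - 1) := by
      rw [← pow_mul]
      congr 1
      omega
    rw [e1, e2]
    refine le_trans ?_ h3
    gcongr
  have hle : ∀ ω, ‖a + Z ω‖ ^ (2 * p) ≤ U ω := fun ω => ht a (Z ω)
  have hfin : ENNReal.ofReal (∫ ω, U ω ∂μ) ≤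
      (‖a‖ₑ ^ 2 + ((Real.toNNReal (2 * C + 2) : ℝ≥0) : ℝ≥0∞) * V) ^ p := by
    refine (ENNReal.ofReal_le_ofReal hUI).trans (le_of_eq ?_)
    rw [ENNReal.ofReal_pow (by positivity), ENNReal.ofReal_add (by positivity) (by positivity),
      ENNReal.ofReal_pow (norm_nonneg _), ofReal_norm,
      ENNReal.ofReal_mul (by positivity), hv, ENNReal.ofReal_toReal hVtop]
    rfl
  refine le_trans ?_ hfin
  rw [ofReal_integral_eq_lintegral_ofReal hUint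
    (Filter.Eventually.of_forall fun ω => le_trans (by positivity) (hle ω))]
  refine lintegral_mono fun ω => ?_
  rw [← pow_mul, ← ofReal_norm, ← ENNReal.ofReal_pow (norm_nonneg _)]
  exact ENNReal.ofReal_le_ofReal (hle ω)

end TopRes
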