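import Pool.Agent.Work.MP_1c1c8a_pr.MomB

open MeasureTheory ProbabilityTheory
open scoped ENNReal NNReal

namespace TopRes

section pi

variable {ι : Type} [Fintype ι] [DecidableEq ι] {E : Type} [MeasurableSpace E]
  (ν : ι → Measure E) [∀ e, IsProbabilityMeasure (ν e)]

/-- integrate one coordinate first -/
theorem lintegral_pi_update (e : ι) {F : (ι → E) → ℝ≥0∞} (hF : Measurable F) :
    ∫⁻ x, F x ∂(Measure.pi ν) = ∫⁻ x, ∫⁻ y, F (Function.update x e y) ∂(ν e) ∂(Measure.pi ν) := by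
  have h1 : ∀ f : (ι → E) → ℝ≥0∞, Measurable f → ∀ x : ι → E, ∫⁻ x, f x ∂(Measure.pi ν) =
      (∫⋯∫⁻_(Finset.univ.erase e), (∫⋯∫⁻_{e}, f ∂ν) ∂ν) x := by
    intro f hf x
    have h2 := lmarginal_insert' (μ := ν) f hf (Finset.notMem_erase e Finset.univ)
    rw [Finset.insert_erase (Finset.mem_univ e)] at h2
    rw [lintegral_eq_lmarginal_univ x, h2, lmarginal_singleton]
  obtain ⟨x0⟩ : Nonempty (ι → E) := by
    have : ∀ i, Nonempty E := fun i => (ν i).nonempty_of_neZero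
    exact ⟨fun i => (this i).some⟩
  have hg : Measurable (fun x => ∫⁻ y, F (Function.update x e y) ∂(ν e)) := by
    have := Measurable.lmarginal ν (s := {e}) hF
    rw [lmarginal_singleton] at this
    exact this
  rw [h1 F hF x0, h1 _ hg x0]
  congr 1
  rw [lmarginal_singleton, lmarginal_singleton]
  ext x
  simp

theorem enorm_cast (r : ℝ) : ‖(r : ℂ)‖ₑ = ‖r‖ₑ := by
  rw [← ofReal_norm, Complex.norm_real, ofReal_norm]

theorem int0 {E : Type} [MeasurableSpace E] {μ : Measure E} {g : E → ℝ}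
    (h : ∫ y, g y ∂μ = 0) : ∫ y, ((g y : ℝ) : ℂ) ∂μ = 0 := by
  have h1 : ∫ y, ((g y : ℝ) : ℂ) ∂μ = ((∫ y, g y ∂μ : ℝ) : ℂ) :=
    integral_ofReal (𝕜 := ℂ) (f := g) (μ := μ)
  rw [h1, h]
  simp

theorem enorm_add_sq_le (a b : ℂ) : ‖a + b‖ₑ ^ 2 ≤ 2 * (‖a‖ₑ ^ 2 + ‖b‖ₑ ^ 2) := by
  have h : ‖a + b‖ ^ 2 ≤ 2 * (‖a‖ ^ 2 + ‖b‖ ^ 2) := by
    have := norm_add_le a b
    have h0 := norm_nonneg (a + b)
    nlinarith [sq_nonneg (‖a‖ - ‖b‖)]
  have e : ∀ c : ℂ, ‖c‖ₑ ^ 2 = ENNReal.ofReal (‖c‖ ^ 2) := fun c => by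
    rw [ENNReal.ofReal_pow (norm_nonneg _), ofReal_norm]
  rw [e, e, e, ← ENNReal.ofReal_add (by positivity) (by positivity)]
  have e2 : (2 : ℝ≥0∞) = ENNReal.ofReal 2 := by simp
  rw [e2, ← ENNReal.ofReal_mul (by positivity)]
  exact ENNReal.ofReal_le_ofReal h

theorem enorm_add3_sq_le (a b c : ℂ) :
    ‖a + b + c‖ₑ ^ 2 ≤ 3 * ‖a‖ₑ ^ 2 + 3 * ‖b‖ₑ ^ 2 + 3 * ‖c‖ₑ ^ 2 := by
  have h : ‖a + b + c‖ ^ 2 ≤ 3 * ‖a‖ ^ 2 + 3 * ‖b‖ ^ 2 + 3 * ‖c‖ ^ 2 := by
    have h1 := norm_add_le (a + b) c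
    have h2 := norm_add_le a b
    have h0 := norm_nonneg (a + b + c)
    have h3 : ‖a + b + c‖ ≤ ‖a‖ + ‖b‖ + ‖c‖ := by linarith
    have h4 : ‖a + b + c‖ ^ 2 ≤ (‖a‖ + ‖b‖ + ‖c‖) ^ 2 := pow_le_pow_left₀ h0 h3 2
    nlinarith [sq_nonneg (‖a‖ - ‖b‖), sq_nonneg (‖a‖ - ‖c‖), sq_nonneg (‖b‖ - ‖c‖)]
  have e : ∀ c : ℂ, ‖c‖ₑ ^ 2 = ENNReal.ofReal (‖c‖ ^ 2) := fun c => by
    rw [ENNReal.ofReal_pow (norm_nonneg _), ofReal_norm]
  have e2 : (3 : ℝ≥0∞) = ENNReal.ofReal 3 := by simp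
  rw [e, e, e, e, e2, ← ENNReal.ofReal_mul (by positivity), ← ENNReal.ofReal_mul (by positivity),
    ← ENNReal.ofReal_mul (by positivity), ← ENNReal.ofReal_add (by positivity) (by positivity),
    ← ENNReal.ofReal_add (by positivity) (by positivity)]
  exact ENNReal.ofReal_le_ofReal h

end pi

/-- Moments of linear and quadratic forms in independent coordinates (block version). -/
theorem block (p : ℕ) (hp : 1 ≤ p) : ∃ C : ℝ≥0, 1 ≤ C ∧
    (∀ (ι : Type) [Fintype ι] [DecidableEq ι] (E : Type) [MeasurableSpace E] (ν : ι → Measure E)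
      [∀ e, IsProbabilityMeasure (ν e)] (M : ℝ≥0) (u : ι → E → ℝ) (_ : ∀ e, Measurable (u e))
      (_ : ∀ e, ∫ y, u e y ∂(ν e) = 0) (_ : ∀ e, ∫⁻ y, (‖u e y‖ₑ ^ 2) ^ p ∂(ν e) ≤ (M : ℝ≥0∞) ^ p)
      (B : ι → ℂ) (s : Finset ι),
      ∫⁻ x, (‖∑ e ∈ s, B e * ((u e (x e) : ℝ) : ℂ)‖ₑ ^ 2) ^ p ∂(Measure.pi ν) ≤
        (C * M * ∑ e ∈ s, ‖B e‖ₑ ^ 2) ^ p) ∧
    (∀ (ι : Type) [Fintype ι] [DecidableEq ι] (E : Type) [MeasurableSpace E] (ν : ι → Measure E)
      [∀ e, IsProbabilityMeasure (ν e)] (M : ℝ≥0) (_ : 1 ≤ M) (u v w : ι → E → ℝ)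
      (_ : ∀ e, Measurable (u e)) (_ : ∀ e, Measurable (v e)) (_ : ∀ e, Measurable (w e))
      (_ : ∀ e, ∫ y, u e y ∂(ν e) = 0) (_ : ∀ e, ∫ y, v e y ∂(ν e) = 0)
      (_ : ∀ e, ∫ y, w e y ∂(ν e) = 0)
      (_ : ∀ e, ∫⁻ y, (‖u e y‖ₑ ^ 2) ^ p ∂(ν e) ≤ (M : ℝ≥0∞) ^ p)
      (_ : ∀ e, ∫⁻ y, (‖v e y‖ₑ ^ 2) ^ p ∂(ν e) ≤ (M : ℝ≥0∞) ^ p)
      (_ : ∀ e, ∫⁻ y, (‖w e y‖ₑ ^ 2) ^ p ∂(ν e) ≤ (M : ℝ≥0∞) ^ p)
      (B : ι → ι → ℂ) (s : Finset ι),
      ∫⁻ x, (‖∑ e ∈ s, ∑ f ∈ s, (if e = f then B e e * ((w e (x e) : ℝ) : ℂ)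
          else B e f * (((u e (x e) : ℝ) : ℂ) * ((v f (x f) : ℝ) : ℂ)))‖ₑ ^ 2) ^ p
          ∂(Measure.pi ν) ≤
        (C * M ^ 2 * ∑ e ∈ s, ∑ f ∈ s, ‖B e f‖ₑ ^ 2) ^ p) := by
  obtain ⟨C, hC1, hC⟩ := one_step p hp
  have hlin : ∀ (ι : Type) [Fintype ι] [DecidableEq ι] (E : Type) [MeasurableSpace E]
      (ν : ι → Measure E)
      [∀ e, IsProbabilityMeasure (ν e)] (M : ℝ≥0) (u : ι → E → ℝ) (_ : ∀ e, Measurable (u e))
      (_ : ∀ e, ∫ y, u e y ∂(ν e) = 0) (_ : ∀ e, ∫⁻ y, (‖u e y‖ₑ ^ 2) ^ p ∂(ν e) ≤ (M : ℝ≥0∞) ^ p)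
      (B : ι → ℂ) (s : Finset ι),
      ∫⁻ x, (‖∑ e ∈ s, B e * ((u e (x e) : ℝ) : ℂ)‖ₑ ^ 2) ^ p ∂(Measure.pi ν) ≤
        (C * M * ∑ e ∈ s, ‖B e‖ₑ ^ 2) ^ p := by
    intro ι _ _ E _ ν _ M u hum hu0 hu B s
    have hmeas : ∀ s : Finset ι, Measurable fun x : ι → E =>
        ∑ e ∈ s, B e * ((u e (x e) : ℝ) : ℂ) := by
      intro s
      refine Finset.measurable_sum _ fun e _ => ?_
      exact (Complex.measurable_ofReal.comp ((hum e).comp (measurable_pi_apply e))).const_mul _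
    induction s using Finset.induction_on with
    | empty => simp [show p ≠ 0 by omega]
    | insert e s he ih =>
      rw [lintegral_pi_update ν e (((hmeas _).enorm.pow_const 2).pow_const p)]
      have hstep : ∀ x : ι → E, ∫⁻ y, (‖∑ f ∈ insert e s,
          B f * ((u f (Function.update x e y f) : ℝ) : ℂ)‖ₑ ^ 2) ^ p ∂(ν e) ≤
          (‖∑ f ∈ s, B f * ((u f (x f) : ℝ) : ℂ)‖ₑ ^ 2 + C * (M * ‖B e‖ₑ ^ 2)) ^ p := by
        intro x
        have hrew : ∀ y, ∑ f ∈ insert e s, B f * ((u f (Function.update x e y f) : ℝ) : ℂ) =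
            (∑ f ∈ s, B f * ((u f (x f) : ℝ) : ℂ)) + B e * ((u e y : ℝ) : ℂ) := by
          intro y
          rw [Finset.sum_insert he, Function.update_self, add_comm]
          congr 1
          refine Finset.sum_congr rfl fun f hf => ?_
          rw [Function.update_of_ne (by rintro rfl; exact he hf)]
        simp only [hrew]
        refine hC (ν e) _ _ ?_ ?_ _ ?_
        · exact ((Complex.measurable_ofReal.comp (hum e)).const_mul _).aestronglyMeasurable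
        · rw [integral_const_mul, int0 (hu0 e), mul_zero]
        · calc ∫⁻ y, (‖B e * ((u e y : ℝ) : ℂ)‖ₑ ^ 2) ^ p ∂(ν e)
              = ∫⁻ y, (‖B e‖ₑ ^ 2) ^ p * (‖u e y‖ₑ ^ 2) ^ p ∂(ν e) := by
                refine lintegral_congr fun y => ?_
                rw [enorm_mul, mul_pow, mul_pow, enorm_cast]
            _ = (‖B e‖ₑ ^ 2) ^ p * ∫⁻ y, (‖u e y‖ₑ ^ 2) ^ p ∂(ν e) :=
                lintegral_const_mul _ (((hum e).enorm.pow_const 2).pow_const p)
            _ ≤ (‖B e‖ₑ ^ 2) ^ p * (M : ℝ≥0∞) ^ p := by gcongr; exact hu e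
            _ = (M * ‖B e‖ₑ ^ 2) ^ p := by rw [← mul_pow, mul_comm]
      refine (lintegral_mono hstep).trans ?_
      refine (mink hp ((hmeas s).enorm.pow_const 2).aemeasurable aemeasurable_const ih
        (const_pow p _)).trans (le_of_eq ?_)
      rw [Finset.sum_insert he]
      ring
  refine ⟨3 * C ^ 2, ?_, ?_, ?_⟩
  · calc (1 : ℝ≥0) ≤ 3 * 1 ^ 2 := by norm_num
      _ ≤ 3 * C ^ 2 := by gcongr
  · intro ι _ _ E _ ν _ M u hum hu0 hu B s
    refine (hlin ι E ν M u hum hu0 hu B s).trans ?_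
    have : (C : ℝ≥0∞) ≤ ((3 * C ^ 2 : ℝ≥0) : ℝ≥0∞) := by
      rw [ENNReal.coe_le_coe]
      calc C = 1 * C ^ 1 := by ring
        _ ≤ 3 * C ^ 2 := by gcongr <;> norm_num
    gcongr
  · intro ι _ _ E _ ν _ M hM u v w hum hvm hwm hu0 hv0 hw0 hu hv hw B s
    have hmeas : ∀ s : Finset ι, Measurable fun x : ι → E =>
        ∑ e ∈ s, ∑ f ∈ s, (if e = f then B e e * ((w e (x e) : ℝ) : ℂ)
          else B e f * (((u e (x e) : ℝ) : ℂ) * ((v f (x f) : ℝ) : ℂ))) := by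
      intro s
      refine Finset.measurable_sum _ fun e _ => Finset.measurable_sum _ fun f _ => ?_
      split_ifs
      · exact (Complex.measurable_ofReal.comp ((hwm e).comp (measurable_pi_apply e))).const_mul _
      · exact ((Complex.measurable_ofReal.comp ((hum e).comp (measurable_pi_apply e))).mul
          (Complex.measurable_ofReal.comp ((hvm f).comp (measurable_pi_apply f)))).const_mul _
    have hmL : ∀ (b : ι → ℂ) (g : ι → E → ℝ) (_ : ∀ e, Measurable (g e)) (s : Finset ι),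
        Measurable fun x : ι → E => ∑ e ∈ s, b e * ((g e (x e) : ℝ) : ℂ) := by
      intro b g hg s
      refine Finset.measurable_sum _ fun e _ => ?_
      exact (Complex.measurable_ofReal.comp ((hg e).comp (measurable_pi_apply e))).const_mul _
    induction s using Finset.induction_on with
    | empty => simp [show p ≠ 0 by omega]
    | insert e s he ih =>
      rw [lintegral_pi_update ν e (((hmeas _).enorm.pow_const 2).pow_const p)]
      have hstep : ∀ x : ι → E, ∫⁻ y, (‖∑ a ∈ insert e s, ∑ f ∈ insert e s,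
          (if a = f then B a a * ((w a (Function.update x e y a) : ℝ) : ℂ)
          else B a f * (((u a (Function.update x e y a) : ℝ) : ℂ) *
            ((v f (Function.update x e y f) : ℝ) : ℂ)))‖ₑ ^ 2) ^ p ∂(ν e) ≤
          (‖∑ a ∈ s, ∑ f ∈ s, (if a = f then B a a * ((w a (x a) : ℝ) : ℂ)
            else B a f * (((u a (x a) : ℝ) : ℂ) * ((v f (x f) : ℝ) : ℂ)))‖ₑ ^ 2 +
            C * (3 * (M * ‖B e e‖ₑ ^ 2) +
              3 * (M * ‖∑ f ∈ s, B e f * ((v f (x f) : ℝ) : ℂ)‖ₑ ^ 2) +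
              3 * (M * ‖∑ f ∈ s, B f e * ((u f (x f) : ℝ) : ℂ)‖ₑ ^ 2))) ^ p := by
        intro x
        set P := ∑ a ∈ s, ∑ f ∈ s, (if a = f then B a a * ((w a (x a) : ℝ) : ℂ)
            else B a f * (((u a (x a) : ℝ) : ℂ) * ((v f (x f) : ℝ) : ℂ))) with hP
        set L := ∑ f ∈ s, B e f * ((v f (x f) : ℝ) : ℂ) with hL
        set R := ∑ f ∈ s, B f e * ((u f (x f) : ℝ) : ℂ) with hR
        have hrew : ∀ y, ∑ a ∈ insert e s, ∑ f ∈ insert e s,
          (if a = f then B a a * ((w a (Function.update x e y a) : ℝ) : ℂ)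
          else B a f * (((u a (Function.update x e y a) : ℝ) : ℂ) *
            ((v f (Function.update x e y f) : ℝ) : ℂ))) =
            P + (B e e * ((w e y : ℝ) : ℂ) + L * ((u e y : ℝ) : ℂ) + R * ((v e y : ℝ) : ℂ)) := by
          intro y
          rw [Finset.sum_insert he, Finset.sum_insert he]
          have h1 : ∑ f ∈ s, (if e = f then B e e * ((w e (Function.update x e y e) : ℝ) : ℂ)
              else B e f * (((u e (Function.update x e y e) : ℝ) : ℂ) *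
                ((v f (Function.update x e y f) : ℝ) : ℂ))) = L * ((u e y : ℝ) : ℂ) := by
            rw [hL, Finset.sum_mul]
            refine Finset.sum_congr rfl fun f hf => ?_
            have hne : f ≠ e := by rintro rfl; exact he hf
            rw [if_neg (Ne.symm hne), Function.update_self, Function.update_of_ne hne]
            ring
          have h2 : ∑ a ∈ s, ∑ f ∈ insert e s,
              (if a = f then B a a * ((w a (Function.update x e y a) : ℝ) : ℂ)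
              else B a f * (((u a (Function.update x e y a) : ℝ) : ℂ) *
                ((v f (Function.update x e y f) : ℝ) : ℂ))) = P + R * ((v e y : ℝ) : ℂ) := by
            rw [hR, Finset.sum_mul, hP, ← Finset.sum_add_distrib]
            refine Finset.sum_congr rfl fun a ha => ?_
            have hne : a ≠ e := by rintro rfl; exact he ha
            rw [Finset.sum_insert he, if_neg hne, Function.update_self,
              Function.update_of_ne hne, add_comm]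
            congr 1
            · refine Finset.sum_congr rfl fun f hf => ?_
              have hne' : f ≠ e := by rintro rfl; exact he hf
              rw [Function.update_of_ne hne']
            · ring
          rw [h1, h2, if_pos rfl, Function.update_self]
          ring
        simp only [hrew]
        refine hC (ν e) _ _ ?_ ?_ _ ?_
        · exact (((Complex.measurable_ofReal.comp (hwm e)).const_mul _).add
            ((Complex.measurable_ofReal.comp (hum e)).const_mul _)).add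
            ((Complex.measurable_ofReal.comp (hvm e)).const_mul _) |>.aestronglyMeasurable
        · have hint : ∀ (g : E → ℝ), Measurable g → ∫⁻ y, (‖g y‖ₑ ^ 2) ^ p ∂(ν e) ≤ (M:ℝ≥0∞) ^ p →
              Integrable (fun y => ((g y : ℝ) : ℂ)) (ν e) := by
            intro g hg hgM
            have h2 : ∫⁻ y, ‖g y‖ₑ ^ 2 ∂(ν e) ≤ M :=
              second_of_high hp (hg.enorm.pow_const 2).aemeasurable hgM
            have : MemLp g 2 (ν e) := by
              rw [memLp_two_iff_integrable_sq_norm hg.aestronglyMeasurable]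
              refine ⟨(hg.norm.pow_const 2).aestronglyMeasurable, ?_⟩
              rw [hasFiniteIntegral_iff_enorm]
              have h3 : ∀ y, ‖‖g y‖ ^ 2‖ₑ = ‖g y‖ₑ ^ 2 := by
                intro y
                rw [enorm_pow, enorm_norm]
              simp only [h3]
              exact h2.trans_lt ENNReal.coe_lt_top
            exact (this.integrable (by norm_num)).ofReal
          have iw := hint _ (hwm e) (hw e)
          have iu := hint _ (hum e) (hu e)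
          have iv := hint _ (hvm e) (hv e)
          have e1 : ∫ y, (B e e * ((w e y : ℝ) : ℂ) + L * ((u e y : ℝ) : ℂ) +
              R * ((v e y : ℝ) : ℂ)) ∂(ν e) = (∫ y, B e e * ((w e y : ℝ) : ℂ) ∂(ν e) +
              ∫ y, L * ((u e y : ℝ) : ℂ) ∂(ν e)) + ∫ y, R * ((v e y : ℝ) : ℂ) ∂(ν e) := by
            have a1 := integral_add (iw.const_mul (B e e)) (iu.const_mul L)
            have a2 := integral_add ((iw.const_mul (B e e)).add (iu.const_mul L))
              (iv.const_mul R)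
            simp only [Pi.add_apply] at a2
            rw [a2, a1]
          rw [e1, integral_const_mul, integral_const_mul, integral_const_mul, int0 (hw0 e),
            int0 (hu0 e), int0 (hv0 e)]
          simp
        · have hone : ∀ (b : ℂ) (g : E → ℝ), Measurable g →
              ∫⁻ y, (‖g y‖ₑ ^ 2) ^ p ∂(ν e) ≤ (M:ℝ≥0∞) ^ p →
              ∫⁻ y, (3 * ‖b * ((g y : ℝ) : ℂ)‖ₑ ^ 2) ^ p ∂(ν e) ≤ (3 * (M * ‖b‖ₑ ^ 2)) ^ p := by
            intro b g hg hgM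
            calc ∫⁻ y, (3 * ‖b * ((g y : ℝ) : ℂ)‖ₑ ^ 2) ^ p ∂(ν e)
                = ∫⁻ y, (3 * ‖b‖ₑ ^ 2) ^ p * (‖g y‖ₑ ^ 2) ^ p ∂(ν e) := by
                  refine lintegral_congr fun y => ?_
                  rw [← mul_pow, enorm_mul, enorm_cast]
                  congr 1
                  ring
              _ = (3 * ‖b‖ₑ ^ 2) ^ p * ∫⁻ y, (‖g y‖ₑ ^ 2) ^ p ∂(ν e) :=
                  lintegral_const_mul _ ((hg.enorm.pow_const 2).pow_const p)
              _ ≤ (3 * ‖b‖ₑ ^ 2) ^ p * (M : ℝ≥0∞) ^ p := by gcongr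
              _ = (3 * (M * ‖b‖ₑ ^ 2)) ^ p := by rw [← mul_pow]; ring
          have hmz : ∀ (b : ℂ) (g : E → ℝ), Measurable g →
              AEMeasurable (fun y => 3 * ‖b * ((g y : ℝ) : ℂ)‖ₑ ^ 2) (ν e) := by
            intro b g hg
            exact ((((Complex.measurable_ofReal.comp hg).const_mul b).enorm.pow_const 2).const_mul
              3).aemeasurable
          refine (lintegral_mono (g := fun y => (3 * ‖B e e * ((w e y : ℝ) : ℂ)‖ₑ ^ 2 +
            3 * ‖L * ((u e y : ℝ) : ℂ)‖ₑ ^ 2 + 3 * ‖R * ((v e y : ℝ) : ℂ)‖ₑ ^ 2) ^ p)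
            (fun y => pow_le_pow_left' (enorm_add3_sq_le _ _ _) p)).trans ?_
          exact mink hp ((hmz _ _ (hwm e)).add (hmz _ _ (hum e))) (hmz _ _ (hvm e))
            (mink hp (hmz _ _ (hwm e)) (hmz _ _ (hum e)) (hone _ _ (hwm e) (hw e))
              (hone _ _ (hum e) (hu e))) (hone _ _ (hvm e) (hv e))
      refine (lintegral_mono hstep).trans ?_
      -- outer Minkowski
      have hscale : ∀ (b : ι → ℂ) (g : ι → E → ℝ), (∀ e, Measurable (g e)) →
          (∀ e, ∫ y, g e y ∂(ν e) = 0) →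
          (∀ e, ∫⁻ y, (‖g e y‖ₑ ^ 2) ^ p ∂(ν e) ≤ (M : ℝ≥0∞) ^ p) →
          ∫⁻ x, (C * (3 * (M * ‖∑ f ∈ s, b f * ((g f (x f) : ℝ) : ℂ)‖ₑ ^ 2))) ^ p
            ∂(Measure.pi ν) ≤
          (C * (3 * (M * (C * M * ∑ f ∈ s, ‖b f‖ₑ ^ 2)))) ^ p := by
        intro b g hgm hg0 hg
        calc ∫⁻ x, (C * (3 * (M * ‖∑ f ∈ s, b f * ((g f (x f) : ℝ) : ℂ)‖ₑ ^ 2))) ^ p
              ∂(Measure.pi ν)
            = ∫⁻ x, (C * (3 * M)) ^ p * (‖∑ f ∈ s, b f * ((g f (x f) : ℝ) : ℂ)‖ₑ ^ 2) ^ p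
              ∂(Measure.pi ν) := by
              refine lintegral_congr fun x => ?_
              rw [← mul_pow]
              ring
          _ = (C * (3 * M)) ^ p * ∫⁻ x, (‖∑ f ∈ s, b f * ((g f (x f) : ℝ) : ℂ)‖ₑ ^ 2) ^ p
              ∂(Measure.pi ν) :=
              lintegral_const_mul _ (((hmL b g hgm s).enorm.pow_const 2).pow_const p)
          _ ≤ (C * (3 * M)) ^ p * (C * M * ∑ f ∈ s, ‖b f‖ₑ ^ 2) ^ p := by
              gcongr
              exact hlin ι E ν M g hgm hg0 hg b s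
          _ = _ := by rw [← mul_pow]; ring
      have hm1 : AEMeasurable (fun x : ι → E =>
          C * (3 * (M * ‖∑ f ∈ s, B e f * ((v f (x f) : ℝ) : ℂ)‖ₑ ^ 2))) (Measure.pi ν) :=
        ((((((hmL (B e) v hvm s).enorm).pow_const 2).const_mul _).const_mul _).const_mul
          _).aemeasurable
      have hm2 : AEMeasurable (fun x : ι → E =>
          C * (3 * (M * ‖∑ f ∈ s, B f e * ((u f (x f) : ℝ) : ℂ)‖ₑ ^ 2))) (Measure.pi ν) :=
        ((((((hmL (fun f => B f e) u hum s).enorm).pow_const 2).const_mul _).const_mul _).const_mul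
          _).aemeasurable
      have hmP : AEMeasurable (fun x : ι → E => ‖∑ a ∈ s, ∑ f ∈ s,
          (if a = f then B a a * ((w a (x a) : ℝ) : ℂ)
            else B a f * (((u a (x a) : ℝ) : ℂ) * ((v f (x f) : ℝ) : ℂ)))‖ₑ ^ 2) (Measure.pi ν) :=
        ((hmeas s).enorm.pow_const 2).aemeasurable
      have hfin := mink hp ((hmP.add aemeasurable_const).add hm1) hm2
        (mink hp (hmP.add aemeasurable_const) hm1
          (mink hp hmP (aemeasurable_const (b := C * (3 * (M * ‖B e e‖ₑ ^ 2)))) ih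
            (const_pow p _)) (hscale (B e) v hvm hv0 hv))
        (hscale (fun f => B f e) u hum hu0 hu)
      refine le_trans (le_of_eq ?_) (hfin.trans ?_)
      · refine lintegral_congr fun x => ?_
        simp only [Pi.add_apply]
        ring
      · refine pow_le_pow_left' ?_ p
        have hsum : ∑ a ∈ insert e s, ∑ f ∈ insert e s, ‖B a f‖ₑ ^ 2 =
            ‖B e e‖ₑ ^ 2 + ∑ f ∈ s, ‖B e f‖ₑ ^ 2 + ∑ f ∈ s, ‖B f e‖ₑ ^ 2 +
              ∑ a ∈ s, ∑ f ∈ s, ‖B a f‖ₑ ^ 2 := by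
          rw [Finset.sum_insert he, Finset.sum_insert he]
          have : ∑ a ∈ s, ∑ f ∈ insert e s, ‖B a f‖ₑ ^ 2 =
              ∑ f ∈ s, ‖B f e‖ₑ ^ 2 + ∑ a ∈ s, ∑ f ∈ s, ‖B a f‖ₑ ^ 2 := by
            rw [← Finset.sum_add_distrib]
            exact Finset.sum_congr rfl fun a _ => Finset.sum_insert he
          rw [this]
          ring
        rw [hsum]
        push_cast
        have hCM : (C : ℝ≥0∞) * (3 * (M * ‖B e e‖ₑ ^ 2)) ≤
            3 * (C : ℝ≥0∞) ^ 2 * (M : ℝ≥0∞) ^ 2 * ‖B e e‖ₑ ^ 2 := by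
          have h1 : (1 : ℝ≥0∞) ≤ C := by exact_mod_cast hC1
          have h2 : (1 : ℝ≥0∞) ≤ M := by exact_mod_cast hM
          calc (C : ℝ≥0∞) * (3 * (M * ‖B e e‖ₑ ^ 2))
              = 3 * (C * 1) * (M * 1) * ‖B e e‖ₑ ^ 2 := by ring
            _ ≤ 3 * (C * C) * (M * M) * ‖B e e‖ₑ ^ 2 := by gcongr
            _ = _ := by ring
        calc 3 * (C : ℝ≥0∞) ^ 2 * (M : ℝ≥0∞) ^ 2 * ∑ a ∈ s, ∑ f ∈ s, ‖B a f‖ₑ ^ 2 +
              C * (3 * (M * ‖B e e‖ₑ ^ 2)) +
              C * (3 * (M * (C * M * ∑ f ∈ s, ‖B e f‖ₑ ^ 2))) +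
              C * (3 * (M * (C * M * ∑ f ∈ s, ‖B f e‖ₑ ^ 2)))
            ≤ 3 * (C : ℝ≥0∞) ^ 2 * (M : ℝ≥0∞) ^ 2 * ∑ a ∈ s, ∑ f ∈ s, ‖B a f‖ₑ ^ 2 +
              3 * (C : ℝ≥0∞) ^ 2 * (M : ℝ≥0∞) ^ 2 * ‖B e e‖ₑ ^ 2 +
              C * (3 * (M * (C * M * ∑ f ∈ s, ‖B e f‖ₑ ^ 2))) +
              C * (3 * (M * (C * M * ∑ f ∈ s, ‖B f e‖ₑ ^ 2))) := by gcongr
          _ = _ := by ring

end TopRes
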