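import Pool.Agent.Work.MP_1c1c8a_pr.Mix
import Pool.Agent.Work.MP_1c1c8a_pr.MomC

/-! # Moments of quadratic forms -/

namespace Pool.Agent.Eig

open MeasureTheory Filter Topology Matrix
open scoped ENNReal NNReal

namespace MomAux

theorem lint_pow_le {E : Type} [MeasurableSpace E] {μ : Measure E} {f : E → ℝ} {r : ℕ}
    (hi : Integrable (fun x => |f x| ^ (2 * r)) μ) {K : ℝ} (hK : ∫ x, |f x| ^ (2 * r) ∂μ ≤ K)
    {M : ℝ≥0} (hM : K ≤ (M : ℝ) ^ r) : ∫⁻ x, (‖f x‖ₑ ^ 2) ^ r ∂μ ≤ (M : ℝ≥0∞) ^ r := by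
  have h1 : ENNReal.ofReal (∫ x, |f x| ^ (2 * r) ∂μ) ≤ (M : ℝ≥0∞) ^ r := by
    refine (ENNReal.ofReal_le_ofReal (hK.trans hM)).trans (le_of_eq ?_)
    rw [ENNReal.ofReal_pow (NNReal.coe_nonneg M), ENNReal.ofReal_coe_nnreal]
  refine le_trans (le_of_eq ?_) h1
  rw [ofReal_integral_eq_lintegral_ofReal hi (Filter.Eventually.of_forall fun _ => by positivity)]
  refine lintegral_congr fun x => ?_
  rw [← ofReal_norm, ← ENNReal.ofReal_pow (norm_nonneg _), ← ENNReal.ofReal_pow (by positivity),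
    ← pow_mul, Real.norm_eq_abs]

theorem moms (b : ℝ) (r : ℕ) (hr : 1 ≤ r) : ∃ M : ℝ≥0, 1 ≤ M ∧ ∀ μ : Measure ℝ, GoodLaw b μ →
    ∫⁻ y, (‖y‖ₑ ^ 2) ^ r ∂μ ≤ (M : ℝ≥0∞) ^ r ∧
    ∫⁻ y, (‖y ^ 2 - 1‖ₑ ^ 2) ^ r ∂μ ≤ (M : ℝ≥0∞) ^ r ∧
    ∫ y, (y ^ 2 - 1) ∂μ = 0 := by
  obtain ⟨C1, hC1, h1⟩ := abs_mom b (2 * r)
  obtain ⟨C2, hC2, h2⟩ := abs_mom b (4 * r)
  obtain ⟨C3, hC3, h3⟩ := abs_mom b 2
  set M : ℝ := 1 + C1 + 2 ^ (2 * r) * (C2 + 1) with hM
  have hM1 : 1 ≤ M := by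
    have : 0 ≤ (2:ℝ) ^ (2 * r) * (C2 + 1) := by positivity
    rw [hM]; linarith
  have hMr : M ≤ M ^ r := by
    calc M = M ^ 1 := (pow_one _).symm
      _ ≤ M ^ r := pow_le_pow_right₀ hM1 hr
  have hMc : ((Real.toNNReal M : ℝ≥0) : ℝ) = M := Real.coe_toNNReal M (by linarith)
  refine ⟨Real.toNNReal M, ?_, ?_⟩
  · rw [← NNReal.coe_le_coe, hMc]; exact hM1
  intro μ hμ
  have := hμ.prob
  refine ⟨?_, ?_, ?_⟩
  · refine lint_pow_le (f := fun y => y) (h1 μ hμ).1 (h1 μ hμ).2 ?_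
    rw [hMc]
    refine le_trans ?_ hMr
    have : 0 ≤ (2:ℝ) ^ (2 * r) * (C2 + 1) := by positivity
    rw [hM]; linarith
  · have hle : ∀ y : ℝ, |y ^ 2 - 1| ^ (2 * r) ≤ 2 ^ (2 * r) * (|y| ^ (4 * r) + 1) := by
      intro y
      have ha : |y ^ 2 - 1| ≤ 2 * max (y ^ 2) 1 := by
        rw [abs_le]
        have e1 := le_max_left (y ^ 2) 1
        have e2 := le_max_right (y ^ 2) 1
        have e3 := sq_nonneg y
        constructor <;> linarith
      calc |y ^ 2 - 1| ^ (2 * r) ≤ (2 * max (y ^ 2) 1) ^ (2 * r) :=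
            pow_le_pow_left₀ (abs_nonneg _) ha _
        _ = 2 ^ (2 * r) * (max (y ^ 2) 1) ^ (2 * r) := mul_pow _ _ _
        _ ≤ 2 ^ (2 * r) * (|y| ^ (4 * r) + 1) := by
          refine mul_le_mul_of_nonneg_left ?_ (by positivity)
          rcases le_total (y ^ 2) 1 with h | h
          · rw [max_eq_right h, one_pow]
            have : 0 ≤ |y| ^ (4 * r) := by positivity
            linarith
          · rw [max_eq_left h, ← sq_abs, ← pow_mul]
            have : 2 * (2 * r) = 4 * r := by ring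
            rw [this]
            linarith
    have hmaj : Integrable (fun y : ℝ => 2 ^ (2 * r) * (|y| ^ (4 * r) + 1)) μ :=
      ((h2 μ hμ).1.add (integrable_const _)).const_mul _
    have hint : Integrable (fun y : ℝ => |y ^ 2 - 1| ^ (2 * r)) μ := by
      refine hmaj.mono' (by fun_prop) (Eventually.of_forall fun y => ?_)
      rw [Real.norm_eq_abs, abs_of_nonneg (by positivity)]
      exact hle y
    refine lint_pow_le (f := fun y => y ^ 2 - 1) hint (K := 2 ^ (2 * r) * (C2 + 1)) ?_ ?_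
    · calc ∫ y, |y ^ 2 - 1| ^ (2 * r) ∂μ ≤ ∫ y, 2 ^ (2 * r) * (|y| ^ (4 * r) + 1) ∂μ :=
            integral_mono hint hmaj hle
        _ = 2 ^ (2 * r) * (∫ y, |y| ^ (4 * r) ∂μ + 1) := by
            rw [integral_const_mul, integral_add (h2 μ hμ).1 (integrable_const _)]
            simp
        _ ≤ 2 ^ (2 * r) * (C2 + 1) := by
            refine mul_le_mul_of_nonneg_left ?_ (by positivity)
            linarith [(h2 μ hμ).2]
    · rw [hMc]
      refine le_trans ?_ hMr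
      rw [hM]; linarith
  · have hi : Integrable (fun y : ℝ => y ^ 2) μ := by
      have := (h3 μ hμ).1
      simpa only [sq_abs] using this
    rw [integral_sub hi (integrable_const _), hμ.var]
    simp

theorem int_le {E : Type} [MeasurableSpace E] {μ : Measure E} {g : E → ℝ} {h : E → ℝ≥0∞}
    (hg : AEStronglyMeasurable g μ) (hg0 : ∀ x, 0 ≤ g x) (hgh : ∀ x, ENNReal.ofReal (g x) = h x)
    {c : ℝ} (hc : 0 ≤ c) (H : ∫⁻ x, h x ∂μ ≤ ENNReal.ofReal c) : ∫ x, g x ∂μ ≤ c := by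
  rw [integral_eq_lintegral_of_nonneg_ae (Filter.Eventually.of_forall hg0) hg]
  simp only [hgh]
  exact ENNReal.toReal_le_of_le_ofReal hc H

theorem ofReal_sq (c : ℂ) : ENNReal.ofReal (‖c‖ ^ 2) = ‖c‖ₑ ^ 2 := by
  rw [ENNReal.ofReal_pow (norm_nonneg _), ofReal_norm]

end MomAux

open MomAux

theorem hyper_quad (b : ℝ) (r : ℕ) : ∃ C : ℝ, 0 ≤ C ∧ ∀ (ι : Type) [Fintype ι] [DecidableEq ι]
    (μ : ι → Measure ℝ), (∀ e, GoodLaw b (μ e)) → ∀ B : ι → ι → ℂ,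
    ∫ x, ‖∑ e, ∑ f, ((x e : ℝ) : ℂ) * B e f * ((x f : ℝ) : ℂ) - ∑ e, B e e‖ ^ (2 * r)
      ∂(Measure.pi μ) ≤ C * (∑ e, ∑ f, ‖B e f‖ ^ 2) ^ r := by
  rcases Nat.eq_zero_or_pos r with rfl | hr
  · refine ⟨1, zero_le_one, ?_⟩
    intro ι _ _ μ hμ B
    have : ∀ e, IsProbabilityMeasure (μ e) := fun e => (hμ e).prob
    simp
  obtain ⟨M, hM1, hM⟩ := moms b r hr
  obtain ⟨C, hC1, _, hC⟩ := TopRes.block r hr
  refine ⟨((C : ℝ) * (M : ℝ) ^ 2) ^ r, by positivity, ?_⟩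
  intro ι _ _ μ hμ B
  have : ∀ e, IsProbabilityMeasure (μ e) := fun e => (hμ e).prob
  have h := hC ι ℝ μ M hM1 (fun _ y => y) (fun _ y => y) (fun _ y => y ^ 2 - 1)
    (fun _ => measurable_id) (fun _ => measurable_id) (fun _ => by fun_prop)
    (fun e => (hμ e).mean) (fun e => (hμ e).mean) (fun e => (hM _ (hμ e)).2.2)
    (fun e => (hM _ (hμ e)).1) (fun e => (hM _ (hμ e)).1) (fun e => (hM _ (hμ e)).2.1)
    B Finset.univ
  have hid : ∀ x : ι → ℝ, ∑ e, ∑ f, (if e = f then B e e * (((x e ^ 2 - 1 : ℝ)) : ℂ)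
      else B e f * (((x e : ℝ) : ℂ) * ((x f : ℝ) : ℂ))) =
      ∑ e, ∑ f, ((x e : ℝ) : ℂ) * B e f * ((x f : ℝ) : ℂ) - ∑ e, B e e := by
    intro x
    rw [← Finset.sum_sub_distrib]
    refine Finset.sum_congr rfl fun e _ => ?_
    have h1 : ∀ f, (if e = f then B e e * (((x e ^ 2 - 1 : ℝ)) : ℂ)
        else B e f * (((x e : ℝ) : ℂ) * ((x f : ℝ) : ℂ))) =
        ((x e : ℝ) : ℂ) * B e f * ((x f : ℝ) : ℂ) - (if e = f then B e e else 0) := by
      intro f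
      split_ifs with hef
      · subst hef
        push_cast
        ring
      · ring
    rw [Finset.sum_congr rfl fun f _ => h1 f, Finset.sum_sub_distrib]
    simp
  simp only [hid] at h
  rw [← mul_pow]
  have hc : 0 ≤ ((C : ℝ) * (M : ℝ) ^ 2 * ∑ e, ∑ f, ‖B e f‖ ^ 2) := by positivity
  refine int_le (h := fun x => (‖∑ e, ∑ f, ((x e : ℝ) : ℂ) * B e f * ((x f : ℝ) : ℂ) -
    ∑ e, B e e‖ₑ ^ 2) ^ r) ?_ (fun x => by positivity) (fun x => ?_) (by positivity) ?_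
  · refine Continuous.aestronglyMeasurable ?_
    fun_prop
  · rw [pow_mul, ENNReal.ofReal_pow (by positivity), ofReal_sq]
  · refine h.trans (le_of_eq ?_)
    rw [ENNReal.ofReal_pow hc]
    congr 1
    rw [ENNReal.ofReal_mul (by positivity), ENNReal.ofReal_mul (by positivity),
      ENNReal.ofReal_pow (by positivity), ENNReal.ofReal_coe_nnreal, ENNReal.ofReal_coe_nnreal,
      ENNReal.ofReal_sum_of_nonneg (fun _ _ => by positivity)]
    congr 1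
    refine Finset.sum_congr rfl fun e _ => ?_
    rw [ENNReal.ofReal_sum_of_nonneg (fun _ _ => by positivity)]
    exact Finset.sum_congr rfl fun f _ => (ofReal_sq _).symm

theorem hyper_norm (b : ℝ) (r : ℕ) : ∃ C : ℝ, 0 ≤ C ∧ ∀ (ι κ : Type) [Fintype ι] [DecidableEq ι]
    [Fintype κ] (μ : ι → Measure ℝ), (∀ e, GoodLaw b (μ e)) → ∀ B : κ → ι → ℂ,
    ∫ x, (∑ k, ‖∑ e, B k e * ((x e : ℝ) : ℂ)‖ ^ 2) ^ r
      ∂(Measure.pi μ) ≤ C * (∑ k, ∑ e, ‖B k e‖ ^ 2) ^ r := by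
  rcases Nat.eq_zero_or_pos r with rfl | hr
  · refine ⟨1, zero_le_one, ?_⟩
    intro ι κ _ _ _ μ hμ B
    have : ∀ e, IsProbabilityMeasure (μ e) := fun e => (hμ e).prob
    simp
  obtain ⟨M, hM1, hM⟩ := moms b r hr
  obtain ⟨C, hC1, hC, _⟩ := TopRes.block r hr
  refine ⟨((C : ℝ) * (M : ℝ)) ^ r, by positivity, ?_⟩
  intro ι κ _ _ _ μ hμ B
  have : ∀ e, IsProbabilityMeasure (μ e) := fun e => (hμ e).prob
  have h1 : ∀ k, ∫⁻ x, (‖∑ e, B k e * ((x e : ℝ) : ℂ)‖ₑ ^ 2) ^ r ∂(Measure.pi μ) ≤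
      (C * M * ∑ e, ‖B k e‖ₑ ^ 2) ^ r := fun k =>
    hC ι ℝ μ M (fun _ y => y) (fun _ => measurable_id) (fun e => (hμ e).mean)
      (fun e => (hM _ (hμ e)).1) (B k) Finset.univ
  have hmeas : ∀ k, Measurable fun x : ι → ℝ => ‖∑ e, B k e * ((x e : ℝ) : ℂ)‖ₑ ^ 2 := by
    intro k
    have : Continuous fun x : ι → ℝ => ∑ e, B k e * ((x e : ℝ) : ℂ) := by fun_prop
    exact this.measurable.enorm.pow_const 2
  have h2 : ∀ s : Finset κ, ∫⁻ x, (∑ k ∈ s, ‖∑ e, B k e * ((x e : ℝ) : ℂ)‖ₑ ^ 2) ^ r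
      ∂(Measure.pi μ) ≤ (∑ k ∈ s, (C * M * ∑ e, ‖B k e‖ₑ ^ 2)) ^ r := by
    classical
    intro s
    induction s using Finset.induction_on with
    | empty => simp [show r ≠ 0 by omega]
    | insert k s hk ih =>
      simp only [Finset.sum_insert hk]
      exact TopRes.mink hr (hmeas k).aemeasurable
        (Finset.measurable_sum _ fun k _ => hmeas k).aemeasurable (h1 k) ih
  have h := h2 Finset.univ
  rw [← mul_pow]
  have hc : 0 ≤ ((C : ℝ) * (M : ℝ) * ∑ k, ∑ e, ‖B k e‖ ^ 2) := by positivity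
  refine int_le (h := fun x => (∑ k, ‖∑ e, B k e * ((x e : ℝ) : ℂ)‖ₑ ^ 2) ^ r) ?_
    (fun x => by positivity) (fun x => ?_) (by positivity) ?_
  · refine Continuous.aestronglyMeasurable ?_
    fun_prop
  · rw [ENNReal.ofReal_pow (by positivity), ENNReal.ofReal_sum_of_nonneg (fun _ _ => by positivity)]
    simp only [ofReal_sq]
  · refine h.trans (le_of_eq ?_)
    rw [ENNReal.ofReal_pow hc]
    congr 1
    rw [← Finset.mul_sum, ENNReal.ofReal_mul (by positivity), ENNReal.ofReal_mul (by positivity),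
      ENNReal.ofReal_coe_nnreal, ENNReal.ofReal_coe_nnreal,
      ENNReal.ofReal_sum_of_nonneg (fun _ _ => by positivity)]
    congr 1
    refine Finset.sum_congr rfl fun e _ => ?_
    rw [ENNReal.ofReal_sum_of_nonneg (fun _ _ => by positivity)]
    exact Finset.sum_congr rfl fun f _ => (ofReal_sq _).symm

end Pool.Agent.Eig
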