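import Pool.Agent.Work.MP_1c1c8a_pr.Meas

/-! # Orthogonality of the fluctuations -/

namespace Pool.Agent.Eig

open MeasureTheory Filter Topology Matrix

namespace OrthoAux

variable {n : ℕ} {T : Finset (Fin n)} {z : ℂ}

lemma mix_mem {A : Finset (Fin n)} {j : Fin n} (hj : j ∈ A) (ω x : Ent n) (k : Fin n) :
    mixR A ω x s(j, k) = x s(j, k) := by
  unfold mixR
  rw [if_pos]
  exact ⟨j, hj, by simp⟩

lemma mix_off {A : Finset (Fin n)} (ω x : Ent n) {e : Sym2 (Fin n)} (h : ∀ i ∈ A, i ∉ e) :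
    mixR A ω x e = ω e := by
  unfold mixR
  rw [if_neg]
  rintro ⟨i, hi, hie⟩
  exact h i hi hie

lemma Gr_mix (ω x : Ent n) {j : Fin n} (hj : j ∈ T) :
    Gr T z (mixR {j} ω x) = Gr T z ω := by
  refine Gr_off fun e he => mix_off ω x ?_
  intro i hi
  rw [Finset.mem_singleton] at hi
  subst hi
  exact he i hj

lemma st_mix (ω x : Ent n) {j : Fin n} (hj : j ∈ T) :
    st T z (mixR {j} ω x) = st T z ω := by
  unfold st
  rw [Gr_mix ω x hj]

/-- `Yv T z i` does not depend on row `j ∈ T`. -/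
lemma Yv_off (ω x : Ent n) {i j : Fin n} (hj : j ∈ T) (hij : i ≠ j) :
    Yv T z i (mixR {j} ω x) = Yv T z i ω := by
  have hj' : j ∈ insert i T := Finset.mem_insert_of_mem hj
  unfold Yv xi
  rw [st_mix ω x hj', Gr_mix ω x hj']
  have h1 : mixR {j} ω x s(i, i) = ω s(i, i) := by
    refine mix_off ω x ?_
    intro k hk
    rw [Finset.mem_singleton] at hk
    subst hk
    simp [hij.symm]
  rw [h1]
  congr 3
  refine Finset.sum_congr rfl fun k _ => Finset.sum_congr rfl fun l _ => ?_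
  by_cases hk : k = j
  · subst hk
    rw [Gr_zero_left hj' l]; ring
  by_cases hl : l = j
  · subst hl
    rw [Gr_symm, Gr_zero_left hj' k]; ring
  have h2 : ∀ m : Fin n, m ≠ j → mixR {j} ω x s(i, m) = ω s(i, m) := by
    intro m hm
    refine mix_off ω x ?_
    intro k hk
    rw [Finset.mem_singleton] at hk
    subst hk
    simp [hij.symm, hm.symm]
  rw [h2 k hk, h2 l hl]

lemma i4 {m : Measure (Ent n)} {f g h k : Ent n → ℂ} (hf : Integrable f m) (hg : Integrable g m)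
    (hh : Integrable h m) (hk : Integrable k m) :
    ∫ ω, ((f ω - g ω) - (h ω - k ω)) ∂m =
      (∫ ω, f ω ∂m - ∫ ω, g ω ∂m) - (∫ ω, h ω ∂m - ∫ ω, k ω ∂m) := by
  rw [integral_sub (f := fun ω => f ω - g ω) (g := fun ω => h ω - k ω) (hf.sub hg) (hh.sub hk),
    integral_sub hf hg, integral_sub hh hk]

lemma i3 {m : Measure (Ent n)} [IsProbabilityMeasure m] {f g : Ent n → ℂ} (hf : Integrable f m)
    (hg : Integrable g m) (c : ℂ) :
    ∫ ω, (f ω + g ω - c) ∂m = (∫ ω, f ω ∂m + ∫ ω, g ω ∂m) - c := by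
  rw [integral_sub (f := fun ω => f ω + g ω) (g := fun _ => c) (hf.add hg) (integrable_const _),
    integral_add hf hg, integral_const]
  simp

section moments

variable {b : ℝ} {μ : Sym2 (Fin n) → Measure ℝ}

lemma mean_entry (hμ : ∀ e, GoodLaw b (μ e)) (e : Sym2 (Fin n)) :
    ∫ x : Ent n, x e ∂(Measure.pi μ) = 0 := by
  have : ∀ e, IsProbabilityMeasure (μ e) := fun e => (hμ e).prob
  have h := (measurePreserving_eval μ e)
  have h2 : ∫ x : Ent n, x e ∂(Measure.pi μ) = ∫ y, y ∂((Measure.pi μ).map (Function.eval e)) := by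
    rw [integral_map h.measurable.aemeasurable (by fun_prop)]
  rw [h2, h.map_eq]
  exact (hμ e).mean

lemma sq_entry (hμ : ∀ e, GoodLaw b (μ e)) (e : Sym2 (Fin n)) :
    ∫ x : Ent n, x e ^ 2 ∂(Measure.pi μ) = 1 := by
  have : ∀ e, IsProbabilityMeasure (μ e) := fun e => (hμ e).prob
  have h := (measurePreserving_eval μ e)
  have h2 : ∫ x : Ent n, x e ^ 2 ∂(Measure.pi μ) =
      ∫ y, y ^ 2 ∂((Measure.pi μ).map (Function.eval e)) := by
    rw [integral_map h.measurable.aemeasurable (by fun_prop)]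
  rw [h2, h.map_eq]
  exact (hμ e).var

lemma mul_entry (hμ : ∀ e, GoodLaw b (μ e)) {e f : Sym2 (Fin n)} (hef : e ≠ f) :
    ∫ x : Ent n, x e * x f ∂(Measure.pi μ) = 0 := by
  classical
  have : ∀ e, IsProbabilityMeasure (μ e) := fun e => (hμ e).prob
  have h := integral_fintype_prod_eq_prod (𝕜 := ℝ) (μ := μ)
    (f := fun g (t : ℝ) => if g = e then t else if g = f then t else 1)
  have h1 : ∀ x : Ent n, ∏ g, (if g = e then x g else if g = f then x g else 1) = x e * x f := by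
    intro x
    rw [← Finset.mul_prod_erase Finset.univ _ (Finset.mem_univ e)]
    rw [← Finset.mul_prod_erase (Finset.univ.erase e) _
      (Finset.mem_erase.2 ⟨hef.symm, Finset.mem_univ f⟩)]
    rw [if_pos rfl, if_neg hef.symm, if_pos rfl]
    rw [Finset.prod_eq_one]
    · ring
    · intro g hg
      rw [Finset.mem_erase, Finset.mem_erase] at hg
      rw [if_neg hg.2.1, if_neg hg.1]
  simp only [h1] at h
  rw [h]
  refine Finset.prod_eq_zero (Finset.mem_univ e) ?_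
  simp only [if_true]
  exact (hμ e).mean

lemma int_entry (hμ : ∀ e, GoodLaw b (μ e)) (e : Sym2 (Fin n)) :
    Integrable (fun x : Ent n => ((x e : ℝ) : ℂ)) (Measure.pi μ) :=
  (PB.entryC e).intC hμ

lemma int_mul (hμ : ∀ e, GoodLaw b (μ e)) (e f : Sym2 (Fin n)) (c : ℂ) :
    Integrable (fun x : Ent n => ((x e : ℝ) : ℂ) * c * ((x f : ℝ) : ℂ)) (Measure.pi μ) :=
  PB.intC hμ (PBW.mul (PBW.mul (PB.entryC e) (PBW.const one_le_wt c)) (PB.entryC f))

lemma integral_mul (hμ : ∀ e, GoodLaw b (μ e)) (e f : Sym2 (Fin n)) (c : ℂ) :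
    ∫ x : Ent n, ((x e : ℝ) : ℂ) * c * ((x f : ℝ) : ℂ) ∂(Measure.pi μ) = if e = f then c else 0 := by
  have h : ∀ x : Ent n, ((x e : ℝ) : ℂ) * c * ((x f : ℝ) : ℂ) =
      c * ((x e * x f : ℝ) : ℂ) := by
    intro x; push_cast; ring
  simp only [h]
  rw [integral_const_mul, integral_complex_ofReal]
  by_cases hef : e = f
  · subst hef
    have := sq_entry hμ e
    simp only [pow_two] at this
    rw [this]; simp
  · rw [mul_entry hμ hef, if_neg hef]; simp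

/-- The row mean of `Yv T z j` vanishes. -/
lemma Yv_mean (hμ : ∀ e, GoodLaw b (μ e)) (ω : Ent n) (j : Fin n) :
    ∫ x, Yv T z j (mixR {j} ω x) ∂(Measure.pi μ) = 0 := by
  have : ∀ e, IsProbabilityMeasure (μ e) := fun e => (hμ e).prob
  have hj' : j ∈ insert j T := Finset.mem_insert_self _ _
  have hY : ∀ x : Ent n, Yv T z j (mixR {j} ω x) = (z - st (insert j T) z ω)⁻¹ *
      (((x s(j, j) : ℝ) : ℂ) +
        ∑ k, ∑ l, ((x s(j, k) : ℝ) : ℂ) * Gr (insert j T) z ω k l * ((x s(j, l) : ℝ) : ℂ) -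
        st (insert j T) z ω) := by
    intro x
    unfold Yv xi
    rw [st_mix ω x hj', Gr_mix ω x hj']
    simp only [mix_mem (Finset.mem_singleton_self j)]
  simp only [hY]
  rw [integral_const_mul]
  have hint2 : Integrable (fun x : Ent n => ∑ k, ∑ l, ((x s(j, k) : ℝ) : ℂ) *
      Gr (insert j T) z ω k l * ((x s(j, l) : ℝ) : ℂ)) (Measure.pi μ) :=
    integrable_finsetSum _ fun k _ => integrable_finsetSum _ fun l _ => int_mul hμ _ _ _
  rw [i3 (int_entry hμ _) hint2, integral_complex_ofReal, mean_entry hμ]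
  rw [integral_finsetSum _ fun k _ => integrable_finsetSum _ fun l _ => int_mul hμ _ _ _]
  have h3 : ∀ k : Fin n, ∫ x : Ent n, ∑ l, ((x s(j, k) : ℝ) : ℂ) *
      Gr (insert j T) z ω k l * ((x s(j, l) : ℝ) : ℂ) ∂(Measure.pi μ) =
      Gr (insert j T) z ω k k := by
    intro k
    rw [integral_finsetSum _ fun l _ => int_mul hμ _ _ _]
    simp only [integral_mul hμ]
    rw [Finset.sum_eq_single k]
    · simp
    · intro l _ hl
      rw [if_neg]
      intro h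
      rw [Sym2.congr_right] at h
      exact hl h.symm
    · intro h; exact absurd (Finset.mem_univ k) h
  simp only [h3]
  simp [st]

/-- A function not depending on row `j` times a function with zero row mean. -/
lemma cross_zero (hμ : ∀ e, GoodLaw b (μ e)) {F H : Ent n → ℂ} (j : Fin n)
    (hF : PB F) (hH : PB H) (hFo : ∀ ω x, F (mixR {j} ω x) = F ω)
    (hH0 : ∀ ω, ∫ x, H (mixR {j} ω x) ∂(Measure.pi μ) = 0) :
    ∫ ω, F ω * (starRingEnd ℂ) (H ω) ∂(Measure.pi μ) = 0 := by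
  have : ∀ e, IsProbabilityMeasure (μ e) := fun e => (hμ e).prob
  rw [(integral_mix μ {j} (fun ω => F ω * (starRingEnd ℂ) (H ω)) (PB.intC hμ (PBW.mul hF (PBW.conj hH)))).2]
  simp only [hFo]
  have : ∀ ω : Ent n, ∫ x, F ω * (starRingEnd ℂ) (H (mixR {j} ω x)) ∂(Measure.pi μ) = 0 := by
    intro ω
    rw [integral_const_mul, integral_conj, hH0]
    simp
  simp only [this, integral_zero]

end moments

end OrthoAux

open OrthoAux in
theorem ortho {n : ℕ} {b : ℝ} {μ : Sym2 (Fin n) → Measure ℝ} (hμ : ∀ e, GoodLaw b (μ e))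
    {z : ℂ} (hz : z.im ≠ 0) :
    ∫ ω, ‖∑ i, Yv ∅ z i ω‖ ^ 2 ∂(Measure.pi μ) ≤
      ∑ i, ∫ ω, ‖Yv ∅ z i ω‖ ^ 2 ∂(Measure.pi μ) +
      ∑ i, ∑ j ∈ Finset.univ.erase i,
        ∫ ω, ‖Yv ∅ z i ω - Yv {j} z i ω‖ ^ 2 ∂(Measure.pi μ) := by
  classical
  have : ∀ e, IsProbabilityMeasure (μ e) := fun e => (hμ e).prob
  -- the cross terms
  have hPB : ∀ (T : Finset (Fin n)) (i : Fin n), PB (fun ω : Ent n => Yv T z i ω) :=
    fun T i => PB.Yv hz i
  have hcross : ∀ i j : Fin n, i ≠ j →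
      ∫ ω, Yv ∅ z i ω * (starRingEnd ℂ) (Yv ∅ z j ω) ∂(Measure.pi μ) =
      ∫ ω, (Yv ∅ z i ω - Yv {j} z i ω) * (starRingEnd ℂ) (Yv ∅ z j ω - Yv {i} z j ω)
        ∂(Measure.pi μ) := by
    intro i j hij
    have e1 : ∫ ω, Yv {j} z i ω * (starRingEnd ℂ) (Yv ∅ z j ω) ∂(Measure.pi μ) = 0 :=
      cross_zero hμ j (hPB _ _) (hPB _ _)
        (fun ω x => Yv_off ω x (Finset.mem_singleton_self j) hij)
        (fun ω => Yv_mean hμ ω j)
    have e2 : ∫ ω, Yv {j} z i ω * (starRingEnd ℂ) (Yv {i} z j ω) ∂(Measure.pi μ) = 0 :=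
      cross_zero hμ j (hPB _ _) (hPB _ _)
        (fun ω x => Yv_off ω x (Finset.mem_singleton_self j) hij)
        (fun ω => Yv_mean hμ ω j)
    have e3' : ∫ ω, Yv {i} z j ω * (starRingEnd ℂ) (Yv ∅ z i ω) ∂(Measure.pi μ) = 0 :=
      cross_zero hμ i (hPB _ _) (hPB _ _)
        (fun ω x => Yv_off ω x (Finset.mem_singleton_self i) hij.symm)
        (fun ω => Yv_mean hμ ω i)
    have e3 : ∫ ω, Yv ∅ z i ω * (starRingEnd ℂ) (Yv {i} z j ω) ∂(Measure.pi μ) = 0 := by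
      have h4 : ∀ ω : Ent n, Yv ∅ z i ω * (starRingEnd ℂ) (Yv {i} z j ω) =
          (starRingEnd ℂ) (Yv {i} z j ω * (starRingEnd ℂ) (Yv ∅ z i ω)) := by
        intro ω
        rw [map_mul, Complex.conj_conj, mul_comm]
      simp only [h4]
      rw [integral_conj, e3']
      simp
    have hI : ∀ (T T' : Finset (Fin n)) (i j : Fin n),
        Integrable (fun ω : Ent n => Yv T z i ω * (starRingEnd ℂ) (Yv T' z j ω)) (Measure.pi μ) :=
      fun T T' i j => PB.intC hμ (PBW.mul (hPB T i) (PBW.conj (hPB T' j)))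
    have h5 : ∀ ω : Ent n,
        (Yv ∅ z i ω - Yv {j} z i ω) * (starRingEnd ℂ) (Yv ∅ z j ω - Yv {i} z j ω) =
        (Yv ∅ z i ω * (starRingEnd ℂ) (Yv ∅ z j ω) - Yv {j} z i ω * (starRingEnd ℂ) (Yv ∅ z j ω)) -
        (Yv ∅ z i ω * (starRingEnd ℂ) (Yv {i} z j ω) -
          Yv {j} z i ω * (starRingEnd ℂ) (Yv {i} z j ω)) := by
      intro ω
      rw [map_sub]; ring
    simp only [h5]
    rw [i4 (hI _ _ _ _) (hI _ _ _ _) (hI _ _ _ _) (hI _ _ _ _), e1, e2, e3]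
    simp
  -- expansion of the square
  have hI : ∀ (i j : Fin n),
      Integrable (fun ω : Ent n => Yv ∅ z i ω * (starRingEnd ℂ) (Yv ∅ z j ω)) (Measure.pi μ) :=
    fun i j => PB.intC hμ (PBW.mul (hPB ∅ i) (PBW.conj (hPB ∅ j)))
  have hexp : (((∫ ω, ‖∑ i, Yv ∅ z i ω‖ ^ 2 ∂(Measure.pi μ) : ℝ)) : ℂ) =
      ∑ i, ∑ j, ∫ ω, Yv ∅ z i ω * (starRingEnd ℂ) (Yv ∅ z j ω) ∂(Measure.pi μ) := by
    rw [← integral_complex_ofReal]
    have h6 : ∀ ω : Ent n, (((‖∑ i, Yv ∅ z i ω‖ ^ 2 : ℝ)) : ℂ) =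
        ∑ i, ∑ j, Yv ∅ z i ω * (starRingEnd ℂ) (Yv ∅ z j ω) := by
      intro ω
      rw [← Finset.sum_mul_sum, ← map_sum, Complex.mul_conj, Complex.normSq_eq_norm_sq]
    simp only [h6]
    rw [integral_finsetSum _ fun i _ => integrable_finsetSum _ fun j _ => hI i j]
    refine Finset.sum_congr rfl fun i _ => ?_
    rw [integral_finsetSum _ fun j _ => hI i j]
  have hdiag : ∀ i : Fin n, ∫ ω, Yv ∅ z i ω * (starRingEnd ℂ) (Yv ∅ z i ω) ∂(Measure.pi μ) =
      (((∫ ω, ‖Yv ∅ z i ω‖ ^ 2 ∂(Measure.pi μ) : ℝ)) : ℂ) := by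
    intro i
    rw [← integral_complex_ofReal]
    refine integral_congr_ae (Eventually.of_forall fun ω => ?_)
    simp only [Complex.mul_conj, Complex.normSq_eq_norm_sq]
  have hoff : ∀ i j : Fin n, i ≠ j →
      (∫ ω, Yv ∅ z i ω * (starRingEnd ℂ) (Yv ∅ z j ω) ∂(Measure.pi μ)).re ≤
      ((∫ ω, ‖Yv ∅ z i ω - Yv {j} z i ω‖ ^ 2 ∂(Measure.pi μ)) +
        ∫ ω, ‖Yv ∅ z j ω - Yv {i} z j ω‖ ^ 2 ∂(Measure.pi μ)) / 2 := by
    intro i j hij
    rw [hcross i j hij]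
    have hA : PB (fun ω : Ent n => Yv ∅ z i ω - Yv {j} z i ω) := PBW.sub (hPB _ _) (hPB _ _)
    have hB : PB (fun ω : Ent n => Yv ∅ z j ω - Yv {i} z j ω) := PBW.sub (hPB _ _) (hPB _ _)
    refine (Complex.re_le_norm _).trans ((norm_integral_le_integral_norm _).trans ?_)
    have hA2 := PB.int hμ (PBW.pow (PBW.norm hA) 2)
    have hB2 := PB.int hμ (PBW.pow (PBW.norm hB) 2)
    rw [← integral_add hA2 hB2, ← integral_div]
    refine integral_mono (PB.int hμ (PBW.norm (PBW.mul hA (PBW.conj hB))))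
      ((hA2.add hB2).div_const 2) fun ω => ?_
    simp only [norm_mul, RCLike.norm_conj]
    nlinarith [sq_nonneg (‖Yv ∅ z i ω - Yv {j} z i ω‖ - ‖Yv ∅ z j ω - Yv {i} z j ω‖)]
  have hre : ∫ ω, ‖∑ i, Yv ∅ z i ω‖ ^ 2 ∂(Measure.pi μ) =
      ∑ i, ∑ j, (∫ ω, Yv ∅ z i ω * (starRingEnd ℂ) (Yv ∅ z j ω) ∂(Measure.pi μ)).re := by
    have := congrArg Complex.re hexp
    rw [Complex.ofReal_re] at this
    rw [this]
    simp only [Complex.re_sum]
  rw [hre]
  have hsplit : ∀ i : Fin n,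
      ∑ j, (∫ ω, Yv ∅ z i ω * (starRingEnd ℂ) (Yv ∅ z j ω) ∂(Measure.pi μ)).re ≤
      ∫ ω, ‖Yv ∅ z i ω‖ ^ 2 ∂(Measure.pi μ) + ∑ j ∈ Finset.univ.erase i,
        ((∫ ω, ‖Yv ∅ z i ω - Yv {j} z i ω‖ ^ 2 ∂(Measure.pi μ)) +
          ∫ ω, ‖Yv ∅ z j ω - Yv {i} z j ω‖ ^ 2 ∂(Measure.pi μ)) / 2 := by
    intro i
    rw [← Finset.add_sum_erase Finset.univ _ (Finset.mem_univ i)]
    refine add_le_add ?_ (Finset.sum_le_sum fun j hj => hoff i j (Finset.ne_of_mem_erase hj).symm)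
    rw [hdiag i, Complex.ofReal_re]
  refine (Finset.sum_le_sum fun i _ => hsplit i).trans ?_
  rw [Finset.sum_add_distrib]
  refine add_le_add le_rfl (le_of_eq ?_)
  -- symmetrise the double sum
  set D : Fin n → Fin n → ℝ := fun i j =>
    ∫ ω, ‖Yv ∅ z i ω - Yv {j} z i ω‖ ^ 2 ∂(Measure.pi μ) with hD
  have hsym : ∑ i, ∑ j ∈ Finset.univ.erase i, D j i = ∑ i, ∑ j ∈ Finset.univ.erase i, D i j := by
    rw [Finset.sum_comm' (t' := Finset.univ) (s' := fun j => Finset.univ.erase j)]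
    intro x y
    simp [ne_comm]
  have : ∑ i, ∑ j ∈ Finset.univ.erase i, (D i j + D j i) / 2 =
      (∑ i, ∑ j ∈ Finset.univ.erase i, D i j + ∑ i, ∑ j ∈ Finset.univ.erase i, D j i) / 2 := by
    rw [← Finset.sum_add_distrib, Finset.sum_div]
    refine Finset.sum_congr rfl fun i _ => ?_
    rw [← Finset.sum_add_distrib, Finset.sum_div]
  rw [this, hsym]
  ring

end Pool.Agent.Eig
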