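import Pool.Agent.Work.MP_1c1c8a_pr.EBound
import Pool.Agent.Work.MP_1c1c8a_pr.Quad
import Pool.Agent.Work.MP_1c1c8a_pr.Lin3

/-! # No eigenvalue near a point outside the bulk -/

namespace Pool.Agent.Eig

open MeasureTheory Filter Topology Matrix

namespace OuterAux

theorem nsq (E η x : ℝ) : ‖(⟨E, η⟩ : ℂ) - (x : ℂ)‖ ^ 2 = (E - x) ^ 2 + η ^ 2 := by
  rw [← Complex.normSq_eq_norm_sq, Complex.normSq_apply]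
  simp
  ring

theorem inv_comp {a η1 η2 : ℝ} (h2 : 0 < η2) (h12 : η2 ≤ η1) :
    (a ^ 2 + η2 ^ 2)⁻¹ ≤ (η1 / η2) ^ 2 * (a ^ 2 + η1 ^ 2)⁻¹ := by
  have h1 : 0 < η1 := lt_of_lt_of_le h2 h12
  have hD2 : 0 < a ^ 2 + η2 ^ 2 := by positivity
  have hD1 : 0 < a ^ 2 + η1 ^ 2 := by positivity
  have hq : η2 ^ 2 ≤ η1 ^ 2 := by gcongr
  rw [div_pow, div_mul_eq_mul_div, ← div_eq_mul_inv, inv_eq_one_div, div_div,
    div_le_div_iff₀ hD2 (by positivity)]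
  nlinarith [mul_nonneg (sq_nonneg a) (sub_nonneg.2 hq)]

theorem det_facts {n : ℕ} (ω : Ent n) {E η1 η2 : ℝ} (h2 : 0 < η2) (h12 : η2 ≤ η1) :
    NN ∅ (⟨E, η2⟩ : ℂ) ω ≤ (η1 / η2) ^ 2 * NN ∅ (⟨E, η1⟩ : ℂ) ω ∧
    ‖st ∅ (⟨E, η2⟩ : ℂ) ω - st ∅ (⟨E, η1⟩ : ℂ) ω‖ ≤
      η1 ^ 2 / η2 * NN ∅ (⟨E, η1⟩ : ℂ) ω ∧
    ∀ x, IsEig ω x → |x - E| ≤ η2 → 1 / (2 * η2 ^ 2) ≤ NN ∅ (⟨E, η2⟩ : ℂ) ω := by
  have h1 : 0 < η1 := lt_of_lt_of_le h2 h12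
  obtain ⟨ev, hev, heig⟩ := spec ω
  obtain ⟨hs1, hN1⟩ := hev (⟨E, η1⟩ : ℂ) (by simpa using h1.ne')
  obtain ⟨hs2, hN2⟩ := hev (⟨E, η2⟩ : ℂ) (by simpa using h2.ne')
  refine ⟨?_, ?_, ?_⟩
  · rw [hN1, hN2, Finset.mul_sum]
    refine Finset.sum_le_sum fun i _ => ?_
    rw [nsq, nsq]
    exact inv_comp h2 h12
  · rw [hs1, hs2, hN1, ← Finset.sum_sub_distrib, Finset.mul_sum]
    refine (norm_sum_le _ _).trans (Finset.sum_le_sum fun i _ => ?_)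
    set w1 : ℂ := (⟨E, η1⟩ : ℂ) - (ev i : ℂ) with hw1
    set w2 : ℂ := (⟨E, η2⟩ : ℂ) - (ev i : ℂ) with hw2
    have n1 : ‖w1‖ ^ 2 = (E - ev i) ^ 2 + η1 ^ 2 := nsq _ _ _
    have n2 : ‖w2‖ ^ 2 = (E - ev i) ^ 2 + η2 ^ 2 := nsq _ _ _
    have p1 : 0 < ‖w1‖ := by
      have : 0 < ‖w1‖ ^ 2 := by rw [n1]; positivity
      rcases (norm_nonneg w1).eq_or_lt with h | h
      · rw [← h] at this; norm_num at this
      · exact h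
    have p2 : 0 < ‖w2‖ := by
      have : 0 < ‖w2‖ ^ 2 := by rw [n2]; positivity
      rcases (norm_nonneg w2).eq_or_lt with h | h
      · rw [← h] at this; norm_num at this
      · exact h
    have hsub : w1 - w2 = ⟨0, η1 - η2⟩ := by
      rw [hw1, hw2]
      apply Complex.ext <;> simp
    have hnsub : ‖w1 - w2‖ ≤ η1 := by
      rw [hsub]
      have : (⟨0, η1 - η2⟩ : ℂ) = ((η1 - η2 : ℝ) : ℂ) * Complex.I := by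
        apply Complex.ext <;> simp
      rw [this, norm_mul, Complex.norm_I, mul_one, Complex.norm_real, Real.norm_eq_abs,
        abs_of_nonneg (by linarith)]
      linarith
    have hid : w2⁻¹ - w1⁻¹ = (w1 - w2) * (w2⁻¹ * w1⁻¹) := by
      have : w1 ≠ 0 := norm_pos_iff.1 p1
      have : w2 ≠ 0 := norm_pos_iff.1 p2
      field_simp
    rw [hid, norm_mul, norm_mul, norm_inv, norm_inv]
    have hcmp : ‖w2‖⁻¹ ≤ (η1 / η2) * ‖w1‖⁻¹ := by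
      have h := inv_comp (a := E - ev i) h2 h12
      rw [← n1, ← n2] at h
      have h' : (‖w2‖⁻¹) ^ 2 ≤ ((η1 / η2) * ‖w1‖⁻¹) ^ 2 := by
        rw [mul_pow, inv_pow, inv_pow]; exact h
      exact le_of_sq_le_sq h' (by positivity)
    calc ‖w1 - w2‖ * (‖w2‖⁻¹ * ‖w1‖⁻¹) ≤ η1 * (((η1 / η2) * ‖w1‖⁻¹) * ‖w1‖⁻¹) := by
          gcongr
      _ = η1 ^ 2 / η2 * (‖w1‖ ^ 2)⁻¹ := by
          field_simp
  · intro x hx hxE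
    obtain ⟨i, hi⟩ := (heig x).1 hx
    rw [hN2]
    have hle : (‖(⟨E, η2⟩ : ℂ) - (ev i : ℂ)‖ ^ 2)⁻¹ ≤
        ∑ i, (‖(⟨E, η2⟩ : ℂ) - (ev i : ℂ)‖ ^ 2)⁻¹ :=
      Finset.single_le_sum (f := fun i => (‖(⟨E, η2⟩ : ℂ) - (ev i : ℂ)‖ ^ 2)⁻¹)
        (fun j _ => by positivity) (Finset.mem_univ i)
    refine le_trans ?_ hle
    rw [nsq, hi, one_div]
    have : (E - x) ^ 2 ≤ η2 ^ 2 := by
      rw [← sq_abs (E - x), abs_sub_comm]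
      gcongr
    exact inv_anti₀ (by positivity) (by linarith)

section integrability

variable {n : ℕ} {b : ℝ} {μ : Sym2 (Fin n) → Measure ℝ}

theorem st_cont {z : ℂ} (hz : z.im ≠ 0) : Continuous (fun ω : Ent n => st ∅ z ω) := by
  unfold st
  exact continuous_finsetSum _ fun i _ => Gr_continuous hz i i

theorem NN_cont {z : ℂ} (hz : z.im ≠ 0) : Continuous (fun ω : Ent n => NN ∅ z ω) := by
  unfold NN
  exact continuous_finsetSum _ fun i _ => continuous_finsetSum _ fun j _ =>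
    ((Gr_continuous hz i j).norm.pow 2)

theorem st_norm_le {z : ℂ} (hz : z.im ≠ 0) (ω : Ent n) : ‖st ∅ z ω‖ ≤ n * |z.im|⁻¹ := by
  unfold st
  refine (norm_sum_le _ _).trans ?_
  refine (Finset.sum_le_sum fun i _ => Gr_le hz i i).trans ?_
  simp

theorem NN_nonneg (z : ℂ) (ω : Ent n) : 0 ≤ NN ∅ z ω := by
  unfold NN
  exact Finset.sum_nonneg fun i _ => Finset.sum_nonneg fun j _ => by positivity

theorem int_bdd (hμ : ∀ e, GoodLaw b (μ e)) {f : Ent n → ℝ} (hf : Continuous f) {C : ℝ}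
    (hC : ∀ ω, |f ω| ≤ C) : Integrable f (Measure.pi μ) := by
  haveI : ∀ e, IsProbabilityMeasure (μ e) := fun e => (hμ e).prob
  exact Integrable.of_bound hf.aestronglyMeasurable C (Eventually.of_forall fun ω => by
    rw [Real.norm_eq_abs]; exact hC ω)

theorem int_NN (hμ : ∀ e, GoodLaw b (μ e)) {z : ℂ} (hz : z.im ≠ 0) :
    Integrable (fun ω => NN ∅ z ω ^ 2) (Measure.pi μ) := by
  refine int_bdd hμ ((NN_cont hz).pow 2) (C := (n * (z.im ^ 2)⁻¹) ^ 2) fun ω => ?_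
  rw [abs_of_nonneg (by positivity)]
  have := NN_nonneg z ω
  gcongr
  exact NN_le hz

theorem int_EE (hμ : ∀ e, GoodLaw b (μ e)) {z : ℂ} (hz : z.im ≠ 0) :
    Integrable (fun ω => ‖EE z ω‖ ^ 2) (Measure.pi μ) := by
  unfold EE
  refine int_bdd hμ ((((st_cont hz).mul (continuous_const.sub (st_cont hz))).sub
    continuous_const).norm.pow 2)
    (C := (n * |z.im|⁻¹ * (‖z‖ + n * |z.im|⁻¹) + n) ^ 2) fun ω => ?_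
  rw [abs_of_nonneg (by positivity)]
  have h1 := st_norm_le hz ω
  have h2 : ‖z - st ∅ z ω‖ ≤ ‖z‖ + n * |z.im|⁻¹ := (norm_sub_le _ _).trans (by linarith)
  have h3 : ‖st ∅ z ω * (z - st ∅ z ω) - n‖ ≤
      n * |z.im|⁻¹ * (‖z‖ + n * |z.im|⁻¹) + n := by
    refine (norm_sub_le _ _).trans ?_
    rw [norm_mul, Complex.norm_natCast]
    gcongr
  gcongr

theorem int_sg (hμ : ∀ e, GoodLaw b (μ e)) {z : ℂ} (hz : z.im ≠ 0) (g : ℂ) :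
    Integrable (fun ω => ‖st ∅ z ω - g‖ ^ 2) (Measure.pi μ) := by
  refine int_bdd hμ (((st_cont hz).sub continuous_const).norm.pow 2)
    (C := (n * |z.im|⁻¹ + ‖g‖) ^ 2) fun ω => ?_
  rw [abs_of_nonneg (by positivity)]
  have h1 := st_norm_le hz ω
  have h2 : ‖st ∅ z ω - g‖ ≤ n * |z.im|⁻¹ + ‖g‖ := (norm_sub_le _ _).trans (by linarith)
  gcongr

/-- Chebyshev. -/
theorem cheb (hμ : ∀ e, GoodLaw b (μ e)) {f : Ent n → ℝ} (hf0 : ∀ ω, 0 ≤ f ω)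
    (hf : Integrable (fun ω => f ω ^ 2) (Measure.pi μ)) {a : ℝ} (ha : 0 < a) :
    (Measure.pi μ).real {ω | a ≤ f ω} ≤ (∫ ω, f ω ^ 2 ∂(Measure.pi μ)) / a ^ 2 := by
  haveI : ∀ e, IsProbabilityMeasure (μ e) := fun e => (hμ e).prob
  have h := mul_meas_ge_le_integral_of_nonneg (μ := Measure.pi μ)
    (Eventually.of_forall fun ω => sq_nonneg (f ω)) hf (a ^ 2)
  have hs : {ω | a ≤ f ω} = {ω | a ^ 2 ≤ f ω ^ 2} := by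
    ext ω
    simp only [Set.mem_setOf_eq]
    exact ⟨fun h => by gcongr, fun h => le_of_sq_le_sq h (hf0 ω)⟩
  rw [hs, le_div_iff₀ (by positivity), mul_comm]
  exact h

end integrability


theorem param {n e : ℝ} (hn : 1 ≤ n) (he : 0 < e) :
    0 < e ^ ((1 : ℝ) / 4) * n ^ (-(1 : ℝ) / 8) ∧
    (e ^ ((1 : ℝ) / 4) * n ^ (-(1 : ℝ) / 8)) ^ 4 * √n = e ∧
    √(√n / e) = ((e ^ ((1 : ℝ) / 4) * n ^ (-(1 : ℝ) / 8)) ^ 2)⁻¹ ∧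
    (e * n ^ ((1 : ℝ) / 6)) ^ (-(3 : ℝ) / 2) =
      ((e ^ ((1 : ℝ) / 4) * n ^ (-(1 : ℝ) / 8)) ^ 6 * n)⁻¹ := by
  have hn0 : 0 < n := by linarith
  have hsn : 0 < √n := Real.sqrt_pos.2 hn0
  have ht : 0 < e ^ ((1 : ℝ) / 4) * n ^ (-(1 : ℝ) / 8) := by positivity
  have h4 : (e ^ ((1 : ℝ) / 4) * n ^ (-(1 : ℝ) / 8)) ^ 4 * √n = e := by
    rw [mul_pow, ← Real.rpow_natCast, ← Real.rpow_natCast, ← Real.rpow_mul he.le,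
      ← Real.rpow_mul hn0.le, Real.sqrt_eq_rpow, mul_assoc, ← Real.rpow_add hn0]
    norm_num
  refine ⟨ht, h4, ?_, ?_⟩
  · set t := e ^ ((1 : ℝ) / 4) * n ^ (-(1 : ℝ) / 8) with ht_def
    have : √n / e = ((t ^ 2)⁻¹) ^ 2 := by
      rw [← h4]
      field_simp
    rw [this, Real.sqrt_sq (by positivity)]
  · set t := e ^ ((1 : ℝ) / 4) * n ^ (-(1 : ℝ) / 8) with ht_def
    have he2 : e * n ^ ((1 : ℝ) / 6) = t ^ (4 : ℝ) * n ^ ((2 : ℝ) / 3) := by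
      rw [← h4, mul_assoc, Real.sqrt_eq_rpow, ← Real.rpow_add hn0]
      congr 1
      · exact (Real.rpow_natCast t 4).symm
      · norm_num
    rw [he2, Real.mul_rpow (by positivity) (by positivity), ← Real.rpow_mul ht.le,
      ← Real.rpow_mul hn0.le, mul_inv, ← Real.rpow_natCast, ← Real.rpow_neg ht.le]
    norm_num
    exact Or.inl (Real.rpow_neg_one n)

theorem u_facts {n t e A : ℝ} (hn : 1 ≤ n) (ht : 0 < t) (h4 : t ^ 4 * √n = e) (hA : 1 ≤ A)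
    (hL : A ^ 4 * n ^ (-(1 : ℝ) / 6) ≤ e) :
    A * n ^ (-(1 : ℝ) / 6) ≤ t ∧ A ≤ t ^ 3 * √n := by
  have hn0 : 0 < n := by linarith
  set v : ℝ := n ^ ((1 : ℝ) / 6) with hv
  have hv0 : 0 < v := by positivity
  have hv3 : v ^ 3 = √n := by
    rw [hv, ← Real.rpow_natCast, ← Real.rpow_mul hn0.le, Real.sqrt_eq_rpow]
    norm_num
  have hvi : n ^ (-(1 : ℝ) / 6) = v⁻¹ := by
    rw [hv, ← Real.rpow_neg hn0.le]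
    norm_num
  rw [hvi] at hL ⊢
  have h1 : A ^ 4 ≤ (t * v) ^ 4 := by
    rw [← h4, ← hv3] at hL
    have := mul_le_mul_of_nonneg_right hL hv0.le
    calc A ^ 4 = A ^ 4 * v⁻¹ * v := by field_simp
      _ ≤ t ^ 4 * v ^ 3 * v := this
      _ = (t * v) ^ 4 := by ring
  have h2 : A ≤ t * v := le_of_pow_le_pow_left₀ (by norm_num) (by positivity) h1
  constructor
  · rw [← div_eq_mul_inv, div_le_iff₀ hv0]
    exact h2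
  · rw [← hv3]
    have h3 : 1 ≤ t * v := hA.trans h2
    calc A ≤ t * v := h2
      _ = (t * v) * 1 ^ 2 := by ring
      _ ≤ (t * v) * (t * v) ^ 2 := by gcongr
      _ = t ^ 3 * v ^ 3 := by ring


theorem FT_bound {F N1 CE C0 κ C1 t : ℝ} (hCE : 0 ≤ CE) (hκ : 0 < κ) (hC11 : 1 ≤ C1)
    (hC14 : C1 ≤ C1 ^ 4) (habs : 2 * CE / (κ ^ 2 * C1 ^ 4) ≤ 1 / 2) (ht0 : 0 < t)
    (ht4 : t ^ 4 ≤ C0) (hF0 : 0 ≤ F) (h1 : F ≤ CE * (1 + ((C1 * t) ^ 4)⁻¹ + N1))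
    (h2 : N1 ≤ 2 / (κ ^ 2 * t ^ 4) + 2 / (κ ^ 2 * C1 ^ 4) * F) :
    F * t ^ 4 ≤ 2 * CE * (C0 + 1 + 2 / κ ^ 2) := by
  have hC10 : 0 < C1 := by linarith
  have h3 : F ≤ CE * (1 + ((C1 * t) ^ 4)⁻¹ + 2 / (κ ^ 2 * t ^ 4)) +
      2 * CE / (κ ^ 2 * C1 ^ 4) * F := by
    calc F ≤ CE * (1 + ((C1 * t) ^ 4)⁻¹ + N1) := h1
      _ ≤ CE * (1 + ((C1 * t) ^ 4)⁻¹ + (2 / (κ ^ 2 * t ^ 4) + 2 / (κ ^ 2 * C1 ^ 4) * F)) :=
          mul_le_mul_of_nonneg_left (by linarith) hCE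
      _ = _ := by ring
  have h4 : 2 * CE / (κ ^ 2 * C1 ^ 4) * F ≤ 1 / 2 * F := mul_le_mul_of_nonneg_right habs hF0
  have h5 : F ≤ 2 * CE * (1 + ((C1 * t) ^ 4)⁻¹ + 2 / (κ ^ 2 * t ^ 4)) := by linarith
  have ht4p : 0 < t ^ 4 := by positivity
  have h6 : (C1 ^ 4)⁻¹ ≤ 1 := inv_le_one_of_one_le₀ (by linarith)
  calc F * t ^ 4 ≤ 2 * CE * (1 + ((C1 * t) ^ 4)⁻¹ + 2 / (κ ^ 2 * t ^ 4)) * t ^ 4 :=
        mul_le_mul_of_nonneg_right h5 ht4p.le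
    _ = 2 * CE * (t ^ 4 + (C1 ^ 4)⁻¹ + 2 / κ ^ 2) := by
        rw [mul_pow]; field_simp
    _ ≤ 2 * CE * (C0 + 1 + 2 / κ ^ 2) :=
        mul_le_mul_of_nonneg_left (by linarith) (by linarith)

theorem NT_bound {F N1 CF κ C1 t : ℝ} (hκ : 0 < κ) (hC1 : 0 < C1) (ht0 : 0 < t)
    (hF : F * t ^ 4 ≤ CF)
    (h2 : N1 ≤ 2 / (κ ^ 2 * t ^ 4) + 2 / (κ ^ 2 * C1 ^ 4) * F) :
    N1 * t ^ 4 ≤ 2 / κ ^ 2 + 2 * CF / (κ ^ 2 * C1 ^ 4) := by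
  have ht4p : 0 < t ^ 4 := by positivity
  calc N1 * t ^ 4 ≤ (2 / (κ ^ 2 * t ^ 4) + 2 / (κ ^ 2 * C1 ^ 4) * F) * t ^ 4 :=
        mul_le_mul_of_nonneg_right h2 ht4p.le
    _ = 2 / κ ^ 2 + 2 * (F * t ^ 4) / (κ ^ 2 * C1 ^ 4) := by field_simp
    _ ≤ _ := by gcongr

theorem F2T_bound {F2 N2 N1 CN CE C0 C1 c t : ℝ} (hCE : 0 ≤ CE) (hC1 : 0 < C1) (hc : 0 < c)
    (ht0 : 0 < t) (ht4 : t ^ 4 ≤ C0) (hN : N1 * t ^ 4 ≤ CN) (hN21 : N2 ≤ (C1 / c) ^ 4 * N1)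
    (h1 : F2 ≤ CE * (1 + ((c * t) ^ 4)⁻¹ + N2)) :
    F2 * t ^ 4 ≤ CE * (C0 + 1 / c ^ 4 + (C1 / c) ^ 4 * CN) := by
  have ht4p : 0 < t ^ 4 := by positivity
  have hq : 0 ≤ (C1 / c) ^ 4 := by positivity
  calc F2 * t ^ 4 ≤ CE * (1 + ((c * t) ^ 4)⁻¹ + (C1 / c) ^ 4 * N1) * t ^ 4 := by
        refine mul_le_mul_of_nonneg_right (h1.trans ?_) ht4p.le
        exact mul_le_mul_of_nonneg_left (by linarith) hCE
    _ = CE * (t ^ 4 + 1 / c ^ 4 + (C1 / c) ^ 4 * (N1 * t ^ 4)) := by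
        have : ((c * t) ^ 4)⁻¹ * t ^ 4 = 1 / c ^ 4 := by rw [mul_pow]; field_simp
        calc CE * (1 + ((c * t) ^ 4)⁻¹ + (C1 / c) ^ 4 * N1) * t ^ 4
            = CE * (t ^ 4 + ((c * t) ^ 4)⁻¹ * t ^ 4 + (C1 / c) ^ 4 * (N1 * t ^ 4)) := by ring
          _ = _ := by rw [this]
    _ ≤ _ := by
        refine mul_le_mul_of_nonneg_left ?_ hCE
        have := mul_le_mul_of_nonneg_left hN hq
        linarith

theorem final_arith {D1 F F2 κ C1 c R t n CF CF2 : ℝ} (hκ : 0 < κ) (hC1 : 0 < C1) (hc : 0 < c)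
    (hR : 0 < R) (ht : 0 < t) (hn : 0 < n) (hDF : D1 ≤ F * (t / (κ * C1)) ^ 2)
    (hF : F * t ^ 4 ≤ CF) (hF2 : F2 * t ^ 4 ≤ CF2) :
    D1 / (√n * t ^ 2 / (2 * R)) ^ 2 + F2 / (√n * t / (4 * c)) ^ 2 ≤
      (4 * R ^ 2 * CF / (κ * C1) ^ 2 + 16 * c ^ 2 * CF2) * (t ^ 6 * n)⁻¹ := by
  have hs : √n ^ 2 = n := Real.sq_sqrt hn.le
  have hsp : 0 < √n := Real.sqrt_pos.2 hn
  have e1 : (√n * t ^ 2 / (2 * R)) ^ 2 = n * t ^ 4 / (4 * R ^ 2) := by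
    rw [div_pow, mul_pow, hs]; ring
  have e2 : (√n * t / (4 * c)) ^ 2 = n * t ^ 2 / (16 * c ^ 2) := by
    rw [div_pow, mul_pow, hs]; ring
  have h1 : D1 / (n * t ^ 4 / (4 * R ^ 2)) ≤
      4 * R ^ 2 * CF / (κ * C1) ^ 2 * (t ^ 6 * n)⁻¹ := by
    calc D1 / (n * t ^ 4 / (4 * R ^ 2)) ≤
          F * (t / (κ * C1)) ^ 2 / (n * t ^ 4 / (4 * R ^ 2)) := by gcongr
      _ = 4 * R ^ 2 * (F * t ^ 4) / (κ * C1) ^ 2 * (t ^ 6 * n)⁻¹ := by field_simp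
      _ ≤ _ := by gcongr
  have h2 : F2 / (n * t ^ 2 / (16 * c ^ 2)) ≤ 16 * c ^ 2 * CF2 * (t ^ 6 * n)⁻¹ := by
    calc F2 / (n * t ^ 2 / (16 * c ^ 2)) = 16 * c ^ 2 * (F2 * t ^ 4) * (t ^ 6 * n)⁻¹ := by
          field_simp
      _ ≤ _ := by gcongr
  rw [e1, e2, add_mul]
  exact add_le_add h1 h2

/-- deterministic part -/
theorem inc_det {n : ℕ} (ω : Ent n) {E t C1 c κ CD Q R : ℝ} {g1 g2 : ℂ} (hn0 : (0 : ℝ) < n)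
    (ht0 : 0 < t) (hC1 : 1 ≤ C1) (hc0 : 0 < c) (hc1 : c ≤ 1) (hκ : 0 < κ) (hc4 : 4 * c ^ 2 ≤ κ)
    (hQ : Q = C1 ^ 2 / (c * κ) + CD * C1) (hR : R = 1 + C1 / c)
    (hQ2 : 2 * Q ≤ t ^ 3 * √n)
    (P2 : NN ∅ (⟨E, C1 * t⟩ : ℂ) ω ≤
      1 / (κ * t ^ 2) + ‖st ∅ (⟨E, C1 * t⟩ : ℂ) ω - g1‖ / (C1 * t))
    (hg2 : g2 * ((⟨E, c * t⟩ : ℂ) - g2) = n) (hb2 : -g2.im ≤ c / (κ * t))
    (hgd : ‖g1 - g2‖ ≤ CD * C1 / t) (hΔ : 2 * √n * t ^ 2 ≤ ‖(⟨E, c * t⟩ : ℂ) - 2 * g2‖)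
    {x : ℝ} (hx : IsEig ω x) (hxE : |x - E| ≤ c * t)
    (hB : ‖st ∅ (⟨E, C1 * t⟩ : ℂ) ω - g1‖ < √n * t ^ 2 / (2 * R)) :
    √n * t / (4 * c) ≤ ‖EE (⟨E, c * t⟩ : ℂ) ω‖ := by
  have hC10 : 0 < C1 := by linarith
  have hη1p : 0 < C1 * t := by positivity
  have hη2p : 0 < c * t := by positivity
  have hη12 : c * t ≤ C1 * t := by gcongr; linarith
  have hsp : 0 < √(n : ℝ) := Real.sqrt_pos.2 hn0
  have hR0 : 0 < R := by rw [hR]; positivity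
  obtain ⟨-, hd2, hd3⟩ := det_facts ω (E := E) hη2p hη12
  have hN := hd3 x hx hxE
  have hz2' : (⟨E, c * t⟩ : ℂ).im ≠ 0 := hη2p.ne'
  have hs2 := st_im (T := ∅) (ω := ω) hz2'
  have hs2' : (st ∅ (⟨E, c * t⟩ : ℂ) ω).im = -(c * t) * NN ∅ (⟨E, c * t⟩ : ℂ) ω := hs2
  generalize hs1g : st ∅ (⟨E, C1 * t⟩ : ℂ) ω = s1 at *
  generalize hs2g : st ∅ (⟨E, c * t⟩ : ℂ) ω = s2 at *
  generalize NN ∅ (⟨E, C1 * t⟩ : ℂ) ω = M1 at *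
  generalize NN ∅ (⟨E, c * t⟩ : ℂ) ω = M2 at *
  have hlow2 : 1 / (4 * c * t) ≤ ‖s2 - g2‖ := by
    have h1 : g2.im - s2.im ≤ ‖s2 - g2‖ := by
      rw [norm_sub_rev, ← Complex.sub_im]
      exact (le_abs_self _).trans (Complex.abs_im_le_norm _)
    have h2 : 1 / (2 * (c * t)) ≤ -s2.im := by
      rw [hs2']
      calc 1 / (2 * (c * t)) = (c * t) * (1 / (2 * (c * t) ^ 2)) := by field_simp
        _ ≤ (c * t) * M2 := by gcongr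
        _ = _ := by ring
    have h3 : c / (κ * t) ≤ 1 / (4 * c * t) := by
      rw [div_le_div_iff₀ (by positivity) (by positivity)]
      nlinarith
    have h5 : 1 / (2 * (c * t)) = 1 / (4 * c * t) + 1 / (4 * c * t) := by
      field_simp; norm_num
    linarith
  have hup2 : ‖s2 - g2‖ ≤ √n * t ^ 2 := by
    have h1 : ‖s2 - g2‖ ≤ ‖s2 - s1‖ + ‖s1 - g1‖ + ‖g1 - g2‖ := by
      have : s2 - g2 = (s2 - s1) + (s1 - g1) + (g1 - g2) := by ring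
      rw [this]
      exact norm_add₃_le
    have h2 : ‖s2 - s1‖ ≤ C1 ^ 2 / (c * κ) / t + C1 / c * ‖s1 - g1‖ := by
      calc ‖s2 - s1‖ ≤ (C1 * t) ^ 2 / (c * t) * M1 := hd2
        _ ≤ (C1 * t) ^ 2 / (c * t) * (1 / (κ * t ^ 2) + ‖s1 - g1‖ / (C1 * t)) := by gcongr
        _ = _ := by field_simp
    have h3 : R * ‖s1 - g1‖ ≤ √n * t ^ 2 / 2 := by
      calc R * ‖s1 - g1‖ ≤ R * (√n * t ^ 2 / (2 * R)) := by gcongr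
        _ = _ := by field_simp
    have h4' : Q / t ≤ √n * t ^ 2 / 2 := by
      rw [div_le_div_iff₀ ht0 (by norm_num)]
      calc Q * 2 ≤ t ^ 3 * √n := by linarith
        _ = √n * t ^ 2 * t := by ring
    have h5 : Q / t = C1 ^ 2 / (c * κ) / t + CD * C1 / t := by rw [hQ]; ring
    have h6 : R * ‖s1 - g1‖ = ‖s1 - g1‖ + C1 / c * ‖s1 - g1‖ := by
      rw [hR]; ring
    linarith
  have hst := stab2 (n := (n : ℝ)) (z := (⟨E, c * t⟩ : ℂ)) hg2 (s := s2) (by linarith)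
  have hst2 : ‖s2 - g2‖ * ‖(⟨E, c * t⟩ : ℂ) - 2 * g2‖ ≤ 2 * ‖EE (⟨E, c * t⟩ : ℂ) ω‖ := by
    refine hst.trans (le_of_eq ?_)
    unfold EE
    rw [hs2g]
    norm_num
  have : √n * t / (4 * c) * 2 ≤ 2 * ‖EE (⟨E, c * t⟩ : ℂ) ω‖ := by
    calc √n * t / (4 * c) * 2 = 1 / (4 * c * t) * (2 * √n * t ^ 2) := by field_simp
      _ ≤ ‖s2 - g2‖ * ‖(⟨E, c * t⟩ : ℂ) - 2 * g2‖ := by gcongr
      _ ≤ _ := hst2
  linarith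

/-- integrated bounds -/
theorem int_bounds {n : ℕ} {b : ℝ} {μ : Sym2 (Fin n) → Measure ℝ} (hμ : ∀ e, GoodLaw b (μ e))
    {E t C1 c κ : ℝ} {g1 : ℂ} (hn0 : (0 : ℝ) < n) (ht0 : 0 < t) (hC1 : 1 ≤ C1) (hc0 : 0 < c)
    (hc1 : c ≤ 1) (hκ : 0 < κ)
    (hg1 : g1 * ((⟨E, C1 * t⟩ : ℂ) - g1) = n) (hg1i : g1.im < 0)
    (ha1 : κ * C1 / t ≤ C1 * t - g1.im) (ha2 : -g1.im ≤ C1 / (κ * t)) :
    (∀ ω : Ent n, NN ∅ (⟨E, C1 * t⟩ : ℂ) ω ≤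
      1 / (κ * t ^ 2) + ‖st ∅ (⟨E, C1 * t⟩ : ℂ) ω - g1‖ / (C1 * t)) ∧
    ∫ ω, ‖st ∅ (⟨E, C1 * t⟩ : ℂ) ω - g1‖ ^ 2 ∂(Measure.pi μ) ≤
      (∫ ω, ‖EE (⟨E, C1 * t⟩ : ℂ) ω‖ ^ 2 ∂(Measure.pi μ)) * (t / (κ * C1)) ^ 2 ∧
    ∫ ω, (NN ∅ (⟨E, C1 * t⟩ : ℂ) ω) ^ 2 ∂(Measure.pi μ) ≤ 2 / (κ ^ 2 * t ^ 4) +
      2 / (κ ^ 2 * C1 ^ 4) * ∫ ω, ‖EE (⟨E, C1 * t⟩ : ℂ) ω‖ ^ 2 ∂(Measure.pi μ) ∧
    ∫ ω, (NN ∅ (⟨E, c * t⟩ : ℂ) ω) ^ 2 ∂(Measure.pi μ) ≤ (C1 / c) ^ 4 *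
      ∫ ω, (NN ∅ (⟨E, C1 * t⟩ : ℂ) ω) ^ 2 ∂(Measure.pi μ) := by
  have hC10 : 0 < C1 := by linarith
  have hη1p : 0 < C1 * t := by positivity
  have hη2p : 0 < c * t := by positivity
  have hη12 : c * t ≤ C1 * t := by gcongr; linarith
  have hz1' : (⟨E, C1 * t⟩ : ℂ).im ≠ 0 := hη1p.ne'
  have hz2' : (⟨E, c * t⟩ : ℂ).im ≠ 0 := hη2p.ne'
  have I1 := int_NN hμ hz1'
  have I2 := int_EE hμ hz1'
  have I3 := int_sg hμ hz1' g1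
  have I4 := int_NN hμ hz2'
  have hsim : ∀ ω : Ent n, (st ∅ (⟨E, C1 * t⟩ : ℂ) ω).im = -(C1 * t) *
      NN ∅ (⟨E, C1 * t⟩ : ℂ) ω := fun ω => st_im (T := ∅) (ω := ω) hz1'
  have hst : ∀ ω : Ent n, ‖st ∅ (⟨E, C1 * t⟩ : ℂ) ω - g1‖ * (C1 * t - g1.im) ≤
      ‖EE (⟨E, C1 * t⟩ : ℂ) ω‖ := by
    intro ω
    refine (stab (n := (n : ℝ)) (z := (⟨E, C1 * t⟩ : ℂ)) hη1p hg1 hg1i ?_).trans (le_of_eq ?_)
    · rw [hsim]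
      nlinarith [NN_nonneg (⟨E, C1 * t⟩ : ℂ) ω]
    · unfold EE; norm_num
  have hdf : ∀ ω : Ent n, NN ∅ (⟨E, c * t⟩ : ℂ) ω ≤
      (C1 / c) ^ 2 * NN ∅ (⟨E, C1 * t⟩ : ℂ) ω := by
    intro ω
    have h := (det_facts ω (E := E) hη2p hη12).1
    have hq : (C1 * t) / (c * t) = C1 / c := by field_simp
    rw [hq] at h
    exact h
  have P1 : ∀ ω : Ent n, ‖st ∅ (⟨E, C1 * t⟩ : ℂ) ω - g1‖ ≤
      ‖EE (⟨E, C1 * t⟩ : ℂ) ω‖ * (t / (κ * C1)) := by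
    intro ω
    have h2 : ‖st ∅ (⟨E, C1 * t⟩ : ℂ) ω - g1‖ * (κ * C1 / t) ≤ ‖EE (⟨E, C1 * t⟩ : ℂ) ω‖ :=
      le_trans (mul_le_mul_of_nonneg_left ha1 (norm_nonneg _)) (hst ω)
    calc ‖st ∅ (⟨E, C1 * t⟩ : ℂ) ω - g1‖
        = ‖st ∅ (⟨E, C1 * t⟩ : ℂ) ω - g1‖ * (κ * C1 / t) * (t / (κ * C1)) := by
          field_simp
      _ ≤ _ := mul_le_mul_of_nonneg_right h2 (by positivity)
  have P2 : ∀ ω : Ent n, NN ∅ (⟨E, C1 * t⟩ : ℂ) ω ≤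
      1 / (κ * t ^ 2) + ‖st ∅ (⟨E, C1 * t⟩ : ℂ) ω - g1‖ / (C1 * t) := by
    intro ω
    have h := hsim ω
    have h1 : g1.im - (st ∅ (⟨E, C1 * t⟩ : ℂ) ω).im ≤ ‖st ∅ (⟨E, C1 * t⟩ : ℂ) ω - g1‖ := by
      rw [norm_sub_rev, ← Complex.sub_im]
      exact (le_abs_self _).trans (Complex.abs_im_le_norm _)
    generalize st ∅ (⟨E, C1 * t⟩ : ℂ) ω = s1 at *
    generalize NN ∅ (⟨E, C1 * t⟩ : ℂ) ω = M1 at *
    have h2 : C1 * t * M1 ≤ C1 / (κ * t) + ‖s1 - g1‖ := by linarith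
    calc M1 = (C1 * t * M1) / (C1 * t) := by field_simp
      _ ≤ (C1 / (κ * t) + ‖s1 - g1‖) / (C1 * t) := by gcongr
      _ = _ := by field_simp
  haveI : ∀ e, IsProbabilityMeasure (μ e) := fun e => (hμ e).prob
  refine ⟨P2, ?_, ?_, ?_⟩
  · rw [← integral_mul_const]
    refine integral_mono I3 (I2.mul_const _) fun ω => ?_
    show ‖st ∅ (⟨E, C1 * t⟩ : ℂ) ω - g1‖ ^ 2 ≤ ‖EE (⟨E, C1 * t⟩ : ℂ) ω‖ ^ 2 * (t / (κ * C1)) ^ 2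
    rw [← mul_pow]
    exact pow_le_pow_left₀ (norm_nonneg _) (P1 ω) 2
  · have hc : (2 / (κ ^ 2 * t ^ 4)) = ∫ ω, (2 / (κ ^ 2 * t ^ 4)) ∂(Measure.pi μ) := by simp
    rw [← integral_const_mul, hc, ← integral_add (integrable_const _) (I2.const_mul _)]
    refine integral_mono I1 ((integrable_const _).add (I2.const_mul _)) fun ω => ?_
    have h1 := P1 ω
    have h2 := P2 ω
    have h0 := NN_nonneg (⟨E, C1 * t⟩ : ℂ) ω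
    show NN ∅ (⟨E, C1 * t⟩ : ℂ) ω ^ 2 ≤ 2 / (κ ^ 2 * t ^ 4) +
      2 / (κ ^ 2 * C1 ^ 4) * ‖EE (⟨E, C1 * t⟩ : ℂ) ω‖ ^ 2
    generalize ‖st ∅ (⟨E, C1 * t⟩ : ℂ) ω - g1‖ = d1 at *
    generalize NN ∅ (⟨E, C1 * t⟩ : ℂ) ω = M1 at *
    generalize ‖EE (⟨E, C1 * t⟩ : ℂ) ω‖ = X at *
    have h3 : d1 / (C1 * t) ≤ X / (κ * C1 ^ 2) := by
      calc d1 / (C1 * t) ≤ X * (t / (κ * C1)) / (C1 * t) := by gcongr
        _ = _ := by field_simp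
    have h4' : M1 ≤ 1 / (κ * t ^ 2) + X / (κ * C1 ^ 2) := h2.trans (by linarith)
    calc M1 ^ 2 ≤ (1 / (κ * t ^ 2) + X / (κ * C1 ^ 2)) ^ 2 := pow_le_pow_left₀ h0 h4' 2
      _ ≤ 2 * (1 / (κ * t ^ 2)) ^ 2 + 2 * (X / (κ * C1 ^ 2)) ^ 2 := by
          nlinarith [sq_nonneg (1 / (κ * t ^ 2) - X / (κ * C1 ^ 2))]
      _ = _ := by field_simp
  · rw [← integral_const_mul]
    refine integral_mono I4 (I1.const_mul _) fun ω => ?_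
    show NN ∅ (⟨E, c * t⟩ : ℂ) ω ^ 2 ≤ (C1 / c) ^ 4 * NN ∅ (⟨E, C1 * t⟩ : ℂ) ω ^ 2
    calc NN ∅ (⟨E, c * t⟩ : ℂ) ω ^ 2 ≤ ((C1 / c) ^ 2 * NN ∅ (⟨E, C1 * t⟩ : ℂ) ω) ^ 2 :=
          pow_le_pow_left₀ (NN_nonneg _ ω) (hdf ω) 2
      _ = _ := by ring

end OuterAux

open OuterAux

theorem outer_point (b C0 : ℝ) (hC0 : 1 ≤ C0) : ∃ c C L0 : ℝ, 0 < c ∧ c ≤ 1 ∧ 0 ≤ C ∧ 1 ≤ L0 ∧
    ∃ n0 : ℕ, ∀ n ≥ n0, ∀ μ : Sym2 (Fin n) → Measure ℝ, (∀ e, GoodLaw b (μ e)) → ∀ e : ℝ,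
    L0 * (n : ℝ) ^ (-(1 : ℝ) / 6) ≤ e → e ≤ C0 * √n →
    (Measure.pi μ).real {ω | ∃ x, IsEig ω x ∧
      |x - (2 * √n + e)| ≤ c * e ^ ((1 : ℝ) / 4) * (n : ℝ) ^ (-(1 : ℝ) / 8)} ≤
      C * (e * (n : ℝ) ^ ((1 : ℝ) / 6)) ^ (-(3 : ℝ) / 2) := by
  obtain ⟨CE, hCE0, nE, hE⟩ := E_bound b (C0 + 3) (by linarith)
  obtain ⟨κ, hκ, hro⟩ := root_outer C0 hC0
  obtain ⟨CD, hCD, hrd⟩ := root_outer_diff C0 hC0
  obtain ⟨C1, hC1⟩ : ∃ x, x = 1 + 4 * CE / κ ^ 2 := ⟨_, rfl⟩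
  have hC1' : 0 ≤ 4 * CE / κ ^ 2 := by positivity
  have hC11 : 1 ≤ C1 := by rw [hC1]; linarith
  have hC10 : 0 < C1 := by linarith
  have hC14 : C1 ≤ C1 ^ 4 := by
    calc C1 = C1 * 1 ^ 3 := by ring
      _ ≤ C1 * C1 ^ 3 := by gcongr
      _ = C1 ^ 4 := by ring
  have habs : 2 * CE / (κ ^ 2 * C1 ^ 4) ≤ 1 / 2 := by
    rw [div_le_div_iff₀ (by positivity) (by norm_num)]
    have : 4 * CE / κ ^ 2 ≤ C1 ^ 4 := by linarith [hC14]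
    rw [div_le_iff₀ (by positivity)] at this
    nlinarith
  obtain ⟨c, hc⟩ : ∃ x, x = min 1 (κ / 4) := ⟨_, rfl⟩
  have hc0 : 0 < c := by rw [hc]; positivity
  have hc1 : c ≤ 1 := by rw [hc]; exact min_le_left _ _
  have hcκ : c ≤ κ / 4 := by rw [hc]; exact min_le_right _ _
  have hc4 : 4 * c ^ 2 ≤ κ := by nlinarith
  obtain ⟨CF, hCF⟩ : ∃ x, x = 2 * CE * (C0 + 1 + 2 / κ ^ 2) := ⟨_, rfl⟩
  have hCF0 : 0 ≤ CF := by rw [hCF]; positivity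
  obtain ⟨CN, hCN⟩ : ∃ x, x = 2 / κ ^ 2 + 2 * CF / (κ ^ 2 * C1 ^ 4) := ⟨_, rfl⟩
  have hCN0 : 0 ≤ CN := by rw [hCN]; positivity
  obtain ⟨CF2, hCF2⟩ : ∃ x, x = CE * (C0 + 1 / c ^ 4 + (C1 / c) ^ 4 * CN) := ⟨_, rfl⟩
  have hCF20 : 0 ≤ CF2 := by rw [hCF2]; positivity
  obtain ⟨Q, hQ⟩ : ∃ x, x = C1 ^ 2 / (c * κ) + CD * C1 := ⟨_, rfl⟩
  have hQ0 : 0 ≤ Q := by rw [hQ]; positivity
  obtain ⟨A, hA⟩ : ∃ x, x = 1 + C1 + 1 / c + 2 * Q := ⟨_, rfl⟩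
  have hci : 0 ≤ 1 / c := by positivity
  have hA1 : 1 ≤ A := by linarith
  have hAC : C1 ≤ A := by linarith
  have hAc : 1 / c ≤ A := by linarith
  have hAQ : 2 * Q ≤ A := by linarith
  obtain ⟨R, hR⟩ : ∃ x, x = 1 + C1 / c := ⟨_, rfl⟩
  have hR1 : 0 < R := by rw [hR]; positivity
  clear hC1 hc hA
  refine ⟨c, 4 * R ^ 2 * CF / (κ * C1) ^ 2 + 16 * c ^ 2 * CF2, A ^ 4, hc0, hc1, by positivity,
    one_le_pow₀ hA1, max (max nE 1) (⌈(C1 * C0) ^ 2⌉₊), ?_⟩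
  intro n hn μ hμ e hLe heC
  have hnE : nE ≤ n := le_trans (le_max_left _ _) (le_trans (le_max_left _ _) hn)
  have hn1 : 1 ≤ n := le_trans (le_max_right _ _) (le_trans (le_max_left _ _) hn)
  have hnR : (1 : ℝ) ≤ n := by exact_mod_cast hn1
  have hn0 : (0 : ℝ) < n := by linarith
  have hsn : (1 : ℝ) ≤ √n := Real.one_le_sqrt.2 hnR
  have hsn0 : (0 : ℝ) < √n := by linarith
  have hC1C0 : C1 * C0 ≤ √n := by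
    apply Real.le_sqrt_of_sq_le
    exact (Nat.le_ceil _).trans (by exact_mod_cast (le_trans (le_max_right _ _) hn))
  have hpw : 0 < (n : ℝ) ^ (-(1 : ℝ) / 6) := by positivity
  have he0 : 0 < e := lt_of_lt_of_le (by positivity) hLe
  obtain ⟨ht0, h4, hr, hM⟩ := param hnR he0
  rw [hM, mul_assoc c]
  generalize e ^ ((1 : ℝ) / 4) * (n : ℝ) ^ (-(1 : ℝ) / 8) = t at *
  obtain ⟨hu1, hu3⟩ := u_facts hnR ht0 h4 hA1 hLe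
  have ht4 : t ^ 4 ≤ C0 := by
    rw [← h4] at heC
    exact le_of_mul_le_mul_right heC hsn0
  have htC : t ≤ C0 := by
    refine le_of_pow_le_pow_left₀ (n := 4) (by norm_num) (by linarith) (ht4.trans ?_)
    calc C0 = C0 * 1 ^ 3 := by ring
      _ ≤ C0 * C0 ^ 3 := by gcongr
      _ = C0 ^ 4 := by ring
  have hη1p : 0 < C1 * t := by positivity
  have hη2p : 0 < c * t := by positivity
  have hη12 : c * t ≤ C1 * t := by gcongr; linarith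
  have hη1e : C1 * t ≤ e := by
    rw [← h4]
    calc C1 * t ≤ t ^ 3 * √n * t := mul_le_mul_of_nonneg_right (hAC.trans hu3) ht0.le
      _ = t ^ 4 * √n := by ring
  have hη1s : C1 * t ≤ √n := le_trans (mul_le_mul_of_nonneg_left htC hC10.le) hC1C0
  have hlow : (n : ℝ) ^ (-(1 : ℝ) / 6) ≤ c * t := by
    calc (n : ℝ) ^ (-(1 : ℝ) / 6) = c * (1 / c * (n : ℝ) ^ (-(1 : ℝ) / 6)) := by field_simp
      _ ≤ c * (A * (n : ℝ) ^ (-(1 : ℝ) / 6)) :=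
          mul_le_mul_of_nonneg_left (mul_le_mul_of_nonneg_right hAc hpw.le) hc0.le
      _ ≤ c * t := mul_le_mul_of_nonneg_left hu1 hc0.le
  have hnorm : ∀ η : ℝ, 0 < η → η ≤ √n → ‖(⟨2 * √n + e, η⟩ : ℂ)‖ ≤ (C0 + 3) * √n := by
    intro η h1 h2
    refine (Complex.norm_le_abs_re_add_abs_im _).trans ?_
    simp only
    rw [abs_of_pos (by positivity), abs_of_pos h1]
    linarith
  have hD1 : Dom (C0 + 3) n (⟨2 * √n + e, C1 * t⟩ : ℂ) := ⟨hlow.trans hη12, hnorm _ hη1p hη1s⟩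
  have hD2 : Dom (C0 + 3) n (⟨2 * √n + e, c * t⟩ : ℂ) := ⟨hlow, hnorm _ hη2p (hη12.trans hη1s)⟩
  obtain ⟨g1, hg1, hg1i⟩ := exists_root hn0 (z := (⟨2 * √n + e, C1 * t⟩ : ℂ)) hη1p
  obtain ⟨g2, hg2, hg2i⟩ := exists_root hn0 (z := (⟨2 * √n + e, c * t⟩ : ℂ)) hη2p
  obtain ⟨ha1, ha2, -⟩ := hro n _ g1 e (C1 * t) hnR hη1p hη1e heC rfl hg1 hg1i
  obtain ⟨-, hb2, hb3⟩ := hro n _ g2 e (c * t) hnR hη2p (hη12.trans hη1e) heC rfl hg2 hg2i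
  have hgd := hrd n e (C1 * t) (c * t) g1 g2 hnR hη2p hη12 hη1e heC hg1 hg1i hg2 hg2i
  rw [hr] at ha1 ha2 hb2 hgd
  have ha1' : κ * C1 / t ≤ C1 * t - g1.im := by
    refine le_trans (le_of_eq ?_) ha1
    field_simp
  have ha2' : -g1.im ≤ C1 / (κ * t) := by
    refine ha2.trans (le_of_eq ?_)
    field_simp
  have hb2' : -g2.im ≤ c / (κ * t) := by
    refine hb2.trans (le_of_eq ?_)
    field_simp
  have hgd' : ‖g1 - g2‖ ≤ CD * C1 / t := by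
    refine hgd.trans (le_of_eq ?_)
    field_simp
  have hΔ : 2 * √n * t ^ 2 ≤ ‖(⟨2 * √n + e, c * t⟩ : ℂ) - 2 * g2‖ := by
    refine le_of_sq_le_sq (le_trans (le_of_eq ?_) hb3) (norm_nonneg _)
    rw [← h4]; ring
  obtain ⟨P2, hDF, hNF, hN21⟩ := int_bounds hμ (E := 2 * √n + e) hn0 ht0 hC11 hc0 hc1 hκ hg1 hg1i
    ha1' ha2'
  have hEF := hE n hnE μ hμ _ hD1
  have hEF2 := hE n hnE μ hμ _ hD2
  have hF0 : 0 ≤ ∫ ω, ‖EE (⟨2 * √n + e, C1 * t⟩ : ℂ) ω‖ ^ 2 ∂(Measure.pi μ) :=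
    integral_nonneg fun ω => by positivity
  have hFT := FT_bound hCE0 hκ hC11 hC14 habs ht0 ht4 hF0 hEF hNF
  rw [← hCF] at hFT
  have hNT := NT_bound hκ hC10 ht0 hFT hNF
  rw [← hCN] at hNT
  have hF2T := F2T_bound hCE0 hC10 hc0 ht0 ht4 hNT hN21 hEF2
  rw [← hCF2] at hF2T
  haveI : ∀ e, IsProbabilityMeasure (μ e) := fun e => (hμ e).prob
  have hinc : {ω : Ent n | ∃ x, IsEig ω x ∧ |x - (2 * √n + e)| ≤ c * t} ⊆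
      {ω | √n * t ^ 2 / (2 * R) ≤ ‖st ∅ (⟨2 * √n + e, C1 * t⟩ : ℂ) ω - g1‖} ∪
      {ω | √n * t / (4 * c) ≤ ‖EE (⟨2 * √n + e, c * t⟩ : ℂ) ω‖} := by
    rintro ω ⟨x, hx, hxE⟩
    by_cases hB : √n * t ^ 2 / (2 * R) ≤ ‖st ∅ (⟨2 * √n + e, C1 * t⟩ : ℂ) ω - g1‖
    · exact Or.inl hB
    · exact Or.inr (inc_det ω hn0 ht0 hC11 hc0 hc1 hκ hc4 hQ hR (hAQ.trans hu3) (P2 ω) hg2 hb2'
        hgd' hΔ hx hxE (not_le.1 hB))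
  have hc1' := cheb hμ (f := fun ω => ‖st ∅ (⟨2 * √n + e, C1 * t⟩ : ℂ) ω - g1‖)
    (fun ω => norm_nonneg _) (int_sg hμ hη1p.ne' g1)
    (a := √n * t ^ 2 / (2 * R)) (by positivity)
  have hc2' := cheb hμ (f := fun ω => ‖EE (⟨2 * √n + e, c * t⟩ : ℂ) ω‖)
    (fun ω => norm_nonneg _) (int_EE hμ hη2p.ne')
    (a := √n * t / (4 * c)) (by positivity)
  refine (measureReal_mono hinc (by finiteness)).trans ?_
  refine (measureReal_union_le _ _).trans ?_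
  refine (add_le_add hc1' hc2').trans ?_
  exact final_arith hκ hC10 hc0 hR1 ht0 hn0 hDF hFT hF2T

end Pool.Agent.Eig
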