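import Pool.Agent.Work.MP_1c1c8a_pr.Moments
import Pool.Agent.Work.MP_1c1c8a_pr.Lin2
import Pool.Agent.Work.MP_1c1c8a_pr.Meas

/-! # Conditional moments of one or two rows -/

namespace Pool.Agent.Eig

open MeasureTheory Filter Topology Matrix

namespace RowMomAux

variable {n : ℕ}

theorem inj_row (i : Fin n) : Function.Injective (fun k : Fin n => s(i, k)) := by
  intro k l h
  have h' : s(i, k) = s(i, l) := h
  rw [Sym2.eq_iff] at h'
  rcases h' with h' | h'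
  · exact h'.2
  · exact h'.2.trans h'.1

/-- Extension of a family indexed by `Fin n` to all entries, along `ρ`. -/
noncomputable def ext1 {V : Type} [Zero V] (ρ : Fin n → Sym2 (Fin n)) (g : Fin n → V) :
    Sym2 (Fin n) → V := Function.extend ρ g 0

theorem ext1_apply {V : Type} [Zero V] {ρ : Fin n → Sym2 (Fin n)} (hρ : Function.Injective ρ)
    (g : Fin n → V) (k : Fin n) : ext1 ρ g (ρ k) = g k := hρ.extend_apply _ _ _

theorem ext1_out {V : Type} [Zero V] {ρ : Fin n → Sym2 (Fin n)} (g : Fin n → V)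
    {e : Sym2 (Fin n)} (he : e ∉ Set.range ρ) : ext1 ρ g e = 0 := by
  unfold ext1
  rw [Function.extend_apply']
  · rfl
  · exact he

/-- Extension of a matrix. -/
noncomputable def ext2 (ρ ρ' : Fin n → Sym2 (Fin n)) (G : Fin n → Fin n → ℂ) :
    Sym2 (Fin n) → Sym2 (Fin n) → ℂ := ext1 ρ (fun k => ext1 ρ' (G k))

theorem ext2_apply {ρ ρ' : Fin n → Sym2 (Fin n)} (hρ : Function.Injective ρ)
    (hρ' : Function.Injective ρ') (G : Fin n → Fin n → ℂ) (k l : Fin n) :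
    ext2 ρ ρ' G (ρ k) (ρ' l) = G k l := by
  unfold ext2
  rw [ext1_apply hρ, ext1_apply hρ']

theorem sum_ext2 {V : Type} [AddCommMonoid V] {ρ ρ' : Fin n → Sym2 (Fin n)}
    (hρ : Function.Injective ρ) (hρ' : Function.Injective ρ') (G : Fin n → Fin n → ℂ)
    (Φ : Sym2 (Fin n) → Sym2 (Fin n) → ℂ → V) (hΦ : ∀ e f, Φ e f 0 = 0) :
    ∑ e, ∑ f, Φ e f (ext2 ρ ρ' G e f) = ∑ k, ∑ l, Φ (ρ k) (ρ' l) (G k l) := by
  symm
  refine Fintype.sum_of_injective ρ hρ _ _ ?_ ?_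
  · intro e he
    refine Finset.sum_eq_zero fun f _ => ?_
    unfold ext2
    rw [ext1_out _ he]
    exact hΦ e f
  · intro k
    refine Fintype.sum_of_injective ρ' hρ' _ _ ?_ ?_
    · intro f hf
      unfold ext2
      rw [ext1_apply hρ, ext1_out _ hf]
      exact hΦ _ _
    · intro l
      rw [ext2_apply hρ hρ']

theorem sum_ext2_diag {ρ : Fin n → Sym2 (Fin n)}
    (hρ : Function.Injective ρ) (G : Fin n → Fin n → ℂ) :
    ∑ e, ext2 ρ ρ G e e = ∑ k, G k k := by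
  symm
  refine Fintype.sum_of_injective ρ hρ _ _ ?_ ?_
  · intro e he
    unfold ext2
    rw [ext1_out _ he]
    rfl
  · intro k
    rw [ext2_apply hρ hρ]

theorem sum_ext1 {V W : Type} [Zero W] [AddCommMonoid V] {ρ : Fin n → Sym2 (Fin n)}
    (hρ : Function.Injective ρ) (g : Fin n → W)
    (Φ : Sym2 (Fin n) → W → V) (hΦ : ∀ e, Φ e 0 = 0) :
    ∑ e, Φ e (ext1 ρ g e) = ∑ k, Φ (ρ k) (g k) := by
  symm
  refine Fintype.sum_of_injective ρ hρ _ _ ?_ ?_
  · intro e he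
    rw [ext1_out _ he]
    exact hΦ e
  · intro k
    rw [ext1_apply hρ]

theorem ext2_diag_zero {i j : Fin n} (hij : i ≠ j) (G : Fin n → Fin n → ℂ) (hG : G j i = 0)
    (e : Sym2 (Fin n)) : ext2 (fun k => s(i, k)) (fun k => s(j, k)) G e e = 0 := by
  by_cases he : ∃ k, s(i, k) = e
  · obtain ⟨k, rfl⟩ := he
    have h1 : ext2 (fun k => s(i, k)) (fun k => s(j, k)) G s(i, k) s(i, k) =
        ext1 (fun k => s(j, k)) (G k) s(i, k) :=
      congrFun (ext1_apply (inj_row i) (fun k => ext1 (fun k => s(j, k)) (G k)) k) _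
    rw [h1]
    by_cases he' : ∃ l, s(j, l) = s(i, k)
    · obtain ⟨l, hl⟩ := he'
      rw [← hl]
      have h2 : ext1 (fun k => s(j, k)) (G k) s(j, l) = G k l := ext1_apply (inj_row j) (G k) l
      rw [h2]
      rw [Sym2.eq_iff] at hl
      rcases hl with h | h
      · exact absurd h.1.symm hij
      · rw [h.2, ← h.1]; exact hG
    · exact ext1_out _ he'
  · exact congrFun (ext1_out (ρ := fun k => s(i, k)) _ he) _

/-- Mixing does not change functions of the other rows. -/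
theorem mixR_off {E : Type} (A : Finset (Fin n)) (ω x : Sym2 (Fin n) → E) (e : Sym2 (Fin n))
    (he : ∀ i ∈ A, i ∉ e) : mixR A ω x e = ω e := by
  unfold mixR
  rw [if_neg]
  push Not
  exact he

theorem mixR_on {E : Type} (A : Finset (Fin n)) (ω x : Sym2 (Fin n) → E) (e : Sym2 (Fin n))
    {i : Fin n} (hi : i ∈ A) (he : i ∈ e) : mixR A ω x e = x e := by
  unfold mixR
  rw [if_pos ⟨i, hi, he⟩]

theorem Gr_mix (A T : Finset (Fin n)) (hA : A ⊆ T) (z : ℂ) (ω x : Ent n) :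
    Gr T z (mixR A ω x) = Gr T z ω :=
  Gr_off fun e he => mixR_off A ω x e fun i hi => he i (hA hi)

theorem st_mix (A T : Finset (Fin n)) (hA : A ⊆ T) (z : ℂ) (ω x : Ent n) :
    st T z (mixR A ω x) = st T z ω := by
  unfold st; rw [Gr_mix A T hA]

theorem NN_mix (A T : Finset (Fin n)) (hA : A ⊆ T) (z : ℂ) (ω x : Ent n) :
    NN T z (mixR A ω x) = NN T z ω := by
  unfold NN; rw [Gr_mix A T hA]

theorem xi_mix (T : Finset (Fin n)) (z : ℂ) (i : Fin n) (ω x : Ent n) :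
    xi T z i (mixR {i} ω x) = ((x s(i, i) : ℝ) : ℂ) +
      (∑ k, ∑ l, ((x s(i, k) : ℝ) : ℂ) * Gr (insert i T) z ω k l * ((x s(i, l) : ℝ) : ℂ) -
      ∑ k, Gr (insert i T) z ω k k) := by
  have h1 : ∀ k, mixR {i} ω x s(i, k) = x s(i, k) := fun k =>
    mixR_on {i} ω x s(i, k) (Finset.mem_singleton_self i) (Sym2.mem_mk_left i k)
  unfold xi
  rw [st_mix {i} (insert i T) (by simp) z ω x, Gr_mix {i} (insert i T) (by simp) z ω x]
  simp only [h1]
  unfold st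
  ring

/-- `∫ |x e|^q`. -/
theorem entry_mom {b : ℝ} {q : ℕ} {C : ℝ} (hC : ∀ μ : Measure ℝ, GoodLaw b μ →
    Integrable (fun x => |x| ^ q) μ ∧ ∫ x, |x| ^ q ∂μ ≤ C)
    {μ : Sym2 (Fin n) → Measure ℝ} (hμ : ∀ e, GoodLaw b (μ e)) (e : Sym2 (Fin n)) :
    ∫ x, |x e| ^ q ∂(Measure.pi μ) ≤ C := by
  have : ∀ e, IsProbabilityMeasure (μ e) := fun e => (hμ e).prob
  have hm := measurePreserving_eval μ e
  have h1 : ∫ x, |x e| ^ q ∂(Measure.pi μ) = ∫ y, |y| ^ q ∂(μ e) := by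
    rw [← hm.map_eq, integral_map (f := fun y : ℝ => |y| ^ q) hm.aemeasurable
      (by fun_prop : Continuous fun y : ℝ => |y| ^ q).aestronglyMeasurable]
  rw [h1]
  exact (hC (μ e) (hμ e)).2

theorem two_pow_aux {a b : ℝ} (ha : 0 ≤ a) (hb : 0 ≤ b) (m : ℕ) :
    (a + b) ^ m ≤ 2 ^ m * (a ^ m + b ^ m) := by
  refine (add_pow_le ha hb m).trans ?_
  have : (2 : ℝ) ^ (m - 1) ≤ 2 ^ m := pow_le_pow_right₀ (by norm_num) (Nat.sub_le m 1)
  exact mul_le_mul_of_nonneg_right this (by positivity)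

theorem norm_two_pow {a b : ℂ} (m : ℕ) : ‖a + b‖ ^ m ≤ 2 ^ m * (‖a‖ ^ m + ‖b‖ ^ m) :=
  (pow_le_pow_left₀ (norm_nonneg _) (norm_add_le a b) m).trans
    (two_pow_aux (norm_nonneg _) (norm_nonneg _) m)

end RowMomAux

open RowMomAux

theorem xi_mom (b : ℝ) (r : ℕ) : ∃ C : ℝ, 0 ≤ C ∧ ∀ (n : ℕ) (μ : Sym2 (Fin n) → Measure ℝ),
    (∀ e, GoodLaw b (μ e)) → ∀ (T : Finset (Fin n)) (i : Fin n), i ∉ T → ∀ z : ℂ, z.im ≠ 0 →
    ∀ (φ : Ent n → ℝ) (B : ℝ), Measurable φ → (∀ ω, 0 ≤ φ ω) → (∀ ω, φ ω ≤ B) →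
    OffRows {i} φ →
    ∫ ω, φ ω * ‖xi T z i ω‖ ^ (2 * r) ∂(Measure.pi μ) ≤
      C * ∫ ω, φ ω * (1 + NN (insert i T) z ω) ^ r ∂(Measure.pi μ) := by
  obtain ⟨C1, hC1, hq⟩ := hyper_quad b r
  obtain ⟨C2, hC2, hm⟩ := abs_mom b (2 * r)
  refine ⟨2 ^ (2 * r) * (C2 + C1), by positivity, ?_⟩
  intro n μ hμ T i hi z hz φ B hφ hφ0 hφB hφoff
  have : ∀ e, IsProbabilityMeasure (μ e) := fun e => (hμ e).prob
  have hNN : ∀ ω : Ent n, 0 ≤ NN (insert i T) z ω := fun ω => NN_nonneg ω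
  rw [← integral_const_mul]
  refine integral_mix_le μ {i} _ _ ?_ ?_ ?_
  · refine Integrable.bdd_mul (c := B) (PB.int hμ ((PB.xi hz i).norm.pow (2 * r)))
      hφ.aestronglyMeasurable (Filter.Eventually.of_forall fun ω => ?_)
    rw [Real.norm_of_nonneg (hφ0 ω)]; exact hφB ω
  · refine Integrable.const_mul ?_ _
    refine Integrable.bdd_mul (c := B)
      (PB.int hμ (((PBW.const one_le_wt 1).add (PB.NN hz)).pow r))
      hφ.aestronglyMeasurable (Filter.Eventually.of_forall fun ω => ?_)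
    rw [Real.norm_of_nonneg (hφ0 ω)]; exact hφB ω
  · intro ω
    have hφω : ∀ x, φ (mixR {i} ω x) = φ ω := fun x =>
      hφoff _ _ fun e he => mixR_off {i} ω x e he
    set G := Gr (insert i T) z ω with hG
    set Q : Ent n → ℂ := fun x => ∑ k, ∑ l, ((x s(i, k) : ℝ) : ℂ) * G k l *
      ((x s(i, l) : ℝ) : ℂ) - ∑ k, G k k with hQ
    have hmix : ∀ x, φ (mixR {i} ω x) * ‖xi T z i (mixR {i} ω x)‖ ^ (2 * r) =
        φ ω * ‖((x s(i, i) : ℝ) : ℂ) + Q x‖ ^ (2 * r) := by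
      intro x; rw [hφω, xi_mix]
    simp only [hmix]
    rw [integral_const_mul]
    have hQPB : PB Q := by
      refine PBW.sub (PBW.sum one_le_wt _ fun k _ => PBW.sum one_le_wt _ fun l _ => ?_)
        (PBW.const one_le_wt _)
      exact ((PB.entryC _).mul (PBW.const one_le_wt _)).mul (PB.entryC _)
    -- the quadratic part
    have hquad : ∫ x, ‖Q x‖ ^ (2 * r) ∂(Measure.pi μ) ≤ C1 * (NN (insert i T) z ω) ^ r := by
      have h1 := hq (Sym2 (Fin n)) μ hμ (ext2 (fun k => s(i, k)) (fun k => s(i, k)) G)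
      rw [sum_ext2_diag (inj_row i)] at h1
      have h2 : ∀ x : Ent n, ∑ e, ∑ f, ((x e : ℝ) : ℂ) *
          ext2 (fun k => s(i, k)) (fun k => s(i, k)) G e f * ((x f : ℝ) : ℂ) =
          ∑ k, ∑ l, ((x s(i, k) : ℝ) : ℂ) * G k l * ((x s(i, l) : ℝ) : ℂ) := fun x =>
        sum_ext2 (inj_row i) (inj_row i) G (fun e f w => ((x e : ℝ) : ℂ) * w * ((x f : ℝ) : ℂ))
          (by intros; simp)
      have h3 : ∑ e, ∑ f, ‖ext2 (fun k => s(i, k)) (fun k => s(i, k)) G e f‖ ^ 2 =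
          NN (insert i T) z ω :=
        sum_ext2 (inj_row i) (inj_row i) G (fun e f w => ‖w‖ ^ 2) (by intros; simp)
      rw [h3] at h1
      simp only [h2] at h1
      exact h1
    have hdiag : ∫ x, ‖((x s(i, i) : ℝ) : ℂ)‖ ^ (2 * r) ∂(Measure.pi μ) ≤ C2 := by
      have h1 : ∀ x : Ent n, ‖((x s(i, i) : ℝ) : ℂ)‖ ^ (2 * r) = |x s(i, i)| ^ (2 * r) := by
        intro x; rw [Complex.norm_real, Real.norm_eq_abs]
      simp only [h1]
      exact entry_mom hm hμ _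
    have hsum : ∫ x, ‖((x s(i, i) : ℝ) : ℂ) + Q x‖ ^ (2 * r) ∂(Measure.pi μ) ≤
        2 ^ (2 * r) * (C2 + C1) * (1 + NN (insert i T) z ω) ^ r := by
      calc ∫ x, ‖((x s(i, i) : ℝ) : ℂ) + Q x‖ ^ (2 * r) ∂(Measure.pi μ)
          ≤ ∫ x, 2 ^ (2 * r) * (‖((x s(i, i) : ℝ) : ℂ)‖ ^ (2 * r) + ‖Q x‖ ^ (2 * r))
              ∂(Measure.pi μ) :=
            integral_mono (PB.int hμ (((PB.entryC _).add hQPB).norm.pow _))
              ((PB.int hμ (((PB.entryC _).norm.pow _).add (hQPB.norm.pow _))).const_mul _)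
              fun x => norm_two_pow _
        _ = 2 ^ (2 * r) * (∫ x, ‖((x s(i, i) : ℝ) : ℂ)‖ ^ (2 * r) ∂(Measure.pi μ) +
              ∫ x, ‖Q x‖ ^ (2 * r) ∂(Measure.pi μ)) := by
            rw [integral_const_mul, integral_add (PB.int hμ ((PB.entryC _).norm.pow _))
              (PB.int hμ (hQPB.norm.pow _))]
        _ ≤ 2 ^ (2 * r) * (C2 + C1 * (NN (insert i T) z ω) ^ r) := by gcongr
        _ ≤ 2 ^ (2 * r) * (C2 * (1 + NN (insert i T) z ω) ^ r +
              C1 * (1 + NN (insert i T) z ω) ^ r) := by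
            gcongr
            · have : 1 ≤ (1 + NN (insert i T) z ω) ^ r := one_le_pow₀ (by linarith [hNN ω])
              nlinarith
            · exact hNN ω
            · linarith
        _ = _ := by ring
    calc φ ω * ∫ x, ‖((x s(i, i) : ℝ) : ℂ) + Q x‖ ^ (2 * r) ∂(Measure.pi μ)
        ≤ φ ω * (2 ^ (2 * r) * (C2 + C1) * (1 + NN (insert i T) z ω) ^ r) :=
          mul_le_mul_of_nonneg_left hsum (hφ0 ω)
      _ = _ := by ring

theorem av_mom (b : ℝ) (r : ℕ) : ∃ C : ℝ, 0 ≤ C ∧ ∀ (n : ℕ) (μ : Sym2 (Fin n) → Measure ℝ),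
    (∀ e, GoodLaw b (μ e)) → ∀ (T : Finset (Fin n)) (i : Fin n), i ∉ T → ∀ z : ℂ, z.im ≠ 0 →
    ∫ ω, (∑ k, ‖av T z i ω k‖ ^ 2) ^ r ∂(Measure.pi μ) ≤
      C * ∫ ω, (1 + NN (insert i T) z ω) ^ r ∂(Measure.pi μ) := by
  obtain ⟨C1, hC1, hq⟩ := hyper_norm b r
  refine ⟨2 ^ r * (2 ^ r * (1 + C1)), by positivity, ?_⟩
  intro n μ hμ T i hi z hz
  have : ∀ e, IsProbabilityMeasure (μ e) := fun e => (hμ e).prob
  rw [← integral_const_mul]
  refine integral_mix_le μ {i} _ _ ?_ ?_ ?_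
  · exact PB.int hμ ((PBW.sum one_le_wt _ fun k _ => (PB.av hz i k).norm.pow 2).pow r)
  · exact (PB.int hμ (((PBW.const one_le_wt 1).add (PB.NN hz)).pow r)).const_mul _
  · intro ω
    set G := Gr (insert i T) z ω with hG
    have hN : 0 ≤ NN (insert i T) z ω := NN_nonneg ω
    set Q : Ent n → ℝ := fun x => ∑ k, ‖∑ l, G k l * ((x s(i, l) : ℝ) : ℂ)‖ ^ 2 with hQ
    have hQ0 : ∀ x, 0 ≤ Q x := fun x => Finset.sum_nonneg fun _ _ => by positivity
    have hQPB : PB Q := PBW.sum one_le_wt _ fun k _ => (PBW.sum one_le_wt _ fun l _ =>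
      (PBW.const one_le_wt _).mul (PB.entryC _)).norm.pow 2
    have h1 : ∀ x k, av T z i (mixR {i} ω x) k = (if k = i then 1 else 0) +
        ∑ l, G k l * ((x s(i, l) : ℝ) : ℂ) := by
      intro x k
      unfold av
      rw [Gr_mix {i} (insert i T) (by simp) z ω x]
      simp only [fun l => mixR_on {i} ω x s(i, l) (Finset.mem_singleton_self i)
        (Sym2.mem_mk_left i l)]
      rfl
    have h2 : ∀ x, (∑ k, ‖av T z i (mixR {i} ω x) k‖ ^ 2) ^ r ≤
        2 ^ r * (2 ^ r * (1 + (Q x) ^ r)) := by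
      intro x
      have h3 : ∑ k, ‖av T z i (mixR {i} ω x) k‖ ^ 2 ≤ 2 * (1 + Q x) := by
        have h4 : ∀ k, ‖av T z i (mixR {i} ω x) k‖ ^ 2 ≤ 2 * ((if k = i then 1 else 0) +
            ‖∑ l, G k l * ((x s(i, l) : ℝ) : ℂ)‖ ^ 2) := by
          intro k
          rw [h1]
          have h5 := norm_add_le (if k = i then (1 : ℂ) else 0)
            (∑ l, G k l * ((x s(i, l) : ℝ) : ℂ))
          have h6 : ‖(if k = i then (1 : ℂ) else 0)‖ = if k = i then (1 : ℝ) else 0 := by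
            split_ifs <;> simp
          have h7 : (if k = i then (1 : ℝ) else 0) ^ 2 = if k = i then (1 : ℝ) else 0 := by
            split_ifs <;> simp
          rw [h6] at h5
          have h8 := pow_le_pow_left₀ (norm_nonneg _) h5 2
          rw [← h7]
          nlinarith [sq_nonneg ((if k = i then (1 : ℝ) else 0) -
            ‖∑ l, G k l * ((x s(i, l) : ℝ) : ℂ)‖)]
        calc ∑ k, ‖av T z i (mixR {i} ω x) k‖ ^ 2 ≤ ∑ k, 2 * ((if k = i then 1 else 0) +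
            ‖∑ l, G k l * ((x s(i, l) : ℝ) : ℂ)‖ ^ 2) := Finset.sum_le_sum fun k _ => h4 k
          _ = 2 * (1 + Q x) := by
            rw [← Finset.mul_sum, Finset.sum_add_distrib]
            simp [hQ]
      calc (∑ k, ‖av T z i (mixR {i} ω x) k‖ ^ 2) ^ r ≤ (2 * (1 + Q x)) ^ r :=
            pow_le_pow_left₀ (Finset.sum_nonneg fun _ _ => by positivity) h3 r
        _ = 2 ^ r * (1 + Q x) ^ r := mul_pow _ _ _
        _ ≤ 2 ^ r * (2 ^ r * (1 ^ r + (Q x) ^ r)) := by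
            gcongr
            exact two_pow_aux zero_le_one (hQ0 x) r
        _ = _ := by rw [one_pow]
    have h3 : ∫ x, (Q x) ^ r ∂(Measure.pi μ) ≤ C1 * (NN (insert i T) z ω) ^ r := by
      have h4 := hq (Sym2 (Fin n)) (Fin n) μ hμ (fun k => ext1 (fun l => s(i, l)) (G k))
      have h5 : ∀ (x : Ent n) k, ∑ e, ext1 (fun l => s(i, l)) (G k) e * ((x e : ℝ) : ℂ) =
          ∑ l, G k l * ((x s(i, l) : ℝ) : ℂ) := fun x k =>
        sum_ext1 (inj_row i) (G k) (fun e w => w * ((x e : ℝ) : ℂ)) (by intros; simp)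
      have h6 : ∀ k, ∑ e, ‖ext1 (fun l => s(i, l)) (G k) e‖ ^ 2 = ∑ l, ‖G k l‖ ^ 2 := fun k =>
        sum_ext1 (inj_row i) (G k) (fun e w => ‖w‖ ^ 2) (by intros; simp)
      simp only [h5, h6] at h4
      exact h4
    calc ∫ x, (∑ k, ‖av T z i (mixR {i} ω x) k‖ ^ 2) ^ r ∂(Measure.pi μ)
        ≤ ∫ x, 2 ^ r * (2 ^ r * (1 + (Q x) ^ r)) ∂(Measure.pi μ) :=
          integral_mono (PB.int hμ (PB.mix ((PBW.sum one_le_wt _ fun k _ =>
            (PB.av hz i k).norm.pow 2).pow r) {i} ω))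
            (((PB.int hμ ((PBW.const one_le_wt 1).add (hQPB.pow r))).const_mul _).const_mul _) h2
      _ = 2 ^ r * (2 ^ r * (1 + ∫ x, (Q x) ^ r ∂(Measure.pi μ))) := by
          rw [integral_const_mul, integral_const_mul, integral_add (integrable_const _)
            (PB.int hμ (hQPB.pow r))]
          simp only [integral_const, probReal_univ, smul_eq_mul, one_mul]
      _ ≤ 2 ^ r * (2 ^ r * (1 + C1 * (NN (insert i T) z ω) ^ r)) := by gcongr
      _ ≤ 2 ^ r * (2 ^ r * ((1 + NN (insert i T) z ω) ^ r +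
            C1 * (1 + NN (insert i T) z ω) ^ r)) := by
          gcongr
          · exact one_le_pow₀ (by linarith)
          · linarith
      _ = _ := by ring

theorem bb_mom (b : ℝ) (r : ℕ) : ∃ C : ℝ, 0 ≤ C ∧ ∀ (n : ℕ) (μ : Sym2 (Fin n) → Measure ℝ),
    (∀ e, GoodLaw b (μ e)) → ∀ i j : Fin n, i ≠ j → ∀ z : ℂ, z.im ≠ 0 →
    ∫ ω, ‖bb z i j ω‖ ^ (2 * r) ∂(Measure.pi μ) ≤
      C * ∫ ω, (1 + NN {i, j} z ω) ^ r ∂(Measure.pi μ) := by
  obtain ⟨C1, hC1, hq⟩ := hyper_quad b r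
  obtain ⟨C2, hC2, hm⟩ := abs_mom b (2 * r)
  refine ⟨2 ^ (2 * r) * (C2 + C1), by positivity, ?_⟩
  intro n μ hμ i j hij z hz
  have : ∀ e, IsProbabilityMeasure (μ e) := fun e => (hμ e).prob
  have hNN : ∀ ω : Ent n, 0 ≤ NN {i, j} z ω := fun ω => NN_nonneg ω
  rw [← integral_const_mul]
  refine integral_mix_le μ {i, j} _ _ (PB.int hμ ((PB.bb hz i j).norm.pow _))
    ((PB.int hμ (((PBW.const one_le_wt 1).add (PB.NN hz)).pow r)).const_mul _) ?_
  intro ω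
  set G := Gr {i, j} z ω with hG
  set Q : Ent n → ℂ := fun x => ∑ k, ∑ l, ((x s(i, k) : ℝ) : ℂ) * G k l *
    ((x s(j, l) : ℝ) : ℂ) with hQ
  have hmix : ∀ x, bb z i j (mixR {i, j} ω x) = ((x s(i, j) : ℝ) : ℂ) + Q x := by
    intro x
    have h1 : ∀ k, mixR {i, j} ω x s(i, k) = x s(i, k) := fun k =>
      mixR_on {i, j} ω x s(i, k) (by simp) (Sym2.mem_mk_left i k)
    have h2 : ∀ k, mixR {i, j} ω x s(j, k) = x s(j, k) := fun k =>
      mixR_on {i, j} ω x s(j, k) (by simp) (Sym2.mem_mk_left j k)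
    unfold bb
    rw [Gr_mix {i, j} {i, j} (Finset.Subset.refl _) z ω x]
    simp only [h1, h2]
    rfl
  simp only [hmix]
  have hQPB : PB Q := PBW.sum one_le_wt _ fun k _ => PBW.sum one_le_wt _ fun l _ =>
    ((PB.entryC _).mul (PBW.const one_le_wt _)).mul (PB.entryC _)
  have hquad : ∫ x, ‖Q x‖ ^ (2 * r) ∂(Measure.pi μ) ≤ C1 * (NN {i, j} z ω) ^ r := by
    have h1 := hq (Sym2 (Fin n)) μ hμ (ext2 (fun k => s(i, k)) (fun k => s(j, k)) G)
    have h0 : ∑ e, ext2 (fun k => s(i, k)) (fun k => s(j, k)) G e e = 0 :=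
      Finset.sum_eq_zero fun e _ => ext2_diag_zero hij G (Gr_zero_left (by simp) _) e
    rw [h0] at h1
    have h2 : ∀ x : Ent n, ∑ e, ∑ f, ((x e : ℝ) : ℂ) *
        ext2 (fun k => s(i, k)) (fun k => s(j, k)) G e f * ((x f : ℝ) : ℂ) = Q x := fun x =>
      sum_ext2 (inj_row i) (inj_row j) G (fun e f w => ((x e : ℝ) : ℂ) * w * ((x f : ℝ) : ℂ))
        (by intros; simp)
    have h3 : ∑ e, ∑ f, ‖ext2 (fun k => s(i, k)) (fun k => s(j, k)) G e f‖ ^ 2 =
        NN {i, j} z ω :=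
      sum_ext2 (inj_row i) (inj_row j) G (fun e f w => ‖w‖ ^ 2) (by intros; simp)
    rw [h3] at h1
    simp only [h2, sub_zero] at h1
    exact h1
  have hdiag : ∫ x, ‖((x s(i, j) : ℝ) : ℂ)‖ ^ (2 * r) ∂(Measure.pi μ) ≤ C2 := by
    have h1 : ∀ x : Ent n, ‖((x s(i, j) : ℝ) : ℂ)‖ ^ (2 * r) = |x s(i, j)| ^ (2 * r) := by
      intro x; rw [Complex.norm_real, Real.norm_eq_abs]
    simp only [h1]
    exact entry_mom hm hμ _
  calc ∫ x, ‖((x s(i, j) : ℝ) : ℂ) + Q x‖ ^ (2 * r) ∂(Measure.pi μ)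
      ≤ ∫ x, 2 ^ (2 * r) * (‖((x s(i, j) : ℝ) : ℂ)‖ ^ (2 * r) + ‖Q x‖ ^ (2 * r))
          ∂(Measure.pi μ) :=
        integral_mono (PB.int hμ (((PB.entryC _).add hQPB).norm.pow _))
          ((PB.int hμ (((PB.entryC _).norm.pow _).add (hQPB.norm.pow _))).const_mul _)
          fun x => norm_two_pow _
    _ = 2 ^ (2 * r) * (∫ x, ‖((x s(i, j) : ℝ) : ℂ)‖ ^ (2 * r) ∂(Measure.pi μ) +
          ∫ x, ‖Q x‖ ^ (2 * r) ∂(Measure.pi μ)) := by
        rw [integral_const_mul, integral_add (PB.int hμ ((PB.entryC _).norm.pow _))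
          (PB.int hμ (hQPB.norm.pow _))]
    _ ≤ 2 ^ (2 * r) * (C2 + C1 * (NN {i, j} z ω) ^ r) := by gcongr
    _ ≤ 2 ^ (2 * r) * (C2 * (1 + NN {i, j} z ω) ^ r +
          C1 * (1 + NN {i, j} z ω) ^ r) := by
        gcongr
        · have : 1 ≤ (1 + NN {i, j} z ω) ^ r := one_le_pow₀ (by linarith [hNN ω])
          nlinarith
        · exact hNN ω
        · linarith
    _ = _ := by ring

end Pool.Agent.Eig
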