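import Pool.Agent.Work.MP_1c1c8a_pr.UMom
import Pool.Agent.Work.MP_1c1c8a_pr.GiiBound
import Pool.Agent.Work.MP_1c1c8a_pr.ADiff

/-! # Two resolvents -/

namespace Pool.Agent.Eig

open MeasureTheory Filter Topology Matrix

namespace TwoResAux

variable {n : ℕ}

/-- Solving the linear system. -/
lemma lin_end (σ : Sym2 (Fin n) → ℝ) (a e : Fin n → ℂ) (q : ℂ) {C : ℝ} (hn : 1 ≤ n) (hC : 0 ≤ C)
    (hq : ‖q‖ ≤ 1 / n) (he : ∀ i, ‖e i‖ ≤ C / n)
    (h : ∀ i, a i = q * ∑ j, (σ s(i, j) : ℂ) * a j + e i) :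
    (1 - √(∑ i, ∑ j, (σ s(i, j)) ^ 2) / n) * ‖∑ i, a i‖ ≤ C := by
  have hn0 : (0 : ℝ) < n := by exact_mod_cast hn
  set F : ℝ := √(∑ i, ∑ j, (σ s(i, j)) ^ 2) with hF
  set S : ℝ := √(∑ i, ‖a i‖ ^ 2) with hS
  have hS0 : 0 ≤ S := Real.sqrt_nonneg _
  have hF0 : 0 ≤ F := Real.sqrt_nonneg _
  have hS2 : S ^ 2 = ∑ i, ‖a i‖ ^ 2 := Real.sq_sqrt (Finset.sum_nonneg fun _ _ => by positivity)
  have hF2 : F ^ 2 = ∑ i, ∑ j, (σ s(i, j)) ^ 2 :=
    Real.sq_sqrt (Finset.sum_nonneg fun _ _ => Finset.sum_nonneg fun _ _ => by positivity)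
  have hrow : ∀ i, ‖∑ j, (σ s(i, j) : ℂ) * a j‖ ^ 2 ≤ (∑ j, (σ s(i, j)) ^ 2) * S ^ 2 := by
    intro i
    have h1 : ‖∑ j, (σ s(i, j) : ℂ) * a j‖ ≤ ∑ j, |σ s(i, j)| * ‖a j‖ := by
      refine (norm_sum_le _ _).trans (le_of_eq ?_)
      refine Finset.sum_congr rfl fun j _ => ?_
      rw [norm_mul, Complex.norm_real, Real.norm_eq_abs]
    calc ‖∑ j, (σ s(i, j) : ℂ) * a j‖ ^ 2 ≤ (∑ j, |σ s(i, j)| * ‖a j‖) ^ 2 := by gcongr
      _ ≤ (∑ j, |σ s(i, j)| ^ 2) * ∑ j, ‖a j‖ ^ 2 := Finset.sum_mul_sq_le_sq_mul_sq _ _ _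
      _ = _ := by simp only [sq_abs, hS2]
  set E : ℝ := C / √n with hE
  have hsn : 0 < √(n : ℝ) := Real.sqrt_pos.2 hn0
  have hE0 : 0 ≤ E := by positivity
  set v : Fin n → ℂ := fun i => q * ∑ j, (σ s(i, j) : ℂ) * a j with hv
  set V : ℝ := F * S / n with hVdef
  have hV0 : 0 ≤ V := by positivity
  have hV : ∑ i, ‖v i‖ ^ 2 ≤ V ^ 2 := by
    calc ∑ i, ‖v i‖ ^ 2 ≤ ∑ i, (1 / (n : ℝ)) ^ 2 * ((∑ j, (σ s(i, j)) ^ 2) * S ^ 2) := by
          refine Finset.sum_le_sum fun i _ => ?_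
          simp only [hv]
          rw [norm_mul, mul_pow]
          gcongr
          exact hrow i
      _ = V ^ 2 := by
          rw [← Finset.mul_sum, ← Finset.sum_mul, ← hF2, hVdef]
          ring
  have hEs : ∑ i, ‖e i‖ ^ 2 ≤ E ^ 2 := by
    calc ∑ i, ‖e i‖ ^ 2 ≤ ∑ _i : Fin n, (C / n) ^ 2 :=
          Finset.sum_le_sum fun i _ => by
            have := he i
            gcongr
      _ = E ^ 2 := by
          simp only [Finset.sum_const, Finset.card_univ, Fintype.card_fin, nsmul_eq_mul]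
          rw [hE, div_pow, div_pow, Real.sq_sqrt hn0.le]
          field_simp
  have hcross : ∑ i, ‖v i‖ * ‖e i‖ ≤ V * E := by
    have h1 : (∑ i, ‖v i‖ * ‖e i‖) ^ 2 ≤ (V * E) ^ 2 := by
      calc (∑ i, ‖v i‖ * ‖e i‖) ^ 2 ≤ (∑ i, ‖v i‖ ^ 2) * ∑ i, ‖e i‖ ^ 2 :=
            Finset.sum_mul_sq_le_sq_mul_sq _ _ _
        _ ≤ V ^ 2 * E ^ 2 := by gcongr
        _ = _ := by ring
    exact (pow_le_pow_iff_left₀ (Finset.sum_nonneg fun _ _ => by positivity) (by positivity)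
      two_ne_zero).1 h1
  have hSle : S ≤ V + E := by
    refine (pow_le_pow_iff_left₀ hS0 (by positivity) two_ne_zero).1 ?_
    calc S ^ 2 = ∑ i, ‖a i‖ ^ 2 := hS2
      _ ≤ ∑ i, (‖v i‖ ^ 2 + 2 * (‖v i‖ * ‖e i‖) + ‖e i‖ ^ 2) := by
          refine Finset.sum_le_sum fun i _ => ?_
          have h1 : ‖a i‖ ≤ ‖v i‖ + ‖e i‖ := by
            rw [h i]
            exact norm_add_le _ _
          calc ‖a i‖ ^ 2 ≤ (‖v i‖ + ‖e i‖) ^ 2 := by gcongr
            _ = _ := by ring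
      _ = ∑ i, ‖v i‖ ^ 2 + 2 * ∑ i, ‖v i‖ * ‖e i‖ + ∑ i, ‖e i‖ ^ 2 := by
          rw [Finset.sum_add_distrib, Finset.sum_add_distrib, Finset.mul_sum]
      _ ≤ V ^ 2 + 2 * (V * E) + E ^ 2 := by gcongr
      _ = (V + E) ^ 2 := by ring
  have hsum : ‖∑ i, a i‖ ≤ √n * S := by
    refine (norm_sum_le _ _).trans ?_
    refine (pow_le_pow_iff_left₀ (Finset.sum_nonneg fun _ _ => by positivity) (by positivity)
      two_ne_zero).1 ?_
    rw [mul_pow, Real.sq_sqrt hn0.le, hS2]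
    have h1 := Finset.sum_mul_sq_le_sq_mul_sq (Finset.univ : Finset (Fin n)) (fun _ => (1 : ℝ))
      (fun i => ‖a i‖)
    simpa using h1
  rcases le_or_gt 0 (1 - F / n) with h0 | h0
  · calc (1 - F / n) * ‖∑ i, a i‖ ≤ (1 - F / n) * (√n * S) := by gcongr
      _ = √n * (S - V) := by rw [hVdef]; ring
      _ ≤ √n * E := by
          gcongr
          linarith
      _ = C := by rw [hE]; field_simp
  · have : (1 - F / n) * ‖∑ i, a i‖ ≤ 0 := mul_nonpos_of_nonpos_of_nonneg h0.le (norm_nonneg _)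
    linarith

end TwoResAux

open TwoResAux in
theorem two_res (b : ℝ) : ∃ K0 : ℝ, 1 ≤ K0 ∧ ∀ K ≥ K0, ∃ C : ℝ, 0 ≤ C ∧ ∃ n0 : ℕ, ∀ n ≥ n0,
    ∀ (σ : Sym2 (Fin n) → ℝ) (ν : Sym2 (Fin n) → Measure (ℝ × ℝ)),
    (∀ e, GoodPair b (σ e) (ν e)) → ∀ w : ℂ,
    (w = zc K n ∨ w = (starRingEnd ℂ) (zc K n)) →
    (1 - √(∑ i, ∑ j, (σ s(i, j)) ^ 2) / n) *
      ‖∫ p, (∑ i, AA ∅ (zc K n) w p i i) ∂(Measure.pi ν)‖ ≤ C := by
  obtain ⟨K1, hK1, hG⟩ := Gii_bound b
  obtain ⟨K2, hK2, hA⟩ := AA_diff b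
  obtain ⟨K3, hK3, hN⟩ := ADiffAux.NN_mom b
  obtain ⟨c, hc0, hc1, nw, hweak⟩ := weak_law 3 (by norm_num)
  obtain ⟨Cg, hCg0, hgood⟩ := good_prob b
  obtain ⟨Cu, hCu0, huu⟩ := uu_second b
  refine ⟨max K1 (max K2 K3), hK1.trans (le_max_left _ _), fun K hK => ?_⟩
  have hKK1 : K1 ≤ K := (le_max_left _ _).trans hK
  have hKK2 : K2 ≤ K := ((le_max_left _ _).trans (le_max_right _ _)).trans hK
  have hKK3 : K3 ≤ K := ((le_max_right _ _).trans (le_max_right _ _)).trans hK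
  obtain ⟨CG, hCG0, nG, hG⟩ := hG K hKK1
  obtain ⟨CA, hCA0, nA, hA⟩ := hA K hKK2
  obtain ⟨CN, hCN0, nN, hnN1, hN⟩ := hN K hKK3
  obtain ⟨nK, hnK⟩ : ∃ nK : ℕ, K ^ 2 ≤ nK := exists_nat_ge _
  have hKone : 1 ≤ K := hK1.trans hKK1
  set CU : ℝ := 2 + 6 * Cu * CN with hCU
  set CP : ℝ := 2 * (c⁻¹ ^ 2 * CG + 4 * Cg) + 2 * CG with hCP
  refine ⟨1 + CA + (CP + CU), by positivity, max nG (max nA (max nN (max nK nw))),
    fun n hn σ ν hν w hw => ?_⟩
  have hnG : nG ≤ n := (le_max_left _ _).trans hn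
  have hn' : max nA (max nN (max nK nw)) ≤ n := (le_max_right _ _).trans hn
  have hnA : nA ≤ n := (le_max_left _ _).trans hn'
  have hn'' : max nN (max nK nw) ≤ n := (le_max_right _ _).trans hn'
  have hnN : nN ≤ n := (le_max_left _ _).trans hn''
  have hn3 : max nK nw ≤ n := (le_max_right _ _).trans hn''
  have hnK' : nK ≤ n := (le_max_left _ _).trans hn3
  have hnw : nw ≤ n := (le_max_right _ _).trans hn3
  have hn1 : 1 ≤ n := hnN1.trans hnN
  have hnR : (1 : ℝ) ≤ n := by exact_mod_cast hn1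
  have hn0 : (0 : ℝ) < n := by linarith
  have hKs : K ≤ √(n : ℝ) := by
    refine Real.le_sqrt_of_sq_le (hnK.trans ?_)
    exact_mod_cast hnK'
  have hprob : ∀ e, IsProbabilityMeasure (ν e) := fun e => (hν e).isProb
  have hdom := ADiffAux.dom_zc hKone hn1 hKs
  obtain ⟨t, ht1, ht6, htm, ht13, ht23, hts⟩ := ADiffAux.exists_t n hn1
  have ht0 : 0 < t := by linarith
  have hzim : (zc K n).im = K * t⁻¹ := by
    simp only [zc]
    rw [htm]
  set z := zc K n with hzdef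
  have hzpos : 0 < z.im := by rw [hzim]; positivity
  have hz0 : z.im ≠ 0 := hzpos.ne'
  have hzinv : |z.im|⁻¹ ≤ t := by
    rw [abs_of_pos hzpos, hzim]
    rw [mul_inv, inv_inv]
    have : K⁻¹ ≤ 1 := inv_le_one_of_one_le₀ hKone
    nlinarith
  have hzinv2 : (z.im ^ 2)⁻¹ ≤ t ^ 2 := by
    rw [← sq_abs, ← inv_pow]
    gcongr
  have hwim : |w.im| = |z.im| := by
    rcases hw with rfl | rfl
    · rfl
    · rw [Complex.conj_im, abs_neg]
  have hw0 : w.im ≠ 0 := by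
    intro h
    rw [h, abs_zero] at hwim
    exact hz0 (abs_eq_zero.1 hwim.symm)
  -- roots
  obtain ⟨g, hg, hgi⟩ := exists_root (n := (n : ℝ)) hn0 hzpos
  have hgn : ‖g‖ ^ 2 ≤ n := root_norm hn0 hzpos hg hgi
  have hg' : g * (z - g) = (n : ℂ) := by exact_mod_cast hg
  -- the marginal laws
  have hμX : ∀ e, GoodLaw b ((ν e).map Prod.fst) := fun e => (hν e).fst
  have hμY : ∀ e, GoodLaw b ((ν e).map Prod.snd) := fun e => (hν e).snd
  have trX : ∀ F : Ent n → ℝ, PB F → ∫ p, F (fX p) ∂(Measure.pi ν) =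
      ∫ ω, F ω ∂(Measure.pi fun e => (ν e).map Prod.fst) := by
    intro F hF
    rw [← map_fX hν, integral_map continuous_fX.measurable.aemeasurable
      hF.cont.aestronglyMeasurable]
  have trY : ∀ F : Ent n → ℝ, PB F → ∫ p, F (fY p) ∂(Measure.pi ν) =
      ∫ ω, F ω ∂(Measure.pi fun e => (ν e).map Prod.snd) := by
    intro F hF
    rw [← map_fY hν, integral_map continuous_fY.measurable.aemeasurable
      hF.cont.aestronglyMeasurable]
  -- the conjugate root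
  obtain ⟨g', hg'n, hGw⟩ : ∃ g' : ℂ, ‖g'‖ = ‖g‖ ∧ ∀ (ω : Ent n) (i : Fin n),
      ‖Gr ∅ w ω i i - g' / n‖ = ‖Gr ∅ z ω i i - g / n‖ ∧
      ‖Gr ∅ w ω i i‖ = ‖Gr ∅ z ω i i‖ := by
    rcases hw with rfl | rfl
    · exact ⟨g, rfl, fun _ _ => ⟨rfl, rfl⟩⟩
    · refine ⟨(starRingEnd ℂ) g, by simp, fun ω i => ⟨?_, ?_⟩⟩
      · rw [Gr_conj]
        have : (starRingEnd ℂ) (Gr ∅ z ω i i) - (starRingEnd ℂ) g / n =
            (starRingEnd ℂ) (Gr ∅ z ω i i - g / n) := by simp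
        rw [this, RCLike.norm_conj]
      · rw [Gr_conj, RCLike.norm_conj]
  have hNNw : ∀ (T : Finset (Fin n)) (ω : Ent n), NN T w ω = NN T z ω := by
    intro T ω
    rcases hw with rfl | rfl
    · rfl
    · unfold NN
      simp only [Gr_conj, RCLike.norm_conj]
  set q : ℂ := g / n * (g' / n) with hq
  have hgn' : ‖g / (n : ℂ)‖ ^ 2 ≤ 1 / n := by
    rw [norm_div, Complex.norm_natCast, div_pow, div_le_div_iff₀ (by positivity) hn0]
    nlinarith
  have hqn : ‖q‖ ≤ 1 / n := by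
    rw [hq, norm_mul, norm_div g', hg'n, ← norm_div, ← sq]
    exact hgn'
  -- Frobenius moments
  have hNX : ∀ i, ∫ p, (NN {i} z (fX p)) ^ 2 ∂(Measure.pi ν) ≤ CN * t ^ 4 := by
    intro i
    rw [trX (fun ω => (NN {i} z ω) ^ 2) ((PB.NN hz0).pow 2)]
    refine le_trans ?_ ((hN n hnN _ hμX i).1.trans (by rw [ht23]))
    refine integral_mono (PB.int hμX ((PB.NN hz0).pow 2))
      (PB.int hμX (((PBW.const one_le_wt (1 : ℝ)).add (PB.NN hz0)).pow 2)) fun ω => ?_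
    have := NN_nonneg (T := {i}) (z := z) ω
    simp only
    gcongr
    linarith
  have hNY : ∀ i, ∫ p, (NN {i} w (fY p)) ^ 2 ∂(Measure.pi ν) ≤ CN * t ^ 4 := by
    intro i
    simp only [hNNw]
    rw [trY (fun ω => (NN {i} z ω) ^ 2) ((PB.NN hz0).pow 2)]
    refine le_trans ?_ ((hN n hnN _ hμY i).1.trans (by rw [ht23]))
    refine integral_mono (PB.int hμY ((PB.NN hz0).pow 2))
      (PB.int hμY (((PBW.const one_le_wt (1 : ℝ)).add (PB.NN hz0)).pow 2)) fun ω => ?_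
    have := NN_nonneg (T := {i}) (z := z) ω
    simp only
    gcongr
    linarith
  have hNY1 : ∀ i, ∫ p, NN {i} w (fY p) ∂(Measure.pi ν) ≤ CN * t ^ 2 := by
    intro i
    simp only [hNNw]
    rw [trY (fun ω => NN {i} z ω) (PB.NN hz0)]
    refine le_trans ?_ ((hN n hnN _ hμY i).2.trans (by rw [ht13]))
    refine integral_mono (PB.int hμY (PB.NN hz0))
      (PB.int hμY ((PBW.const one_le_wt (1 : ℝ)).add (PB.NN hz0))) fun ω => ?_
    simp only
    linarith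
  have hU : ∀ i, ∫ p, ‖1 + uu z w i p‖ ^ 2 ∂(Measure.pi ν) ≤ CU * t ^ 4 := by
    intro i
    have hu2 := huu n σ ν hν z w hz0 hw0 i
    have h1 : ∫ p, ‖uu z w i p‖ ^ 2 ∂(Measure.pi ν) ≤ 3 * Cu * CN * t ^ 4 := by
      refine hu2.trans ?_
      calc Cu * (∫ p, (NN {i} z (fX p)) ^ 2 ∂(Measure.pi ν) +
            ∫ p, (NN {i} w (fY p)) ^ 2 ∂(Measure.pi ν) +
            (z.im ^ 2)⁻¹ * ∫ p, NN {i} w (fY p) ∂(Measure.pi ν))
          ≤ Cu * (CN * t ^ 4 + CN * t ^ 4 + t ^ 2 * (CN * t ^ 2)) := by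
            have h0 : 0 ≤ ∫ p, NN {i} w (fY p) ∂(Measure.pi ν) :=
              integral_nonneg fun p => NN_nonneg (T := {i}) (z := w) (fY p)
            refine mul_le_mul_of_nonneg_left (add_le_add (add_le_add (hNX i) (hNY i)) ?_) hCu0
            exact mul_le_mul hzinv2 (hNY1 i) h0 (by positivity)
        _ = _ := by ring
    have hPB := PBP.uu (n := n) hz0 hw0 i
    have i1 : Integrable (fun p => ‖uu z w i p‖ ^ 2) (Measure.pi ν) :=
      PBP.int hν (hPB.norm.pow 2)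
    have i2 : Integrable (fun p => ‖1 + uu z w i p‖ ^ 2) (Measure.pi ν) :=
      PBP.int hν (((PBW.const one_le_wtp (1 : ℂ)).add hPB).norm.pow 2)
    have i3 : Integrable (fun p => 2 + 2 * ‖uu z w i p‖ ^ 2) (Measure.pi ν) :=
      (integrable_const _).add (i1.const_mul 2)
    calc ∫ p, ‖1 + uu z w i p‖ ^ 2 ∂(Measure.pi ν) ≤
        ∫ p, (2 + 2 * ‖uu z w i p‖ ^ 2) ∂(Measure.pi ν) := by
          refine integral_mono i2 i3 fun p => ?_
          have h2 : ‖1 + uu z w i p‖ ≤ 1 + ‖uu z w i p‖ := by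
            simpa using norm_add_le (1 : ℂ) (uu z w i p)
          simp only
          nlinarith [norm_nonneg (1 + uu z w i p), norm_nonneg (uu z w i p),
            sq_nonneg (1 - ‖uu z w i p‖)]
      _ = 2 + 2 * ∫ p, ‖uu z w i p‖ ^ 2 ∂(Measure.pi ν) := by
          rw [integral_add (integrable_const _) (i1.const_mul 2), integral_const_mul,
            integral_const]
          simp
      _ ≤ 2 * t ^ 4 + 2 * (3 * Cu * CN * t ^ 4) := by
          have : 1 ≤ t ^ 4 := one_le_pow₀ ht1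
          gcongr
          linarith
      _ = CU * t ^ 4 := by rw [hCU]; ring
  -- products of diagonal entries
  have hGr5 : (n : ℝ) ^ (-(5 : ℝ) / 3) = (t ^ 10)⁻¹ := by
    rw [← ht6, ← Real.rpow_natCast t 6, ← Real.rpow_mul ht0.le, ← Real.rpow_natCast t 10,
      ← Real.rpow_neg ht0.le]
    norm_num
  have hP : ∀ i, ∫ p, ‖Gr ∅ z (fX p) i i * Gr ∅ w (fY p) i i - q‖ ^ 2 ∂(Measure.pi ν) ≤
      CP * (t ^ 16)⁻¹ := by
    intro i
    have PX : PBP (fun p : Sym2 (Fin n) → ℝ × ℝ => Gr ∅ z (fX p) i i) := (PB.Gr hz0 i i).comp_fX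
    have PY : PBP (fun p : Sym2 (Fin n) → ℝ × ℝ => Gr ∅ z (fY p) i i) := (PB.Gr hz0 i i).comp_fY
    have PYw : PBP (fun p : Sym2 (Fin n) → ℝ × ℝ => Gr ∅ w (fY p) i i) := (PB.Gr hw0 i i).comp_fY
    have hD : PB (fun ω : Ent n => ‖Gr ∅ z ω i i - g / n‖ ^ 2) :=
      ((PB.Gr hz0 i i).sub (PBW.const one_le_wt _)).norm.pow 2
    set bad : Set (Sym2 (Fin n) → ℝ × ℝ) := fY ⁻¹' {ω | ¬ Good z ω} with hbad
    have hbadm : MeasurableSet bad := continuous_fY.measurable (ADiffAux.meas_bad hz0)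
    have hbadp : (Measure.pi ν).real bad ≤ Cg * ((n : ℝ) ^ 100)⁻¹ := by
      have h1 := hgood n _ hn1 hμY z hz0
      rw [← map_fY hν, Measure.real, Measure.map_apply continuous_fY.measurable
        (ADiffAux.meas_bad hz0)] at h1
      exact h1
    set M : ℝ := 4 * t ^ 4 with hM
    have hpt : ∀ p : Sym2 (Fin n) → ℝ × ℝ,
        ‖Gr ∅ z (fX p) i i * Gr ∅ w (fY p) i i - q‖ ^ 2 ≤
          2 * (c⁻¹ ^ 2 / n * ‖Gr ∅ z (fX p) i i - g / n‖ ^ 2 + bad.indicator (fun _ => M) p) +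
          2 / n * ‖Gr ∅ z (fY p) i i - g / n‖ ^ 2 := by
      intro p
      set A := Gr ∅ z (fX p) i i
      set B := Gr ∅ w (fY p) i i
      have hB1 := (hGw (fY p) i).1
      have hB2 := (hGw (fY p) i).2
      have e1 : A * B - q = (A - g / n) * B + g / n * (B - g' / n) := by rw [hq]; ring
      have e2 : ‖A * B - q‖ ≤ ‖A - g / n‖ * ‖B‖ + ‖g / (n : ℂ)‖ * ‖B - g' / n‖ := by
        rw [e1]
        refine (norm_add_le _ _).trans ?_
        rw [norm_mul, norm_mul]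
      have e3 : ‖A * B - q‖ ^ 2 ≤ 2 * (‖A - g / n‖ ^ 2 * ‖B‖ ^ 2) +
          2 * (‖g / (n : ℂ)‖ ^ 2 * ‖B - g' / n‖ ^ 2) := by
        calc ‖A * B - q‖ ^ 2 ≤ (‖A - g / n‖ * ‖B‖ + ‖g / (n : ℂ)‖ * ‖B - g' / n‖) ^ 2 := by
              gcongr
          _ ≤ _ := by
              nlinarith [sq_nonneg (‖A - g / n‖ * ‖B‖ - ‖g / (n : ℂ)‖ * ‖B - g' / n‖)]
      have e4 : ‖A - g / n‖ ^ 2 * ‖B‖ ^ 2 ≤ c⁻¹ ^ 2 / n * ‖A - g / n‖ ^ 2 +
          bad.indicator (fun _ => M) p := by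
        by_cases hp : Good z (fY p)
        · have h1 := (hweak n hnw z hdom (fY p) hp).2.1 i
          have h2 : ‖B‖ ^ 2 ≤ c⁻¹ ^ 2 / n := by
            rw [hB2]
            calc ‖Gr ∅ z (fY p) i i‖ ^ 2 ≤ (c⁻¹ / √n) ^ 2 := by gcongr
              _ = _ := by rw [div_pow, Real.sq_sqrt hn0.le]
          have h3 : 0 ≤ bad.indicator (fun _ => M) p :=
            Set.indicator_nonneg (fun _ _ => by positivity) _
          have h4 : ‖A - g / n‖ ^ 2 * ‖B‖ ^ 2 ≤ ‖A - g / n‖ ^ 2 * (c⁻¹ ^ 2 / n) := by gcongr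
          linarith
        · have hmem : p ∈ bad := hp
          rw [Set.indicator_of_mem hmem]
          have h1 := GiiBoundAux.crude hz0 hnR hgn (fX p) i
          have h2 : ‖B‖ ≤ t := by
            rw [hB2]
            exact (Gr_le hz0 i i).trans hzinv
          have h3 : (|z.im|⁻¹ + 1) ^ 2 ≤ (t + t) ^ 2 := by gcongr
          have h4 : ‖A - g / n‖ ^ 2 * ‖B‖ ^ 2 ≤ (t + t) ^ 2 * t ^ 2 :=
            mul_le_mul (h1.trans h3) (pow_le_pow_left₀ (norm_nonneg _) h2 2) (by positivity)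
              (by positivity)
          have h5 : 0 ≤ c⁻¹ ^ 2 / n * ‖A - g / n‖ ^ 2 := by positivity
          have h6 : (t + t) ^ 2 * t ^ 2 = M := by rw [hM]; ring
          linarith
      have e5 : ‖g / (n : ℂ)‖ ^ 2 * ‖B - g' / n‖ ^ 2 ≤
          1 / n * ‖Gr ∅ z (fY p) i i - g / n‖ ^ 2 := by
        rw [hB1]
        gcongr
      calc ‖A * B - q‖ ^ 2 ≤ _ := e3
        _ ≤ 2 * (c⁻¹ ^ 2 / n * ‖A - g / n‖ ^ 2 + bad.indicator (fun _ => M) p) +
            2 * (1 / n * ‖Gr ∅ z (fY p) i i - g / n‖ ^ 2) := by gcongr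
        _ = _ := by ring
    have j1 : Integrable (fun p => ‖Gr ∅ z (fX p) i i - g / n‖ ^ 2) (Measure.pi ν) :=
      PBP.int hν hD.comp_fX
    have j2 : Integrable (fun p => ‖Gr ∅ z (fY p) i i - g / n‖ ^ 2) (Measure.pi ν) :=
      PBP.int hν hD.comp_fY
    have j3 : Integrable (bad.indicator (fun _ => M)) (Measure.pi ν) :=
      (integrable_const M).indicator hbadm
    have j4 : Integrable (fun p => c⁻¹ ^ 2 / n * ‖Gr ∅ z (fX p) i i - g / n‖ ^ 2 +
        bad.indicator (fun _ => M) p) (Measure.pi ν) := (j1.const_mul _).add j3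
    have hX := (hG n hnG _ hμX g hg' hgi i).trans (le_of_eq (by rw [hGr5]))
    have hY := (hG n hnG _ hμY g hg' hgi i).trans (le_of_eq (by rw [hGr5]))
    rw [← trX _ hD] at hX
    rw [← trY _ hD] at hY
    have hn6 : (n : ℝ) = t ^ 6 := ht6.symm
    calc ∫ p, ‖Gr ∅ z (fX p) i i * Gr ∅ w (fY p) i i - q‖ ^ 2 ∂(Measure.pi ν) ≤
        ∫ p, (2 * (c⁻¹ ^ 2 / n * ‖Gr ∅ z (fX p) i i - g / n‖ ^ 2 +
          bad.indicator (fun _ => M) p) +
          2 / n * ‖Gr ∅ z (fY p) i i - g / n‖ ^ 2) ∂(Measure.pi ν) :=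
          integral_mono_of_nonneg (Eventually.of_forall fun p => by positivity)
            ((j4.const_mul 2).add (j2.const_mul _)) (Eventually.of_forall hpt)
      _ = 2 * (c⁻¹ ^ 2 / n * ∫ p, ‖Gr ∅ z (fX p) i i - g / n‖ ^ 2 ∂(Measure.pi ν) +
          (Measure.pi ν).real bad * M) +
          2 / n * ∫ p, ‖Gr ∅ z (fY p) i i - g / n‖ ^ 2 ∂(Measure.pi ν) := by
          rw [integral_add (j4.const_mul 2) (j2.const_mul _), integral_const_mul,
            integral_const_mul, integral_add (j1.const_mul _) j3, integral_const_mul,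
            integral_indicator_const _ hbadm]
          simp
      _ ≤ 2 * (c⁻¹ ^ 2 / n * (CG * (t ^ 10)⁻¹) + (Cg * ((n : ℝ) ^ 100)⁻¹) * M) +
          2 / n * (CG * (t ^ 10)⁻¹) := by
          gcongr
      _ ≤ 2 * (c⁻¹ ^ 2 * CG * (t ^ 16)⁻¹ + 4 * Cg * (t ^ 16)⁻¹) + 2 * CG * (t ^ 16)⁻¹ := by
          have h1 : ((n : ℝ))⁻¹ * (t ^ 10)⁻¹ = (t ^ 16)⁻¹ := by
            rw [hn6, ← mul_inv, ← pow_add]
          have h2 : ((n : ℝ) ^ 100)⁻¹ * t ^ 4 ≤ (t ^ 16)⁻¹ := by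
            rw [hn6, ← pow_mul]
            have h3 : t ^ (6 * 100) = t ^ 4 * (t ^ 580 * t ^ 16) := by
              rw [← pow_add, ← pow_add]
            rw [h3, mul_inv, mul_comm, ← mul_assoc, mul_inv_cancel₀ (by positivity), one_mul]
            refine inv_anti₀ (by positivity) ?_
            have : 1 ≤ t ^ 580 := one_le_pow₀ ht1
            have h16 : 0 < t ^ 16 := by positivity
            nlinarith
          have h4 : c⁻¹ ^ 2 / n * (CG * (t ^ 10)⁻¹) = c⁻¹ ^ 2 * CG * (t ^ 16)⁻¹ := by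
            rw [← h1]; ring
          have h5 : 2 / (n : ℝ) * (CG * (t ^ 10)⁻¹) = 2 * CG * (t ^ 16)⁻¹ := by
            rw [← h1]; ring
          have h6 : (Cg * ((n : ℝ) ^ 100)⁻¹) * M ≤ 4 * Cg * (t ^ 16)⁻¹ := by
            rw [hM]
            calc Cg * ((n : ℝ) ^ 100)⁻¹ * (4 * t ^ 4) = 4 * Cg * (((n : ℝ) ^ 100)⁻¹ * t ^ 4) := by
                  ring
              _ ≤ _ := by gcongr
          rw [h4, h5]
          linarith
      _ = CP * (t ^ 16)⁻¹ := by rw [hCP]; ring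
  -- the linear system
  set a : Fin n → ℂ := fun i => ∫ p, AA ∅ z w p i i ∂(Measure.pi ν) with ha
  set tt : Fin n → ℂ := fun i => ∫ p, (∑ j, (σ s(i, j) : ℂ) *
    (AA ∅ z w p j j - AA {i} z w p j j)) ∂(Measure.pi ν) with htt
  set r : Fin n → ℂ := fun i => ∫ p, (Gr ∅ z (fX p) i i * Gr ∅ w (fY p) i i - q) *
    (1 + uu z w i p) ∂(Measure.pi ν) with hr
  have httn : ∀ i, ‖tt i‖ ≤ CA := fun i =>
    (norm_integral_le_integral_norm _).trans (hA n hnA σ ν hν w hw i)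
  have hAAi : ∀ (T : Finset (Fin n)) (i j : Fin n),
      Integrable (fun p => AA T z w p i j) (Measure.pi ν) :=
    fun T i j => PBP.intC hν (PBP.AA hz0 hw0 i j)
  have hrn : ∀ i, ‖r i‖ ≤ (CP + CU) / n := by
    intro i
    have PX : PBP (fun p : Sym2 (Fin n) → ℝ × ℝ => Gr ∅ z (fX p) i i) := (PB.Gr hz0 i i).comp_fX
    have PYw : PBP (fun p : Sym2 (Fin n) → ℝ × ℝ => Gr ∅ w (fY p) i i) := (PB.Gr hw0 i i).comp_fY
    have PD : PBP (fun p : Sym2 (Fin n) → ℝ × ℝ => Gr ∅ z (fX p) i i * Gr ∅ w (fY p) i i - q) :=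
      (PX.mul PYw).sub (PBW.const one_le_wtp _)
    have PU : PBP (fun p : Sym2 (Fin n) → ℝ × ℝ => 1 + uu z w i p) :=
      (PBW.const one_le_wtp (1 : ℂ)).add (PBP.uu hz0 hw0 i)
    have k1 : Integrable (fun p => ‖Gr ∅ z (fX p) i i * Gr ∅ w (fY p) i i - q‖ ^ 2)
        (Measure.pi ν) := PBP.int hν (PD.norm.pow 2)
    have k2 : Integrable (fun p => ‖1 + uu z w i p‖ ^ 2) (Measure.pi ν) :=
      PBP.int hν (PU.norm.pow 2)
    have k3 : Integrable (fun p => t ^ 10 * ‖Gr ∅ z (fX p) i i * Gr ∅ w (fY p) i i - q‖ ^ 2 +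
        (t ^ 10)⁻¹ * ‖1 + uu z w i p‖ ^ 2) (Measure.pi ν) :=
      (k1.const_mul _).add (k2.const_mul _)
    calc ‖r i‖ ≤ ∫ p, ‖(Gr ∅ z (fX p) i i * Gr ∅ w (fY p) i i - q) * (1 + uu z w i p)‖
          ∂(Measure.pi ν) := norm_integral_le_integral_norm _
      _ ≤ ∫ p, (t ^ 10 * ‖Gr ∅ z (fX p) i i * Gr ∅ w (fY p) i i - q‖ ^ 2 +
          (t ^ 10)⁻¹ * ‖1 + uu z w i p‖ ^ 2) ∂(Measure.pi ν) := by
          refine integral_mono_of_nonneg (Eventually.of_forall fun p => by positivity) k3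
            (Eventually.of_forall fun p => ?_)
          simp only
          rw [norm_mul]
          set x := ‖Gr ∅ z (fX p) i i * Gr ∅ w (fY p) i i - q‖
          set y := ‖1 + uu z w i p‖
          have hx : 0 ≤ x := norm_nonneg _
          have hy : 0 ≤ y := norm_nonneg _
          have ht5 : 0 < t ^ 5 := by positivity
          have e1 : t ^ 10 * x ^ 2 + (t ^ 10)⁻¹ * y ^ 2 =
              (t ^ 5 * x - (t ^ 5)⁻¹ * y) ^ 2 + 2 * (x * y) := by
            field_simp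
            ring
          rw [e1]
          nlinarith [sq_nonneg (t ^ 5 * x - (t ^ 5)⁻¹ * y), mul_nonneg hx hy]
      _ = t ^ 10 * ∫ p, ‖Gr ∅ z (fX p) i i * Gr ∅ w (fY p) i i - q‖ ^ 2 ∂(Measure.pi ν) +
          (t ^ 10)⁻¹ * ∫ p, ‖1 + uu z w i p‖ ^ 2 ∂(Measure.pi ν) := by
          rw [integral_add (k1.const_mul _) (k2.const_mul _), integral_const_mul,
            integral_const_mul]
      _ ≤ t ^ 10 * (CP * (t ^ 16)⁻¹) + (t ^ 10)⁻¹ * (CU * t ^ 4) := by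
          gcongr
          · exact hP i
          · exact hU i
      _ = (CP + CU) / n := by
          rw [← ht6]
          field_simp
  have hsys : ∀ i, a i = q * ∑ j, (σ s(i, j) : ℂ) * a j + (q * (1 - tt i) + r i) := by
    intro i
    have PX : PBP (fun p : Sym2 (Fin n) → ℝ × ℝ => Gr ∅ z (fX p) i i) := (PB.Gr hz0 i i).comp_fX
    have PYw : PBP (fun p : Sym2 (Fin n) → ℝ × ℝ => Gr ∅ w (fY p) i i) := (PB.Gr hw0 i i).comp_fY
    have PD : PBP (fun p : Sym2 (Fin n) → ℝ × ℝ => Gr ∅ z (fX p) i i * Gr ∅ w (fY p) i i - q) :=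
      (PX.mul PYw).sub (PBW.const one_le_wtp _)
    have PU : PBP (fun p : Sym2 (Fin n) → ℝ × ℝ => 1 + uu z w i p) :=
      (PBW.const one_le_wtp (1 : ℂ)).add (PBP.uu hz0 hw0 i)
    have iu : Integrable (fun p => uu z w i p) (Measure.pi ν) := PBP.intC hν (PBP.uu hz0 hw0 i)
    have iU : Integrable (fun p => q * (1 + uu z w i p)) (Measure.pi ν) :=
      (PBP.intC hν PU).const_mul q
    have iD : Integrable (fun p => (Gr ∅ z (fX p) i i * Gr ∅ w (fY p) i i - q) *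
        (1 + uu z w i p)) (Measure.pi ν) := PBP.intC hν (PD.mul PU)
    have e1 : a i = ∫ p, q * (1 + uu z w i p) ∂(Measure.pi ν) + r i := by
      simp only [ha, hr]
      rw [← integral_add iU iD]
      refine integral_congr_ae (Eventually.of_forall fun p => ?_)
      simp only
      rw [AA_diag hz0 hw0 p i]
      ring
    have e2 : ∫ p, q * (1 + uu z w i p) ∂(Measure.pi ν) =
        q * (1 + ∑ j, (σ s(i, j) : ℂ) * ∫ p, AA {i} z w p j j ∂(Measure.pi ν)) := by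
      rw [integral_const_mul, integral_add (integrable_const _) iu, integral_const,
        uu_mean hν hz0 hw0 i]
      simp
    have e3 : tt i = ∑ j, (σ s(i, j) : ℂ) * a j -
        ∑ j, (σ s(i, j) : ℂ) * ∫ p, AA {i} z w p j j ∂(Measure.pi ν) := by
      simp only [htt, ha]
      have hij : ∀ j, Integrable (fun p => (σ s(i, j) : ℂ) *
          (AA ∅ z w p j j - AA {i} z w p j j)) (Measure.pi ν) :=
        fun j => ((hAAi ∅ j j).sub (hAAi {i} j j)).const_mul _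
      rw [integral_finsetSum _ fun j _ => hij j, ← Finset.sum_sub_distrib]
      refine Finset.sum_congr rfl fun j _ => ?_
      rw [integral_const_mul, integral_sub (hAAi _ _ _) (hAAi _ _ _), mul_sub]
    rw [e1, e2, e3]
    ring
  have hfin := lin_end σ a (fun i => q * (1 - tt i) + r i) q (C := 1 + CA + (CP + CU)) hn1
    (by positivity) hqn (fun i => ?_) hsys
  · have e0 : ∫ p, (∑ i, AA ∅ z w p i i) ∂(Measure.pi ν) = ∑ i, a i :=
      integral_finsetSum _ fun i _ => hAAi _ _ _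
    rw [e0]
    exact hfin
  · calc ‖q * (1 - tt i) + r i‖ ≤ ‖q‖ * ‖1 - tt i‖ + ‖r i‖ := by
          refine (norm_add_le _ _).trans ?_
          rw [norm_mul]
      _ ≤ 1 / n * (1 + CA) + (CP + CU) / n := by
          gcongr
          · refine (norm_sub_le _ _).trans ?_
            rw [norm_one]
            gcongr
            exact httn i
          · exact hrn i
      _ = _ := by ring

end Pool.Agent.Eig
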