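import Pool.Agent.Work.MP_1c1c8a_pr.Mix
import Pool.Agent.Work.MP_1c1c8a_pr.Lin2
import Pool.Agent.Work.MP_1c1c8a_pr.MomC

/-! # Mean and second moment of u -/

namespace Pool.Agent.Eig

open MeasureTheory Filter Topology Matrix ProbabilityTheory
open scoped ENNReal NNReal

namespace UMomAux

/-- block inequality along an injection of the index set, `p = 1` -/
theorem block_inj : ∃ C : ℝ≥0, 1 ≤ C ∧
    ∀ (ι : Type) [Fintype ι] [DecidableEq ι] (κ : Type) [Fintype κ] [DecidableEq κ] [Nonempty κ]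
      (φ : κ ↪ ι) (E : Type) [MeasurableSpace E] (ν : ι → Measure E)
      [∀ e, IsProbabilityMeasure (ν e)] (M : ℝ≥0) (_ : 1 ≤ M) (u v w : ι → E → ℝ)
      (_ : ∀ e, Measurable (u e)) (_ : ∀ e, Measurable (v e)) (_ : ∀ e, Measurable (w e))
      (_ : ∀ e, ∫ y, u e y ∂(ν e) = 0) (_ : ∀ e, ∫ y, v e y ∂(ν e) = 0)
      (_ : ∀ e, ∫ y, w e y ∂(ν e) = 0)
      (_ : ∀ e, ∫⁻ y, ‖u e y‖ₑ ^ 2 ∂(ν e) ≤ (M : ℝ≥0∞))
      (_ : ∀ e, ∫⁻ y, ‖v e y‖ₑ ^ 2 ∂(ν e) ≤ (M : ℝ≥0∞))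
      (_ : ∀ e, ∫⁻ y, ‖w e y‖ₑ ^ 2 ∂(ν e) ≤ (M : ℝ≥0∞))
      (A : κ → κ → ℂ),
      ∫⁻ x, ‖∑ k, ∑ l, (if k = l then A k k * ((w (φ k) (x (φ k)) : ℝ) : ℂ)
          else A k l * (((u (φ k) (x (φ k)) : ℝ) : ℂ) * ((v (φ l) (x (φ l)) : ℝ) : ℂ)))‖ₑ ^ 2
          ∂(Measure.pi ν) ≤
        C * M ^ 2 * ∑ k, ∑ l, ‖A k l‖ₑ ^ 2 := by
  obtain ⟨C, hC1, _, hC⟩ := TopRes.block 1 le_rfl
  refine ⟨C, hC1, ?_⟩
  intro ι _ _ κ _ _ _ φ E _ ν _ M hM u v w hum hvm hwm hu0 hv0 hw0 hu hv hw A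
  set ψ : ι → κ := Function.invFun φ with hψ
  have hψφ : ∀ k, ψ (φ k) = k := fun k => Function.leftInverse_invFun φ.injective k
  have h := hC ι E ν M hM u v w hum hvm hwm hu0 hv0 hw0 (by simpa using hu) (by simpa using hv)
    (by simpa using hw) (fun e f => A (ψ e) (ψ f)) (Finset.univ.map φ)
  simp only [pow_one, Finset.sum_map, hψφ, EmbeddingLike.apply_eq_iff_eq] at h
  exact h

theorem s_inj {n : ℕ} (i : Fin n) : Function.Injective (fun k : Fin n => s(i, k)) := by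
  intro k l h
  rcases (by simpa using h : k = l ∨ i = l ∧ k = i) with h | ⟨h1, h2⟩
  · exact h
  · rw [h2, h1]

theorem Gr_mix {n : ℕ} (T : Finset (Fin n)) (z : ℂ) (ω x : Sym2 (Fin n) → ℝ × ℝ) :
    Gr T z (fX (mixR T ω x)) = Gr T z (fX ω) ∧ Gr T z (fY (mixR T ω x)) = Gr T z (fY ω) := by
  have h : ∀ e : Sym2 (Fin n), (∀ i ∈ T, i ∉ e) → mixR T ω x e = ω e := by
    intro e he
    unfold mixR
    rw [if_neg]
    push Not
    exact he
  constructor
  · refine Gr_off fun e he => ?_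
    simp only [fX, h e he]
  · refine Gr_off fun e he => ?_
    simp only [fY, h e he]

theorem AA_mix {n : ℕ} (T : Finset (Fin n)) (z w : ℂ) (ω x : Sym2 (Fin n) → ℝ × ℝ) :
    AA T z w (mixR T ω x) = AA T z w ω := by
  unfold AA
  rw [(Gr_mix T z ω x).1, (Gr_mix T w ω x).2]

theorem mix_row {n : ℕ} (i k : Fin n) (ω x : Sym2 (Fin n) → ℝ × ℝ) :
    mixR {i} ω x s(i, k) = x s(i, k) := by
  unfold mixR
  rw [if_pos ⟨i, by simp, by simp⟩]

theorem uu_mix {n : ℕ} (i : Fin n) (z w : ℂ) (ω x : Sym2 (Fin n) → ℝ × ℝ) :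
    uu z w i (mixR {i} ω x) =
      ∑ k, ∑ l, ((fX x s(i, k) : ℝ) : ℂ) * AA {i} z w ω k l * ((fY x s(i, l) : ℝ) : ℂ) := by
  unfold uu
  rw [AA_mix]
  simp only [fX, fY, mix_row]

theorem cont_fX {n : ℕ} : Continuous (fX : (Sym2 (Fin n) → ℝ × ℝ) → Ent n) :=
  continuous_pi fun e => continuous_fst.comp (continuous_apply e)

theorem cont_fY {n : ℕ} : Continuous (fY : (Sym2 (Fin n) → ℝ × ℝ) → Ent n) :=
  continuous_pi fun e => continuous_snd.comp (continuous_apply e)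

theorem cont_AA {n : ℕ} (T : Finset (Fin n)) {z w : ℂ} (hz : z.im ≠ 0) (hw : w.im ≠ 0)
    (k l : Fin n) : Continuous (fun p : Sym2 (Fin n) → ℝ × ℝ => AA T z w p k l) := by
  unfold AA
  simp only [Matrix.mul_apply]
  exact continuous_finsetSum _ fun j _ =>
    ((Gr_continuous hz k j).comp cont_fX).mul ((Gr_continuous hw j l).comp cont_fY)

theorem cont_uu {n : ℕ} {z w : ℂ} (hz : z.im ≠ 0) (hw : w.im ≠ 0) (i : Fin n) :
    Continuous (fun p : Sym2 (Fin n) → ℝ × ℝ => uu z w i p) := by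
  unfold uu
  refine continuous_finsetSum _ fun k _ => continuous_finsetSum _ fun l _ => ?_
  exact ((Complex.continuous_ofReal.comp ((continuous_apply _).comp cont_fX)).mul
    (cont_AA _ hz hw k l)).mul (Complex.continuous_ofReal.comp ((continuous_apply _).comp cont_fY))

theorem AA_le {n : ℕ} (T : Finset (Fin n)) {z w : ℂ} (hz : z.im ≠ 0) (hw : w.im ≠ 0)
    (p : Sym2 (Fin n) → ℝ × ℝ) (k l : Fin n) : ‖AA T z w p k l‖ ≤ n * (|z.im|⁻¹ * |w.im|⁻¹) := by
  unfold AA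
  rw [Matrix.mul_apply]
  refine (norm_sum_le _ _).trans ?_
  calc ∑ j, ‖Gr T z (fX p) k j * Gr T w (fY p) j l‖ ≤ ∑ _j : Fin n, |z.im|⁻¹ * |w.im|⁻¹ := by
        refine Finset.sum_le_sum fun j _ => ?_
        rw [norm_mul]
        exact mul_le_mul (Gr_le hz k j) (Gr_le hw j l) (norm_nonneg _) (by positivity)
    _ = _ := by simp

theorem abs_le_S {n : ℕ} (p : Sym2 (Fin n) → ℝ × ℝ) (e : Sym2 (Fin n)) :
    |fX p e| + |fY p e| ≤ 1 + ∑ e, (|fX p e| + |fY p e|) := by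
  have := Finset.single_le_sum (f := fun e => |fX p e| + |fY p e|) (fun e _ => by positivity)
    (Finset.mem_univ e)
  linarith

theorem uu_le {n : ℕ} {z w : ℂ} (hz : z.im ≠ 0) (hw : w.im ≠ 0) (i : Fin n)
    (p : Sym2 (Fin n) → ℝ × ℝ) :
    ‖uu z w i p‖ ≤ n ^ 3 * (|z.im|⁻¹ * |w.im|⁻¹) * (1 + ∑ e, (|fX p e| + |fY p e|)) ^ 2 := by
  unfold uu
  refine (norm_sum_le _ _).trans ?_
  set S := 1 + ∑ e, (|fX p e| + |fY p e|) with hS
  have hS0 : 0 ≤ S := by positivity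
  calc ∑ k, ‖∑ l, ((fX p s(i, k) : ℝ) : ℂ) * AA {i} z w p k l * ((fY p s(i, l) : ℝ) : ℂ)‖
      ≤ ∑ _k : Fin n, ∑ _l : Fin n, S * (n * (|z.im|⁻¹ * |w.im|⁻¹)) * S := by
        refine Finset.sum_le_sum fun k _ => (norm_sum_le _ _).trans (Finset.sum_le_sum fun l _ => ?_)
        rw [norm_mul, norm_mul, Complex.norm_real, Complex.norm_real]
        have h1 : ‖fX p s(i, k)‖ ≤ S := by
          have := abs_le_S p s(i, k)
          have h2 := abs_nonneg (fY p s(i, k))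
          rw [Real.norm_eq_abs]
          linarith
        have h2 : ‖fY p s(i, l)‖ ≤ S := by
          have := abs_le_S p s(i, l)
          have h2 := abs_nonneg (fX p s(i, l))
          rw [Real.norm_eq_abs]
          linarith
        have h3 := AA_le {i} hz hw p k l
        gcongr
    _ = _ := by
      simp only [Finset.sum_const, Finset.card_univ, Fintype.card_fin, nsmul_eq_mul]
      ring

theorem int_uu {n : ℕ} {b : ℝ} {σ : Sym2 (Fin n) → ℝ} {ν : Sym2 (Fin n) → Measure (ℝ × ℝ)}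
    (hν : ∀ e, GoodPair b (σ e) (ν e)) {z w : ℂ} (hz : z.im ≠ 0) (hw : w.im ≠ 0) (i : Fin n) :
    Integrable (fun p => uu z w i p) (Measure.pi ν) :=
  integrable_poly_pair hν _ (cont_uu hz hw i).aestronglyMeasurable _ 2 (uu_le hz hw i)

theorem int_uu2 {n : ℕ} {b : ℝ} {σ : Sym2 (Fin n) → ℝ} {ν : Sym2 (Fin n) → Measure (ℝ × ℝ)}
    (hν : ∀ e, GoodPair b (σ e) (ν e)) {z w : ℂ} (hz : z.im ≠ 0) (hw : w.im ≠ 0) (i : Fin n) :
    Integrable (fun p => ‖uu z w i p‖ ^ 2) (Measure.pi ν) := by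
  refine integrable_poly_pair hν _ ((cont_uu hz hw i).norm.pow 2).aestronglyMeasurable
    ((n ^ 3 * (|z.im|⁻¹ * |w.im|⁻¹)) ^ 2) 4 ?_
  intro p
  have h := uu_le hz hw i p
  rw [Real.norm_eq_abs, abs_of_nonneg (by positivity)]
  calc ‖uu z w i p‖ ^ 2 ≤ (n ^ 3 * (|z.im|⁻¹ * |w.im|⁻¹) *
      (1 + ∑ e, (|fX p e| + |fY p e|)) ^ 2) ^ 2 := pow_le_pow_left₀ (norm_nonneg _) h 2
    _ = _ := by ring

theorem int_AA {n : ℕ} {ν : Sym2 (Fin n) → Measure (ℝ × ℝ)} [∀ e, IsProbabilityMeasure (ν e)]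
    (T : Finset (Fin n)) {z w : ℂ} (hz : z.im ≠ 0) (hw : w.im ≠ 0) (k l : Fin n) :
    Integrable (fun p => AA T z w p k l) (Measure.pi ν) :=
  Integrable.of_bound (cont_AA T hz hw k l).aestronglyMeasurable _
    (Filter.Eventually.of_forall fun p => AA_le T hz hw p k l)

theorem mean_prod {n : ℕ} {b : ℝ} {σ : Sym2 (Fin n) → ℝ} {ν : Sym2 (Fin n) → Measure (ℝ × ℝ)}
    (hν : ∀ e, GoodPair b (σ e) (ν e)) [∀ e, IsProbabilityMeasure (ν e)] (e f : Sym2 (Fin n)) :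
    ∫ x, fX x e * fY x f ∂(Measure.pi ν) = if e = f then σ e else 0 := by
  have hmp : ∀ e, MeasurePreserving (fun x : Sym2 (Fin n) → ℝ × ℝ => x e) (Measure.pi ν) (ν e) :=
    fun e => measurePreserving_eval ν e
  split_ifs with hef
  · subst hef
    have h1 : ∫ x, fX x e * fY x e ∂(Measure.pi ν) = ∫ q, q.1 * q.2 ∂(ν e) := by
      rw [← (hmp e).map_eq, integral_map (hmp e).measurable.aemeasurable]
      · rfl
      · exact (continuous_fst.mul continuous_snd).aestronglyMeasurable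
    rw [h1, (hν e).cov]
  · have hind : IndepFun (fun x : Sym2 (Fin n) → ℝ × ℝ => x e) (fun x => x f) (Measure.pi ν) := by
      have h := iIndepFun_pi (μ := ν) (X := fun (_ : Sym2 (Fin n)) (y : ℝ × ℝ) => y)
        (fun _ => aemeasurable_id)
      exact h.indepFun hef
    have hind2 : IndepFun (fun x : Sym2 (Fin n) → ℝ × ℝ => fX x e) (fun x => fY x f)
        (Measure.pi ν) := hind.comp measurable_fst measurable_snd
    have h2 := hind2.integral_fun_mul_eq_mul_integral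
      (measurable_fst.comp (measurable_pi_apply e)).aestronglyMeasurable
      (measurable_snd.comp (measurable_pi_apply f)).aestronglyMeasurable
    rw [h2]
    have h3 : ∫ x, fX x e ∂(Measure.pi ν) = 0 := by
      have h4 : ∫ x, fX x e ∂(Measure.pi ν) = ∫ q, q.1 ∂(ν e) := by
        rw [← (hmp e).map_eq, integral_map (hmp e).measurable.aemeasurable]
        · rfl
        · exact continuous_fst.aestronglyMeasurable
      rw [h4, ← (hν e).fst.mean]
      exact (integral_map (f := fun x : ℝ => x) measurable_fst.aemeasurable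
        continuous_id.aestronglyMeasurable).symm
    rw [h3, zero_mul]

end UMomAux

open UMomAux

theorem uu_mean {n : ℕ} {b : ℝ} {σ : Sym2 (Fin n) → ℝ} {ν : Sym2 (Fin n) → Measure (ℝ × ℝ)}
    (hν : ∀ e, GoodPair b (σ e) (ν e)) {z w : ℂ} (hz : z.im ≠ 0) (hw : w.im ≠ 0) (i : Fin n) :
    ∫ p, uu z w i p ∂(Measure.pi ν) =
      ∑ j, (σ s(i, j) : ℂ) * ∫ p, AA {i} z w p j j ∂(Measure.pi ν) := by
  have : ∀ e, IsProbabilityMeasure (ν e) := fun e => (hν e).isProb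
  rw [(integral_mix ν {i} (fun p => uu z w i p) (int_uu hν hz hw i)).2]
  simp only [uu_mix]
  have hinner : ∀ ω : Sym2 (Fin n) → ℝ × ℝ, ∫ x, (∑ k, ∑ l, ((fX x s(i, k) : ℝ) : ℂ) *
      AA {i} z w ω k l * ((fY x s(i, l) : ℝ) : ℂ)) ∂(Measure.pi ν) =
      ∑ j, (σ s(i, j) : ℂ) * AA {i} z w ω j j := by
    intro ω
    have hterm : ∀ k l, Integrable (fun x : Sym2 (Fin n) → ℝ × ℝ => ((fX x s(i, k) : ℝ) : ℂ) *
        AA {i} z w ω k l * ((fY x s(i, l) : ℝ) : ℂ)) (Measure.pi ν) := by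
      intro k l
      refine integrable_poly_pair hν _ ?_ ‖AA {i} z w ω k l‖ 2 ?_
      · exact (((Complex.continuous_ofReal.comp ((continuous_apply _).comp cont_fX)).mul
          continuous_const).mul
          (Complex.continuous_ofReal.comp ((continuous_apply _).comp cont_fY))).aestronglyMeasurable
      · intro x
        rw [norm_mul, norm_mul, Complex.norm_real, Complex.norm_real]
        have h1 : ‖fX x s(i, k)‖ ≤ 1 + ∑ e, (|fX x e| + |fY x e|) := by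
          have := abs_le_S x s(i, k)
          have h2 := abs_nonneg (fY x s(i, k))
          rw [Real.norm_eq_abs]
          linarith
        have h2 : ‖fY x s(i, l)‖ ≤ 1 + ∑ e, (|fX x e| + |fY x e|) := by
          have := abs_le_S x s(i, l)
          have h2 := abs_nonneg (fX x s(i, l))
          rw [Real.norm_eq_abs]
          linarith
        calc ‖fX x s(i, k)‖ * ‖AA {i} z w ω k l‖ * ‖fY x s(i, l)‖ ≤
            (1 + ∑ e, (|fX x e| + |fY x e|)) * ‖AA {i} z w ω k l‖ *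
              (1 + ∑ e, (|fX x e| + |fY x e|)) := by gcongr
          _ = _ := by ring
    rw [integral_finsetSum _ fun k _ => integrable_finsetSum _ fun l _ => hterm k l]
    refine Finset.sum_congr rfl fun k _ => ?_
    rw [integral_finsetSum _ fun l _ => hterm k l]
    have h1 : ∀ l, ∫ x, ((fX x s(i, k) : ℝ) : ℂ) * AA {i} z w ω k l * ((fY x s(i, l) : ℝ) : ℂ)
        ∂(Measure.pi ν) = if k = l then (σ s(i, k) : ℂ) * AA {i} z w ω k k else 0 := by
      intro l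
      have h2 : ∀ x : Sym2 (Fin n) → ℝ × ℝ, ((fX x s(i, k) : ℝ) : ℂ) * AA {i} z w ω k l *
          ((fY x s(i, l) : ℝ) : ℂ) = AA {i} z w ω k l *
            ((fX x s(i, k) * fY x s(i, l) : ℝ) : ℂ) := by
        intro x
        push_cast
        ring
      simp only [h2]
      rw [integral_const_mul]
      have h3 : ∫ x, ((fX x s(i, k) * fY x s(i, l) : ℝ) : ℂ) ∂(Measure.pi ν) =
          ((∫ x, fX x s(i, k) * fY x s(i, l) ∂(Measure.pi ν) : ℝ) : ℂ) :=
        integral_ofReal (𝕜 := ℂ)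
      rw [h3, mean_prod hν]
      have h4 : (s(i, k) = s(i, l)) ↔ k = l := ⟨fun h => s_inj i h, fun h => by rw [h]⟩
      by_cases hkl : k = l
      · subst hkl
        simp
        ring
      · rw [if_neg (fun h => hkl (h4.1 h)), if_neg hkl]
        simp
    simp only [h1, Finset.sum_ite_eq, Finset.mem_univ, if_true]
  simp only [hinner]
  rw [integral_finsetSum _ fun j _ => (int_AA {i} hz hw j j).const_mul _]
  simp only [integral_const_mul]

namespace UMomAux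

theorem fst_sq {b σ : ℝ} {ν : Measure (ℝ × ℝ)} (h : GoodPair b σ ν) :
    ∫ q, q.1 ^ 2 ∂ν = 1 ∧ ∫ q, q.2 ^ 2 ∂ν = 1 := by
  constructor
  · rw [← h.fst.var]
    exact (integral_map (f := fun x : ℝ => x ^ 2) measurable_fst.aemeasurable
        (continuous_pow 2).aestronglyMeasurable).symm
  · rw [← h.snd.var]
    exact (integral_map (f := fun x : ℝ => x ^ 2) measurable_snd.aemeasurable
        (continuous_pow 2).aestronglyMeasurable).symm

theorem int_pow {b σ : ℝ} {ν : Measure (ℝ × ℝ)} (h : GoodPair b σ ν) (q : ℕ) :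
    Integrable (fun p : ℝ × ℝ => |p.1| ^ q) ν ∧ Integrable (fun p : ℝ × ℝ => |p.2| ^ q) ν := by
  obtain ⟨C, _, hC⟩ := abs_mom b q
  constructor
  · have h1 := (hC _ h.fst).1
    exact (integrable_map_measure (g := fun x : ℝ => |x| ^ q)
      (continuous_abs.pow q).aestronglyMeasurable measurable_fst.aemeasurable).1 h1
  · have h1 := (hC _ h.snd).1
    exact (integrable_map_measure (g := fun x : ℝ => |x| ^ q)
      (continuous_abs.pow q).aestronglyMeasurable measurable_snd.aemeasurable).1 h1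

theorem mom_four (b : ℝ) : ∃ C : ℝ, 0 ≤ C ∧ ∀ (σ : ℝ) (ν : Measure (ℝ × ℝ)), GoodPair b σ ν →
    ∫ q, |q.1| ^ 4 ∂ν ≤ C ∧ ∫ q, |q.2| ^ 4 ∂ν ≤ C := by
  obtain ⟨C, hC0, hC⟩ := abs_mom b 4
  refine ⟨C, hC0, fun σ ν h => ⟨?_, ?_⟩⟩
  · refine le_trans (le_of_eq ?_) (hC _ h.fst).2
    exact (integral_map (f := fun x : ℝ => |x| ^ 4) measurable_fst.aemeasurable
        (continuous_abs.pow 4).aestronglyMeasurable).symm
  · refine le_trans (le_of_eq ?_) (hC _ h.snd).2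
    exact (integral_map (f := fun x : ℝ => |x| ^ 4) measurable_snd.aemeasurable
        (continuous_abs.pow 4).aestronglyMeasurable).symm

theorem sigma_le {b σ : ℝ} {ν : Measure (ℝ × ℝ)} (h : GoodPair b σ ν) : |σ| ≤ 1 := by
  have := h.isProb
  obtain ⟨h1, h2⟩ := fst_sq h
  have i1 : Integrable (fun p : ℝ × ℝ => p.1 ^ 2) ν := by
    simpa using (int_pow h 2).1
  have i2 : Integrable (fun p : ℝ × ℝ => p.2 ^ 2) ν := by
    simpa using (int_pow h 2).2
  have i3 : Integrable (fun p : ℝ × ℝ => (p.1 ^ 2 + p.2 ^ 2) / 2) ν := (i1.add i2).div_const 2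
  have h3 : ∫ p, (p.1 ^ 2 + p.2 ^ 2) / 2 ∂ν = 1 := by
    rw [integral_div, integral_add i1 i2, h1, h2]
    norm_num
  rw [← h.cov, ← h3]
  refine (abs_integral_le_integral_abs).trans ?_
  refine integral_mono_of_nonneg (Filter.Eventually.of_forall fun _ => abs_nonneg _) i3
    (Filter.Eventually.of_forall fun p => ?_)
  simp only
  rw [abs_le]
  constructor <;> nlinarith [sq_nonneg (p.1 - p.2), sq_nonneg (p.1 + p.2)]

theorem lint_le {E : Type} [MeasurableSpace E] {μ : Measure E} {f : E → ℝ}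
    (hf : Integrable (fun x => f x ^ 2) μ) {M : ℝ} (h : ∫ x, f x ^ 2 ∂μ ≤ M) :
    ∫⁻ x, ‖f x‖ₑ ^ 2 ∂μ ≤ ENNReal.ofReal M := by
  refine le_trans (le_of_eq ?_) (ENNReal.ofReal_le_ofReal h)
  rw [ofReal_integral_eq_lintegral_ofReal hf (Filter.Eventually.of_forall fun _ => sq_nonneg _)]
  refine lintegral_congr fun x => ?_
  rw [← ofReal_norm, ← ENNReal.ofReal_pow (norm_nonneg _), Real.norm_eq_abs, sq_abs]

theorem int_le_of_lint {E : Type} [MeasurableSpace E] {μ : Measure E} {f : E → ℂ}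
    (hf : AEStronglyMeasurable f μ) {c : ℝ} (hc : 0 ≤ c)
    (h : ∫⁻ x, ‖f x‖ₑ ^ 2 ∂μ ≤ ENNReal.ofReal c) :
    Integrable (fun x => ‖f x‖ ^ 2) μ ∧ ∫ x, ‖f x‖ ^ 2 ∂μ ≤ c := by
  have e : ∀ x, ENNReal.ofReal (‖f x‖ ^ 2) = ‖f x‖ₑ ^ 2 := fun x => by
    rw [ENNReal.ofReal_pow (norm_nonneg _), ofReal_norm]
  constructor
  · refine ⟨(hf.norm.pow 2), ?_⟩
    rw [hasFiniteIntegral_iff_enorm]
    have : ∀ x, ‖‖f x‖ ^ 2‖ₑ = ‖f x‖ₑ ^ 2 := by
      intro x
      rw [enorm_pow, enorm_norm]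
    simp only [this]
    exact h.trans_lt ENNReal.ofReal_lt_top
  · have hm : AEStronglyMeasurable (fun x => ‖f x‖ ^ 2) μ := hf.norm.pow 2
    rw [integral_eq_lintegral_of_nonneg_ae (f := fun x => ‖f x‖ ^ 2)
      (Filter.Eventually.of_forall fun _ => sq_nonneg _) hm]
    simp only [e]
    exact ENNReal.toReal_le_of_le_ofReal hc h

theorem cont_NN {n : ℕ} (T : Finset (Fin n)) {z : ℂ} (hz : z.im ≠ 0) :
    Continuous (fun ω : Ent n => NN T z ω) := by
  unfold NN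
  exact continuous_finsetSum _ fun k _ => continuous_finsetSum _ fun l _ =>
    (Gr_continuous hz k l).norm.pow 2

theorem NN_nonneg {n : ℕ} (T : Finset (Fin n)) (z : ℂ) (ω : Ent n) : 0 ≤ NN T z ω := by
  unfold NN
  positivity

theorem int_NN {n : ℕ} {E : Type} [MeasurableSpace E] [TopologicalSpace E]
    [OpensMeasurableSpace E] {P : Measure E} [IsProbabilityMeasure P]
    (T : Finset (Fin n)) {z : ℂ} (hz : z.im ≠ 0) (g : E → Ent n) (hg : Continuous g) (r : ℕ) :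
    Integrable (fun x => (NN T z (g x)) ^ r) P := by
  refine Integrable.of_bound (((cont_NN T hz).comp hg).pow r).aestronglyMeasurable
    ((n * (z.im ^ 2)⁻¹) ^ r) (Filter.Eventually.of_forall fun x => ?_)
  rw [Real.norm_eq_abs, abs_of_nonneg (pow_nonneg (NN_nonneg _ _ _) r)]
  exact pow_le_pow_left₀ (NN_nonneg _ _ _) (NN_le hz) r

theorem AA_frob {n : ℕ} (T : Finset (Fin n)) {z w : ℂ} (hz : z.im ≠ 0)
    (p : Sym2 (Fin n) → ℝ × ℝ) :
    ∑ k, ∑ l, ‖AA T z w p k l‖ ^ 2 ≤ (z.im ^ 2)⁻¹ * NN T w (fY p) := by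
  have h1 : ∀ l, ∑ k, ‖AA T z w p k l‖ ^ 2 ≤ (z.im ^ 2)⁻¹ * ∑ j, ‖Gr T w (fY p) j l‖ ^ 2 := by
    intro l
    have h := Gr_op (T := T) (ω := fX p) hz (fun j => Gr T w (fY p) j l)
    have e : ∀ k, AA T z w p k l = ∑ j, Gr T z (fX p) k j * Gr T w (fY p) j l := by
      intro k
      unfold AA
      rw [Matrix.mul_apply]
    simp only [e]
    exact h
  calc ∑ k, ∑ l, ‖AA T z w p k l‖ ^ 2 = ∑ l, ∑ k, ‖AA T z w p k l‖ ^ 2 := Finset.sum_comm
    _ ≤ ∑ l, (z.im ^ 2)⁻¹ * ∑ j, ‖Gr T w (fY p) j l‖ ^ 2 := Finset.sum_le_sum fun l _ => h1 l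
    _ = (z.im ^ 2)⁻¹ * ∑ l, ∑ j, ‖Gr T w (fY p) j l‖ ^ 2 := by rw [Finset.mul_sum]
    _ = (z.im ^ 2)⁻¹ * ∑ j, ∑ l, ‖Gr T w (fY p) j l‖ ^ 2 := by
      congr 1
      exact Finset.sum_comm
    _ = (z.im ^ 2)⁻¹ * NN T w (fY p) := rfl

theorem AA_trace {n : ℕ} (T : Finset (Fin n)) {z w : ℂ} (p : Sym2 (Fin n) → ℝ × ℝ)
    (τ : Fin n → ℝ) (hτ : ∀ k, |τ k| ≤ 1) :
    ‖∑ k, (τ k : ℂ) * AA T z w p k k‖ ≤ (NN T z (fX p) + NN T w (fY p)) / 2 := by
  refine (norm_sum_le _ _).trans ?_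
  have h : ∀ k, ‖(τ k : ℂ) * AA T z w p k k‖ ≤
      ∑ j, (‖Gr T z (fX p) k j‖ ^ 2 + ‖Gr T w (fY p) j k‖ ^ 2) / 2 := by
    intro k
    rw [norm_mul, Complex.norm_real, Real.norm_eq_abs]
    calc |τ k| * ‖AA T z w p k k‖ ≤ 1 * ‖AA T z w p k k‖ :=
          mul_le_mul_of_nonneg_right (hτ k) (norm_nonneg _)
      _ = ‖AA T z w p k k‖ := one_mul _
      _ ≤ _ := by
        unfold AA
        rw [Matrix.mul_apply]
        refine (norm_sum_le _ _).trans (Finset.sum_le_sum fun j _ => ?_)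
        rw [norm_mul]
        nlinarith [sq_nonneg (‖Gr T z (fX p) k j‖ - ‖Gr T w (fY p) j k‖)]
  refine (Finset.sum_le_sum fun k _ => h k).trans (le_of_eq ?_)
  have e1 : NN T w (fY p) = ∑ k, ∑ j, ‖Gr T w (fY p) j k‖ ^ 2 := Finset.sum_comm
  have e2 : NN T z (fX p) = ∑ k, ∑ j, ‖Gr T z (fX p) k j‖ ^ 2 := rfl
  rw [e1, e2, ← Finset.sum_add_distrib, Finset.sum_div]
  refine Finset.sum_congr rfl fun k _ => ?_
  rw [← Finset.sum_add_distrib, Finset.sum_div]

end UMomAux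

theorem uu_second (b : ℝ) : ∃ C : ℝ, 0 ≤ C ∧ ∀ (n : ℕ) (σ : Sym2 (Fin n) → ℝ)
    (ν : Sym2 (Fin n) → Measure (ℝ × ℝ)), (∀ e, GoodPair b (σ e) (ν e)) → ∀ z w : ℂ,
    z.im ≠ 0 → w.im ≠ 0 → ∀ i : Fin n,
    ∫ p, ‖uu z w i p‖ ^ 2 ∂(Measure.pi ν) ≤
      C * (∫ p, (NN {i} z (fX p)) ^ 2 ∂(Measure.pi ν) + ∫ p, (NN {i} w (fY p)) ^ 2 ∂(Measure.pi ν) +
        (z.im ^ 2)⁻¹ * ∫ p, NN {i} w (fY p) ∂(Measure.pi ν)) := by
  obtain ⟨C, hC1, hC⟩ := block_inj
  obtain ⟨C4, hC40, hC4⟩ := mom_four b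
  set M : ℝ≥0 := ⟨2 * C4 + 3, by positivity⟩ with hM
  have hMc : (M : ℝ) = 2 * C4 + 3 := rfl
  have hM1 : 1 ≤ M := by
    rw [← NNReal.coe_le_coe, hMc]
    simp only [NNReal.coe_one]
    linarith
  have hMof : ((M : ℝ≥0) : ℝ≥0∞) = ENNReal.ofReal (2 * C4 + 3) := by
    rw [← hMc, ENNReal.ofReal_coe_nnreal]
  refine ⟨2 * C * M ^ 2 + 1, by positivity, ?_⟩
  intro n σ ν hν z w hz hw i
  have : ∀ e, IsProbabilityMeasure (ν e) := fun e => (hν e).isProb
  have : Nonempty (Fin n) := ⟨i⟩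
  -- moment hypotheses
  have hint1 : ∀ e, Integrable (fun q : ℝ × ℝ => q.1 ^ 2) (ν e) := fun e => by
    simpa using (int_pow (hν e) 2).1
  have hint2 : ∀ e, Integrable (fun q : ℝ × ℝ => q.2 ^ 2) (ν e) := fun e => by
    simpa using (int_pow (hν e) 2).2
  have hint12 : ∀ e, Integrable (fun q : ℝ × ℝ => q.1 * q.2) (ν e) := by
    intro e
    refine Integrable.mono' (((hint1 e).add (hint2 e)).div_const 2)
      (continuous_fst.mul continuous_snd).aestronglyMeasurable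
      (Filter.Eventually.of_forall fun q => ?_)
    simp only [Real.norm_eq_abs, Pi.add_apply]
    rw [abs_le]
    constructor <;> nlinarith [sq_nonneg (q.1 - q.2), sq_nonneg (q.1 + q.2)]
  have hm1 : ∀ e, ∫ q : ℝ × ℝ, q.1 ∂(ν e) = 0 := fun e => by
    rw [← (hν e).fst.mean]
    exact (integral_map (f := fun x : ℝ => x) measurable_fst.aemeasurable
        continuous_id.aestronglyMeasurable).symm
  have hm2 : ∀ e, ∫ q : ℝ × ℝ, q.2 ∂(ν e) = 0 := fun e => by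
    rw [← (hν e).snd.mean]
    exact (integral_map (f := fun x : ℝ => x) measurable_snd.aemeasurable
        continuous_id.aestronglyMeasurable).symm
  have hm12 : ∀ e, ∫ q : ℝ × ℝ, (q.1 * q.2 - σ e) ∂(ν e) = 0 := fun e => by
    rw [integral_sub (hint12 e) (integrable_const _), (hν e).cov]
    simp
  have hl1 : ∀ e, ∫⁻ q : ℝ × ℝ, ‖q.1‖ₑ ^ 2 ∂(ν e) ≤ (M : ℝ≥0∞) := fun e => by
    rw [hMof]
    refine lint_le (f := fun q : ℝ × ℝ => q.1) (hint1 e) ?_
    rw [(fst_sq (hν e)).1]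
    linarith
  have hl2 : ∀ e, ∫⁻ q : ℝ × ℝ, ‖q.2‖ₑ ^ 2 ∂(ν e) ≤ (M : ℝ≥0∞) := fun e => by
    rw [hMof]
    refine lint_le (f := fun q : ℝ × ℝ => q.2) (hint2 e) ?_
    rw [(fst_sq (hν e)).2]
    linarith
  have hl12 : ∀ e, ∫⁻ q : ℝ × ℝ, ‖q.1 * q.2 - σ e‖ₑ ^ 2 ∂(ν e) ≤ (M : ℝ≥0∞) := fun e => by
    rw [hMof]
    have i4a : Integrable (fun q : ℝ × ℝ => |q.1| ^ 4) (ν e) := (int_pow (hν e) 4).1
    have i4b : Integrable (fun q : ℝ × ℝ => |q.2| ^ 4) (ν e) := (int_pow (hν e) 4).2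
    have hmaj : Integrable (fun q : ℝ × ℝ => |q.1| ^ 4 + |q.2| ^ 4 + 2) (ν e) :=
      (i4a.add i4b).add (integrable_const _)
    have hpt : ∀ q : ℝ × ℝ, (q.1 * q.2 - σ e) ^ 2 ≤ |q.1| ^ 4 + |q.2| ^ 4 + 2 := by
      intro q
      have h1 : |q.1| ^ 4 = (q.1 ^ 2) ^ 2 := by rw [← sq_abs q.1]; ring
      have h2 : |q.2| ^ 4 = (q.2 ^ 2) ^ 2 := by rw [← sq_abs q.2]; ring
      have h3 : (σ e) ^ 2 ≤ 1 := by
        have := sigma_le (hν e)
        rw [← sq_abs]
        nlinarith [abs_nonneg (σ e)]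
      rw [h1, h2]
      nlinarith [sq_nonneg (q.1 * q.2 + σ e), sq_nonneg (q.1 ^ 2 - q.2 ^ 2)]
    have hi : Integrable (fun q : ℝ × ℝ => (q.1 * q.2 - σ e) ^ 2) (ν e) := by
      refine Integrable.mono' hmaj ?_ (Filter.Eventually.of_forall fun q => ?_)
      · exact (((continuous_fst.mul continuous_snd).sub continuous_const).pow
          2).aestronglyMeasurable
      · rw [Real.norm_eq_abs, abs_of_nonneg (sq_nonneg _)]
        exact hpt q
    refine lint_le (f := fun q : ℝ × ℝ => q.1 * q.2 - σ e) hi ?_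
    refine (integral_mono hi hmaj hpt).trans ?_
    have h5 := integral_add (i4a.add i4b) (integrable_const (2:ℝ))
    have h6 := integral_add i4a i4b
    simp only [Pi.add_apply] at h5
    rw [h5, h6]
    have h7 := hC4 _ _ (hν e)
    simp only [integral_const, probReal_univ, smul_eq_mul, one_mul]
    linarith [h7.1, h7.2]
  have hφ : Function.Injective (fun k : Fin n => s(i, k)) := s_inj i
  -- conditional bound
  have hcond : ∀ ω : Sym2 (Fin n) → ℝ × ℝ, ∫ x, ‖uu z w i (mixR {i} ω x)‖ ^ 2 ∂(Measure.pi ν) ≤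
      2 * (C * M ^ 2 * ((z.im ^ 2)⁻¹ * NN {i} w (fY ω))) +
        ((NN {i} z (fX ω)) ^ 2 + (NN {i} w (fY ω)) ^ 2) := by
    intro ω
    set A := AA {i} z w ω with hA
    set m : ℂ := ∑ k, (σ s(i, k) : ℂ) * A k k with hm
    set Q : (Sym2 (Fin n) → ℝ × ℝ) → ℂ := fun x => ∑ k, ∑ l, (if k = l then
      A k k * (((x s(i, k)).1 * (x s(i, k)).2 - σ s(i, k) : ℝ) : ℂ)
      else A k l * ((((x s(i, k)).1 : ℝ) : ℂ) * (((x s(i, l)).2 : ℝ) : ℂ))) with hQ
    have hdec : ∀ x, uu z w i (mixR {i} ω x) = Q x + m := by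
      intro x
      rw [uu_mix, hQ, hm, ← Finset.sum_add_distrib]
      refine Finset.sum_congr rfl fun k _ => ?_
      have h1 : (σ s(i, k) : ℂ) * A k k = ∑ l, (if k = l then (σ s(i, k) : ℂ) * A k k else 0) := by
        simp
      rw [h1, ← Finset.sum_add_distrib]
      refine Finset.sum_congr rfl fun l _ => ?_
      by_cases hkl : k = l
      · subst hkl
        simp only [if_true, fX, fY]
        push_cast
        ring
      · simp only [if_neg hkl, fX, fY]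
        ring
    have hQc : Continuous Q := by
      rw [hQ]
      refine continuous_finsetSum _ fun k _ => continuous_finsetSum _ fun l _ => ?_
      split_ifs
      · exact continuous_const.mul (Complex.continuous_ofReal.comp
          (((continuous_fst.comp (continuous_apply _)).mul
            (continuous_snd.comp (continuous_apply _))).sub continuous_const))
      · exact continuous_const.mul ((Complex.continuous_ofReal.comp
          (continuous_fst.comp (continuous_apply _))).mul (Complex.continuous_ofReal.comp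
          (continuous_snd.comp (continuous_apply _))))
    have hblock := hC (Sym2 (Fin n)) (Fin n) ⟨fun k => s(i, k), hφ⟩ (ℝ × ℝ) ν M hM1
      (fun _ q => q.1) (fun _ q => q.2) (fun e q => q.1 * q.2 - σ e)
      (fun _ => measurable_fst) (fun _ => measurable_snd)
      (fun e => (measurable_fst.mul measurable_snd).sub_const _) hm1 hm2 hm12 hl1 hl2 hl12
      (fun k l => A k l)
    have hsumA : (C : ℝ≥0∞) * M ^ 2 * ∑ k, ∑ l, ‖A k l‖ₑ ^ 2 =
        ENNReal.ofReal (C * M ^ 2 * ∑ k, ∑ l, ‖A k l‖ ^ 2) := by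
      rw [ENNReal.ofReal_mul (by positivity), ENNReal.ofReal_mul (by positivity),
        ENNReal.ofReal_pow (by positivity), ENNReal.ofReal_coe_nnreal, ENNReal.ofReal_coe_nnreal,
        ENNReal.ofReal_sum_of_nonneg fun k _ => by positivity]
      congr 1
      refine Finset.sum_congr rfl fun k _ => ?_
      rw [ENNReal.ofReal_sum_of_nonneg fun l _ => by positivity]
      refine Finset.sum_congr rfl fun l _ => ?_
      rw [ENNReal.ofReal_pow (norm_nonneg _), ofReal_norm]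
    rw [hsumA] at hblock
    have hQint := int_le_of_lint (f := Q) (μ := Measure.pi ν) hQc.aestronglyMeasurable
      (c := C * M ^ 2 * ∑ k, ∑ l, ‖A k l‖ ^ 2) (by positivity) hblock
    have hmaj : Integrable (fun x => 2 * ‖Q x‖ ^ 2 + 2 * ‖m‖ ^ 2) (Measure.pi ν) :=
      (hQint.1.const_mul 2).add (integrable_const _)
    have hpt : ∀ x, ‖uu z w i (mixR {i} ω x)‖ ^ 2 ≤ 2 * ‖Q x‖ ^ 2 + 2 * ‖m‖ ^ 2 := by
      intro x
      rw [hdec]
      have := norm_add_le (Q x) m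
      nlinarith [norm_nonneg (Q x + m), sq_nonneg (‖Q x‖ - ‖m‖), norm_nonneg (Q x), norm_nonneg m]
    refine (integral_mono_of_nonneg (Filter.Eventually.of_forall fun _ => by positivity) hmaj
      (Filter.Eventually.of_forall hpt)).trans ?_
    have h8 := integral_add (hQint.1.const_mul 2) (integrable_const (2 * ‖m‖ ^ 2))
      (μ := Measure.pi ν)
    rw [h8, integral_const_mul]
    simp only [integral_const, probReal_univ, smul_eq_mul, one_mul]
    have hfrob := AA_frob {i} (w := w) hz ω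
    have htr := AA_trace {i} (z := z) (w := w) ω (fun k => σ s(i, k))
      (fun k => sigma_le (hν s(i, k)))
    have hm' : ‖m‖ ≤ (NN {i} z (fX ω) + NN {i} w (fY ω)) / 2 := htr
    have hNX := NN_nonneg {i} z (fX ω)
    have hNY := NN_nonneg {i} w (fY ω)
    have h9 : ‖m‖ ^ 2 ≤ ((NN {i} z (fX ω) + NN {i} w (fY ω)) / 2) ^ 2 :=
      pow_le_pow_left₀ (norm_nonneg _) hm' 2
    have h10 : 2 * ‖m‖ ^ 2 ≤ (NN {i} z (fX ω)) ^ 2 + (NN {i} w (fY ω)) ^ 2 := by
      nlinarith [sq_nonneg (NN {i} z (fX ω) - NN {i} w (fY ω))]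
    have h11 : (C : ℝ) * M ^ 2 * ∑ k, ∑ l, ‖A k l‖ ^ 2 ≤
        C * M ^ 2 * ((z.im ^ 2)⁻¹ * NN {i} w (fY ω)) := by
      gcongr
    linarith [hQint.2]
  have iX2 : Integrable (fun p => (NN {i} z (fX p)) ^ 2) (Measure.pi ν) :=
    int_NN {i} hz fX cont_fX 2
  have iY2 : Integrable (fun p => (NN {i} w (fY p)) ^ 2) (Measure.pi ν) :=
    int_NN {i} hw fY cont_fY 2
  have iY1 : Integrable (fun p => NN {i} w (fY p)) (Measure.pi ν) := by
    simpa using int_NN (P := Measure.pi ν) {i} hw fY cont_fY 1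
  have iL : Integrable (fun p => 2 * (C * M ^ 2 * ((z.im ^ 2)⁻¹ * NN {i} w (fY p))))
      (Measure.pi ν) := ((iY1.const_mul _).const_mul _).const_mul _
  have hmain := integral_mix_le ν {i} (fun p => ‖uu z w i p‖ ^ 2)
    (fun ω => 2 * (C * M ^ 2 * ((z.im ^ 2)⁻¹ * NN {i} w (fY ω))) +
        ((NN {i} z (fX ω)) ^ 2 + (NN {i} w (fY ω)) ^ 2)) (int_uu2 hν hz hw i)
    (iL.add (iX2.add iY2)) hcond
  refine hmain.trans ?_
  have h12 := integral_add iL (iX2.add iY2)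
  simp only [Pi.add_apply] at h12
  have h13 := integral_add iX2 iY2
  rw [h12, h13, integral_const_mul, integral_const_mul, integral_const_mul]
  have hI1 : 0 ≤ ∫ p, (NN {i} z (fX p)) ^ 2 ∂(Measure.pi ν) :=
    integral_nonneg fun _ => by positivity
  have hI2 : 0 ≤ ∫ p, (NN {i} w (fY p)) ^ 2 ∂(Measure.pi ν) :=
    integral_nonneg fun _ => by positivity
  have hI3 : 0 ≤ ∫ p, NN {i} w (fY p) ∂(Measure.pi ν) :=
    integral_nonneg fun _ => NN_nonneg _ _ _
  have hI4 : 0 ≤ (z.im ^ 2)⁻¹ * ∫ p, NN {i} w (fY p) ∂(Measure.pi ν) := by positivity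
  have hCM : 0 ≤ (C : ℝ) * M ^ 2 := by positivity
  nlinarith [mul_nonneg hCM hI1, mul_nonneg hCM hI2]

end Pool.Agent.Eig
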